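import Mathlib
import Pool.Agent.Lib.Pabc2.Gap

open Finset

namespace Pool.Agent.Lib.Pabc1

open Pool.Agent.Lib.Pabc2

/-- Two triples are close on the set of primes `S` (with parameter `δ / 8`), and the part of the
first one outside `S` has logarithmic mass at most `1 - δ`. -/
structure CloseD (δ : ℝ) (S : Finset ℕ) (t1 t2 : ℕ × ℕ) : Prop where
  h1 : IsT t1
  h2 : IsT t2
  prime : ∀ p ∈ S, p.Prime
  lab_eq : ∀ p ∈ S, lab t1 p = lab t2 p
  u_close : ∑ p ∈ S, |u t1 p - u t2 p| ≤ δ / 8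
  al_close : |al t1 - al t2| ≤ δ / 8
  mass : (Real.log t1.1 + Real.log t1.2 + ht t1) / ht t1 - (1 - δ) ≤ ∑ p ∈ S, u t1 p
  big : 2 / δ ≤ ht t1

/-- `∑ min(e1, e2) log p` is large. -/
theorem CloseD.sum_min_ge {δ : ℝ} {S : Finset ℕ} {t1 t2 : ℕ × ℕ} (h : CloseD δ S t1 t2)
    (hk : ht t1 ≤ ht t2) :
    ht t1 * (2 + al t1 - Real.log 2 / ht t1 - (1 - δ) - δ / 8) ≤
      ∑ p ∈ S, ((min (ex t1 p) (ex t2 p) : ℕ) : ℝ) * Real.log p := by
  have H1 := ht_pos h.h1
  have H2 := ht_pos h.h2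
  have hterm : ∀ p ∈ S, ht t1 * (u t1 p - |u t1 p - u t2 p|) ≤
      ((min (ex t1 p) (ex t2 p) : ℕ) : ℝ) * Real.log p := by
    intro p hp
    have hlogp : 0 ≤ Real.log (p : ℝ) := Real.log_natCast_nonneg p
    have e1 : u t1 p * ht t1 = ex t1 p * Real.log p := by
      unfold u; field_simp
    have e2 : u t2 p * ht t2 = ex t2 p * Real.log p := by
      unfold u; field_simp
    have hmin : u t1 p - |u t1 p - u t2 p| ≤ min (u t1 p) (u t2 p) := by
      apply le_min
      · have := abs_nonneg (u t1 p - u t2 p)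
        linarith
      · have := le_abs_self (u t1 p - u t2 p)
        linarith
    have hmin1 : min (u t1 p) (u t2 p) ≤ u t1 p := min_le_left _ _
    have hmin2 : min (u t1 p) (u t2 p) ≤ u t2 p := min_le_right _ _
    have hmin0 : 0 ≤ min (u t1 p) (u t2 p) := le_min (u_nonneg h.h1 p) (u_nonneg h.h2 p)
    rw [Nat.cast_min, min_mul_of_nonneg _ _ hlogp]
    apply le_min
    · calc ht t1 * (u t1 p - |u t1 p - u t2 p|) ≤ ht t1 * u t1 p :=
            mul_le_mul_of_nonneg_left (hmin.trans hmin1) H1.le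
        _ = (ex t1 p) * Real.log p := by rw [← e1]; ring
    · calc ht t1 * (u t1 p - |u t1 p - u t2 p|) ≤ ht t1 * min (u t1 p) (u t2 p) :=
            mul_le_mul_of_nonneg_left hmin H1.le
        _ ≤ ht t2 * min (u t1 p) (u t2 p) := mul_le_mul_of_nonneg_right hk hmin0
        _ ≤ ht t2 * u t2 p := mul_le_mul_of_nonneg_left hmin2 H2.le
        _ = u t2 p * ht t2 := by ring
        _ = (ex t2 p : ℝ) * Real.log p := e2
  refine le_trans ?_ (Finset.sum_le_sum hterm)
  rw [← Finset.mul_sum, Finset.sum_sub_distrib]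
  apply mul_le_mul_of_nonneg_left _ H1.le
  have hm := h.mass
  have hu := h.u_close
  have hb := log_b_ge h.h1
  have : 2 + al t1 - Real.log 2 / ht t1 ≤ (Real.log t1.1 + Real.log t1.2 + ht t1) / ht t1 := by
    unfold al
    rw [le_div_iff₀ H1]
    have e : (2 + Real.log t1.1 / ht t1 - Real.log 2 / ht t1) * ht t1 =
        2 * ht t1 + Real.log t1.1 - Real.log 2 := by field_simp
    rw [e]
    linarith
  linarith

/-- No two distinct close triples have heights within a factor `1 + δ / 4`. -/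
theorem CloseD.gap {δ : ℝ} (hδ : 0 < δ) (hδ1 : δ ≤ 1) {S : Finset ℕ} {t1 t2 : ℕ × ℕ}
    (h : CloseD δ S t1 t2) (hne : t1 ≠ t2)
    (hle : ht t1 ≤ ht t2) (hle2 : ht t2 ≤ (1 + δ / 4) * ht t1) : False := by
  have H1 := ht_pos h.h1
  have H2 := ht_pos h.h2
  have hbig := h.big
  have a10 := h.h1.1
  have a20 := h.h2.1
  have b10 := h.h1.pos2
  have b20 := h.h2.pos2
  set D : ℤ := (t1.1 : ℤ) ^ 1 * 1 * t2.2 - (t1.2 : ℤ) ^ 1 * 1 * t2.1 with hD
  have hD0 : D ≠ 0 := by
    intro h0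
    have h0' : t1.1 * t2.2 = t1.2 * t2.1 := by
      have : (t1.1 : ℤ) * t2.2 = (t1.2 : ℤ) * t2.1 := by rw [hD] at h0; linarith
      exact_mod_cast this
    have d1 : t1.1 ∣ t2.1 := by
      apply h.h1.2.2.dvd_of_dvd_mul_left
      exact ⟨t2.2, h0'.symm⟩
    have d2 : t2.1 ∣ t1.1 := by
      apply h.h2.2.2.dvd_of_dvd_mul_right
      exact ⟨t1.2, by rw [h0']; ring⟩
    have e1 : t1.1 = t2.1 := Nat.dvd_antisymm d1 d2
    have e2 : t1.2 = t2.2 := by
      rw [e1, mul_comm] at h0'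
      exact (Nat.eq_of_mul_eq_mul_right a20 h0').symm
    exact hne (Prod.ext e1 e2)
  have hdv : ∀ p ∈ S, ((p : ℤ) ^ (min (ex t1 p) (ex t2 p))) ∣ D := by
    intro p hp
    exact dvd_det 1 h.h1 h.h2 1 1 1 (by ring) (h.prime p hp) (h.lab_eq p hp) _
      (by rw [one_mul]; exact min_le_left _ _) (min_le_right _ _)
  have hsum := sum_log_le S h.prime _ D hD0 hdv
  have hlow := h.sum_min_ge hle
  have hal2 : Real.log t2.1 ≤ (al t1 + δ / 8) * ht t2 := by
    have e : Real.log t2.1 = al t2 * ht t2 := by unfold al; field_simp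
    rw [e]
    apply mul_le_mul_of_nonneg_right _ H2.le
    have := (abs_le.mp h.al_close).1
    linarith
  have ha1 : Real.log t1.1 = al t1 * ht t1 := by
    unfold al; field_simp
  have hup : Real.log |(D : ℝ)| ≤ al t1 * ht t1 + ht t2 + δ / 8 * ht t2 := by
    have hb1 := log_b_le h.h1
    have hb2 := log_b_le h.h2
    have hal1 := al_le_one h.h1
    have ha10 : (0 : ℝ) < t1.1 := by exact_mod_cast a10
    have ha20 : (0 : ℝ) < t2.1 := by exact_mod_cast a20
    have hb10 : (0 : ℝ) < t1.2 := by exact_mod_cast b10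
    have hb20 : (0 : ℝ) < t2.2 := by exact_mod_cast b20
    have hDabs : |(D : ℝ)| ≤ max ((t1.1 : ℝ) * t2.2) ((t1.2 : ℝ) * t2.1) := by
      rw [hD]
      push_cast
      rw [abs_le]
      have h1 : (0 : ℝ) ≤ (t1.1 : ℝ) * t2.2 := by positivity
      have h2 : (0 : ℝ) ≤ (t1.2 : ℝ) * t2.1 := by positivity
      have h3 := le_max_left ((t1.1 : ℝ) * t2.2) ((t1.2 : ℝ) * t2.1)
      have h4 := le_max_right ((t1.1 : ℝ) * t2.2) ((t1.2 : ℝ) * t2.1)
      constructor <;> linarith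
    have hDpos : 0 < |(D : ℝ)| := abs_pos.mpr (by exact_mod_cast hD0)
    refine (Real.log_le_log hDpos hDabs).trans ?_
    have key : ∀ x : ℝ, 0 < x → Real.log x ≤ al t1 * ht t1 + ht t2 + δ / 8 * ht t2 →
        x ≤ Real.exp (al t1 * ht t1 + ht t2 + δ / 8 * ht t2) := by
      intro x hx hx2
      rw [← Real.exp_log hx]
      exact Real.exp_le_exp.mpr hx2
    rw [← Real.log_exp (al t1 * ht t1 + ht t2 + δ / 8 * ht t2)]
    apply Real.log_le_log (lt_max_of_lt_left (by positivity))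
    have hpos8 : 0 ≤ δ / 8 * ht t2 := by positivity
    apply max_le
    · apply key _ (by positivity)
      rw [Real.log_mul ha10.ne' hb20.ne']
      linarith
    · apply key _ (by positivity)
      rw [Real.log_mul hb10.ne' ha20.ne']
      nlinarith [mul_nonneg (sub_nonneg.mpr hle) (sub_nonneg.mpr hal1)]
  have hl2 := log_two_bd
  have e : ht t1 * (2 + al t1 - Real.log 2 / ht t1 - (1 - δ) - δ / 8) =
      ht t1 + al t1 * ht t1 - Real.log 2 + 7 / 8 * (δ * ht t1) := by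
    field_simp
    ring
  rw [e] at hlow
  have hbig' : 2 ≤ δ * ht t1 := by
    rw [div_le_iff₀ hδ] at hbig
    linarith
  have h9 : δ * ht t2 ≤ (1 + δ / 4) * (δ * ht t1) := by
    calc δ * ht t2 ≤ δ * ((1 + δ / 4) * ht t1) := mul_le_mul_of_nonneg_left hle2 hδ.le
      _ = (1 + δ / 4) * (δ * ht t1) := by ring
  have h10 : (1 + δ / 4) * (δ * ht t1) ≤ 5 / 4 * (δ * ht t1) := by
    apply mul_le_mul_of_nonneg_right _ (by positivity)
    linarith
  have h11 : ht t2 ≤ ht t1 + 1 / 4 * (δ * ht t1) := by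
    calc ht t2 ≤ (1 + δ / 4) * ht t1 := hle2
      _ = ht t1 + 1 / 4 * (δ * ht t1) := by ring
  linarith

end Pool.Agent.Lib.Pabc1
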