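import Mathlib
import Pool.Agent.Lib.Pabc2.Sums
import Pool.Agent.Lib.Pabc2.Cell
import Pool.Agent.Lib.Pabc1.Gap

open Finset

namespace Pool.Agent.Lib.Pabc1

open Pool.Agent.Lib.Pabc2

/-- The primes outside `S` carry mass at most `1 - δ`. -/
structure GoodD (δ : ℝ) (S : Finset ℕ) (t : ℕ × ℕ) : Prop where
  h : IsT t
  sub : S ⊆ (N t).primeFactors
  mass : (Real.log t.1 + Real.log t.2 + ht t) / ht t - (1 - δ) ≤ ∑ p ∈ S, u t p
  big : 2 / δ ≤ ht t

/-- the exponent code of a triple on `S`. -/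
noncomputable def codeD (K : ℕ) (S : Finset ℕ) (t : ℕ × ℕ) : (p : ℕ) → p ∈ S → Fin 3 × ℕ :=
  fun p _ => (lab t p, ⌊u t p * (K * S.card)⌋₊)

/-- the code of the heights. -/
noncomputable def codeH (K : ℕ) (δ : ℝ) (t : ℕ × ℕ) : ℕ × ℕ :=
  (⌊al t * K⌋₊, ⌊Real.log (ht t) / Real.log (1 + δ / 4)⌋₊)

theorem ratio_of_floor_eq {ρ x y : ℝ} (hρ : 1 < ρ) (hx : 1 ≤ x) (hy : 1 ≤ y)
    (h : ⌊Real.log x / Real.log ρ⌋₊ = ⌊Real.log y / Real.log ρ⌋₊) : y ≤ ρ * x := by
  have hl : 0 < Real.log ρ := Real.log_pos hρ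
  have hlx : 0 ≤ Real.log x / Real.log ρ := div_nonneg (Real.log_nonneg hx) hl.le
  have hly : 0 ≤ Real.log y / Real.log ρ := div_nonneg (Real.log_nonneg hy) hl.le
  have h1 := Nat.floor_le hlx
  have h2 := Nat.lt_floor_add_one (Real.log y / Real.log ρ)
  rw [← h] at h2
  have h3 : Real.log y / Real.log ρ < Real.log x / Real.log ρ + 1 := by linarith
  have h4 : Real.log y < Real.log x + Real.log ρ := by
    rw [div_lt_iff₀ hl] at h3
    have e : (Real.log x / Real.log ρ + 1) * Real.log ρ = Real.log x + Real.log ρ := by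
      field_simp
    linarith
  have hx0 : 0 < x := by linarith
  have hy0 : 0 < y := by linarith
  rw [← Real.log_mul hx0.ne' (by linarith)] at h4
  have h5 := (Real.log_lt_log_iff hy0 (by positivity)).mp h4
  rw [mul_comm]
  exact h5.le

theorem closeD_of_code {δ : ℝ} (hδ : 0 < δ) {K : ℕ} (hK : 8 / δ ≤ K) {S : Finset ℕ}
    {t1 t2 : ℕ × ℕ} (g1 : GoodD δ S t1) (g2 : GoodD δ S t2)
    (hc : codeD K S t1 = codeD K S t2) (ha : ⌊al t1 * K⌋₊ = ⌊al t2 * K⌋₊) :
    CloseD δ S t1 t2 := by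
  have hK0 : (0 : ℝ) < K := lt_of_lt_of_le (by positivity) hK
  have hK1 : 1 / (K : ℝ) ≤ δ / 8 := by
    rw [div_le_iff₀ hδ] at hK
    rw [div_le_iff₀ hK0]
    linarith
  have hpt : ∀ p (_ : p ∈ S), lab t1 p = lab t2 p ∧
      ⌊u t1 p * (K * S.card)⌋₊ = ⌊u t2 p * (K * S.card)⌋₊ := by
    intro p hp
    have := congrFun (congrFun hc p) hp
    exact Prod.ext_iff.mp this
  refine ⟨g1.h, g2.h, fun p hp => Nat.prime_of_mem_primeFactors (g1.sub hp),
    fun p hp => (hpt p hp).1, ?_, ?_, g1.mass, g1.big⟩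
  · rcases S.eq_empty_or_nonempty with rfl | hne
    · simp only [Finset.sum_empty]
      positivity
    · have hcard : (0 : ℝ) < S.card := by exact_mod_cast hne.card_pos
      calc ∑ p ∈ S, |u t1 p - u t2 p| ≤ ∑ _p ∈ S, 1 / (K * (S.card : ℝ)) := by
            apply Finset.sum_le_sum
            intro p hp
            exact abs_sub_le_of_floor_eq (u_nonneg g1.h p) (u_nonneg g2.h p) (by positivity)
              (hpt p hp).2
        _ = 1 / K := by
            rw [Finset.sum_const, nsmul_eq_mul]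
            field_simp
        _ ≤ δ / 8 := hK1
  · exact (abs_sub_le_of_floor_eq (al_nonneg g1.h) (al_nonneg g2.h) hK0 ha).trans hK1

theorem eq_of_codes {δ : ℝ} (hδ : 0 < δ) (hδ1 : δ ≤ 1) {K : ℕ} (hK : 8 / δ ≤ K) {S : Finset ℕ}
    {t1 t2 : ℕ × ℕ} (g1 : GoodD δ S t1) (g2 : GoodD δ S t2)
    (hc : codeD K S t1 = codeD K S t2) (hh : codeH K δ t1 = codeH K δ t2) : t1 = t2 := by
  have ha : ⌊al t1 * K⌋₊ = ⌊al t2 * K⌋₊ := (Prod.ext_iff.mp hh).1
  have hb : ⌊Real.log (ht t1) / Real.log (1 + δ / 4)⌋₊ =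
    ⌊Real.log (ht t2) / Real.log (1 + δ / 4)⌋₊ := (Prod.ext_iff.mp hh).2
  have hb1 : 1 ≤ ht t1 := by
    refine le_trans ?_ g1.big
    rw [le_div_iff₀ hδ]
    linarith
  have hb2 : 1 ≤ ht t2 := by
    refine le_trans ?_ g2.big
    rw [le_div_iff₀ hδ]
    linarith
  have hρ : 1 < 1 + δ / 4 := by linarith
  by_contra hne
  rcases le_total (ht t1) (ht t2) with hle | hle
  · exact (closeD_of_code hδ hK g1 g2 hc ha).gap hδ hδ1 hne hle
      (ratio_of_floor_eq hρ hb1 hb2 hb)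
  · exact (closeD_of_code hδ hK g2 g1 hc.symm ha.symm).gap hδ hδ1 (Ne.symm hne) hle
      (ratio_of_floor_eq hρ hb2 hb1 hb.symm)

/-- The constant. -/
noncomputable def BconD (K : ℕ) : ℝ := 6 * 2 ^ (3 * K)

theorem BconD_pos (K : ℕ) : 0 < BconD K := by
  unfold BconD
  positivity

/-- Number of labelled exponent vectors with bounded sum. -/
theorem card_codesD_le (K : ℕ) (S : Finset ℕ) (C : Finset ((p : ℕ) → p ∈ S → Fin 3 × ℕ))
    (hC : ∀ f ∈ C, ∑ x ∈ S.attach, (f x.1 x.2).2 ≤ 3 * K * S.card) :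
    (C.card : ℝ) ≤ BconD K ^ S.card := by
  classical
  set M := 3 * K * S.card with hM
  have hsub : C ⊆ S.pi (fun _ => (Finset.univ : Finset (Fin 3)) ×ˢ Finset.range (M + 1)) := by
    intro f hf
    rw [Finset.mem_pi]
    intro p hp
    rw [Finset.mem_product]
    refine ⟨Finset.mem_univ _, ?_⟩
    rw [Finset.mem_range]
    have h1 := hC f hf
    have h2 : (f p hp).2 ≤ ∑ x ∈ S.attach, (f x.1 x.2).2 :=
      Finset.single_le_sum (f := fun x : {x // x ∈ S} => (f x.1 x.2).2) (fun _ _ => Nat.zero_le _)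
        (Finset.mem_attach S ⟨p, hp⟩)
    omega
  have h1 : (C.card : ℝ) ≤ ∑ f ∈ C, (2 : ℝ) ^ M * ∏ x ∈ S.attach, ((1 : ℝ) / 2) ^ (f x.1 x.2).2 := by
    rw [Finset.card_eq_sum_ones, Nat.cast_sum]
    apply Finset.sum_le_sum
    intro f hf
    have h3 : ∏ x ∈ S.attach, ((1 : ℝ) / 2) ^ (f x.1 x.2).2 =
        ((1 : ℝ) / 2) ^ (∑ x ∈ S.attach, (f x.1 x.2).2) := by
      rw [Finset.prod_pow_eq_pow_sum]
    rw [h3]
    have h4 : ((1 : ℝ) / 2) ^ M ≤ ((1 : ℝ) / 2) ^ (∑ x ∈ S.attach, (f x.1 x.2).2) :=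
      pow_le_pow_of_le_one (by norm_num) (by norm_num) (hC f hf)
    have h5 : (2 : ℝ) ^ M * ((1 : ℝ) / 2) ^ M = 1 := by
      rw [← mul_pow]; norm_num
    have h6 : (0 : ℝ) < 2 ^ M := by positivity
    push_cast
    nlinarith
  have h2 : ∑ f ∈ C, (2 : ℝ) ^ M * ∏ x ∈ S.attach, ((1 : ℝ) / 2) ^ (f x.1 x.2).2 ≤
      ∑ f ∈ S.pi (fun _ => (Finset.univ : Finset (Fin 3)) ×ˢ Finset.range (M + 1)),
        (2 : ℝ) ^ M * ∏ x ∈ S.attach, ((1 : ℝ) / 2) ^ (f x.1 x.2).2 := by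
    apply Finset.sum_le_sum_of_subset_of_nonneg hsub
    intro f _ _
    positivity
  have h3 : ∑ f ∈ S.pi (fun _ => (Finset.univ : Finset (Fin 3)) ×ˢ Finset.range (M + 1)),
        (2 : ℝ) ^ M * ∏ x ∈ S.attach, ((1 : ℝ) / 2) ^ (f x.1 x.2).2 =
      (2 : ℝ) ^ M * ∏ _p ∈ S, ∑ lv ∈ (Finset.univ : Finset (Fin 3)) ×ˢ Finset.range (M + 1),
        ((1 : ℝ) / 2) ^ lv.2 := by
    rw [← Finset.mul_sum]
    congr 1
    rw [Finset.prod_sum]
  have h4 : ∑ lv ∈ (Finset.univ : Finset (Fin 3)) ×ˢ Finset.range (M + 1), ((1 : ℝ) / 2) ^ lv.2 ≤ 6 := by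
    rw [Finset.sum_product]
    simp only
    rw [Finset.sum_const]
    simp only [Finset.card_univ, Fintype.card_fin, nsmul_eq_mul]
    have := geom_le M
    push_cast
    linarith
  have h5 : ∏ _p ∈ S, ∑ lv ∈ (Finset.univ : Finset (Fin 3)) ×ˢ Finset.range (M + 1),
        ((1 : ℝ) / 2) ^ lv.2 ≤ 6 ^ S.card := by
    rw [Finset.prod_const]
    apply pow_le_pow_left₀ _ h4
    apply Finset.sum_nonneg
    intro lv _
    positivity
  calc (C.card : ℝ) ≤ _ := h1
    _ ≤ _ := h2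
    _ = _ := h3
    _ ≤ (2 : ℝ) ^ M * 6 ^ S.card := mul_le_mul_of_nonneg_left h5 (by positivity)
    _ = BconD K ^ S.card := by
        rw [hM, pow_mul, ← mul_pow]
        unfold BconD
        rw [mul_comm]

/-- Triples that are good on a given set `S` with `log c ≤ H`. -/
theorem card_goodD_le {δ : ℝ} (hδ : 0 < δ) (hδ1 : δ ≤ 1) {K : ℕ} (hK : 8 / δ ≤ K) (H : ℝ)
    (hH : 1 ≤ H) (S : Finset ℕ) (T : Finset (ℕ × ℕ)) (hT : ∀ t ∈ T, GoodD δ S t ∧ ht t ≤ H) :
    (T.card : ℝ) ≤ (K + 1) * (Real.log H / Real.log (1 + δ / 4) + 1) * BconD K ^ S.card := by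
  classical
  have hK0 : (0 : ℝ) < K := lt_of_lt_of_le (by positivity) hK
  have hl : 0 < Real.log (1 + δ / 4) := Real.log_pos (by linarith)
  have hlH : 0 ≤ Real.log H / Real.log (1 + δ / 4) := div_nonneg (Real.log_nonneg hH) hl.le
  set C1 := T.image (codeD K S) with hC1
  set L := ⌊Real.log H / Real.log (1 + δ / 4)⌋₊ with hL
  have h1 : T.card ≤ (C1 ×ˢ (Finset.range (K + 1) ×ˢ Finset.range (L + 1))).card := by
    apply Finset.card_le_card_of_injOn (fun t => (codeD K S t, codeH K δ t))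
    · intro t ht'
      have ht'' : t ∈ T := ht'
      obtain ⟨g, hh⟩ := hT t ht''
      rw [Finset.mem_coe, Finset.mem_product, Finset.mem_product]
      refine ⟨Finset.mem_image_of_mem _ ht'', ?_, ?_⟩
      · rw [Finset.mem_range, Nat.lt_succ_iff]
        simp only [codeH]
        have ha := al_le_one g.h
        have : ⌊al t * K⌋₊ ≤ K := by
          apply Nat.floor_le_of_le
          nlinarith
        exact this
      · rw [Finset.mem_range, Nat.lt_succ_iff]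
        simp only [codeH]
        rw [hL]
        apply Nat.floor_le_floor
        apply div_le_div_of_nonneg_right _ hl.le
        exact Real.log_le_log (ht_pos g.h) hh
    · intro t1 ht1 t2 ht2 heq
      simp only [Prod.mk.injEq] at heq
      exact eq_of_codes hδ hδ1 hK (hT t1 ht1).1 (hT t2 ht2).1 heq.1 heq.2
  rw [Finset.card_product, Finset.card_product, Finset.card_range, Finset.card_range] at h1
  have h4 : (C1.card : ℝ) ≤ BconD K ^ S.card := by
    apply card_codesD_le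
    intro f hf
    rw [hC1, Finset.mem_image] at hf
    obtain ⟨t, ht', rfl⟩ := hf
    simp only [codeD]
    rw [Finset.sum_attach S (fun p => ⌊u t p * (K * S.card)⌋₊)]
    obtain ⟨g, _⟩ := hT t ht'
    have hu := sum_u_le g.h g.sub
    have h5 : ((∑ p ∈ S, ⌊u t p * (K * S.card)⌋₊ : ℕ) : ℝ) ≤ 3 * K * S.card := by
      push_cast
      calc ∑ p ∈ S, (⌊u t p * (K * S.card)⌋₊ : ℝ) ≤ ∑ p ∈ S, u t p * (K * S.card) := by
            apply Finset.sum_le_sum
            intro p _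
            apply Nat.floor_le
            have := u_nonneg g.h p
            positivity
        _ = (∑ p ∈ S, u t p) * (K * S.card) := by rw [Finset.sum_mul]
        _ ≤ 3 * (K * S.card) := by gcongr
        _ = 3 * K * S.card := by ring
    exact_mod_cast h5
  have h6 : (T.card : ℝ) ≤ C1.card * ((K + 1) * (L + 1)) := by
    exact_mod_cast h1
  have h7 : (L : ℝ) ≤ Real.log H / Real.log (1 + δ / 4) := Nat.floor_le hlH
  have hB : 0 ≤ BconD K ^ S.card := pow_nonneg (BconD_pos K).le _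
  calc (T.card : ℝ) ≤ C1.card * ((K + 1) * (L + 1)) := h6
    _ ≤ BconD K ^ S.card * ((K + 1) * (Real.log H / Real.log (1 + δ / 4) + 1)) := by
        gcongr
    _ = _ := by ring

end Pool.Agent.Lib.Pabc1
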