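import Mathlib
import Pool.Agent.Lib.Pabc2.Final
import Pool.Agent.Lib.Pabc1.Cell

open Finset Filter Topology

namespace Pool.Agent.Lib.Pabc1

open Pool.Agent.Lib.Pabc2

/-- number of triples of height less than `h`. -/
theorem card_lowD (h : ℝ) (T : Finset (ℕ × ℕ)) (hT : ∀ t ∈ T, IsT t ∧ ht t < h) :
    T.card ≤ (⌊Real.exp h⌋₊ + 1) * (⌊Real.exp h⌋₊ + 1) := by
  have hsub : T ⊆ Finset.range (⌊Real.exp h⌋₊ + 1) ×ˢ Finset.range (⌊Real.exp h⌋₊ + 1) := by
    intro t ht'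
    obtain ⟨hI, hlt⟩ := hT t ht'
    have ha : (0 : ℝ) < t.1 := by exact_mod_cast hI.1
    have hb : (0 : ℝ) < t.2 := by exact_mod_cast hI.pos2
    have hc : (t.1 : ℝ) + t.2 < Real.exp h := by
      unfold ht at hlt
      rwa [Real.log_lt_iff_lt_exp (by positivity)] at hlt
    rw [Finset.mem_product, Finset.mem_range, Finset.mem_range, Nat.lt_succ_iff, Nat.lt_succ_iff]
    exact ⟨Nat.le_floor (by linarith), Nat.le_floor (by linarith)⟩
  refine (Finset.card_le_card hsub).trans ?_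
  rw [Finset.card_product, Finset.card_range]

theorem card_le_sum_of_goodD {δ : ℝ} (hδ : 0 < δ) (hδ1 : δ ≤ 1) {K : ℕ} (hK : 8 / δ ≤ K) (H : ℝ)
    (hH : 1 ≤ H) (T : Finset (ℕ × ℕ)) (F : Finset (Finset ℕ))
    (f : ℕ × ℕ → Finset ℕ) (hf : ∀ t ∈ T, f t ∈ F)
    (hg : ∀ t ∈ T, GoodD δ (f t) t ∧ ht t ≤ H) :
    (T.card : ℝ) ≤ (K + 1) * (Real.log H / Real.log (1 + δ / 4) + 1) *
      ∑ S ∈ F, BconD K ^ S.card := by
  classical
  rw [Finset.card_eq_sum_card_fiberwise (f := f) (t := F) (fun t ht => hf t ht), Finset.mul_sum]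
  push_cast
  apply Finset.sum_le_sum
  intro S _
  apply card_goodD_le hδ hδ1 hK H hH S
  intro t ht
  rw [Finset.mem_filter] at ht
  rw [← ht.2]
  exact hg t ht.1

/-- Triples with a light divisor of the radical that is at least `z`. -/
theorem count_light (δ A : ℝ) (hδ : 0 < δ) (hδ1 : δ ≤ 1) (hA : 0 ≤ A) :
    ∃ C : ℝ, ∀ᶠ n : ℕ in atTop, ∀ z : ℝ, 1 ≤ z → ∀ T : Finset (ℕ × ℕ),
      (∀ t ∈ T, IsT t ∧ rd t ≤ n ∧ ht t ≤ (n : ℝ) ^ A ∧
        ∃ Q ⊆ (N t).primeFactors, z ≤ ((∏ p ∈ Q, p : ℕ) : ℝ) ∧ ∑ p ∈ Q, u t p ≤ 1 - δ) →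
      2 * (T.card : ℝ) ≤ (n : ℝ) / z * Real.log n ^ C := by
  classical
  set K : ℕ := ⌈8 / δ⌉₊ with hKdef
  have hK : 8 / δ ≤ K := Nat.le_ceil _
  have hK0 : (0 : ℝ) < K := lt_of_lt_of_le (by positivity) hK
  set B := BconD K with hB
  have hB0 : 0 < B := BconD_pos K
  set ρ : ℝ := Real.log (1 + δ / 4) with hρ
  have hρ0 : 0 < ρ := Real.log_pos (by linarith)
  set C0 : ℝ := (((⌊Real.exp (2 / δ)⌋₊ + 1) * (⌊Real.exp (2 / δ)⌋₊ + 1) : ℕ) : ℝ) with hC0
  have hC00 : 0 ≤ C0 := Nat.cast_nonneg _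
  refine ⟨4 + 27 * B, ?_⟩
  have hlim : Tendsto (fun n : ℕ => Real.log (n : ℝ)) atTop atTop :=
    Real.tendsto_log_atTop.comp tendsto_natCast_atTop_atTop
  filter_upwards [hlim.eventually (eventually_ge_atTop 4),
    hlim.eventually (eventually_ge_atTop C0),
    hlim.eventually (eventually_ge_atTop ((K + 1) * (A / ρ + 1))), eventually_ge_atTop 1] with
    n h4 hnC0 hnK hn1 z hz T hT
  set x := Real.log (n : ℝ) with hx
  have hx0 : 0 < x := by linarith
  have hx1 : 1 ≤ x := by linarith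
  have hn0 : (0 : ℝ) < n := by exact_mod_cast hn1
  have hn1' : (1 : ℝ) ≤ n := by exact_mod_cast hn1
  have hz0 : 0 < z := by linarith
  rcases lt_or_ge (n : ℝ) z with hzn | hzn
  · -- empty
    have hTe : T = ∅ := by
      rw [Finset.eq_empty_iff_forall_notMem]
      intro t htT
      obtain ⟨h1, h2, _, Q, hQ, hQz, _⟩ := hT t htT
      have h3 : (∏ p ∈ Q, p : ℕ) ≤ rd t := by
        unfold rd
        apply Finset.prod_le_prod_of_subset_of_one_le' hQ
        intro p hp _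
        exact (Nat.prime_of_mem_primeFactors hp).one_lt.le
      have h4 : ((∏ p ∈ Q, p : ℕ) : ℝ) ≤ n := by exact_mod_cast h3.trans h2
      linarith
    rw [hTe]
    simp only [Finset.card_empty, Nat.cast_zero, mul_zero]
    positivity
  have hnz : 1 ≤ (n : ℝ) / z := (one_le_div hz0).mpr hzn
  set P := Nat.primesLE n with hP
  have hPp : ∀ p ∈ P, p.Prime := fun p hp => (Nat.mem_primesLE.mp hp).2
  have hsubP : ∀ t ∈ T, (N t).primeFactors ⊆ P := by
    intro t htT p hp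
    rw [hP, Nat.mem_primesLE]
    refine ⟨le_trans ?_ (hT t htT).2.1, Nat.prime_of_mem_primeFactors hp⟩
    exact Nat.le_of_dvd (Finset.prod_pos (fun q hq => (Nat.prime_of_mem_primeFactors hq).pos))
      (Finset.dvd_prod_of_mem (fun p => p) hp)
  set T0 := T.filter (fun t => ht t < 2 / δ) with hT0
  set T1 := T.filter (fun t => ¬ ht t < 2 / δ) with hT1
  have hcard : (T.card : ℝ) = T0.card + T1.card := by
    have e1 := Finset.card_filter_add_card_filter_not (s := T) (fun t => ht t < 2 / δ)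
    rw [← e1]
    push_cast
    ring
  have b0 : (T0.card : ℝ) ≤ C0 := by
    rw [hC0]
    exact_mod_cast card_lowD (2 / δ) T0 (fun t h => by
      rw [hT0, Finset.mem_filter] at h
      exact ⟨(hT t h.1).1, h.2⟩)
  have hm : ∀ t ∈ T1, t ∈ T ∧ 2 / δ ≤ ht t := by
    intro t h
    rw [hT1, Finset.mem_filter] at h
    exact ⟨h.1, not_lt.mp h.2⟩
  choose! Q hQs hQz hQu using fun t (h : t ∈ T1) => (hT t (hm t h).1).2.2.2
  have hH1 : 1 ≤ (n : ℝ) ^ A := Real.one_le_rpow hn1' hA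
  have b1 := card_le_sum_of_goodD hδ hδ1 hK ((n : ℝ) ^ A) hH1 T1
    (P.powerset.filter (fun S => ((∏ p ∈ S, p : ℕ) : ℝ) ≤ n / z))
    (fun t => (N t).primeFactors \ Q t) (by
      intro t h
      rw [Finset.mem_filter, Finset.mem_powerset]
      refine ⟨Finset.sdiff_subset.trans (hsubP t (hm t h).1), ?_⟩
      rw [le_div_iff₀ hz0]
      have h1 : (rd t : ℝ) = ((∏ p ∈ (N t).primeFactors \ Q t, p : ℕ) : ℝ) *
          ((∏ p ∈ Q t, p : ℕ) : ℝ) := by
        unfold rd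
        rw [← Finset.prod_sdiff (hQs t h)]
        push_cast
        ring
      have h2 : (rd t : ℝ) ≤ n := by exact_mod_cast (hT t (hm t h).1).2.1
      have h3 : (0 : ℝ) ≤ ((∏ p ∈ (N t).primeFactors \ Q t, p : ℕ) : ℝ) := by positivity
      calc ((∏ p ∈ (N t).primeFactors \ Q t, p : ℕ) : ℝ) * z ≤
          ((∏ p ∈ (N t).primeFactors \ Q t, p : ℕ) : ℝ) * ((∏ p ∈ Q t, p : ℕ) : ℝ) :=
            mul_le_mul_of_nonneg_left (hQz t h) h3
        _ = rd t := h1.symm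
        _ ≤ n := h2) (by
      intro t h
      have h1 := (hT t (hm t h).1).1
      refine ⟨⟨h1, Finset.sdiff_subset, ?_, (hm t h).2⟩, (hT t (hm t h).1).2.2.1⟩
      rw [← sum_u_eq h1, ← Finset.sum_sdiff (hQs t h)]
      have := hQu t h
      linarith)
  have b2 := sum_small P hPp B (n / z) hB0.le (by positivity)
  have hmert : Real.exp (B * ∑ p ∈ P, 1 / (p : ℝ)) ≤ x ^ (27 * B) := by
    calc Real.exp (B * ∑ p ∈ P, 1 / (p : ℝ)) ≤ Real.exp (B * (9 * (1 + Real.log (1 + x)))) :=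
          Real.exp_le_exp.mpr (mul_le_mul_of_nonneg_left (mertens n) hB0.le)
      _ ≤ Real.exp (Real.log x * (27 * B)) := by
          apply Real.exp_le_exp.mpr
          have h1 : 1 ≤ Real.log x := by
            rw [Real.le_log_iff_exp_le hx0]
            linarith [Real.exp_one_lt_d9]
          have h2 : Real.log (1 + x) ≤ 2 * Real.log x := by
            rw [← Real.log_rpow hx0]
            apply Real.log_le_log (by linarith)
            rw [show (2 : ℝ) = ((2 : ℕ) : ℝ) by norm_num, Real.rpow_natCast]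
            nlinarith
          nlinarith
      _ = x ^ (27 * B) := by rw [Real.rpow_def_of_pos hx0]
  have hlogH : Real.log ((n : ℝ) ^ A) = A * x := Real.log_rpow hn0 A
  rw [hlogH, ← hρ] at b1
  have hfac : ((K : ℝ) + 1) * (A * x / ρ + 1) ≤ x ^ (2 : ℝ) := by
    calc ((K : ℝ) + 1) * (A * x / ρ + 1) ≤ ((K : ℝ) + 1) * (A * x / ρ + x) := by gcongr
      _ = ((K : ℝ) + 1) * (A / ρ + 1) * x := by ring
      _ ≤ x * x := mul_le_mul_of_nonneg_right hnK hx0.le
      _ = x ^ (2 : ℝ) := by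
          rw [show (2 : ℝ) = ((2 : ℕ) : ℝ) by norm_num, Real.rpow_natCast]
          ring
  have hfac0 : 0 ≤ ((K : ℝ) + 1) * (A * x / ρ + 1) := by positivity
  have b3 : (T1.card : ℝ) ≤ n / z * x ^ (2 + 27 * B) := by
    calc (T1.card : ℝ) ≤ ((K : ℝ) + 1) * (A * x / ρ + 1) *
        (n / z * Real.exp (B * ∑ p ∈ P, 1 / (p : ℝ))) :=
          b1.trans (mul_le_mul_of_nonneg_left b2 hfac0)
      _ ≤ x ^ (2 : ℝ) * (n / z * x ^ (27 * B)) := by gcongr
      _ = n / z * (x ^ (2 : ℝ) * x ^ (27 * B)) := by ring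
      _ = n / z * x ^ (2 + 27 * B) := by rw [Real.rpow_add hx0]
  have hpow1 : 1 ≤ x ^ (2 + 27 * B) := Real.one_le_rpow hx1 (by positivity)
  have hpowx : x ≤ x ^ (3 + 27 * B) := by
    have := Real.rpow_le_rpow_of_exponent_le hx1 (show (1 : ℝ) ≤ 3 + 27 * B by linarith)
    rwa [Real.rpow_one] at this
  have e3 : x ^ (3 + 27 * B) = x * x ^ (2 + 27 * B) := by
    rw [show (3 : ℝ) + 27 * B = 1 + (2 + 27 * B) by ring, Real.rpow_add hx0, Real.rpow_one]
  have e4 : x ^ (4 + 27 * B) = x * x ^ (3 + 27 * B) := by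
    rw [show (4 : ℝ) + 27 * B = 1 + (3 + 27 * B) by ring, Real.rpow_add hx0, Real.rpow_one]
  have b4 : (T.card : ℝ) ≤ 2 * (n / z * x ^ (3 + 27 * B)) := by
    rw [hcard]
    have c1 : (T0.card : ℝ) ≤ n / z * x ^ (3 + 27 * B) := by
      calc (T0.card : ℝ) ≤ C0 := b0
        _ ≤ x := hnC0
        _ ≤ x ^ (3 + 27 * B) := hpowx
        _ = 1 * x ^ (3 + 27 * B) := (one_mul _).symm
        _ ≤ n / z * x ^ (3 + 27 * B) := by gcongr
    have c2 : (T1.card : ℝ) ≤ n / z * x ^ (3 + 27 * B) := by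
      refine b3.trans ?_
      have : x ^ (2 + 27 * B) ≤ x ^ (3 + 27 * B) :=
        Real.rpow_le_rpow_of_exponent_le hx1 (by linarith)
      gcongr
    linarith
  rw [e4]
  have c5 : 0 ≤ n / z * x ^ (3 + 27 * B) := by positivity
  calc 2 * (T.card : ℝ) ≤ 4 * (n / z * x ^ (3 + 27 * B)) := by linarith
    _ ≤ x * (n / z * x ^ (3 + 27 * B)) := mul_le_mul_of_nonneg_right h4 c5
    _ = n / z * (x * x ^ (3 + 27 * B)) := by ring

end Pool.Agent.Lib.Pabc1
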