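import Mathlib

open Finset

namespace Pool.Agent.Lib.Pabc1

/-- Lifting the exponent: if `x ≡ y` modulo `4` and modulo the primes of `M`, and
`M ∣ x ^ g - y ^ g`, then `M ∣ g (x - y)`. -/
theorem dvd_of_pow_sub_pow {M : ℕ} {g : ℕ} {x y : ℤ} {Q : ℕ} (hQ4 : 4 ∣ Q)
    (hQM : ∀ p : ℕ, p.Prime → p ∣ M → p ∣ Q) (hxy : (Q : ℤ) ∣ x - y)
    (hx : ∀ p : ℕ, p.Prime → p ∣ M → ¬ (p : ℤ) ∣ x)
    (h : (M : ℤ) ∣ x ^ g - y ^ g) : (M : ℤ) ∣ g * (x - y) := by
  have key : M ∣ ((g : ℤ) * (x - y)).natAbs := by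
    rw [Nat.dvd_iff_prime_pow_dvd_dvd]
    intro p k hp hk
    rcases Nat.eq_zero_or_pos k with rfl | hk0
    · simp
    have hpM : p ∣ M := (dvd_pow_self p hk0.ne').trans hk
    have hpx := hx p hp hpM
    have hpxy : (p : ℤ) ∣ x - y := (Int.natCast_dvd_natCast.mpr (hQM p hp hpM)).trans hxy
    have h1 : ((p : ℤ) ^ k) ∣ x ^ g - y ^ g := by
      refine dvd_trans ?_ h
      exact_mod_cast hk
    have h2 : emultiplicity (p : ℤ) (x ^ g - y ^ g) =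
        emultiplicity (p : ℤ) (x - y) + emultiplicity (p : ℤ) (g : ℤ) := by
      rcases hp.eq_two_or_odd' with rfl | hodd
      · have h4 : (4 : ℤ) ∣ x - y := by
          have : ((4 : ℕ) : ℤ) ∣ (Q : ℤ) := Int.natCast_dvd_natCast.mpr hQ4
          exact this.trans hxy
        exact Int.two_pow_sub_pow' g h4 hpx
      · rw [Int.emultiplicity_pow_sub_pow hp hodd hpxy hpx g, Int.natCast_emultiplicity]
    have h3 : ((p : ℤ) ^ k) ∣ (g : ℤ) * (x - y) := by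
      rw [pow_dvd_iff_le_emultiplicity] at h1 ⊢
      rw [h2] at h1
      rw [emultiplicity_mul (Nat.prime_iff_prime_int.mp hp), add_comm]
      exact h1
    rw [← Int.natCast_dvd_natCast, Int.natCast_natAbs, dvd_abs]
    exact_mod_cast h3
  rw [← Int.natCast_dvd_natCast, Int.natCast_natAbs, dvd_abs] at key
  exact key

section

variable {ι : Type*}

/-- The root of the `R`-side of the product of the relations in `I`. -/
def rA (X : Finset ℕ) (R : ι → ℕ) (v : ι → ℕ → ℕ) (g : ℕ) (I : Finset ι) : ℕ :=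
  (∏ i ∈ I, R i) * ∏ p ∈ X, p ^ ((∑ i ∈ I, v i p) / g)

/-- The root of the other side of the product of the relations in `I`. -/
def rB (Z : Finset ℕ) (v : ι → ℕ → ℕ) (g : ℕ) (I : Finset ι) : ℕ :=
  ∏ p ∈ Z, p ^ ((∑ i ∈ I, v i p) / g)

/-- Remainders. -/
def rU (X : Finset ℕ) (v : ι → ℕ → ℕ) (g : ℕ) (I : Finset ι) : ℕ :=
  ∏ p ∈ X, p ^ ((∑ i ∈ I, v i p) % g)

theorem prod_rel_A (X : Finset ℕ) (R : ι → ℕ) (v : ι → ℕ → ℕ) (g : ℕ) (I : Finset ι) :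
    ∏ i ∈ I, (R i ^ g * ∏ p ∈ X, p ^ v i p) = rA X R v g I ^ g * rU X v g I := by
  unfold rA rU
  rw [Finset.prod_mul_distrib, Finset.prod_pow, Finset.prod_comm, mul_pow, mul_assoc]
  congr 1
  rw [← Finset.prod_pow, ← Finset.prod_mul_distrib]
  apply Finset.prod_congr rfl
  intro p _
  rw [Finset.prod_pow_eq_pow_sum, ← pow_mul, ← pow_add]
  congr 1
  rw [mul_comm]
  exact (Nat.div_add_mod _ _).symm

theorem prod_rel_B (Z : Finset ℕ) (v : ι → ℕ → ℕ) (g : ℕ) (I : Finset ι) :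
    ∏ i ∈ I, (∏ p ∈ Z, p ^ v i p) = rB Z v g I ^ g * rU Z v g I := by
  unfold rB rU
  rw [Finset.prod_comm, ← Finset.prod_pow, ← Finset.prod_mul_distrib]
  apply Finset.prod_congr rfl
  intro p _
  rw [Finset.prod_pow_eq_pow_sum, ← pow_mul, ← pow_add]
  congr 1
  rw [mul_comm]
  exact (Nat.div_add_mod _ _).symm

/-- The root extraction lemma. -/
theorem root_lemma [DecidableEq ι] (T : Finset ι) (X Z : Finset ℕ)
    (hX : ∀ p ∈ X, p.Prime) (hZ : ∀ p ∈ Z, p.Prime)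
    (R : ι → ℕ) (hR : ∀ i ∈ T, (R i).Prime) (hRinj : Set.InjOn R T)
    (hRX : ∀ i ∈ T, R i ∉ X) (hRZ : ∀ i ∈ T, R i ∉ Z)
    (M : ℕ) (hMX : ∀ p ∈ X, p.Coprime M) (hMZ : ∀ p ∈ Z, p.Coprime M)
    (hMR : ∀ i ∈ T, (R i).Coprime M)
    (v : ι → ℕ → ℕ) (g : ℕ) (hg : 0 < g) (σ : ℤ) (hσ : σ * σ = 1)
    (hdiv : ∀ i ∈ T, (M : ℤ) ∣ ((R i ^ g * ∏ p ∈ X, p ^ v i p : ℕ) : ℤ) -
      σ * ((∏ p ∈ Z, p ^ v i p : ℕ) : ℤ))
    (Q : ℕ) (hQ : 0 < Q) (hQ4 : 4 ∣ Q) (hQM : ∀ p : ℕ, p.Prime → p ∣ M → p ∣ Q)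
    (ℓ : ℕ) (hcard : g ^ (X ∪ Z).card * Q ^ 2 < T.card.choose ℓ) :
    ∃ I ⊆ T, ∃ J ⊆ T, I.card = ℓ ∧ J.card = ℓ ∧
      (M : ℤ) ∣ g * ((rA X R v g I * rB Z v g J : ℕ) - (rA X R v g J * rB Z v g I : ℕ)) ∧
      rA X R v g I * rB Z v g J ≠ rA X R v g J * rB Z v g I := by
  classical
  -- pigeonhole
  set W := X ∪ Z with hW
  set f : Finset ι → ((p : ℕ) → p ∈ W → ℕ) × ℕ × ℕ := fun I =>
    (fun p _ => (∑ i ∈ I, v i p) % g, rA X R v g I % Q, rB Z v g I % Q) with hf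
  set tgt : Finset (((p : ℕ) → p ∈ W → ℕ) × ℕ × ℕ) :=
    (W.pi (fun _ => Finset.range g)) ×ˢ (Finset.range Q ×ˢ Finset.range Q) with htgt
  have hcardtgt : tgt.card = g ^ W.card * Q ^ 2 := by
    rw [htgt, Finset.card_product, Finset.card_product, Finset.card_pi, Finset.card_range]
    simp only [Finset.card_range, Finset.prod_const]
    ring
  have hlt : tgt.card < (T.powersetCard ℓ).card := by
    rw [hcardtgt, Finset.card_powersetCard]
    exact hcard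
  have hmaps : ∀ I ∈ T.powersetCard ℓ, f I ∈ tgt := by
    intro I _
    rw [htgt, Finset.mem_product, Finset.mem_product, Finset.mem_pi]
    refine ⟨fun p _ => ?_, ?_, ?_⟩
    · rw [Finset.mem_range]; exact Nat.mod_lt _ hg
    · rw [Finset.mem_range]; exact Nat.mod_lt _ hQ
    · rw [Finset.mem_range]; exact Nat.mod_lt _ hQ
  obtain ⟨I, hI, J, hJ, hne, hfe⟩ := Finset.exists_ne_map_eq_of_card_lt_of_maps_to hlt hmaps
  rw [Finset.mem_powersetCard] at hI hJ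
  simp only [hf, Prod.mk.injEq] at hfe
  obtain ⟨he, hA, hB⟩ := hfe
  have hmod : ∀ p ∈ W, (∑ i ∈ I, v i p) % g = (∑ i ∈ J, v i p) % g := fun p hp =>
    congrFun (congrFun he p) hp
  have hUX : rU X v g I = rU X v g J := by
    unfold rU
    apply Finset.prod_congr rfl
    intro p hp
    rw [hmod p (Finset.mem_union_left _ hp)]
  have hUZ : rU Z v g I = rU Z v g J := by
    unfold rU
    apply Finset.prod_congr rfl
    intro p hp
    rw [hmod p (Finset.mem_union_right _ hp)]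
  -- coprimality
  have cU : ∀ Y : Finset ℕ, (∀ p ∈ Y, p.Coprime M) → ∀ K : Finset ι, (rU Y v g K).Coprime M := by
    intro Y hY K
    unfold rU
    exact Nat.Coprime.prod_left (fun p hp => Nat.Coprime.pow_left _ (hY p hp))
  have cB : ∀ K : Finset ι, (rB Z v g K).Coprime M := by
    intro K
    unfold rB
    exact Nat.Coprime.prod_left (fun p hp => Nat.Coprime.pow_left _ (hMZ p hp))
  have cA : ∀ K ⊆ T, (rA X R v g K).Coprime M := by
    intro K hK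
    unfold rA
    refine Nat.Coprime.mul_left (Nat.Coprime.prod_left (fun i hi => hMR i (hK hi))) ?_
    exact Nat.Coprime.prod_left (fun p hp => Nat.Coprime.pow_left _ (hMX p hp))
  -- the product relation
  have hrel : ∀ K ⊆ T, K.card = ℓ →
      (M : ℤ) ∣ ((rA X R v g K ^ g * rU X v g K : ℕ) : ℤ) -
        σ ^ ℓ * ((rB Z v g K ^ g * rU Z v g K : ℕ) : ℤ) := by
    intro K hK hKc
    rw [← prod_rel_A, ← prod_rel_B]
    have h1 : ∀ i ∈ K, ((R i ^ g * ∏ p ∈ X, p ^ v i p : ℕ) : ℤ) ≡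
        σ * ((∏ p ∈ Z, p ^ v i p : ℕ) : ℤ) [ZMOD (M : ℤ)] := by
      intro i hi
      exact (Int.modEq_iff_dvd.mpr (hdiv i (hK hi))).symm
    have h2 := Int.ModEq.prod h1
    rw [Finset.prod_mul_distrib, Finset.prod_const, hKc] at h2
    have h3 := Int.modEq_iff_dvd.mp h2.symm
    push_cast at h3 ⊢
    exact h3
  have r1 := hrel I hI.1 hI.2
  have r2 := hrel J hJ.1 hJ.2
  rw [← hUX, ← hUZ] at r2
  set AI := rA X R v g I with hAI
  set AJ := rA X R v g J with hAJ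
  set BI := rB Z v g I with hBI
  set BJ := rB Z v g J with hBJ
  set U := rU X v g I with hU
  set V := rU Z v g I with hV
  have hs : (σ ^ ℓ) * (σ ^ ℓ) = 1 := by
    rw [← mul_pow, hσ, one_pow]
  have r3 : (M : ℤ) ∣ ((U * V : ℕ) : ℤ) * (((AI * BJ : ℕ) : ℤ) ^ g - ((AJ * BI : ℕ) : ℤ) ^ g) := by
    have e : ((U * V : ℕ) : ℤ) * (((AI * BJ : ℕ) : ℤ) ^ g - ((AJ * BI : ℕ) : ℤ) ^ g) =
        (((AI ^ g * U : ℕ) : ℤ) - σ ^ ℓ * ((BI ^ g * V : ℕ) : ℤ)) * ((BJ ^ g * V : ℕ) : ℤ) -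
        (((AJ ^ g * U : ℕ) : ℤ) - σ ^ ℓ * ((BJ ^ g * V : ℕ) : ℤ)) * ((BI ^ g * V : ℕ) : ℤ) := by
      push_cast
      ring
    rw [e]
    exact dvd_sub (Dvd.dvd.mul_right r1 _) (Dvd.dvd.mul_right r2 _)
  have r4 : (M : ℤ) ∣ ((AI * BJ : ℕ) : ℤ) ^ g - ((AJ * BI : ℕ) : ℤ) ^ g := by
    have hc : IsCoprime (M : ℤ) ((U * V : ℕ) : ℤ) := by
      rw [Nat.isCoprime_iff_coprime]
      exact (Nat.Coprime.mul_left (cU X hMX I) (cU Z hMZ I)).symm
    exact hc.dvd_of_dvd_mul_left r3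
  refine ⟨I, hI.1, J, hJ.1, hI.2, hJ.2, ?_, ?_⟩
  · refine dvd_of_pow_sub_pow hQ4 hQM ?_ ?_ r4
    · have hA' : AI ≡ AJ [MOD Q] := hA
      have hB' : BI ≡ BJ [MOD Q] := hB
      have h1 : AI * BJ ≡ AJ * BI [MOD Q] := Nat.ModEq.mul hA' hB'.symm
      exact (Nat.modEq_iff_dvd.mp h1.symm)
    · intro p hp hpM hpx
      have h1 : p ∣ AI * BJ := by exact_mod_cast hpx
      have h2 : (AI * BJ).Coprime M := Nat.Coprime.mul_left (cA I hI.1) (cB J)
      exact hp.not_dvd_one (by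
        have := Nat.dvd_gcd h1 hpM
        rwa [h2] at this)
  · -- distinctness
    intro heq
    apply hne
    -- if I ≠ J find an element in the symmetric difference
    have hsub : ∀ K ⊆ T, ∀ L ⊆ T, rA X R v g K * rB Z v g L = rA X R v g L * rB Z v g K → K ⊆ L := by
      intro K hK L hL h i hi
      have hp := hR i (hK hi)
      have h1 : R i ∣ rA X R v g K := by
        unfold rA
        exact Dvd.dvd.mul_right (Finset.dvd_prod_of_mem R hi) _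
      have h2 : R i ∣ rA X R v g L * rB Z v g K := h ▸ Dvd.dvd.mul_right h1 _
      have hnot : ∀ Y : Finset ℕ, (∀ p ∈ Y, p.Prime) → R i ∉ Y → ∀ m : ℕ → ℕ,
          ¬ R i ∣ ∏ p ∈ Y, p ^ m p := by
        intro Y hY hiY m hd
        obtain ⟨q, hq, hqd⟩ := (hp.prime.dvd_finsetProd_iff _).mp hd
        have := (Nat.prime_dvd_prime_iff_eq hp (hY q hq)).mp (hp.dvd_of_dvd_pow hqd)
        rw [this] at hiY
        exact hiY hq
      rcases hp.dvd_mul.mp h2 with h3 | h3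
      · unfold rA at h3
        rcases hp.dvd_mul.mp h3 with h4 | h4
        · obtain ⟨j, hj, hjd⟩ := (hp.prime.dvd_finsetProd_iff _).mp h4
          have h5 := (Nat.prime_dvd_prime_iff_eq hp (hR j (hL hj))).mp hjd
          have h6 := hRinj (hK hi) (hL hj) h5
          rw [h6]
          exact hj
        · exact absurd h4 (hnot X hX (hRX i (hK hi)) _)
      · exact absurd h3 (hnot Z hZ (hRZ i (hK hi)) _)
    exact Finset.Subset.antisymm (hsub I hI.1 J hJ.1 heq) (hsub J hJ.1 I hI.1 heq.symm)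

/-- Logarithmic form: the class is small when `M` is large. -/
theorem root_bound [DecidableEq ι] (T : Finset ι) (X Z : Finset ℕ)
    (hX : ∀ p ∈ X, p.Prime) (hZ : ∀ p ∈ Z, p.Prime)
    (R : ι → ℕ) (hR : ∀ i ∈ T, (R i).Prime) (hRinj : Set.InjOn R T)
    (hRX : ∀ i ∈ T, R i ∉ X) (hRZ : ∀ i ∈ T, R i ∉ Z)
    (M : ℕ) (hMX : ∀ p ∈ X, p.Coprime M) (hMZ : ∀ p ∈ Z, p.Coprime M)
    (hMR : ∀ i ∈ T, (R i).Coprime M)
    (v : ι → ℕ → ℕ) (g : ℕ) (hg : 0 < g) (σ : ℤ) (hσ : σ * σ = 1)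
    (hdiv : ∀ i ∈ T, (M : ℤ) ∣ ((R i ^ g * ∏ p ∈ X, p ^ v i p : ℕ) : ℤ) -
      σ * ((∏ p ∈ Z, p ^ v i p : ℕ) : ℤ))
    (Q : ℕ) (hQ : 0 < Q) (hQ4 : 4 ∣ Q) (hQM : ∀ p : ℕ, p.Prime → p ∣ M → p ∣ Q)
    (ℓ : ℕ) (h : ℝ)
    (hA : ∀ i ∈ T, g * Real.log (R i) + ∑ p ∈ X, (v i p : ℝ) * Real.log p ≤ h)
    (hB : ∀ i ∈ T, ∑ p ∈ Z, (v i p : ℝ) * Real.log p ≤ h)
    (hM : Real.log g + 2 * ℓ * h / g < Real.log M) :
    T.card.choose ℓ ≤ g ^ (X ∪ Z).card * Q ^ 2 := by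
  by_contra hcon
  push Not at hcon
  obtain ⟨I, hI, J, hJ, hIc, hJc, hdvd, hne⟩ := root_lemma T X Z hX hZ R hR hRinj hRX hRZ M hMX
    hMZ hMR v g hg σ hσ hdiv Q hQ hQ4 hQM ℓ hcon
  have hg0 : (0 : ℝ) < g := by exact_mod_cast hg
  have hlogdiv : ∀ (Y : Finset ℕ), (∀ p ∈ Y, p.Prime) → ∀ K : Finset ι,
      Real.log ((∏ p ∈ Y, p ^ ((∑ i ∈ K, v i p) / g) : ℕ) : ℝ) ≤
        (∑ i ∈ K, ∑ p ∈ Y, (v i p : ℝ) * Real.log p) / g := by
    intro Y hY K
    push_cast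
    rw [Real.log_prod (fun p hp => by
      have : (0 : ℝ) < p := by exact_mod_cast (hY p hp).pos
      positivity), Finset.sum_comm, Finset.sum_div]
    apply Finset.sum_le_sum
    intro p hp
    rw [Real.log_pow, ← Finset.sum_mul, mul_div_right_comm]
    have h1 : (((∑ i ∈ K, v i p) / g : ℕ) : ℝ) ≤ ((∑ i ∈ K, v i p : ℕ) : ℝ) / g :=
      Nat.cast_div_le
    push_cast at h1 ⊢
    exact mul_le_mul_of_nonneg_right h1 (Real.log_natCast_nonneg p)
  have hposprod : ∀ (Y : Finset ℕ), (∀ p ∈ Y, p.Prime) → ∀ m : ℕ → ℕ,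
      0 < (∏ p ∈ Y, p ^ m p) := by
    intro Y hY m
    exact Finset.prod_pos (fun p hp => pow_pos (hY p hp).pos _)
  have hRpos : ∀ K ⊆ T, 0 < ∏ i ∈ K, R i := fun K hK => Finset.prod_pos (fun i hi => (hR i (hK hi)).pos)
  have hlogA : ∀ K ⊆ T, K.card = ℓ → Real.log (rA X R v g K) ≤ ℓ * h / g := by
    intro K hK hKc
    unfold rA
    rw [Nat.cast_mul, Real.log_mul (by exact_mod_cast (hRpos K hK).ne')
      (by exact_mod_cast (hposprod X hX _).ne')]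
    have h1 := hlogdiv X hX K
    have h2 : Real.log ((∏ i ∈ K, R i : ℕ) : ℝ) = (∑ i ∈ K, g * Real.log (R i)) / g := by
      push_cast
      rw [Real.log_prod (fun i hi => by exact_mod_cast (hR i (hK hi)).ne_zero), ← Finset.mul_sum]
      field_simp
    have h3 : (∑ i ∈ K, g * Real.log (R i)) / g +
        (∑ i ∈ K, ∑ p ∈ X, (v i p : ℝ) * Real.log p) / g ≤ ℓ * h / g := by
      rw [← add_div, ← Finset.sum_add_distrib]
      apply div_le_div_of_nonneg_right _ hg0.le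
      calc ∑ i ∈ K, (g * Real.log (R i) + ∑ p ∈ X, (v i p : ℝ) * Real.log p) ≤ ∑ _i ∈ K, h :=
            Finset.sum_le_sum (fun i hi => hA i (hK hi))
        _ = ℓ * h := by rw [Finset.sum_const, hKc, nsmul_eq_mul]
    rw [h2]
    linarith
  have hlogB : ∀ K ⊆ T, K.card = ℓ → Real.log (rB Z v g K) ≤ ℓ * h / g := by
    intro K hK hKc
    unfold rB
    refine (hlogdiv Z hZ K).trans ?_
    apply div_le_div_of_nonneg_right _ hg0.le
    calc ∑ i ∈ K, (∑ p ∈ Z, (v i p : ℝ) * Real.log p) ≤ ∑ _i ∈ K, h :=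
          Finset.sum_le_sum (fun i hi => hB i (hK hi))
      _ = ℓ * h := by rw [Finset.sum_const, hKc, nsmul_eq_mul]
  have hApos : ∀ K ⊆ T, (0 : ℝ) < rA X R v g K := by
    intro K hK
    unfold rA
    exact_mod_cast Nat.mul_pos (hRpos K hK) (hposprod X hX _)
  have hBpos : ∀ K ⊆ T, (0 : ℝ) < rB Z v g K := by
    intro K hK
    unfold rB
    exact_mod_cast hposprod Z hZ _
  set E : ℝ := Real.exp (2 * ℓ * h / g) with hE
  have hAB : ∀ K ⊆ T, ∀ L ⊆ T, K.card = ℓ → L.card = ℓ →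
      (rA X R v g K : ℝ) * rB Z v g L ≤ E := by
    intro K hK L hL hKc hLc
    rw [hE, ← Real.log_le_iff_le_exp (mul_pos (hApos K hK) (hBpos L hL)),
      Real.log_mul (hApos K hK).ne' (hBpos L hL).ne']
    have h1 := hlogA K hK hKc
    have h2 := hlogB L hL hLc
    have h3 : 2 * (ℓ : ℝ) * h / g = ℓ * h / g + ℓ * h / g := by ring
    linarith
  set D : ℤ := ((rA X R v g I * rB Z v g J : ℕ) : ℤ) - ((rA X R v g J * rB Z v g I : ℕ) : ℤ)
    with hD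
  have hD0 : D ≠ 0 := by
    rw [hD, sub_ne_zero]
    exact_mod_cast hne
  have hDle : |(D : ℝ)| ≤ E := by
    have h1 := hAB I hI J hJ hIc hJc
    have h2 := hAB J hJ I hI hJc hIc
    have h3 := mul_pos (hApos I hI) (hBpos J hJ)
    have h4 := mul_pos (hApos J hJ) (hBpos I hI)
    rw [hD]
    push_cast
    rw [abs_le]
    constructor <;> linarith
  have hgD : (g : ℤ) * D ≠ 0 := mul_ne_zero (by exact_mod_cast hg.ne') hD0
  have hle := Int.le_of_dvd (abs_pos.mpr hgD) ((dvd_abs _ _).mpr hdvd)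
  have hle' : (M : ℝ) ≤ g * E := by
    have h1 : (M : ℝ) ≤ |(((g : ℤ) * D : ℤ) : ℝ)| := by
      have : ((M : ℤ) : ℝ) ≤ ((|(g : ℤ) * D| : ℤ) : ℝ) := by exact_mod_cast hle
      push_cast at this ⊢
      exact this
    push_cast at h1
    rw [abs_mul, abs_of_pos hg0] at h1
    exact h1.trans (mul_le_mul_of_nonneg_left hDle hg0.le)
  rcases Nat.eq_zero_or_pos M with hM0 | hM0
  · -- M = 0 : then M ∣ g D means g D = 0
    rw [hM0] at hdvd
    simp only [Nat.cast_zero, zero_dvd_iff] at hdvd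
    exact hgD hdvd
  · have hMpos : (0 : ℝ) < M := by exact_mod_cast hM0
    have h1 := Real.log_le_log hMpos hle'
    rw [Real.log_mul hg0.ne' (Real.exp_pos _).ne', Real.log_exp] at h1
    linarith

end

end Pool.Agent.Lib.Pabc1
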