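import Mathlib
import Pool.Agent.Lib.Pabc2.Count
import Pool.Agent.Lib.Pabc1.Cell
import Pool.Agent.Lib.Pabc1.Root

open Finset

namespace Pool.Agent.Lib.Pabc1

open Pool.Agent.Lib.Pabc2

theorem comp_pos {t : ℕ × ℕ} (h : IsT t) (l : Fin 3) : 0 < comp t l := by
  have h1 := h.1
  have h2 := h.pos2
  unfold comp
  split_ifs <;> omega

theorem comp_dvd_N (t : ℕ × ℕ) (l : Fin 3) : comp t l ∣ N t := by
  unfold comp N
  split_ifs
  · exact Dvd.dvd.mul_right (Dvd.intro _ rfl) _
  · exact Dvd.dvd.mul_right (Dvd.intro_left _ rfl) _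
  · exact Dvd.intro_left _ rfl

/-- If `p` divides the component with label `l` then `lab t p = l`. -/
theorem lab_of_dvd {t : ℕ × ℕ} (h : IsT t) {p : ℕ} (hp : p.Prime) {l : Fin 3}
    (hd : p ∣ comp t l) : lab t p = l := by
  have hcop := h.2.2
  have hl3 : l = 0 ∨ l = 1 ∨ l = 2 := by omega
  have h12 : ¬ (p ∣ t.1 ∧ p ∣ t.2) := fun ⟨h1, h2⟩ => hp.not_dvd_one (by
    have := Nat.dvd_gcd h1 h2
    rwa [hcop] at this)
  rcases hl3 with rfl | rfl | rfl
  · simp only [comp, if_true] at hd
    simp only [lab, hd, if_true]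
  · simp only [comp, one_ne_zero, if_false, if_true] at hd
    have h1 : ¬ p ∣ t.1 := fun h1 => h12 ⟨h1, hd⟩
    simp only [lab, h1, hd, if_true, if_false]
  · have e1 : (2 : Fin 3) ≠ 0 := by decide
    have e2 : (2 : Fin 3) ≠ 1 := by decide
    simp only [comp, e1, e2, if_false] at hd
    have h1 : ¬ p ∣ t.1 := fun h1 => h12 ⟨h1, (Nat.dvd_add_right h1).mp hd⟩
    have h2 : ¬ p ∣ t.2 := fun h2 => h12 ⟨(Nat.dvd_add_left h2).mp hd, h2⟩
    simp only [lab, h1, h2, if_false]

theorem comp_factorization {t : ℕ × ℕ} (h : IsT t) {p : ℕ} (hp : p.Prime) {l : Fin 3}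
    (hd : p ∣ comp t l) : (comp t l).factorization p = ex t p := by
  apply le_antisymm
  · unfold ex
    exact (Nat.factorization_le_iff_dvd (comp_pos h l).ne' h.N_ne).mpr (comp_dvd_N t l) p
  · have h1 := comp_dvd h hp
    rw [lab_of_dvd h hp hd] at h1
    exact (hp.pow_dvd_iff_le_factorization (comp_pos h l).ne').mp h1

theorem comp_primeFactors {t : ℕ × ℕ} (h : IsT t) (l : Fin 3) :
    (comp t l).primeFactors = (N t).primeFactors.filter (fun p => lab t p = l) := by
  ext p
  rw [Finset.mem_filter, Nat.mem_primeFactors, Nat.mem_primeFactors]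
  constructor
  · rintro ⟨hp, hd, _⟩
    exact ⟨⟨hp, hd.trans (comp_dvd_N t l), h.N_ne⟩, lab_of_dvd h hp hd⟩
  · rintro ⟨⟨hp, hd, _⟩, hl⟩
    refine ⟨hp, ?_, (comp_pos h l).ne'⟩
    have h1 := comp_dvd h hp
    rw [hl] at h1
    refine (dvd_pow_self p ?_).trans h1
    unfold ex
    exact (hp.factorization_pos_of_dvd h.N_ne hd).ne'

/-- Each component is the product of the prime powers with its label. -/
theorem comp_eq {t : ℕ × ℕ} (h : IsT t) (l : Fin 3) :
    comp t l = ∏ p ∈ (N t).primeFactors.filter (fun p => lab t p = l), p ^ ex t p := by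
  conv_lhs => rw [← Nat.prod_factorization_pow_eq_self (comp_pos h l).ne']
  rw [Finsupp.prod, Nat.support_factorization, comp_primeFactors h l]
  apply Finset.prod_congr rfl
  intro p hp
  rw [← comp_primeFactors h l, Nat.mem_primeFactors] at hp
  rw [comp_factorization h hp.1 hp.2.1]

theorem log_comp_eq {t : ℕ × ℕ} (h : IsT t) (l : Fin 3) :
    Real.log (comp t l) = ∑ p ∈ (N t).primeFactors.filter (fun p => lab t p = l),
      (ex t p : ℝ) * Real.log p := by
  rw [comp_eq h l]
  push_cast
  rw [Real.log_prod (fun p hp => by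
    rw [Finset.mem_filter] at hp
    have : (0 : ℝ) < p := by exact_mod_cast (Nat.prime_of_mem_primeFactors hp.1).pos
    positivity)]
  apply Finset.sum_congr rfl
  intro p _
  rw [Real.log_pow]

theorem log_comp_le {t : ℕ × ℕ} (h : IsT t) (l : Fin 3) : Real.log (comp t l) ≤ ht t := by
  unfold comp
  split_ifs
  · exact log_a_le h
  · exact log_b_le h
  · unfold ht
    push_cast
    rfl

/-- The key of the class: which component is the modulus. -/
def lM (l : Fin 3) : Fin 3 := if l = 2 then 1 else 2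

/-- The third label. -/
def lZ (l : Fin 3) : Fin 3 := if l = 0 then 1 else 0

/-- The sign. -/
def sg (l : Fin 3) : ℤ := if l = 2 then 1 else -1

theorem labels (l : Fin 3) : lM l ≠ l ∧ lZ l ≠ l ∧ lM l ≠ lZ l := by
  revert l
  decide

theorem sg_sq (l : Fin 3) : sg l * sg l = 1 := by
  revert l
  decide

theorem comp_rel {t : ℕ × ℕ} (l : Fin 3) :
    (comp t (lM l) : ℤ) ∣ (comp t l : ℤ) - sg l * (comp t (lZ l) : ℤ) := by
  have hl3 : l = 0 ∨ l = 1 ∨ l = 2 := by omega
  rcases hl3 with rfl | rfl | rfl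
  · simp only [lM, lZ, sg, comp]
    simp
  · simp only [lM, lZ, sg, comp]
    simp [add_comm]
  · simp only [lM, lZ, sg, comp]
    simp

theorem log_compM_ge {t : ℕ × ℕ} (h : IsT t) (l : Fin 3) :
    ht t - Real.log 2 ≤ Real.log (comp t (lM l)) := by
  have h2 : 0 < Real.log 2 := Real.log_pos (by norm_num)
  have hl3 : l = 0 ∨ l = 1 ∨ l = 2 := by omega
  have hcc : Real.log ((t.1 + t.2 : ℕ) : ℝ) = ht t := by
    unfold ht
    push_cast
    rfl
  rcases hl3 with rfl | rfl | rfl
  · have e : comp t (lM 0) = t.1 + t.2 := by simp [lM, comp]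
    rw [e, hcc]
    linarith
  · have e : comp t (lM 1) = t.1 + t.2 := by simp [lM, comp]
    rw [e, hcc]
    linarith
  · have e : comp t (lM 2) = t.2 := by simp [lM, comp]
    rw [e]
    exact log_b_ge h

/-- Within a class, the special prime determines the triple. -/
theorem class_inj (S : Finset ℕ) {t1 t2 : ℕ × ℕ} {R g : ℕ}
    (h1 : IsT t1) (h2 : IsT t2) (hR : R.Prime) (hRS : R ∉ S)
    (hp1 : (N t1).primeFactors = insert R S) (hp2 : (N t2).primeFactors = insert R S)
    (hg1 : ex t1 R = g) (hg2 : ex t2 R = g) (hl : lab t1 R = lab t2 R)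
    (hc : codeD 16 S t1 = codeD 16 S t2) (hh : codeH 16 (1 / 4) t1 = codeH 16 (1 / 4) t2)
    (hb1 : 100 ≤ ht t1) (hb2 : 100 ≤ ht t2) (hle : ht t1 ≤ ht t2) : t1 = t2 := by
  by_contra hne
  have H1 := ht_pos h1
  have H2 := ht_pos h2
  have ha : ⌊al t1 * (16 : ℕ)⌋₊ = ⌊al t2 * (16 : ℕ)⌋₊ := (Prod.ext_iff.mp hh).1
  have hb : ⌊Real.log (ht t1) / Real.log (1 + 1 / 4 / 4)⌋₊ =
    ⌊Real.log (ht t2) / Real.log (1 + 1 / 4 / 4)⌋₊ := (Prod.ext_iff.mp hh).2
  have hratio := ratio_of_floor_eq (by norm_num) (by linarith) (by linarith) hb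
  have hpt : ∀ p (_ : p ∈ S), lab t1 p = lab t2 p ∧
      ⌊u t1 p * ((16 : ℕ) * S.card)⌋₊ = ⌊u t2 p * ((16 : ℕ) * S.card)⌋₊ := by
    intro p hp
    have := congrFun (congrFun hc p) hp
    exact Prod.ext_iff.mp this
  have hsumS : ∑ p ∈ S, |u t1 p - u t2 p| ≤ 1 / 16 := by
    rcases S.eq_empty_or_nonempty with rfl | hne
    · simp
    · have hcard : (0 : ℝ) < S.card := by exact_mod_cast hne.card_pos
      calc ∑ p ∈ S, |u t1 p - u t2 p| ≤ ∑ _p ∈ S, 1 / ((16 : ℕ) * (S.card : ℝ)) := by
            apply Finset.sum_le_sum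
            intro p hp
            exact abs_sub_le_of_floor_eq (u_nonneg h1 p) (u_nonneg h2 p) (by positivity)
              (hpt p hp).2
        _ = 1 / 16 := by
            rw [Finset.sum_const, nsmul_eq_mul]
            field_simp
            norm_num
  have hlogR : 0 ≤ Real.log (R : ℝ) := Real.log_natCast_nonneg R
  have huR1 : u t1 R ≤ 1 := by
    unfold u
    rw [div_le_one H1]
    have hdv := comp_dvd h1 hR
    have hpos := comp_pos h1 (lab t1 R)
    have hle2 := Nat.le_of_dvd hpos hdv
    have h3 : Real.log ((R : ℝ) ^ ex t1 R) ≤ Real.log (comp t1 (lab t1 R)) := by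
      apply Real.log_le_log
      · have : (0 : ℝ) < R := by exact_mod_cast hR.pos
        positivity
      · exact_mod_cast hle2
    rw [Real.log_pow] at h3
    exact h3.trans (log_comp_le h1 _)
  have huR : |u t1 R - u t2 R| ≤ 1 / 16 := by
    have e1 : u t2 R * ht t2 = u t1 R * ht t1 := by
      unfold u
      rw [hg1, hg2]
      field_simp
    have e2 : u t2 R ≤ u t1 R := by
      have h0 := u_nonneg h2 R
      have h0' := u_nonneg h1 R
      by_contra hcon
      push Not at hcon
      nlinarith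
    rw [abs_of_nonneg (by linarith)]
    have h0 := u_nonneg h2 R
    -- (u1 - u2) ht1 ≤ (u1 ht1 - u2 ht1) = u2 (ht2 - ht1) ≤ u2 ht1 / 16
    have h3 : u t2 R * (ht t2 - ht t1) ≤ u t2 R * (1 / 16 * ht t1) := by
      apply mul_le_mul_of_nonneg_left _ h0
      linarith
    have h4 : (u t1 R - u t2 R) * ht t1 ≤ 1 / 16 * ht t1 := by
      calc (u t1 R - u t2 R) * ht t1 = u t2 R * (ht t2 - ht t1) := by rw [mul_sub, e1]; ring
        _ ≤ u t2 R * (1 / 16 * ht t1) := h3
        _ ≤ 1 * (1 / 16 * ht t1) := by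
            apply mul_le_mul_of_nonneg_right _ (by positivity)
            linarith
        _ = 1 / 16 * ht t1 := one_mul _
    exact le_of_mul_le_mul_right h4 H1
  have hclose : CloseD 1 (insert R S) t1 t2 := by
    refine ⟨h1, h2, ?_, ?_, ?_, ?_, ?_, ?_⟩
    · intro p hp
      rw [← hp1] at hp
      exact Nat.prime_of_mem_primeFactors hp
    · intro p hp
      rcases Finset.mem_insert.mp hp with rfl | hp
      · exact hl
      · exact (hpt p hp).1
    · rw [Finset.sum_insert hRS]
      linarith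
    · have := abs_sub_le_of_floor_eq (al_nonneg h1) (al_nonneg h2) (by norm_num) ha
      refine this.trans ?_
      norm_num
    · rw [← hp1, sum_u_eq h1]
      linarith
    · linarith
  exact hclose.gap (by norm_num) le_rfl hne hle (by linarith)

/-- The number of triples in a class. -/
theorem class_bound (S : Finset ℕ) (T : Finset (ℕ × ℕ)) (R : ℕ × ℕ → ℕ) (g : ℕ) (l : Fin 3)
    (hI : ∀ t ∈ T, IsT t) (hR : ∀ t ∈ T, (R t).Prime) (hRS : ∀ t ∈ T, R t ∉ S)
    (hpf : ∀ t ∈ T, (N t).primeFactors = insert (R t) S)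
    (hg : ∀ t ∈ T, ex t (R t) = g) (hl : ∀ t ∈ T, lab t (R t) = l)
    (hc : ∀ t ∈ T, ∀ t' ∈ T, codeD 16 S t = codeD 16 S t')
    (hh : ∀ t ∈ T, ∀ t' ∈ T, codeH 16 (1 / 4) t = codeH 16 (1 / 4) t')
    (ℓ : ℕ) (hℓ : 1 ≤ ℓ) (hgℓ : 20 * ℓ ≤ g) (hbig : ∀ t ∈ T, 100 ≤ ht t) :
    T.card.choose ℓ ≤ g ^ S.card * (4 * ∏ p ∈ S, p) ^ 2 := by
  classical
  rcases T.eq_empty_or_nonempty with rfl | hne
  · rw [Finset.card_empty, Nat.choose_eq_zero_of_lt (by omega)]
    exact Nat.zero_le _
  obtain ⟨t0, ht0, hmin⟩ := Finset.exists_min_image T ht hne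
  have H0 := ht_pos (hI t0 ht0)
  have hSp : ∀ p ∈ S, p.Prime := by
    intro p hp
    have : p ∈ (N t0).primeFactors := by rw [hpf t0 ht0]; exact Finset.mem_insert_of_mem hp
    exact Nat.prime_of_mem_primeFactors this
  have hpt : ∀ t ∈ T, ∀ p ∈ S, lab t p = lab t0 p ∧
      ⌊u t p * ((16 : ℕ) * S.card)⌋₊ = ⌊u t0 p * ((16 : ℕ) * S.card)⌋₊ := by
    intro t ht' p hp
    have := congrFun (congrFun (hc t ht' t0 ht0) p) hp
    exact Prod.ext_iff.mp this
  have hratio : ∀ t ∈ T, ht t ≤ 17 / 16 * ht t0 := by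
    intro t ht'
    have hb : ⌊Real.log (ht t0) / Real.log (1 + 1 / 4 / 4)⌋₊ =
      ⌊Real.log (ht t) / Real.log (1 + 1 / 4 / 4)⌋₊ := (Prod.ext_iff.mp (hh t0 ht0 t ht')).2
    have h1 := hbig t ht'
    have h2 := hbig t0 ht0
    have := ratio_of_floor_eq (by norm_num) (by linarith) (by linarith) hb
    linarith
  -- injectivity
  have hinj : Set.InjOn R (T : Set (ℕ × ℕ)) := by
    intro t1 h1 t2 h2 he
    have h1' : t1 ∈ T := h1
    have h2' : t2 ∈ T := h2
    rcases le_total (ht t1) (ht t2) with hle | hle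
    · exact class_inj S (g := g) (hI t1 h1') (hI t2 h2') (hR t1 h1') (hRS t1 h1') (hpf t1 h1')
        (by rw [he]; exact hpf t2 h2') (hg t1 h1') (by rw [he]; exact hg t2 h2')
        (by rw [hl t1 h1', he, hl t2 h2']) (hc t1 h1' t2 h2') (hh t1 h1' t2 h2')
        (hbig t1 h1') (hbig t2 h2') hle
    · exact (class_inj S (g := g) (hI t2 h2') (hI t1 h1') (hR t2 h2') (hRS t2 h2') (hpf t2 h2')
        (by rw [← he]; exact hpf t1 h1') (hg t2 h2') (by rw [← he]; exact hg t1 h1')
        (by rw [hl t2 h2', ← he, hl t1 h1']) (hc t2 h2' t1 h1') (hh t2 h2' t1 h1')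
        (hbig t2 h2') (hbig t1 h1') hle).symm
  set X := S.filter (fun p => lab t0 p = l) with hX
  set Z := S.filter (fun p => lab t0 p = lZ l) with hZ
  set SM := S.filter (fun p => lab t0 p = lM l) with hSM
  obtain ⟨hMl, hZl, hMZ⟩ := labels l
  set m : ℕ → ℕ := fun p => T.inf' hne (fun t => ex t p) with hm
  set M : ℕ := ∏ p ∈ SM, p ^ m p with hM
  -- the components
  have hcompl : ∀ t ∈ T, comp t l = R t ^ g * ∏ p ∈ X, p ^ ex t p := by
    intro t ht'
    rw [comp_eq (hI t ht') l, hpf t ht', Finset.filter_insert, if_pos (hl t ht')]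
    rw [Finset.prod_insert (fun hmem => hRS t ht' (Finset.mem_filter.mp hmem).1), hg t ht']
    congr 1
    apply Finset.prod_congr _ (fun _ _ => rfl)
    rw [hX]
    apply Finset.filter_congr
    intro p hp
    rw [(hpt t ht' p hp).1]
  have hcompo : ∀ t ∈ T, ∀ l' : Fin 3, l' ≠ l →
      comp t l' = ∏ p ∈ S.filter (fun p => lab t0 p = l'), p ^ ex t p := by
    intro t ht' l' hl'
    rw [comp_eq (hI t ht') l', hpf t ht', Finset.filter_insert, if_neg (by
      rw [hl t ht']; exact fun h => hl' h.symm)]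
    apply Finset.prod_congr _ (fun _ _ => rfl)
    apply Finset.filter_congr
    intro p hp
    rw [(hpt t ht' p hp).1]
  have hMdvd : ∀ t ∈ T, M ∣ comp t (lM l) := by
    intro t ht'
    rw [hcompo t ht' (lM l) hMl, hM]
    apply Finset.prod_dvd_prod_of_dvd
    intro p _
    exact pow_dvd_pow p (Finset.inf'_le _ ht')
  have hdiv : ∀ t ∈ T, (M : ℤ) ∣ ((R t ^ g * ∏ p ∈ X, p ^ ex t p : ℕ) : ℤ) -
      sg l * ((∏ p ∈ Z, p ^ ex t p : ℕ) : ℤ) := by
    intro t ht'
    rw [← hcompl t ht', hZ, ← hcompo t ht' (lZ l) hZl]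
    exact (Int.natCast_dvd_natCast.mpr (hMdvd t ht')).trans (comp_rel l)
  have hg20 : 20 ≤ g := by omega
  have hg0 : 0 < g := by omega
  have hXS : X ⊆ S := Finset.filter_subset _ _
  have hZS : Z ⊆ S := Finset.filter_subset _ _
  have hcop : ∀ q : ℕ, q.Prime → (q ∉ SM) → q.Coprime M := by
    intro q hq hqM
    rw [hM]
    apply Nat.Coprime.prod_right
    intro p hp
    apply Nat.Coprime.pow_right
    rw [Nat.coprime_primes hq (hSp p (Finset.mem_filter.mp hp).1)]
    intro h
    exact hqM (h ▸ hp)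
  -- the bound
  have key := root_bound T X Z (fun p hp => hSp p (hXS hp)) (fun p hp => hSp p (hZS hp)) R hR hinj
    (fun t ht' h => hRS t ht' (hXS h)) (fun t ht' h => hRS t ht' (hZS h)) M
    (fun p hp => hcop p (hSp p (hXS hp)) (fun h => by
      rw [hX, Finset.mem_filter] at hp
      rw [hSM, Finset.mem_filter] at h
      exact hMl (h.2.symm.trans hp.2)))
    (fun p hp => hcop p (hSp p (hZS hp)) (fun h => by
      rw [hZ, Finset.mem_filter] at hp
      rw [hSM, Finset.mem_filter] at h
      exact hMZ (h.2.symm.trans hp.2)))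
    (fun t ht' => hcop (R t) (hR t ht') (fun h => hRS t ht' (Finset.mem_filter.mp h).1))
    ex g hg0 (sg l) (sg_sq l) hdiv (4 * ∏ p ∈ S, p)
    (Nat.mul_pos (by norm_num) (Finset.prod_pos (fun p hp => (hSp p hp).pos)))
    (Dvd.intro _ rfl) (by
      intro p hp hpM
      rw [hM] at hpM
      obtain ⟨q, hq, hqd⟩ := (hp.prime.dvd_finsetProd_iff _).mp hpM
      have hqS := (Finset.mem_filter.mp hq).1
      have := (Nat.prime_dvd_prime_iff_eq hp (hSp q hqS)).mp (hp.dvd_of_dvd_pow hqd)
      rw [this]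
      exact Dvd.dvd.mul_left (Finset.dvd_prod_of_mem (fun p => p) hqS) _)
    ℓ (17 / 16 * ht t0) (by
      intro t ht'
      have h1 := log_comp_le (hI t ht') l
      rw [hcompl t ht'] at h1
      push_cast at h1
      have hRp : (0 : ℝ) < R t := by exact_mod_cast (hR t ht').pos
      have hpp : ∀ p ∈ X, (p : ℝ) ^ ex t p ≠ 0 := fun p hp => by
        have : (0 : ℝ) < p := by exact_mod_cast (hSp p (hXS hp)).pos
        positivity
      rw [Real.log_mul (by positivity) (Finset.prod_ne_zero_iff.mpr hpp), Real.log_pow,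
        Real.log_prod hpp] at h1
      have h2 : ∑ p ∈ X, Real.log ((p : ℝ) ^ ex t p) = ∑ p ∈ X, (ex t p : ℝ) * Real.log p :=
        Finset.sum_congr rfl (fun p _ => Real.log_pow _ _)
      rw [h2] at h1
      exact h1.trans (hratio t ht')) (by
      intro t ht'
      have h1 := log_comp_le (hI t ht') (lZ l)
      rw [hcompo t ht' (lZ l) hZl, ← hZ] at h1
      push_cast at h1
      have hpp : ∀ p ∈ Z, (p : ℝ) ^ ex t p ≠ 0 := fun p hp => by
        have : (0 : ℝ) < p := by exact_mod_cast (hSp p (hZS hp)).pos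
        positivity
      rw [Real.log_prod hpp] at h1
      have h2 : ∑ p ∈ Z, Real.log ((p : ℝ) ^ ex t p) = ∑ p ∈ Z, (ex t p : ℝ) * Real.log p :=
        Finset.sum_congr rfl (fun p _ => Real.log_pow _ _)
      rw [h2] at h1
      exact h1.trans (hratio t ht')) (by
      -- the size of M
      have hgR : (0 : ℝ) < g := by exact_mod_cast hg0
      have hl2 : Real.log 2 ≤ 7 / 10 := log_two_bd
      have hl2' : 1 / 2 ≤ Real.log 2 := by linarith [Real.log_two_gt_d9]
      have hb0 := hbig t0 ht0
      have hlogM : 15 / 16 * ht t0 - Real.log 2 ≤ Real.log M := by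
        have e1 : Real.log M = ∑ p ∈ SM, (m p : ℝ) * Real.log p := by
          rw [hM]
          push_cast
          rw [Real.log_prod (fun p hp => by
            have : (0 : ℝ) < p := by exact_mod_cast (hSp p (Finset.mem_filter.mp hp).1).pos
            positivity)]
          exact Finset.sum_congr rfl (fun p _ => Real.log_pow _ _)
        have e2 : Real.log (comp t0 (lM l)) = ∑ p ∈ SM, u t0 p * ht t0 := by
          rw [hcompo t0 ht0 (lM l) hMl]
          push_cast
          rw [Real.log_prod (fun p hp => by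
            have : (0 : ℝ) < p := by exact_mod_cast (hSp p (Finset.mem_filter.mp hp).1).pos
            positivity)]
          apply Finset.sum_congr rfl
          intro p _
          rw [Real.log_pow]
          unfold u
          field_simp
        have e3 := log_compM_ge (hI t0 ht0) l
        rw [e2] at e3
        rw [e1]
        have hterm : ∀ p ∈ SM, u t0 p * ht t0 - 1 / (16 * S.card) * ht t0 ≤
            (m p : ℝ) * Real.log p := by
          intro p hp
          have hpS := (Finset.mem_filter.mp hp).1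
          have hScard : (0 : ℝ) < S.card := by exact_mod_cast Finset.card_pos.mpr ⟨p, hpS⟩
          obtain ⟨t, ht', hmt⟩ := Finset.exists_mem_eq_inf' hne (fun t => ex t p)
          have hmt' : m p = ex t p := hmt
          rw [hmt']
          have e4 : (ex t p : ℝ) * Real.log p = u t p * ht t := by
            have := ht_pos (hI t ht')
            unfold u
            field_simp
          rw [e4]
          have h3 := abs_sub_le_of_floor_eq (u_nonneg (hI t ht') p) (u_nonneg (hI t0 ht0) p)
            (by positivity) (hpt t ht' p hpS).2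
          have h4 := (abs_le.mp h3).1
          push_cast at h4
          have h5 := u_nonneg (hI t ht') p
          have h6 := hmin t ht'
          calc u t0 p * ht t0 - 1 / (16 * S.card) * ht t0 =
              (u t0 p - 1 / (16 * S.card)) * ht t0 := by ring
            _ ≤ u t p * ht t0 := mul_le_mul_of_nonneg_right (by linarith) H0.le
            _ ≤ u t p * ht t := mul_le_mul_of_nonneg_left h6 h5
        refine le_trans ?_ (Finset.sum_le_sum hterm)
        rw [Finset.sum_sub_distrib, Finset.sum_const, nsmul_eq_mul]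
        have h7 : (SM.card : ℝ) * (1 / (16 * S.card) * ht t0) ≤ 1 / 16 * ht t0 := by
          rcases S.eq_empty_or_nonempty with hSe | hSne
          · rw [hSM, hSe]
            simp
            positivity
          · have hScard : (0 : ℝ) < S.card := by exact_mod_cast hSne.card_pos
            have hle : (SM.card : ℝ) ≤ S.card := by
              exact_mod_cast Finset.card_le_card (Finset.filter_subset _ _)
            calc (SM.card : ℝ) * (1 / (16 * S.card) * ht t0) ≤
                S.card * (1 / (16 * S.card) * ht t0) :=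
                  mul_le_mul_of_nonneg_right hle (by positivity)
              _ = 1 / 16 * ht t0 := by field_simp
        linarith
      have hgle : (g : ℝ) ≤ 2 * ht t0 := by
        have h1 := log_comp_le (hI t0 ht0) l
        have hdv : R t0 ^ g ∣ comp t0 l := by rw [hcompl t0 ht0]; exact Dvd.intro _ rfl
        have h2 := Nat.le_of_dvd (comp_pos (hI t0 ht0) l) hdv
        have h3 : 2 ^ g ≤ comp t0 l := (Nat.pow_le_pow_left (hR t0 ht0).two_le g).trans h2
        have h4 : Real.log ((2 : ℝ) ^ g) ≤ Real.log (comp t0 l) := by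
          apply Real.log_le_log (by positivity)
          exact_mod_cast h3
        rw [Real.log_pow] at h4
        nlinarith
      have hlogg : Real.log g ≤ ht t0 / 4 := by
        have h1 : Real.log g ≤ Real.log (2 * ht t0) := Real.log_le_log hgR hgle
        have h2 : Real.log (2 * ht t0) = Real.log (ht t0 / 8) + 4 * Real.log 2 := by
          have : Real.log ((2 : ℝ) ^ 4) = 4 * Real.log 2 := by
            rw [Real.log_pow]; norm_num
          rw [← this, ← Real.log_mul (by positivity) (by norm_num)]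
          congr 1
          ring
        have h3 := Real.log_le_sub_one_of_pos (show 0 < ht t0 / 8 by positivity)
        linarith
      have hlterm : 2 * (ℓ : ℝ) * (17 / 16 * ht t0) / g ≤ 17 / 160 * ht t0 := by
        rw [div_le_iff₀ hgR]
        have : (20 : ℝ) * ℓ ≤ g := by exact_mod_cast hgℓ
        nlinarith
      linarith)
  refine key.trans ?_
  apply Nat.mul_le_mul_right
  apply Nat.pow_le_pow_right hg0
  exact Finset.card_le_card (Finset.union_subset hXS hZS)

end Pool.Agent.Lib.Pabc1
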