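import Mathlib
import Pool.Agent.Lib.Pabc1.RClass
import Pool.Agent.Lib.Pabc1.Light

open Finset Filter Topology

namespace Pool.Agent.Lib.Pabc1

open Pool.Agent.Lib.Pabc2

theorem ev_log_pow_le (C D η : ℝ) (hη : 0 < η) :
    ∀ᶠ n : ℕ in atTop, C * Real.log n ^ D ≤ (n : ℝ) ^ η := by
  have h1 : Tendsto (fun x : ℝ => Real.log x ^ D / x ^ η) atTop (𝓝 0) :=
    (isLittleO_log_rpow_rpow_atTop D hη).tendsto_div_nhds_zero
  have h2 := h1.const_mul C
  rw [mul_zero] at h2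
  have h3 : ∀ᶠ x : ℝ in atTop, C * Real.log x ^ D ≤ x ^ η := by
    filter_upwards [h2.eventually (gt_mem_nhds one_pos), eventually_gt_atTop 0] with x hx hx0
    have hp : 0 < x ^ η := Real.rpow_pos_of_pos hx0 η
    have e : C * (Real.log x ^ D / x ^ η) * x ^ η = C * Real.log x ^ D := by
      field_simp
    rw [← e]
    nlinarith
  exact tendsto_natCast_atTop_atTop.eventually h3

/-- From a bound for a binomial coefficient to a bound for its upper index. -/
theorem card_le_of_choose_le {m ℓ : ℕ} (hℓ : 1 ≤ ℓ) {Λ : ℝ} (hΛ : 0 ≤ Λ)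
    (h : (m.choose ℓ : ℝ) ≤ Real.exp (ℓ * Λ)) : (m : ℝ) ≤ 2 * ℓ * Real.exp Λ := by
  have hℓ0 : (0 : ℝ) < ℓ := by exact_mod_cast hℓ
  have hE : 1 ≤ Real.exp Λ := Real.one_le_exp hΛ
  rcases Nat.lt_or_ge m ℓ with hm | hm
  · have : (m : ℝ) ≤ ℓ := by exact_mod_cast hm.le
    nlinarith
  have h1 := Nat.pow_le_choose (α := ℝ) ℓ m
  have hf : (0 : ℝ) < (ℓ.factorial : ℝ) := by exact_mod_cast ℓ.factorial_pos
  have hfle : (ℓ.factorial : ℝ) ≤ (ℓ : ℝ) ^ ℓ := by exact_mod_cast ℓ.factorial_le_pow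
  rw [div_le_iff₀ hf] at h1
  have h2 : (((m + 1 - ℓ : ℕ) : ℝ)) ^ ℓ ≤ ((ℓ : ℝ) * Real.exp Λ) ^ ℓ := by
    calc (((m + 1 - ℓ : ℕ) : ℝ)) ^ ℓ ≤ (m.choose ℓ : ℝ) * ℓ.factorial := by exact_mod_cast h1
      _ ≤ Real.exp (ℓ * Λ) * (ℓ : ℝ) ^ ℓ := by gcongr
      _ = ((ℓ : ℝ) * Real.exp Λ) ^ ℓ := by
          rw [mul_pow, ← Real.exp_nat_mul, mul_comm]
  have h3 : ((m + 1 - ℓ : ℕ) : ℝ) ≤ (ℓ : ℝ) * Real.exp Λ :=
    le_of_pow_le_pow_left₀ (by omega) (by positivity) h2
  have h4 : ((m + 1 - ℓ : ℕ) : ℝ) = (m : ℝ) + 1 - ℓ := by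
    rw [Nat.cast_sub (by omega)]
    push_cast
    ring
  rw [h4] at h3
  nlinarith

/-- The class bound, analytic form. -/
theorem class_card_le (n : ℕ) (θ : ℝ) (hθ : 0 ≤ θ) (hn : 4 ≤ Real.log n)
    (S : Finset ℕ) (T : Finset (ℕ × ℕ)) (R : ℕ × ℕ → ℕ) (g : ℕ) (l : Fin 3)
    (hI : ∀ t ∈ T, IsT t) (hR : ∀ t ∈ T, R t ∈ (N t).primeFactors)
    (hrd : ∀ t ∈ T, rd t ≤ n) (hht : ∀ t ∈ T, ht t ≤ (n : ℝ) ^ θ)
    (hS : ∀ t ∈ T, (N t).primeFactors.erase (R t) = S)
    (hg : ∀ t ∈ T, ex t (R t) = g) (hl : ∀ t ∈ T, lab t (R t) = l)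
    (hc : ∀ t ∈ T, ∀ t' ∈ T, codeD 16 S t = codeD 16 S t')
    (hh : ∀ t ∈ T, ∀ t' ∈ T, codeH 16 (1 / 4) t = codeH 16 (1 / 4) t')
    (K : ℝ) (hK : 0 < K) (hgℓ : 20 * ⌈K * Real.log n⌉₊ ≤ g) (hbig : ∀ t ∈ T, 100 ≤ ht t) :
    (T.card : ℝ) ≤ 2 * ⌈K * Real.log n⌉₊ * (n : ℝ) ^ (2 * (θ + 1) / K) := by
  classical
  set x := Real.log (n : ℝ) with hx
  set ℓ := ⌈K * x⌉₊ with hℓ
  have hx0 : 0 < x := by linarith
  have hn0 : (0 : ℝ) < n := by
    rcases Nat.eq_zero_or_pos n with h | h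
    · rw [h] at hx
      simp at hx
      linarith
    · exact_mod_cast h
  have hℓ1 : 1 ≤ ℓ := by
    rw [hℓ, Nat.one_le_ceil_iff]
    positivity
  have hℓ0 : (0 : ℝ) < ℓ := by exact_mod_cast hℓ1
  have hℓge : K * x ≤ ℓ := Nat.le_ceil _
  rcases T.eq_empty_or_nonempty with hTe | hne
  · rw [hTe]
    simp only [Finset.card_empty, Nat.cast_zero]
    positivity
  obtain ⟨t0, ht0⟩ := hne
  have hRS : ∀ t ∈ T, R t ∉ S := by
    intro t ht'
    rw [← hS t ht']
    exact Finset.notMem_erase _ _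
  have hpf : ∀ t ∈ T, (N t).primeFactors = insert (R t) S := by
    intro t ht'
    rw [← hS t ht', Finset.insert_erase (hR t ht')]
  have hRp : ∀ t ∈ T, (R t).Prime := fun t ht' => Nat.prime_of_mem_primeFactors (hR t ht')
  have key := class_bound S T R g l hI hRp hRS hpf hg hl hc hh ℓ hℓ1 hgℓ hbig
  have hSp : ∀ p ∈ S, p.Prime := by
    intro p hp
    have : p ∈ (N t0).primeFactors := by rw [hpf t0 ht0]; exact Finset.mem_insert_of_mem hp
    exact Nat.prime_of_mem_primeFactors this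
  have hprodS : ∏ p ∈ S, p ≤ n := by
    refine le_trans ?_ (hrd t0 ht0)
    unfold rd
    apply Finset.prod_le_prod_of_subset_of_one_le'
    · rw [hpf t0 ht0]; exact Finset.subset_insert _ _
    · intro p hp _
      exact (Nat.prime_of_mem_primeFactors hp).one_lt.le
  have hprodS0 : 0 < ∏ p ∈ S, p := Finset.prod_pos (fun p hp => (hSp p hp).pos)
  have hl2 : Real.log 2 ≤ 7 / 10 := log_two_bd
  have hl2' : 69 / 100 ≤ Real.log 2 := by linarith [Real.log_two_gt_d9]
  have hScard : (S.card : ℝ) ≤ 3 / 2 * x := by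
    have h1 : 2 ^ S.card ≤ ∏ p ∈ S, p := Finset.pow_card_le_prod S _ 2 (fun p hp => (hSp p hp).two_le)
    have h2 : Real.log ((2 : ℝ) ^ S.card) ≤ x := by
      apply Real.log_le_log (by positivity)
      exact_mod_cast h1.trans hprodS
    rw [Real.log_pow] at h2
    nlinarith
  have hgle : (g : ℝ) ≤ 2 * (n : ℝ) ^ θ := by
    have h1 := log_comp_le (hI t0 ht0) l
    have hdv : R t0 ^ g ∣ comp t0 l := by
      have := comp_dvd (hI t0 ht0) (hRp t0 ht0)
      rwa [hg t0 ht0, hl t0 ht0] at this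
    have h2 := Nat.le_of_dvd (comp_pos (hI t0 ht0) l) hdv
    have h3 : 2 ^ g ≤ comp t0 l := (Nat.pow_le_pow_left (hRp t0 ht0).two_le g).trans h2
    have h4 : Real.log ((2 : ℝ) ^ g) ≤ Real.log (comp t0 l) := by
      apply Real.log_le_log (by positivity)
      exact_mod_cast h3
    rw [Real.log_pow] at h4
    have h5 := hht t0 ht0
    have h6 : (0 : ℝ) ≤ g := Nat.cast_nonneg g
    nlinarith
  have hg1 : 1 ≤ g := by omega
  have hg1' : (1 : ℝ) ≤ g := by exact_mod_cast hg1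
  have hlogg : Real.log g ≤ 7 / 10 + θ * x := by
    have h1 : Real.log g ≤ Real.log (2 * (n : ℝ) ^ θ) := Real.log_le_log (by linarith) hgle
    rw [Real.log_mul (by norm_num) (by positivity), Real.log_rpow hn0] at h1
    linarith
  have hlog0 : 0 ≤ Real.log (g : ℝ) := Real.log_nonneg hg1'
  have hexp : (T.card.choose ℓ : ℝ) ≤ Real.exp (ℓ * (2 * (θ + 1) / K * x)) := by
    have h1 : (T.card.choose ℓ : ℝ) ≤ (g : ℝ) ^ S.card * (4 * n) ^ 2 := by
      calc (T.card.choose ℓ : ℝ) ≤ (g : ℝ) ^ S.card * (4 * ((∏ p ∈ S, p : ℕ) : ℝ)) ^ 2 := by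
            exact_mod_cast key
        _ ≤ (g : ℝ) ^ S.card * (4 * n) ^ 2 := by
            have : ((∏ p ∈ S, p : ℕ) : ℝ) ≤ n := by exact_mod_cast hprodS
            gcongr
    refine h1.trans ?_
    rw [← Real.log_le_iff_le_exp (by positivity), Real.log_mul (by positivity) (by positivity),
      Real.log_pow, Real.log_pow, Real.log_mul (by norm_num) hn0.ne', ← hx]
    have h4 : Real.log 4 ≤ 14 / 10 := by
      have : Real.log 4 = 2 * Real.log 2 := by
        rw [show (4 : ℝ) = 2 ^ 2 by norm_num, Real.log_pow]; norm_num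
      linarith
    have h5 : (S.card : ℝ) * Real.log g ≤ 3 / 2 * x * (7 / 10 + θ * x) := by
      apply mul_le_mul hScard hlogg hlog0 (by positivity)
    have h6 : 2 * (θ + 1) * x * x ≤ ℓ * (2 * (θ + 1) / K * x) := by
      have : ℓ * (2 * (θ + 1) / K * x) = (ℓ / K) * (2 * (θ + 1) * x) := by field_simp
      rw [this]
      have h7 : x ≤ ℓ / K := by
        rw [le_div_iff₀ hK]
        linarith
      calc 2 * (θ + 1) * x * x = x * (2 * (θ + 1) * x) := by ring
        _ ≤ (ℓ / K) * (2 * (θ + 1) * x) := mul_le_mul_of_nonneg_right h7 (by positivity)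
    refine le_trans ?_ h6
    have h8 : (4 : ℝ) * x ≤ x * x := by nlinarith
    have h9 : 0 ≤ θ * x * x := by positivity
    push_cast
    nlinarith
  have hΛ : 0 ≤ 2 * (θ + 1) / K * x := by positivity
  have h9 := card_le_of_choose_le hℓ1 hΛ hexp
  have h10 : Real.exp (2 * (θ + 1) / K * x) = (n : ℝ) ^ (2 * (θ + 1) / K) := by
    rw [Real.rpow_def_of_pos hn0, mul_comm, hx]
  rw [h10] at h9
  exact h9

/-- Triples with a given complement `S` of the special prime. -/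
theorem fibre_card_le (n : ℕ) (θ : ℝ) (hθ : 0 ≤ θ) (hn : 4 ≤ Real.log n)
    (S : Finset ℕ) (T : Finset (ℕ × ℕ)) (R : ℕ × ℕ → ℕ)
    (hI : ∀ t ∈ T, IsT t) (hR : ∀ t ∈ T, R t ∈ (N t).primeFactors)
    (hrd : ∀ t ∈ T, rd t ≤ n) (hht : ∀ t ∈ T, ht t ≤ (n : ℝ) ^ θ)
    (hS : ∀ t ∈ T, (N t).primeFactors.erase (R t) = S)
    (K : ℝ) (hK : 0 < K) (hg : ∀ t ∈ T, 20 * ⌈K * Real.log n⌉₊ ≤ ex t (R t))
    (hbig : ∀ t ∈ T, 100 ≤ ht t) :
    (T.card : ℝ) ≤ (2 * ⌈K * Real.log n⌉₊ * (n : ℝ) ^ (2 * (θ + 1) / K)) *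
      (51 * (θ * Real.log n / Real.log (17 / 16) + 1) * (2 * (n : ℝ) ^ θ + 1)) *
        BconD 16 ^ S.card := by
  classical
  set x := Real.log (n : ℝ) with hx
  have hx0 : 0 < x := by linarith
  have hn0 : (0 : ℝ) < n := by
    rcases Nat.eq_zero_or_pos n with h | h
    · rw [h] at hx
      simp at hx
      linarith
    · exact_mod_cast h
  set B0 : ℝ := 2 * ⌈K * x⌉₊ * (n : ℝ) ^ (2 * (θ + 1) / K) with hB0
  have hB00 : 0 ≤ B0 := by positivity
  have hl17 : 0 < Real.log (17 / 16) := Real.log_pos (by norm_num)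
  set L : ℕ := ⌊θ * x / Real.log (17 / 16)⌋₊ with hL
  set G : ℕ := ⌊2 * (n : ℝ) ^ θ⌋₊ with hG
  set f : ℕ × ℕ → ((p : ℕ) → p ∈ S → Fin 3 × ℕ) × (ℕ × ℕ) × ℕ × Fin 3 :=
    fun t => (codeD 16 S t, codeH 16 (1 / 4) t, ex t (R t), lab t (R t)) with hf
  set C1 := T.image (codeD 16 S) with hC1
  have h1 : T.card ≤ ⌊B0⌋₊ * (T.image f).card := by
    apply Finset.card_le_mul_card_image
    intro c hc
    rw [Finset.mem_image] at hc
    obtain ⟨t0, ht0, rfl⟩ := hc
    apply Nat.le_floor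
    have hm : ∀ t ∈ T.filter (fun a => f a = f t0), t ∈ T ∧ f t = f t0 := by
      intro t h
      rwa [Finset.mem_filter] at h
    apply class_card_le n θ hθ hn S (T.filter (fun a => f a = f t0)) R (ex t0 (R t0))
      (lab t0 (R t0))
    · exact fun t h => hI t (hm t h).1
    · exact fun t h => hR t (hm t h).1
    · exact fun t h => hrd t (hm t h).1
    · exact fun t h => hht t (hm t h).1
    · exact fun t h => hS t (hm t h).1
    · intro t h
      have := (hm t h).2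
      simp only [hf, Prod.mk.injEq] at this
      exact this.2.2.1
    · intro t h
      have := (hm t h).2
      simp only [hf, Prod.mk.injEq] at this
      exact this.2.2.2
    · intro t h t' h'
      have e1 := (hm t h).2
      have e2 := (hm t' h').2
      simp only [hf, Prod.mk.injEq] at e1 e2
      rw [e1.1, e2.1]
    · intro t h t' h'
      have e1 := (hm t h).2
      have e2 := (hm t' h').2
      simp only [hf, Prod.mk.injEq] at e1 e2
      rw [e1.2.1, e2.2.1]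
    · exact hK
    · exact hg t0 ht0
    · exact fun t h => hbig t (hm t h).1
  have hSsub : ∀ t ∈ T, S ⊆ (N t).primeFactors := by
    intro t ht'
    rw [← hS t ht']
    exact Finset.erase_subset _ _
  have h2 : (T.image f) ⊆ C1 ×ˢ ((Finset.range 17 ×ˢ Finset.range (L + 1)) ×ˢ
      (Finset.range (G + 1) ×ˢ (Finset.univ : Finset (Fin 3)))) := by
    intro c hc
    rw [Finset.mem_image] at hc
    obtain ⟨t, ht', rfl⟩ := hc
    have hh0 := ht_pos (hI t ht')
    simp only [Finset.mem_product, hf]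
    refine ⟨Finset.mem_image_of_mem _ ht', ⟨?_, ?_⟩, ?_, Finset.mem_univ _⟩
    · rw [Finset.mem_range]
      simp only [codeH]
      have ha := al_le_one (hI t ht')
      have : ⌊al t * (16 : ℕ)⌋₊ ≤ 16 := by
        apply Nat.floor_le_of_le
        push_cast
        linarith
      omega
    · rw [Finset.mem_range, Nat.lt_succ_iff]
      simp only [codeH]
      rw [hL]
      apply Nat.floor_le_floor
      rw [show (1 : ℝ) + 1 / 4 / 4 = 17 / 16 by norm_num]
      apply div_le_div_of_nonneg_right _ hl17.le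
      calc Real.log (ht t) ≤ Real.log ((n : ℝ) ^ θ) := Real.log_le_log hh0 (hht t ht')
        _ = θ * x := Real.log_rpow hn0 θ
    · rw [Finset.mem_range, Nat.lt_succ_iff]
      apply Nat.le_floor
      have hRp := Nat.prime_of_mem_primeFactors (hR t ht')
      have h1 := log_comp_le (hI t ht') (lab t (R t))
      have hdv := comp_dvd (hI t ht') hRp
      have h2 := Nat.le_of_dvd (comp_pos (hI t ht') _) hdv
      have h3 : 2 ^ ex t (R t) ≤ comp t (lab t (R t)) :=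
        (Nat.pow_le_pow_left hRp.two_le _).trans h2
      have h4 : Real.log ((2 : ℝ) ^ ex t (R t)) ≤ Real.log (comp t (lab t (R t))) := by
        apply Real.log_le_log (by positivity)
        exact_mod_cast h3
      rw [Real.log_pow] at h4
      have h5 := hht t ht'
      have h6 : (0 : ℝ) ≤ ex t (R t) := Nat.cast_nonneg _
      have hl2' : 69 / 100 ≤ Real.log 2 := by linarith [Real.log_two_gt_d9]
      nlinarith
  have h3 : ((T.image f).card : ℝ) ≤ C1.card * ((17 * (L + 1)) * ((G + 1) * 3)) := by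
    have := Finset.card_le_card h2
    rw [Finset.card_product, Finset.card_product, Finset.card_product, Finset.card_product,
      Finset.card_range, Finset.card_range, Finset.card_range, Finset.card_univ,
      Fintype.card_fin] at this
    exact_mod_cast this
  have h4 : (C1.card : ℝ) ≤ BconD 16 ^ S.card := by
    apply card_codesD_le
    intro c hc
    rw [hC1, Finset.mem_image] at hc
    obtain ⟨t, ht', rfl⟩ := hc
    simp only [codeD]
    rw [Finset.sum_attach S (fun p => ⌊u t p * ((16 : ℕ) * S.card)⌋₊)]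
    have hu := sum_u_le (hI t ht') (hSsub t ht')
    have h5 : ((∑ p ∈ S, ⌊u t p * ((16 : ℕ) * S.card)⌋₊ : ℕ) : ℝ) ≤
        ((3 * 16 * S.card : ℕ) : ℝ) := by
      push_cast
      calc ∑ p ∈ S, (⌊u t p * (16 * S.card)⌋₊ : ℝ) ≤ ∑ p ∈ S, u t p * (16 * S.card) := by
            apply Finset.sum_le_sum
            intro p _
            apply Nat.floor_le
            have := u_nonneg (hI t ht') p
            positivity
        _ = (∑ p ∈ S, u t p) * (16 * S.card) := by rw [Finset.sum_mul]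
        _ ≤ 3 * (16 * S.card) := by gcongr
        _ ≤ _ := by linarith
    exact_mod_cast h5
  have hLle : (L : ℝ) ≤ θ * x / Real.log (17 / 16) := Nat.floor_le (by positivity)
  have hGle : (G : ℝ) ≤ 2 * (n : ℝ) ^ θ := Nat.floor_le (by positivity)
  have hBp : 0 ≤ BconD 16 ^ S.card := pow_nonneg (BconD_pos 16).le _
  have h6 : (⌊B0⌋₊ : ℝ) ≤ B0 := Nat.floor_le hB00
  calc (T.card : ℝ) ≤ (⌊B0⌋₊ : ℝ) * (T.image f).card := by exact_mod_cast h1
    _ ≤ B0 * (C1.card * ((17 * (L + 1)) * ((G + 1) * 3))) := by gcongr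
    _ ≤ B0 * (BconD 16 ^ S.card * ((17 * (θ * x / Real.log (17 / 16) + 1)) *
        ((2 * (n : ℝ) ^ θ + 1) * 3))) := by gcongr
    _ = _ := by ring

/-- Triples with a prime of large exponent such that the other primes have small product. -/
theorem count_root (θ σ η : ℝ) (hθ : 0 ≤ θ) (hη : 0 < η) :
    ∃ K : ℝ, 0 < K ∧ ∀ᶠ n : ℕ in atTop, ∀ T : Finset (ℕ × ℕ),
      (∀ t ∈ T, IsT t ∧ rd t ≤ n ∧ ht t ≤ (n : ℝ) ^ θ ∧ 100 ≤ ht t ∧
        ∃ R ∈ (N t).primeFactors, ((∏ p ∈ (N t).primeFactors.erase R, p : ℕ) : ℝ) ≤ (n : ℝ) ^ σ ∧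
          20 * ⌈K * Real.log n⌉₊ ≤ ex t R) →
      (T.card : ℝ) ≤ (n : ℝ) ^ (σ + θ + η) := by
  classical
  set K : ℝ := 4 * (θ + 1) / η with hK
  have hK0 : 0 < K := by positivity
  refine ⟨K, hK0, ?_⟩
  have hKη : 2 * (θ + 1) / K = η / 2 := by
    rw [hK]
    field_simp
    ring
  set B := BconD 16 with hB
  have hB0 : 0 < B := BconD_pos 16
  have hl17 : 0 < Real.log (17 / 16) := Real.log_pos (by norm_num)
  set C0 : ℝ := 2 * (K + 1) * (51 * (θ / Real.log (17 / 16) + 1) * 3) with hC0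
  have hlim : Tendsto (fun n : ℕ => Real.log (n : ℝ)) atTop atTop :=
    Real.tendsto_log_atTop.comp tendsto_natCast_atTop_atTop
  filter_upwards [hlim.eventually (eventually_ge_atTop 4),
    ev_log_pow_le C0 (2 + 27 * B) (η / 2) (by positivity), eventually_ge_atTop 1] with
    n h4 hlogpow hn1 T hT
  set x := Real.log (n : ℝ) with hx
  have hx0 : 0 < x := by linarith
  have hx1 : 1 ≤ x := by linarith
  have hn0 : (0 : ℝ) < n := by exact_mod_cast hn1
  have hn1' : (1 : ℝ) ≤ n := by exact_mod_cast hn1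
  choose! R hR using fun t (h : t ∈ T) => (hT t h).2.2.2.2
  set P := Nat.primesLE n with hP
  have hPp : ∀ p ∈ P, p.Prime := fun p hp => (Nat.mem_primesLE.mp hp).2
  have hsubP : ∀ t ∈ T, (N t).primeFactors ⊆ P := by
    intro t htT p hp
    rw [hP, Nat.mem_primesLE]
    refine ⟨le_trans ?_ (hT t htT).2.1, Nat.prime_of_mem_primeFactors hp⟩
    exact Nat.le_of_dvd (Finset.prod_pos (fun q hq => (Nat.prime_of_mem_primeFactors hq).pos))
      (Finset.dvd_prod_of_mem (fun p => p) hp)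
  set F := P.powerset.filter (fun S => ((∏ p ∈ S, p : ℕ) : ℝ) ≤ (n : ℝ) ^ σ) with hF
  set A0 : ℝ := (2 * ⌈K * x⌉₊ * (n : ℝ) ^ (2 * (θ + 1) / K)) *
      (51 * (θ * x / Real.log (17 / 16) + 1) * (2 * (n : ℝ) ^ θ + 1)) with hA0
  have hA00 : 0 ≤ A0 := by positivity
  have hmapsF : ∀ t ∈ T, (N t).primeFactors.erase (R t) ∈ F := by
    intro t ht'
    rw [hF, Finset.mem_filter, Finset.mem_powerset]
    refine ⟨(Finset.erase_subset _ _).trans (hsubP t ht'), ?_⟩
    exact (hR t ht').2.1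
  have h5 : (T.card : ℝ) ≤ A0 * ∑ S ∈ F, B ^ S.card := by
    rw [Finset.card_eq_sum_card_fiberwise (f := fun t => (N t).primeFactors.erase (R t)) (t := F)
      (fun t ht => hmapsF t ht), Finset.mul_sum]
    push_cast
    apply Finset.sum_le_sum
    intro S _
    have hm : ∀ t ∈ T.filter (fun t => (N t).primeFactors.erase (R t) = S),
        t ∈ T ∧ (N t).primeFactors.erase (R t) = S := by
      intro t h
      rwa [Finset.mem_filter] at h
    apply fibre_card_le n θ hθ h4 S _ R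
    · exact fun t h => (hT t (hm t h).1).1
    · exact fun t h => (hR t (hm t h).1).1
    · exact fun t h => (hT t (hm t h).1).2.1
    · exact fun t h => (hT t (hm t h).1).2.2.1
    · exact fun t h => (hm t h).2
    · exact hK0
    · exact fun t h => (hR t (hm t h).1).2.2
    · exact fun t h => (hT t (hm t h).1).2.2.2.1
  have b2 := sum_small P hPp B ((n : ℝ) ^ σ) hB0.le (by positivity)
  have hmert : Real.exp (B * ∑ p ∈ P, 1 / (p : ℝ)) ≤ x ^ (27 * B) := by
    calc Real.exp (B * ∑ p ∈ P, 1 / (p : ℝ)) ≤ Real.exp (B * (9 * (1 + Real.log (1 + x)))) :=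
          Real.exp_le_exp.mpr (mul_le_mul_of_nonneg_left (mertens n) hB0.le)
      _ ≤ Real.exp (Real.log x * (27 * B)) := by
          apply Real.exp_le_exp.mpr
          have h1 : 1 ≤ Real.log x := by
            rw [Real.le_log_iff_exp_le hx0]
            linarith [Real.exp_one_lt_d9]
          have h2 : Real.log (1 + x) ≤ 2 * Real.log x := by
            rw [← Real.log_rpow hx0]
            apply Real.log_le_log (by linarith)
            rw [show (2 : ℝ) = ((2 : ℕ) : ℝ) by norm_num, Real.rpow_natCast]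
            nlinarith
          nlinarith
      _ = x ^ (27 * B) := by rw [Real.rpow_def_of_pos hx0]
  have hnθ1 : 1 ≤ (n : ℝ) ^ θ := Real.one_le_rpow hn1' hθ
  have hA0le : A0 ≤ C0 * x ^ (2 : ℝ) * ((n : ℝ) ^ (η / 2) * (n : ℝ) ^ θ) := by
    have h6 : (⌈K * x⌉₊ : ℝ) ≤ (K + 1) * x := by
      have := (Nat.ceil_lt_add_one (show 0 ≤ K * x by positivity)).le
      nlinarith
    have h7 : θ * x / Real.log (17 / 16) + 1 ≤ (θ / Real.log (17 / 16) + 1) * x := by
      have : θ * x / Real.log (17 / 16) = θ / Real.log (17 / 16) * x := by ring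
      rw [this]
      nlinarith
    have h8 : 2 * (n : ℝ) ^ θ + 1 ≤ 3 * (n : ℝ) ^ θ := by linarith
    rw [hA0, hKη]
    calc (2 * (⌈K * x⌉₊ : ℝ) * (n : ℝ) ^ (η / 2)) *
        (51 * (θ * x / Real.log (17 / 16) + 1) * (2 * (n : ℝ) ^ θ + 1)) ≤
        (2 * ((K + 1) * x) * (n : ℝ) ^ (η / 2)) *
        (51 * ((θ / Real.log (17 / 16) + 1) * x) * (3 * (n : ℝ) ^ θ)) := by
          gcongr
      _ = C0 * (x * x) * ((n : ℝ) ^ (η / 2) * (n : ℝ) ^ θ) := by
          rw [hC0]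
          ring
      _ = C0 * x ^ (2 : ℝ) * ((n : ℝ) ^ (η / 2) * (n : ℝ) ^ θ) := by
          rw [show (2 : ℝ) = ((2 : ℕ) : ℝ) by norm_num, Real.rpow_natCast]
          ring
  have hC00 : 0 ≤ C0 := by positivity
  calc (T.card : ℝ) ≤ A0 * ∑ S ∈ F, B ^ S.card := h5
    _ ≤ A0 * ((n : ℝ) ^ σ * Real.exp (B * ∑ p ∈ P, 1 / (p : ℝ))) :=
        mul_le_mul_of_nonneg_left b2 hA00
    _ ≤ (C0 * x ^ (2 : ℝ) * ((n : ℝ) ^ (η / 2) * (n : ℝ) ^ θ)) *
        ((n : ℝ) ^ σ * x ^ (27 * B)) := by gcongr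
    _ = (C0 * (x ^ (2 : ℝ) * x ^ (27 * B))) * ((n : ℝ) ^ (η / 2) * (n : ℝ) ^ θ *
        (n : ℝ) ^ σ) := by ring
    _ = (C0 * x ^ (2 + 27 * B)) * ((n : ℝ) ^ (η / 2) * (n : ℝ) ^ θ * (n : ℝ) ^ σ) := by
        rw [Real.rpow_add hx0]
    _ ≤ (n : ℝ) ^ (η / 2) * ((n : ℝ) ^ (η / 2) * (n : ℝ) ^ θ * (n : ℝ) ^ σ) := by
        gcongr
    _ = (n : ℝ) ^ (σ + θ + η) := by
        rw [← Real.rpow_add hn0, ← Real.rpow_add hn0, ← Real.rpow_add hn0]
        congr 1
        ring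

end Pool.Agent.Lib.Pabc1
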