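import Mathlib
import Pool.Agent.Lib.Pabc1.RClass

open Finset

namespace Pool.Agent.Lib.Pabc1

open Pool.Agent.Lib.Pabc2

/-- The sign attached to the label of the modulus. -/
def sg3 (l3 : Fin 3) : ℤ := if l3 = 2 then -1 else 1

theorem sg3_sq (l : Fin 3) : sg3 l * sg3 l = 1 := by
  revert l
  decide

theorem comp_rel3 {t : ℕ × ℕ} {l1 l2 l3 : Fin 3} (h12 : l1 ≠ l2) (h13 : l1 ≠ l3) (h23 : l2 ≠ l3) :
    (comp t l3 : ℤ) ∣ (comp t l1 : ℤ) - sg3 l3 * (comp t l2 : ℤ) := by
  have a1 : l1 = 0 ∨ l1 = 1 ∨ l1 = 2 := by omega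
  have a2 : l2 = 0 ∨ l2 = 1 ∨ l2 = 2 := by omega
  have a3 : l3 = 0 ∨ l3 = 1 ∨ l3 = 2 := by omega
  rcases a1 with rfl | rfl | rfl <;> rcases a2 with rfl | rfl | rfl <;>
    rcases a3 with rfl | rfl | rfl <;> simp_all [comp, sg3, add_comm]

/-- Structure of a triple in a root class: all primes outside `S` other than `R` have label `l3`,
and the part of `S` with label `l3` has mass at least `δ`. -/
structure RootD (δ : ℝ) (S : Finset ℕ) (R : ℕ) (l3 : Fin 3) (t : ℕ × ℕ) : Prop where
  h : IsT t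
  sub : S ⊆ (N t).primeFactors
  memR : R ∈ (N t).primeFactors
  notR : R ∉ S
  labR : lab t R ≠ l3
  rest : ∀ p ∈ (N t).primeFactors, p ∉ S → p ≠ R → lab t p = l3
  mass : δ ≤ ∑ p ∈ S.filter (fun p => lab t p = l3), u t p

theorem sum_lab_eq {t : ℕ × ℕ} (h : IsT t) (l : Fin 3) :
    ∑ p ∈ (N t).primeFactors.filter (fun p => lab t p = l), u t p =
      Real.log (comp t l) / ht t := by
  rw [log_comp_eq h l, Finset.sum_div]
  rfl

theorem sum_lab_le_one {t : ℕ × ℕ} (h : IsT t) (l : Fin 3) :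
    ∑ p ∈ (N t).primeFactors.filter (fun p => lab t p = l), u t p ≤ 1 := by
  rw [sum_lab_eq h l, div_le_one (ht_pos h)]
  exact log_comp_le h l

theorem RootD.out {δ : ℝ} {S : Finset ℕ} {R : ℕ} {l3 : Fin 3} {t : ℕ × ℕ}
    (h : RootD δ S R l3 t) :
    (Real.log t.1 + Real.log t.2 + ht t) / ht t - (1 - δ) ≤ ∑ p ∈ insert R S, u t p := by
  classical
  have hsub : insert R S ⊆ (N t).primeFactors := Finset.insert_subset h.memR h.sub
  rw [← sum_u_eq h.h, ← Finset.sum_sdiff hsub]
  have h1 : Disjoint ((N t).primeFactors \ insert R S) (S.filter (fun p => lab t p = l3)) := by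
    rw [Finset.disjoint_left]
    intro p hp hp2
    rw [Finset.mem_sdiff, Finset.mem_insert, not_or] at hp
    exact hp.2.2 (Finset.mem_filter.mp hp2).1
  have h2 : ((N t).primeFactors \ insert R S) ∪ (S.filter (fun p => lab t p = l3)) ⊆
      (N t).primeFactors.filter (fun p => lab t p = l3) := by
    intro p hp
    rw [Finset.mem_union] at hp
    rw [Finset.mem_filter]
    rcases hp with hp | hp
    · rw [Finset.mem_sdiff, Finset.mem_insert, not_or] at hp
      exact ⟨hp.1, h.rest p hp.1 hp.2.2 hp.2.1⟩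
    · rw [Finset.mem_filter] at hp
      exact ⟨h.sub hp.1, hp.2⟩
  have h3 := Finset.sum_le_sum_of_subset_of_nonneg h2 (f := u t) (fun p _ _ => u_nonneg h.h p)
  rw [Finset.sum_union h1] at h3
  have h4 := sum_lab_le_one h.h l3
  have h5 := h.mass
  linarith

/-- Within a class, the special prime determines the triple. -/
theorem class_injS {δ : ℝ} (hδ : 0 < δ) (hδ1 : δ ≤ 1) {K0 : ℕ} (hK0 : 16 / δ ≤ K0)
    (S : Finset ℕ) {t1 t2 : ℕ × ℕ} {R g : ℕ} {l3 : Fin 3}
    (h1 : RootD δ S R l3 t1) (h2 : RootD δ S R l3 t2)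
    (hg1 : ex t1 R = g) (hg2 : ex t2 R = g) (hl : lab t1 R = lab t2 R)
    (hc : codeD K0 S t1 = codeD K0 S t2) (hh : codeH K0 (δ / 4) t1 = codeH K0 (δ / 4) t2)
    (hb1 : 2 / δ ≤ ht t1) (hb2 : 2 / δ ≤ ht t2) (hle : ht t1 ≤ ht t2) : t1 = t2 := by
  by_contra hne
  have H1 := ht_pos h1.h
  have H2 := ht_pos h2.h
  have hR : R.Prime := Nat.prime_of_mem_primeFactors h1.memR
  have hK00 : (0 : ℝ) < K0 := lt_of_lt_of_le (by positivity) hK0
  have hK01 : 1 / (K0 : ℝ) ≤ δ / 16 := by
    rw [div_le_iff₀ hδ] at hK0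
    rw [div_le_iff₀ hK00]
    linarith
  have hb1' : 1 ≤ ht t1 := by
    refine le_trans ?_ hb1
    rw [le_div_iff₀ hδ]
    linarith
  have hb2' : 1 ≤ ht t2 := by
    refine le_trans ?_ hb2
    rw [le_div_iff₀ hδ]
    linarith
  have ha : ⌊al t1 * K0⌋₊ = ⌊al t2 * K0⌋₊ := (Prod.ext_iff.mp hh).1
  have hb : ⌊Real.log (ht t1) / Real.log (1 + δ / 4 / 4)⌋₊ =
    ⌊Real.log (ht t2) / Real.log (1 + δ / 4 / 4)⌋₊ := (Prod.ext_iff.mp hh).2
  have hratio := ratio_of_floor_eq (by linarith) hb1' hb2' hb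
  have hpt : ∀ p (_ : p ∈ S), lab t1 p = lab t2 p ∧
      ⌊u t1 p * (K0 * S.card)⌋₊ = ⌊u t2 p * (K0 * S.card)⌋₊ := by
    intro p hp
    have := congrFun (congrFun hc p) hp
    exact Prod.ext_iff.mp this
  have hsumS : ∑ p ∈ S, |u t1 p - u t2 p| ≤ δ / 16 := by
    rcases S.eq_empty_or_nonempty with rfl | hne
    · simp only [Finset.sum_empty]
      positivity
    · have hcard : (0 : ℝ) < S.card := by exact_mod_cast hne.card_pos
      calc ∑ p ∈ S, |u t1 p - u t2 p| ≤ ∑ _p ∈ S, 1 / (K0 * (S.card : ℝ)) := by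
            apply Finset.sum_le_sum
            intro p hp
            exact abs_sub_le_of_floor_eq (u_nonneg h1.h p) (u_nonneg h2.h p) (by positivity)
              (hpt p hp).2
        _ = 1 / K0 := by
            rw [Finset.sum_const, nsmul_eq_mul]
            field_simp
        _ ≤ δ / 16 := hK01
  have huR1 : u t1 R ≤ 1 := by
    have hmem : R ∈ (N t1).primeFactors.filter (fun p => lab t1 p = lab t1 R) :=
      Finset.mem_filter.mpr ⟨h1.memR, rfl⟩
    exact (Finset.single_le_sum (f := u t1) (fun p _ => u_nonneg h1.h p) hmem).trans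
      (sum_lab_le_one h1.h (lab t1 R))
  have huR : |u t1 R - u t2 R| ≤ δ / 16 := by
    have e1 : u t2 R * ht t2 = u t1 R * ht t1 := by
      unfold u
      rw [hg1, hg2]
      field_simp
    have h0 := u_nonneg h2.h R
    have h0' := u_nonneg h1.h R
    have e2 : u t2 R ≤ u t1 R := by
      by_contra hcon
      push Not at hcon
      nlinarith
    rw [abs_of_nonneg (by linarith)]
    have h3 : u t2 R * (ht t2 - ht t1) ≤ u t2 R * (δ / 16 * ht t1) := by
      apply mul_le_mul_of_nonneg_left _ h0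
      linarith
    have h4 : (u t1 R - u t2 R) * ht t1 ≤ δ / 16 * ht t1 := by
      calc (u t1 R - u t2 R) * ht t1 = u t2 R * (ht t2 - ht t1) := by rw [mul_sub, e1]; ring
        _ ≤ u t2 R * (δ / 16 * ht t1) := h3
        _ ≤ 1 * (δ / 16 * ht t1) := by
            apply mul_le_mul_of_nonneg_right _ (by positivity)
            linarith
        _ = δ / 16 * ht t1 := one_mul _
    exact le_of_mul_le_mul_right h4 H1
  have hclose : CloseD δ (insert R S) t1 t2 := by
    refine ⟨h1.h, h2.h, ?_, ?_, ?_, ?_, h1.out, hb1⟩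
    · intro p hp
      exact Nat.prime_of_mem_primeFactors (Finset.insert_subset h1.memR h1.sub hp)
    · intro p hp
      rcases Finset.mem_insert.mp hp with rfl | hp
      · exact hl
      · exact (hpt p hp).1
    · rw [Finset.sum_insert h1.notR]
      linarith
    · have := abs_sub_le_of_floor_eq (al_nonneg h1.h) (al_nonneg h2.h) hK00 ha
      linarith
  exact hclose.gap hδ hδ1 hne hle (by linarith)

/-- The third label. -/
theorem exists_third (l1 l3 : Fin 3) (h : l1 ≠ l3) : ∃ l2 : Fin 3, l1 ≠ l2 ∧ l2 ≠ l3 := by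
  revert l1 l3
  decide

theorem third_cases (l1 l2 l3 : Fin 3) (h12 : l1 ≠ l2) (h13 : l1 ≠ l3) (h23 : l2 ≠ l3)
    (l : Fin 3) : l = l1 ∨ l = l2 ∨ l = l3 := by
  revert l1 l2 l3 l
  decide

/-- The number of triples in a class. -/
theorem class_boundS {δ : ℝ} (hδ : 0 < δ) (hδ1 : δ ≤ 1) {K0 : ℕ} (hK0 : 16 / δ ≤ K0)
    (S : Finset ℕ) (T : Finset (ℕ × ℕ)) (R : ℕ × ℕ → ℕ) (g : ℕ) (l1 l3 : Fin 3)
    (hD : ∀ t ∈ T, RootD δ S (R t) l3 t)
    (hg : ∀ t ∈ T, ex t (R t) = g) (hl : ∀ t ∈ T, lab t (R t) = l1)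
    (hc : ∀ t ∈ T, ∀ t' ∈ T, codeD K0 S t = codeD K0 S t')
    (hh : ∀ t ∈ T, ∀ t' ∈ T, codeH K0 (δ / 4) t = codeH K0 (δ / 4) t')
    (ℓ : ℕ) (hℓ : 1 ≤ ℓ) (hgℓ : 9 * (ℓ : ℝ) ≤ δ * g) (hbig : ∀ t ∈ T, 200 / δ ^ 2 ≤ ht t) :
    T.card.choose ℓ ≤ g ^ S.card * (4 * ∏ p ∈ S, p) ^ 2 := by
  classical
  rcases T.eq_empty_or_nonempty with rfl | hne
  · rw [Finset.card_empty, Nat.choose_eq_zero_of_lt (by omega)]
    exact Nat.zero_le _
  obtain ⟨t0, ht0, hmin⟩ := Finset.exists_min_image T ht hne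
  have hI : ∀ t ∈ T, IsT t := fun t h => (hD t h).h
  have H0 := ht_pos (hI t0 ht0)
  have hSp : ∀ p ∈ S, p.Prime := fun p hp => Nat.prime_of_mem_primeFactors ((hD t0 ht0).sub hp)
  have hR : ∀ t ∈ T, (R t).Prime := fun t h => Nat.prime_of_mem_primeFactors (hD t h).memR
  have hRS : ∀ t ∈ T, R t ∉ S := fun t h => (hD t h).notR
  have h13 : l1 ≠ l3 := by
    rw [← hl t0 ht0]
    exact (hD t0 ht0).labR
  obtain ⟨l2, h12, h23⟩ := exists_third l1 l3 h13
  have hK00 : (0 : ℝ) < K0 := lt_of_lt_of_le (by positivity) hK0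
  have hK01 : 1 / (K0 : ℝ) ≤ δ / 16 := by
    rw [div_le_iff₀ hδ] at hK0
    rw [div_le_iff₀ hK00]
    linarith
  have hbigδ : ∀ t ∈ T, 2 / δ ≤ ht t := by
    intro t ht'
    refine le_trans ?_ (hbig t ht')
    rw [div_le_div_iff₀ hδ (by positivity)]
    have : δ ^ 2 ≤ δ := by nlinarith
    linarith
  have hbig1 : ∀ t ∈ T, 1 ≤ ht t := by
    intro t ht'
    refine le_trans ?_ (hbigδ t ht')
    rw [le_div_iff₀ hδ]
    linarith
  have hpt : ∀ t ∈ T, ∀ p ∈ S, lab t p = lab t0 p ∧
      ⌊u t p * (K0 * S.card)⌋₊ = ⌊u t0 p * (K0 * S.card)⌋₊ := by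
    intro t ht' p hp
    have := congrFun (congrFun (hc t ht' t0 ht0) p) hp
    exact Prod.ext_iff.mp this
  have hratio : ∀ t ∈ T, ht t ≤ 17 / 16 * ht t0 := by
    intro t ht'
    have hb : ⌊Real.log (ht t0) / Real.log (1 + δ / 4 / 4)⌋₊ =
      ⌊Real.log (ht t) / Real.log (1 + δ / 4 / 4)⌋₊ := (Prod.ext_iff.mp (hh t0 ht0 t ht')).2
    have := ratio_of_floor_eq (by linarith) (hbig1 t0 ht0) (hbig1 t ht') hb
    nlinarith
  -- injectivity
  have hinj : Set.InjOn R (T : Set (ℕ × ℕ)) := by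
    intro t1 h1 t2 h2 he
    have h1' : t1 ∈ T := h1
    have h2' : t2 ∈ T := h2
    have d1 := hD t1 h1'
    have d2 := hD t2 h2'
    have g1 := hg t1 h1'
    have g2 := hg t2 h2'
    have l1' := hl t1 h1'
    have l2' := hl t2 h2'
    rw [← he] at d2 g2 l2'
    rcases le_total (ht t1) (ht t2) with hle | hle
    · exact class_injS hδ hδ1 hK0 S (g := g) d1 d2 g1 g2 (l1'.trans l2'.symm)
        (hc t1 h1' t2 h2') (hh t1 h1' t2 h2') (hbigδ t1 h1') (hbigδ t2 h2') hle
    · exact (class_injS hδ hδ1 hK0 S (g := g) d2 d1 g2 g1 (l2'.trans l1'.symm)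
        (hc t2 h2' t1 h1') (hh t2 h2' t1 h1') (hbigδ t2 h2') (hbigδ t1 h1') hle).symm
  set X := S.filter (fun p => lab t0 p = l1) with hX
  set Z := S.filter (fun p => lab t0 p = l2) with hZ
  set SM := S.filter (fun p => lab t0 p = l3) with hSM
  set m : ℕ → ℕ := fun p => T.inf' hne (fun t => ex t p) with hm
  set M : ℕ := ∏ p ∈ SM, p ^ m p with hM
  -- the components
  have hf1 : ∀ t ∈ T, (N t).primeFactors.filter (fun p => lab t p = l1) = insert (R t) X := by
    intro t ht'
    ext p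
    rw [Finset.mem_filter, Finset.mem_insert, hX, Finset.mem_filter]
    constructor
    · rintro ⟨hp, hlp⟩
      by_cases hpS : p ∈ S
      · right
        exact ⟨hpS, by rw [← (hpt t ht' p hpS).1]; exact hlp⟩
      · by_cases hpR : p = R t
        · left; exact hpR
        · exfalso
          have := (hD t ht').rest p hp hpS hpR
          exact h13 (hlp.symm.trans this)
    · rintro (rfl | ⟨hpS, hlp⟩)
      · exact ⟨(hD t ht').memR, hl t ht'⟩
      · exact ⟨(hD t ht').sub hpS, by rw [(hpt t ht' p hpS).1]; exact hlp⟩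
  have hf2 : ∀ t ∈ T, (N t).primeFactors.filter (fun p => lab t p = l2) = Z := by
    intro t ht'
    ext p
    rw [Finset.mem_filter, hZ, Finset.mem_filter]
    constructor
    · rintro ⟨hp, hlp⟩
      by_cases hpS : p ∈ S
      · exact ⟨hpS, by rw [← (hpt t ht' p hpS).1]; exact hlp⟩
      · exfalso
        by_cases hpR : p = R t
        · rw [hpR, hl t ht'] at hlp
          exact h12 hlp
        · have := (hD t ht').rest p hp hpS hpR
          exact h23 (hlp.symm.trans this)
    · rintro ⟨hpS, hlp⟩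
      exact ⟨(hD t ht').sub hpS, by rw [(hpt t ht' p hpS).1]; exact hlp⟩
  have hcomp1 : ∀ t ∈ T, comp t l1 = R t ^ g * ∏ p ∈ X, p ^ ex t p := by
    intro t ht'
    rw [comp_eq (hI t ht') l1, hf1 t ht',
      Finset.prod_insert (fun hmem => hRS t ht' (Finset.mem_filter.mp hmem).1), hg t ht']
  have hcomp2 : ∀ t ∈ T, comp t l2 = ∏ p ∈ Z, p ^ ex t p := by
    intro t ht'
    rw [comp_eq (hI t ht') l2, hf2 t ht']
  have hMdvd : ∀ t ∈ T, M ∣ comp t l3 := by
    intro t ht'
    rw [comp_eq (hI t ht') l3, hM]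
    refine dvd_trans (Finset.prod_dvd_prod_of_dvd _ (fun p => p ^ ex t p) ?_)
      (Finset.prod_dvd_prod_of_subset _ _ _ ?_)
    · intro p _
      exact pow_dvd_pow p (Finset.inf'_le _ ht')
    · intro p hp
      rw [hSM, Finset.mem_filter] at hp
      rw [Finset.mem_filter]
      exact ⟨(hD t ht').sub hp.1, by rw [(hpt t ht' p hp.1).1]; exact hp.2⟩
  have hdiv : ∀ t ∈ T, (M : ℤ) ∣ ((R t ^ g * ∏ p ∈ X, p ^ ex t p : ℕ) : ℤ) -
      sg3 l3 * ((∏ p ∈ Z, p ^ ex t p : ℕ) : ℤ) := by
    intro t ht'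
    rw [← hcomp1 t ht', ← hcomp2 t ht']
    exact (Int.natCast_dvd_natCast.mpr (hMdvd t ht')).trans (comp_rel3 h12 h13 h23)
  have hg0R : (0 : ℝ) < g := by
    have h1 : (1 : ℝ) ≤ ℓ := by exact_mod_cast hℓ
    by_contra hcon
    push Not at hcon
    nlinarith
  have hg0 : 0 < g := by exact_mod_cast hg0R
  have hXS : X ⊆ S := Finset.filter_subset _ _
  have hZS : Z ⊆ S := Finset.filter_subset _ _
  have hcop : ∀ q : ℕ, q.Prime → (q ∉ SM) → q.Coprime M := by
    intro q hq hqM
    rw [hM]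
    apply Nat.Coprime.prod_right
    intro p hp
    apply Nat.Coprime.pow_right
    rw [Nat.coprime_primes hq (hSp p (Finset.mem_filter.mp hp).1)]
    intro h
    exact hqM (h ▸ hp)
  -- the bound
  have key := root_bound T X Z (fun p hp => hSp p (hXS hp)) (fun p hp => hSp p (hZS hp)) R hR hinj
    (fun t ht' h => hRS t ht' (hXS h)) (fun t ht' h => hRS t ht' (hZS h)) M
    (fun p hp => hcop p (hSp p (hXS hp)) (fun h => by
      rw [hX, Finset.mem_filter] at hp
      rw [hSM, Finset.mem_filter] at h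
      exact h13 (hp.2.symm.trans h.2)))
    (fun p hp => hcop p (hSp p (hZS hp)) (fun h => by
      rw [hZ, Finset.mem_filter] at hp
      rw [hSM, Finset.mem_filter] at h
      exact h23 (hp.2.symm.trans h.2)))
    (fun t ht' => hcop (R t) (hR t ht') (fun h => hRS t ht' (Finset.mem_filter.mp h).1))
    ex g hg0 (sg3 l3) (sg3_sq l3) hdiv (4 * ∏ p ∈ S, p)
    (Nat.mul_pos (by norm_num) (Finset.prod_pos (fun p hp => (hSp p hp).pos)))
    (Dvd.intro _ rfl) (by
      intro p hp hpM
      rw [hM] at hpM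
      obtain ⟨q, hq, hqd⟩ := (hp.prime.dvd_finsetProd_iff _).mp hpM
      have hqS := (Finset.mem_filter.mp hq).1
      have := (Nat.prime_dvd_prime_iff_eq hp (hSp q hqS)).mp (hp.dvd_of_dvd_pow hqd)
      rw [this]
      exact Dvd.dvd.mul_left (Finset.dvd_prod_of_mem (fun p => p) hqS) _)
    ℓ (17 / 16 * ht t0) (by
      intro t ht'
      have h1 := log_comp_le (hI t ht') l1
      rw [hcomp1 t ht'] at h1
      push_cast at h1
      have hRp : (0 : ℝ) < R t := by exact_mod_cast (hR t ht').pos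
      have hpp : ∀ p ∈ X, (p : ℝ) ^ ex t p ≠ 0 := fun p hp => by
        have : (0 : ℝ) < p := by exact_mod_cast (hSp p (hXS hp)).pos
        positivity
      rw [Real.log_mul (by positivity) (Finset.prod_ne_zero_iff.mpr hpp), Real.log_pow,
        Real.log_prod hpp] at h1
      have h2 : ∑ p ∈ X, Real.log ((p : ℝ) ^ ex t p) = ∑ p ∈ X, (ex t p : ℝ) * Real.log p :=
        Finset.sum_congr rfl (fun p _ => Real.log_pow _ _)
      rw [h2] at h1
      exact h1.trans (hratio t ht')) (by
      intro t ht'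
      have h1 := log_comp_le (hI t ht') l2
      rw [hcomp2 t ht'] at h1
      push_cast at h1
      have hpp : ∀ p ∈ Z, (p : ℝ) ^ ex t p ≠ 0 := fun p hp => by
        have : (0 : ℝ) < p := by exact_mod_cast (hSp p (hZS hp)).pos
        positivity
      rw [Real.log_prod hpp] at h1
      have h2 : ∑ p ∈ Z, Real.log ((p : ℝ) ^ ex t p) = ∑ p ∈ Z, (ex t p : ℝ) * Real.log p :=
        Finset.sum_congr rfl (fun p _ => Real.log_pow _ _)
      rw [h2] at h1
      exact h1.trans (hratio t ht')) (by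
      -- the size of M
      have hb0 := hbig t0 ht0
      have hb0' : 200 ≤ δ ^ 2 * ht t0 := by
        rw [div_le_iff₀ (by positivity)] at hb0
        linarith
      have hlogM : 15 / 16 * (δ * ht t0) ≤ Real.log M := by
        have e1 : Real.log M = ∑ p ∈ SM, (m p : ℝ) * Real.log p := by
          rw [hM]
          push_cast
          rw [Real.log_prod (fun p hp => by
            have : (0 : ℝ) < p := by exact_mod_cast (hSp p (Finset.mem_filter.mp hp).1).pos
            positivity)]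
          exact Finset.sum_congr rfl (fun p _ => Real.log_pow _ _)
        have e3 : δ ≤ ∑ p ∈ SM, u t0 p := (hD t0 ht0).mass
        rw [e1]
        have hterm : ∀ p ∈ SM, (u t0 p - 1 / (K0 * S.card)) * ht t0 ≤
            (m p : ℝ) * Real.log p := by
          intro p hp
          have hpS := (Finset.mem_filter.mp hp).1
          have hScard : (0 : ℝ) < S.card := by exact_mod_cast Finset.card_pos.mpr ⟨p, hpS⟩
          obtain ⟨t, ht', hmt⟩ := Finset.exists_mem_eq_inf' hne (fun t => ex t p)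
          have hmt' : m p = ex t p := hmt
          rw [hmt']
          have e4 : (ex t p : ℝ) * Real.log p = u t p * ht t := by
            have := ht_pos (hI t ht')
            unfold u
            field_simp
          rw [e4]
          have h3 := abs_sub_le_of_floor_eq (u_nonneg (hI t ht') p) (u_nonneg (hI t0 ht0) p)
            (by positivity) (hpt t ht' p hpS).2
          have h4 := (abs_le.mp h3).1
          have h5 := u_nonneg (hI t ht') p
          have h6 := hmin t ht'
          calc (u t0 p - 1 / (K0 * S.card)) * ht t0 ≤ u t p * ht t0 :=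
                mul_le_mul_of_nonneg_right (by linarith) H0.le
            _ ≤ u t p * ht t := mul_le_mul_of_nonneg_left h6 h5
        refine le_trans ?_ (Finset.sum_le_sum hterm)
        rw [← Finset.sum_mul, Finset.sum_sub_distrib, Finset.sum_const, nsmul_eq_mul]
        have h7 : (SM.card : ℝ) * (1 / (K0 * S.card)) ≤ δ / 16 := by
          rcases S.eq_empty_or_nonempty with hSe | hSne
          · rw [hSM, hSe]
            simp
            positivity
          · have hScard : (0 : ℝ) < S.card := by exact_mod_cast hSne.card_pos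
            have hle : (SM.card : ℝ) ≤ S.card := by
              exact_mod_cast Finset.card_le_card (Finset.filter_subset _ _)
            calc (SM.card : ℝ) * (1 / (K0 * S.card)) ≤ S.card * (1 / (K0 * S.card)) :=
                  mul_le_mul_of_nonneg_right hle (by positivity)
              _ = 1 / K0 := by field_simp
              _ ≤ δ / 16 := hK01
        have h8 : 15 / 16 * δ ≤ ∑ p ∈ SM, u t0 p - (SM.card : ℝ) * (1 / (K0 * S.card)) := by
          linarith
        calc 15 / 16 * (δ * ht t0) = 15 / 16 * δ * ht t0 := by ring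
          _ ≤ _ := mul_le_mul_of_nonneg_right h8 H0.le
      have hgle : (g : ℝ) ≤ 2 * ht t0 := by
        have h1 := log_comp_le (hI t0 ht0) l1
        have hdv : R t0 ^ g ∣ comp t0 l1 := by rw [hcomp1 t0 ht0]; exact Dvd.intro _ rfl
        have h2 := Nat.le_of_dvd (comp_pos (hI t0 ht0) l1) hdv
        have h3 : 2 ^ g ≤ comp t0 l1 := (Nat.pow_le_pow_left (hR t0 ht0).two_le g).trans h2
        have h4 : Real.log ((2 : ℝ) ^ g) ≤ Real.log (comp t0 l1) := by
          apply Real.log_le_log (by positivity)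
          exact_mod_cast h3
        rw [Real.log_pow] at h4
        have hl2' : 1 / 2 ≤ Real.log 2 := by linarith [Real.log_two_gt_d9]
        nlinarith
      have hlogg : Real.log g ≤ δ * ht t0 / 4 := by
        have h1 : Real.log g ≤ Real.log (2 * ht t0) := Real.log_le_log hg0R hgle
        have h2 : Real.log (2 * ht t0) = Real.log (δ * ht t0 / 8) + Real.log (16 / δ) := by
          rw [← Real.log_mul (by positivity) (by positivity)]
          congr 1
          field_simp
          ring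
        have h3 := Real.log_le_sub_one_of_pos (show 0 < δ * ht t0 / 8 by positivity)
        have h4 := Real.log_le_sub_one_of_pos (show 0 < 16 / δ by positivity)
        have h5 : 16 / δ ≤ δ * ht t0 / 8 := by
          rw [div_le_div_iff₀ hδ (by norm_num)]
          calc (16 : ℝ) * 8 ≤ 200 := by norm_num
            _ ≤ δ ^ 2 * ht t0 := hb0'
            _ = δ * ht t0 * δ := by ring
        linarith
      have hlterm : 2 * (ℓ : ℝ) * (17 / 16 * ht t0) / g ≤ 17 / 72 * (δ * ht t0) := by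
        rw [div_le_iff₀ hg0R]
        have : (9 : ℝ) * ℓ * ht t0 ≤ δ * g * ht t0 := mul_le_mul_of_nonneg_right hgℓ H0.le
        nlinarith
      have hpos : 0 < δ * ht t0 := by positivity
      linarith)
  refine key.trans ?_
  apply Nat.mul_le_mul_right
  apply Nat.pow_le_pow_right hg0
  exact Finset.card_le_card (Finset.union_subset hXS hZS)

end Pool.Agent.Lib.Pabc1
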