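import Mathlib
import Pool.Agent.Lib.Pabc1.SClass
import Pool.Agent.Lib.Pabc1.RCount

open Finset Filter Topology

namespace Pool.Agent.Lib.Pabc1

open Pool.Agent.Lib.Pabc2

theorem ex_le_of_ht {t : ℕ × ℕ} (h : IsT t) {R : ℕ} (hR : R.Prime) {B : ℝ} (hB : ht t ≤ B) :
    (ex t R : ℝ) ≤ 2 * B := by
  have h1 := log_comp_le h (lab t R)
  have hdv := comp_dvd h hR
  have h2 := Nat.le_of_dvd (comp_pos h _) hdv
  have h3 : 2 ^ ex t R ≤ comp t (lab t R) :=
    (Nat.pow_le_pow_left hR.two_le _).trans h2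
  have h4 : Real.log ((2 : ℝ) ^ ex t R) ≤ Real.log (comp t (lab t R)) := by
    apply Real.log_le_log (by positivity)
    exact_mod_cast h3
  rw [Real.log_pow] at h4
  have h6 : (0 : ℝ) ≤ ex t R := Nat.cast_nonneg _
  have hl2' : 69 / 100 ≤ Real.log 2 := by linarith [Real.log_two_gt_d9]
  nlinarith

/-- The class bound, analytic form. -/
theorem class_card_leS {δ : ℝ} (hδ : 0 < δ) (hδ1 : δ ≤ 1) {K0 : ℕ} (hK0 : 16 / δ ≤ K0)
    (n : ℕ) (θ : ℝ) (hθ : 0 ≤ θ) (hn : 4 ≤ Real.log n)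
    (S : Finset ℕ) (T : Finset (ℕ × ℕ)) (R : ℕ × ℕ → ℕ) (g : ℕ) (l1 l3 : Fin 3)
    (hD : ∀ t ∈ T, RootD δ S (R t) l3 t)
    (hrd : ∀ t ∈ T, rd t ≤ n) (hht : ∀ t ∈ T, ht t ≤ (n : ℝ) ^ θ)
    (hg : ∀ t ∈ T, ex t (R t) = g) (hl : ∀ t ∈ T, lab t (R t) = l1)
    (hc : ∀ t ∈ T, ∀ t' ∈ T, codeD K0 S t = codeD K0 S t')
    (hh : ∀ t ∈ T, ∀ t' ∈ T, codeH K0 (δ / 4) t = codeH K0 (δ / 4) t')
    (K : ℝ) (hK : 0 < K) (hgℓ : 9 * (⌈K * Real.log n⌉₊ : ℝ) ≤ δ * g)
    (hbig : ∀ t ∈ T, 200 / δ ^ 2 ≤ ht t) :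
    (T.card : ℝ) ≤ 2 * ⌈K * Real.log n⌉₊ * (n : ℝ) ^ (2 * (θ + 1) / K) := by
  classical
  set x := Real.log (n : ℝ) with hx
  set ℓ := ⌈K * x⌉₊ with hℓ
  have hx0 : 0 < x := by linarith
  have hn0 : (0 : ℝ) < n := by
    rcases Nat.eq_zero_or_pos n with h | h
    · rw [h] at hx
      simp at hx
      linarith
    · exact_mod_cast h
  have hℓ1 : 1 ≤ ℓ := by
    rw [hℓ, Nat.one_le_ceil_iff]
    positivity
  have hℓ0 : (0 : ℝ) < ℓ := by exact_mod_cast hℓ1
  have hℓge : K * x ≤ ℓ := Nat.le_ceil _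
  rcases T.eq_empty_or_nonempty with hTe | hne
  · rw [hTe]
    simp only [Finset.card_empty, Nat.cast_zero]
    positivity
  obtain ⟨t0, ht0⟩ := hne
  have hI : ∀ t ∈ T, IsT t := fun t h => (hD t h).h
  have hRp : ∀ t ∈ T, (R t).Prime := fun t h => Nat.prime_of_mem_primeFactors (hD t h).memR
  have key := class_boundS hδ hδ1 hK0 S T R g l1 l3 hD hg hl hc hh ℓ hℓ1 hgℓ hbig
  have hSp : ∀ p ∈ S, p.Prime := fun p hp => Nat.prime_of_mem_primeFactors ((hD t0 ht0).sub hp)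
  have hprodS : ∏ p ∈ S, p ≤ n := by
    refine le_trans ?_ (hrd t0 ht0)
    unfold rd
    apply Finset.prod_le_prod_of_subset_of_one_le' (hD t0 ht0).sub
    intro p hp _
    exact (Nat.prime_of_mem_primeFactors hp).one_lt.le
  have hprodS0 : 0 < ∏ p ∈ S, p := Finset.prod_pos (fun p hp => (hSp p hp).pos)
  have hl2 : Real.log 2 ≤ 7 / 10 := log_two_bd
  have hl2' : 69 / 100 ≤ Real.log 2 := by linarith [Real.log_two_gt_d9]
  have hScard : (S.card : ℝ) ≤ 3 / 2 * x := by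
    have h1 : 2 ^ S.card ≤ ∏ p ∈ S, p := Finset.pow_card_le_prod S _ 2 (fun p hp => (hSp p hp).two_le)
    have h2 : Real.log ((2 : ℝ) ^ S.card) ≤ x := by
      apply Real.log_le_log (by positivity)
      exact_mod_cast h1.trans hprodS
    rw [Real.log_pow] at h2
    nlinarith
  have hgle : (g : ℝ) ≤ 2 * (n : ℝ) ^ θ := by
    rw [← hg t0 ht0]
    exact ex_le_of_ht (hI t0 ht0) (hRp t0 ht0) (hht t0 ht0)
  have hg1 : 1 ≤ g := by
    by_contra hcon
    push Not at hcon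
    have : g = 0 := by omega
    rw [this] at hgℓ
    simp at hgℓ
    linarith
  have hg1' : (1 : ℝ) ≤ g := by exact_mod_cast hg1
  have hlogg : Real.log g ≤ 7 / 10 + θ * x := by
    have h1 : Real.log g ≤ Real.log (2 * (n : ℝ) ^ θ) := Real.log_le_log (by linarith) hgle
    rw [Real.log_mul (by norm_num) (by positivity), Real.log_rpow hn0] at h1
    linarith
  have hlog0 : 0 ≤ Real.log (g : ℝ) := Real.log_nonneg hg1'
  have hexp : (T.card.choose ℓ : ℝ) ≤ Real.exp (ℓ * (2 * (θ + 1) / K * x)) := by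
    have h1 : (T.card.choose ℓ : ℝ) ≤ (g : ℝ) ^ S.card * (4 * n) ^ 2 := by
      calc (T.card.choose ℓ : ℝ) ≤ (g : ℝ) ^ S.card * (4 * ((∏ p ∈ S, p : ℕ) : ℝ)) ^ 2 := by
            exact_mod_cast key
        _ ≤ (g : ℝ) ^ S.card * (4 * n) ^ 2 := by
            have : ((∏ p ∈ S, p : ℕ) : ℝ) ≤ n := by exact_mod_cast hprodS
            gcongr
    refine h1.trans ?_
    rw [← Real.log_le_iff_le_exp (by positivity), Real.log_mul (by positivity) (by positivity),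
      Real.log_pow, Real.log_pow, Real.log_mul (by norm_num) hn0.ne', ← hx]
    have h4 : Real.log 4 ≤ 14 / 10 := by
      have : Real.log 4 = 2 * Real.log 2 := by
        rw [show (4 : ℝ) = 2 ^ 2 by norm_num, Real.log_pow]; norm_num
      linarith
    have h5 : (S.card : ℝ) * Real.log g ≤ 3 / 2 * x * (7 / 10 + θ * x) := by
      apply mul_le_mul hScard hlogg hlog0 (by positivity)
    have h6 : 2 * (θ + 1) * x * x ≤ ℓ * (2 * (θ + 1) / K * x) := by
      have : ℓ * (2 * (θ + 1) / K * x) = (ℓ / K) * (2 * (θ + 1) * x) := by field_simp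
      rw [this]
      have h7 : x ≤ ℓ / K := by
        rw [le_div_iff₀ hK]
        linarith
      calc 2 * (θ + 1) * x * x = x * (2 * (θ + 1) * x) := by ring
        _ ≤ (ℓ / K) * (2 * (θ + 1) * x) := mul_le_mul_of_nonneg_right h7 (by positivity)
    refine le_trans ?_ h6
    have h8 : (4 : ℝ) * x ≤ x * x := by nlinarith
    have h9 : 0 ≤ θ * x * x := by positivity
    push_cast
    nlinarith
  have hΛ : 0 ≤ 2 * (θ + 1) / K * x := by positivity
  have h9 := card_le_of_choose_le hℓ1 hΛ hexp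
  have h10 : Real.exp (2 * (θ + 1) / K * x) = (n : ℝ) ^ (2 * (θ + 1) / K) := by
    rw [Real.rpow_def_of_pos hn0, mul_comm, hx]
  rw [h10] at h9
  exact h9

/-- Triples with a given set `S`. -/
theorem fibre_card_leS {δ : ℝ} (hδ : 0 < δ) (hδ1 : δ ≤ 1) {K0 : ℕ} (hK0 : 16 / δ ≤ K0)
    (n : ℕ) (θ : ℝ) (hθ : 0 ≤ θ) (hn : 4 ≤ Real.log n)
    (S : Finset ℕ) (T : Finset (ℕ × ℕ)) (R : ℕ × ℕ → ℕ) (L3 : ℕ × ℕ → Fin 3)
    (hD : ∀ t ∈ T, RootD δ S (R t) (L3 t) t)
    (hrd : ∀ t ∈ T, rd t ≤ n) (hht : ∀ t ∈ T, ht t ≤ (n : ℝ) ^ θ)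
    (K : ℝ) (hK : 0 < K) (hg : ∀ t ∈ T, 9 * (⌈K * Real.log n⌉₊ : ℝ) ≤ δ * ex t (R t))
    (hbig : ∀ t ∈ T, 200 / δ ^ 2 ≤ ht t) :
    (T.card : ℝ) ≤ (2 * ⌈K * Real.log n⌉₊ * (n : ℝ) ^ (2 * (θ + 1) / K)) *
      (9 * (K0 + 1) * (θ * Real.log n / Real.log (1 + δ / 16) + 1) * (2 * (n : ℝ) ^ θ + 1)) *
        BconD K0 ^ S.card := by
  classical
  set x := Real.log (n : ℝ) with hx
  have hx0 : 0 < x := by linarith
  have hn0 : (0 : ℝ) < n := by
    rcases Nat.eq_zero_or_pos n with h | h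
    · rw [h] at hx
      simp at hx
      linarith
    · exact_mod_cast h
  have hI : ∀ t ∈ T, IsT t := fun t h => (hD t h).h
  have hK00 : (0 : ℝ) < K0 := lt_of_lt_of_le (by positivity) hK0
  set B0 : ℝ := 2 * ⌈K * x⌉₊ * (n : ℝ) ^ (2 * (θ + 1) / K) with hB0
  have hB00 : 0 ≤ B0 := by positivity
  have hl17 : 0 < Real.log (1 + δ / 16) := Real.log_pos (by linarith)
  set L : ℕ := ⌊θ * x / Real.log (1 + δ / 16)⌋₊ with hL
  set G : ℕ := ⌊2 * (n : ℝ) ^ θ⌋₊ with hG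
  set f : ℕ × ℕ → ((p : ℕ) → p ∈ S → Fin 3 × ℕ) × (ℕ × ℕ) × ℕ × Fin 3 × Fin 3 :=
    fun t => (codeD K0 S t, codeH K0 (δ / 4) t, ex t (R t), lab t (R t), L3 t) with hf
  set C1 := T.image (codeD K0 S) with hC1
  have h1 : T.card ≤ ⌊B0⌋₊ * (T.image f).card := by
    apply Finset.card_le_mul_card_image
    intro c hc
    rw [Finset.mem_image] at hc
    obtain ⟨t0, ht0, rfl⟩ := hc
    apply Nat.le_floor
    have hm : ∀ t ∈ T.filter (fun a => f a = f t0), t ∈ T ∧ f t = f t0 := by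
      intro t h
      rwa [Finset.mem_filter] at h
    apply class_card_leS hδ hδ1 hK0 n θ hθ hn S (T.filter (fun a => f a = f t0)) R (ex t0 (R t0))
      (lab t0 (R t0)) (L3 t0)
    · intro t h
      have h2 := (hm t h).2
      simp only [hf, Prod.mk.injEq] at h2
      rw [← h2.2.2.2.2]
      exact hD t (hm t h).1
    · exact fun t h => hrd t (hm t h).1
    · exact fun t h => hht t (hm t h).1
    · intro t h
      have := (hm t h).2
      simp only [hf, Prod.mk.injEq] at this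
      exact this.2.2.1
    · intro t h
      have := (hm t h).2
      simp only [hf, Prod.mk.injEq] at this
      exact this.2.2.2.1
    · intro t h t' h'
      have e1 := (hm t h).2
      have e2 := (hm t' h').2
      simp only [hf, Prod.mk.injEq] at e1 e2
      rw [e1.1, e2.1]
    · intro t h t' h'
      have e1 := (hm t h).2
      have e2 := (hm t' h').2
      simp only [hf, Prod.mk.injEq] at e1 e2
      rw [e1.2.1, e2.2.1]
    · exact hK
    · exact hg t0 ht0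
    · exact fun t h => hbig t (hm t h).1
  have hSsub : ∀ t ∈ T, S ⊆ (N t).primeFactors := fun t h => (hD t h).sub
  have h2 : (T.image f) ⊆ C1 ×ˢ ((Finset.range (K0 + 1) ×ˢ Finset.range (L + 1)) ×ˢ
      (Finset.range (G + 1) ×ˢ ((Finset.univ : Finset (Fin 3)) ×ˢ
        (Finset.univ : Finset (Fin 3))))) := by
    intro c hc
    rw [Finset.mem_image] at hc
    obtain ⟨t, ht', rfl⟩ := hc
    have hh0 := ht_pos (hI t ht')
    simp only [Finset.mem_product, hf]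
    refine ⟨Finset.mem_image_of_mem _ ht', ⟨?_, ?_⟩, ?_, Finset.mem_univ _, Finset.mem_univ _⟩
    · rw [Finset.mem_range, Nat.lt_succ_iff]
      simp only [codeH]
      have ha := al_le_one (hI t ht')
      apply Nat.floor_le_of_le
      nlinarith
    · rw [Finset.mem_range, Nat.lt_succ_iff]
      simp only [codeH]
      rw [hL]
      apply Nat.floor_le_floor
      rw [show (1 : ℝ) + δ / 4 / 4 = 1 + δ / 16 by ring]
      apply div_le_div_of_nonneg_right _ hl17.le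
      calc Real.log (ht t) ≤ Real.log ((n : ℝ) ^ θ) := Real.log_le_log hh0 (hht t ht')
        _ = θ * x := Real.log_rpow hn0 θ
    · rw [Finset.mem_range, Nat.lt_succ_iff]
      apply Nat.le_floor
      exact ex_le_of_ht (hI t ht') (Nat.prime_of_mem_primeFactors (hD t ht').memR) (hht t ht')
  have h3 : ((T.image f).card : ℝ) ≤ C1.card * (((K0 + 1) * (L + 1)) * ((G + 1) * 9)) := by
    have := Finset.card_le_card h2
    rw [Finset.card_product, Finset.card_product, Finset.card_product, Finset.card_product,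
      Finset.card_product, Finset.card_range, Finset.card_range, Finset.card_range,
      Finset.card_univ, Fintype.card_fin] at this
    exact_mod_cast this
  have h4 : (C1.card : ℝ) ≤ BconD K0 ^ S.card := by
    apply card_codesD_le
    intro c hc
    rw [hC1, Finset.mem_image] at hc
    obtain ⟨t, ht', rfl⟩ := hc
    simp only [codeD]
    rw [Finset.sum_attach S (fun p => ⌊u t p * (K0 * S.card)⌋₊)]
    have hu := sum_u_le (hI t ht') (hSsub t ht')
    have h5 : ((∑ p ∈ S, ⌊u t p * (K0 * S.card)⌋₊ : ℕ) : ℝ) ≤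
        ((3 * K0 * S.card : ℕ) : ℝ) := by
      push_cast
      calc ∑ p ∈ S, (⌊u t p * (K0 * S.card)⌋₊ : ℝ) ≤ ∑ p ∈ S, u t p * (K0 * S.card) := by
            apply Finset.sum_le_sum
            intro p _
            apply Nat.floor_le
            have := u_nonneg (hI t ht') p
            positivity
        _ = (∑ p ∈ S, u t p) * (K0 * S.card) := by rw [Finset.sum_mul]
        _ ≤ 3 * (K0 * S.card) := by gcongr
        _ ≤ _ := by linarith
    exact_mod_cast h5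
  have hLle : (L : ℝ) ≤ θ * x / Real.log (1 + δ / 16) := Nat.floor_le (by positivity)
  have hGle : (G : ℝ) ≤ 2 * (n : ℝ) ^ θ := Nat.floor_le (by positivity)
  have hBp : 0 ≤ BconD K0 ^ S.card := pow_nonneg (BconD_pos K0).le _
  have h6 : (⌊B0⌋₊ : ℝ) ≤ B0 := Nat.floor_le hB00
  calc (T.card : ℝ) ≤ (⌊B0⌋₊ : ℝ) * (T.image f).card := by exact_mod_cast h1
    _ ≤ B0 * (C1.card * (((K0 + 1) * (L + 1)) * ((G + 1) * 9))) := by gcongr
    _ ≤ B0 * (BconD K0 ^ S.card * (((K0 + 1) * (θ * x / Real.log (1 + δ / 16) + 1)) *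
        ((2 * (n : ℝ) ^ θ + 1) * 9))) := by gcongr
    _ = _ := by ring

theorem mert_le (n : ℕ) (B : ℝ) (hB : 0 ≤ B) (h4 : 4 ≤ Real.log n) :
    Real.exp (B * ∑ p ∈ Nat.primesLE n, 1 / (p : ℝ)) ≤ Real.log n ^ (27 * B) := by
  set x := Real.log (n : ℝ) with hx
  have hx0 : 0 < x := by linarith
  calc Real.exp (B * ∑ p ∈ Nat.primesLE n, 1 / (p : ℝ)) ≤
      Real.exp (B * (9 * (1 + Real.log (1 + x)))) :=
        Real.exp_le_exp.mpr (mul_le_mul_of_nonneg_left (mertens n) hB)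
    _ ≤ Real.exp (Real.log x * (27 * B)) := by
        apply Real.exp_le_exp.mpr
        have h1 : 1 ≤ Real.log x := by
          rw [Real.le_log_iff_exp_le hx0]
          linarith [Real.exp_one_lt_d9]
        have h2 : Real.log (1 + x) ≤ 2 * Real.log x := by
          rw [← Real.log_rpow hx0]
          apply Real.log_le_log (by linarith)
          rw [show (2 : ℝ) = ((2 : ℕ) : ℝ) by norm_num, Real.rpow_natCast]
          nlinarith
        nlinarith
    _ = x ^ (27 * B) := by rw [Real.rpow_def_of_pos hx0]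

/-- Triples of root type whose set `S` has small product. -/
theorem count_rootS (δ θ σ η : ℝ) (hδ : 0 < δ) (hδ1 : δ ≤ 1) (hθ : 0 ≤ θ) (hη : 0 < η) :
    ∃ K : ℝ, 0 < K ∧ ∀ᶠ n : ℕ in atTop, ∀ T : Finset (ℕ × ℕ),
      (∀ t ∈ T, rd t ≤ n ∧ ht t ≤ (n : ℝ) ^ θ ∧ 200 / δ ^ 2 ≤ ht t ∧
        ∃ (S : Finset ℕ) (R : ℕ) (l3 : Fin 3), RootD δ S R l3 t ∧
          ((∏ p ∈ S, p : ℕ) : ℝ) ≤ (n : ℝ) ^ σ ∧
          9 * (⌈K * Real.log n⌉₊ : ℝ) ≤ δ * ex t R) →
      (T.card : ℝ) ≤ (n : ℝ) ^ (σ + θ + η) := by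
  classical
  set K : ℝ := 4 * (θ + 1) / η with hK
  have hK0 : 0 < K := by positivity
  refine ⟨K, hK0, ?_⟩
  have hKη : 2 * (θ + 1) / K = η / 2 := by
    rw [hK]
    field_simp
    ring
  set K0 : ℕ := ⌈16 / δ⌉₊ with hK0def
  have hK0' : 16 / δ ≤ K0 := Nat.le_ceil _
  set B := BconD K0 with hB
  have hB0 : 0 < B := BconD_pos K0
  have hl17 : 0 < Real.log (1 + δ / 16) := Real.log_pos (by linarith)
  set C0 : ℝ := 2 * (K + 1) * (9 * (K0 + 1) * (θ / Real.log (1 + δ / 16) + 1) * 3) with hC0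
  have hlim : Tendsto (fun n : ℕ => Real.log (n : ℝ)) atTop atTop :=
    Real.tendsto_log_atTop.comp tendsto_natCast_atTop_atTop
  filter_upwards [hlim.eventually (eventually_ge_atTop 4),
    ev_log_pow_le C0 (2 + 27 * B) (η / 2) (by positivity), eventually_ge_atTop 1] with
    n h4 hlogpow hn1 T hT
  set x := Real.log (n : ℝ) with hx
  have hx0 : 0 < x := by linarith
  have hx1 : 1 ≤ x := by linarith
  have hn0 : (0 : ℝ) < n := by exact_mod_cast hn1
  have hn1' : (1 : ℝ) ≤ n := by exact_mod_cast hn1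
  choose! S R L3 hR using fun t (h : t ∈ T) => (hT t h).2.2.2
  set P := Nat.primesLE n with hP
  have hPp : ∀ p ∈ P, p.Prime := fun p hp => (Nat.mem_primesLE.mp hp).2
  have hsubP : ∀ t ∈ T, (N t).primeFactors ⊆ P := by
    intro t htT p hp
    rw [hP, Nat.mem_primesLE]
    refine ⟨le_trans ?_ (hT t htT).1, Nat.prime_of_mem_primeFactors hp⟩
    exact Nat.le_of_dvd (Finset.prod_pos (fun q hq => (Nat.prime_of_mem_primeFactors hq).pos))
      (Finset.dvd_prod_of_mem (fun p => p) hp)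
  set F := P.powerset.filter (fun S => ((∏ p ∈ S, p : ℕ) : ℝ) ≤ (n : ℝ) ^ σ) with hF
  set A0 : ℝ := (2 * ⌈K * x⌉₊ * (n : ℝ) ^ (2 * (θ + 1) / K)) *
      (9 * (K0 + 1) * (θ * x / Real.log (1 + δ / 16) + 1) * (2 * (n : ℝ) ^ θ + 1)) with hA0
  have hA00 : 0 ≤ A0 := by positivity
  have hmapsF : ∀ t ∈ T, S t ∈ F := by
    intro t ht'
    rw [hF, Finset.mem_filter, Finset.mem_powerset]
    exact ⟨(hR t ht').1.sub.trans (hsubP t ht'), (hR t ht').2.1⟩
  have h5 : (T.card : ℝ) ≤ A0 * ∑ S ∈ F, B ^ S.card := by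
    rw [Finset.card_eq_sum_card_fiberwise (f := S) (t := F)
      (fun t ht => hmapsF t ht), Finset.mul_sum]
    push_cast
    apply Finset.sum_le_sum
    intro S' _
    have hm : ∀ t ∈ T.filter (fun t => S t = S'), t ∈ T ∧ S t = S' := by
      intro t h
      rwa [Finset.mem_filter] at h
    apply fibre_card_leS hδ hδ1 hK0' n θ hθ h4 S' _ R L3
    · intro t h
      have h1 := (hR t (hm t h).1).1
      rwa [(hm t h).2] at h1
    · exact fun t h => (hT t (hm t h).1).1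
    · exact fun t h => (hT t (hm t h).1).2.1
    · exact hK0
    · exact fun t h => (hR t (hm t h).1).2.2
    · exact fun t h => (hT t (hm t h).1).2.2.1
  have b2 := sum_small P hPp B ((n : ℝ) ^ σ) hB0.le (by positivity)
  have hmert := mert_le n B hB0.le h4
  have hnθ1 : 1 ≤ (n : ℝ) ^ θ := Real.one_le_rpow hn1' hθ
  have hA0le : A0 ≤ C0 * x ^ (2 : ℝ) * ((n : ℝ) ^ (η / 2) * (n : ℝ) ^ θ) := by
    have h6 : (⌈K * x⌉₊ : ℝ) ≤ (K + 1) * x := by
      have := (Nat.ceil_lt_add_one (show 0 ≤ K * x by positivity)).le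
      nlinarith
    have h7 : θ * x / Real.log (1 + δ / 16) + 1 ≤ (θ / Real.log (1 + δ / 16) + 1) * x := by
      have : θ * x / Real.log (1 + δ / 16) = θ / Real.log (1 + δ / 16) * x := by ring
      rw [this]
      nlinarith
    have h8 : 2 * (n : ℝ) ^ θ + 1 ≤ 3 * (n : ℝ) ^ θ := by linarith
    rw [hA0, hKη]
    calc (2 * (⌈K * x⌉₊ : ℝ) * (n : ℝ) ^ (η / 2)) *
        (9 * (K0 + 1) * (θ * x / Real.log (1 + δ / 16) + 1) * (2 * (n : ℝ) ^ θ + 1)) ≤
        (2 * ((K + 1) * x) * (n : ℝ) ^ (η / 2)) *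
        (9 * (K0 + 1) * ((θ / Real.log (1 + δ / 16) + 1) * x) * (3 * (n : ℝ) ^ θ)) := by
          gcongr
      _ = C0 * (x * x) * ((n : ℝ) ^ (η / 2) * (n : ℝ) ^ θ) := by
          rw [hC0]
          ring
      _ = C0 * x ^ (2 : ℝ) * ((n : ℝ) ^ (η / 2) * (n : ℝ) ^ θ) := by
          rw [show (2 : ℝ) = ((2 : ℕ) : ℝ) by norm_num, Real.rpow_natCast]
          ring
  have hC00 : 0 ≤ C0 := by positivity
  calc (T.card : ℝ) ≤ A0 * ∑ S ∈ F, B ^ S.card := h5
    _ ≤ A0 * ((n : ℝ) ^ σ * Real.exp (B * ∑ p ∈ P, 1 / (p : ℝ))) :=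
        mul_le_mul_of_nonneg_left b2 hA00
    _ ≤ (C0 * x ^ (2 : ℝ) * ((n : ℝ) ^ (η / 2) * (n : ℝ) ^ θ)) *
        ((n : ℝ) ^ σ * x ^ (27 * B)) := by gcongr
    _ = (C0 * (x ^ (2 : ℝ) * x ^ (27 * B))) * ((n : ℝ) ^ (η / 2) * (n : ℝ) ^ θ *
        (n : ℝ) ^ σ) := by ring
    _ = (C0 * x ^ (2 + 27 * B)) * ((n : ℝ) ^ (η / 2) * (n : ℝ) ^ θ * (n : ℝ) ^ σ) := by
        rw [Real.rpow_add hx0]
    _ ≤ (n : ℝ) ^ (η / 2) * ((n : ℝ) ^ (η / 2) * (n : ℝ) ^ θ * (n : ℝ) ^ σ) := by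
        gcongr
    _ = (n : ℝ) ^ (σ + θ + η) := by
        rw [← Real.rpow_add hn0, ← Real.rpow_add hn0, ← Real.rpow_add hn0]
        congr 1
        ring

/-- Triples with a subset `S` of the primes of small product which carries enough mass. -/
theorem count_lightS (δ A σ η : ℝ) (hδ : 0 < δ) (hδ1 : δ ≤ 1) (hA : 0 ≤ A) (hη : 0 < η) :
    ∀ᶠ n : ℕ in atTop, ∀ T : Finset (ℕ × ℕ),
      (∀ t ∈ T, IsT t ∧ rd t ≤ n ∧ ht t ≤ (n : ℝ) ^ A ∧ 2 / δ ≤ ht t ∧
        ∃ S ⊆ (N t).primeFactors, ((∏ p ∈ S, p : ℕ) : ℝ) ≤ (n : ℝ) ^ σ ∧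
          ∑ p ∈ (N t).primeFactors \ S, u t p ≤ 1 - δ) →
      (T.card : ℝ) ≤ (n : ℝ) ^ (σ + η) := by
  classical
  set K : ℕ := ⌈8 / δ⌉₊ with hKdef
  have hK : 8 / δ ≤ K := Nat.le_ceil _
  have hK0 : (0 : ℝ) < K := lt_of_lt_of_le (by positivity) hK
  set B := BconD K with hB
  have hB0 : 0 < B := BconD_pos K
  set ρ : ℝ := Real.log (1 + δ / 4) with hρ
  have hρ0 : 0 < ρ := Real.log_pos (by linarith)
  set C0 : ℝ := (K + 1) * (A / ρ + 1) with hC0
  have hlim : Tendsto (fun n : ℕ => Real.log (n : ℝ)) atTop atTop :=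
    Real.tendsto_log_atTop.comp tendsto_natCast_atTop_atTop
  filter_upwards [hlim.eventually (eventually_ge_atTop 4),
    ev_log_pow_le C0 (1 + 27 * B) η hη, eventually_ge_atTop 1] with
    n h4 hlogpow hn1 T hT
  set x := Real.log (n : ℝ) with hx
  have hx0 : 0 < x := by linarith
  have hx1 : 1 ≤ x := by linarith
  have hn0 : (0 : ℝ) < n := by exact_mod_cast hn1
  have hn1' : (1 : ℝ) ≤ n := by exact_mod_cast hn1
  choose! S hSs hSz hSu using fun t (h : t ∈ T) => (hT t h).2.2.2.2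
  set P := Nat.primesLE n with hP
  have hPp : ∀ p ∈ P, p.Prime := fun p hp => (Nat.mem_primesLE.mp hp).2
  have hsubP : ∀ t ∈ T, (N t).primeFactors ⊆ P := by
    intro t htT p hp
    rw [hP, Nat.mem_primesLE]
    refine ⟨le_trans ?_ (hT t htT).2.1, Nat.prime_of_mem_primeFactors hp⟩
    exact Nat.le_of_dvd (Finset.prod_pos (fun q hq => (Nat.prime_of_mem_primeFactors hq).pos))
      (Finset.dvd_prod_of_mem (fun p => p) hp)
  have hH1 : 1 ≤ (n : ℝ) ^ A := Real.one_le_rpow hn1' hA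
  have b1 := card_le_sum_of_goodD hδ hδ1 hK ((n : ℝ) ^ A) hH1 T
    (P.powerset.filter (fun S => ((∏ p ∈ S, p : ℕ) : ℝ) ≤ (n : ℝ) ^ σ)) S (by
      intro t h
      rw [Finset.mem_filter, Finset.mem_powerset]
      exact ⟨(hSs t h).trans (hsubP t h), hSz t h⟩) (by
      intro t h
      have h1 := (hT t h).1
      refine ⟨⟨h1, hSs t h, ?_, (hT t h).2.2.2.1⟩, (hT t h).2.2.1⟩
      rw [← sum_u_eq h1, ← Finset.sum_sdiff (hSs t h)]
      have := hSu t h
      linarith)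
  have b2 := sum_small P hPp B ((n : ℝ) ^ σ) hB0.le (by positivity)
  have hmert := mert_le n B hB0.le h4
  have hlogH : Real.log ((n : ℝ) ^ A) = A * x := Real.log_rpow hn0 A
  rw [hlogH, ← hρ] at b1
  have hfac : ((K : ℝ) + 1) * (A * x / ρ + 1) ≤ C0 * x := by
    calc ((K : ℝ) + 1) * (A * x / ρ + 1) ≤ ((K : ℝ) + 1) * (A * x / ρ + x) := by gcongr
      _ = C0 * x := by rw [hC0]; ring
  have hfac0 : 0 ≤ ((K : ℝ) + 1) * (A * x / ρ + 1) := by positivity
  calc (T.card : ℝ) ≤ ((K : ℝ) + 1) * (A * x / ρ + 1) *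
        ((n : ℝ) ^ σ * Real.exp (B * ∑ p ∈ P, 1 / (p : ℝ))) :=
          b1.trans (mul_le_mul_of_nonneg_left b2 hfac0)
    _ ≤ (C0 * x) * ((n : ℝ) ^ σ * x ^ (27 * B)) := by gcongr
    _ = (C0 * x ^ (1 + 27 * B)) * (n : ℝ) ^ σ := by
        rw [Real.rpow_add hx0, Real.rpow_one]
        ring
    _ ≤ (n : ℝ) ^ η * (n : ℝ) ^ σ := by gcongr
    _ = (n : ℝ) ^ (σ + η) := by
        rw [← Real.rpow_add hn0]
        congr 1
        ring

end Pool.Agent.Lib.Pabc1
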