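import Mathlib
import Pool.Agent.Lib.Pabc1.SCount
import Pool.Agent.Lib.Pabc2.Final2

open Finset Filter Topology

namespace Pool.Agent.Lib.Pabc1

open Pool.Agent.Lib.Pabc2

theorem exists_mid_add {δ : ℝ} (f : ℕ → ℝ) : ∀ P : Finset ℕ, (∀ p ∈ P, f p ≤ δ) →
    δ ≤ ∑ p ∈ P, f p → ∃ Q ⊆ P, δ ≤ ∑ p ∈ Q, f p ∧ ∑ p ∈ Q, f p ≤ max (2 * δ) 0 := by
  classical
  intro P
  induction P using Finset.induction_on with
  | empty =>
    intro _ h
    exact ⟨∅, Finset.Subset.refl _, h, by simp⟩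
  | insert a P ha ih =>
    intro hP h
    by_cases h2 : δ ≤ ∑ p ∈ P, f p
    · obtain ⟨Q, hQ, h3, h4⟩ := ih (fun p hp => hP p (Finset.mem_insert_of_mem hp)) h2
      exact ⟨Q, hQ.trans (Finset.subset_insert _ _), h3, h4⟩
    · refine ⟨insert a P, Finset.Subset.refl _, h, le_trans ?_ (le_max_left _ _)⟩
      rw [Finset.sum_insert ha]
      push Not at h2
      have h3 := hP a (Finset.mem_insert_self _ _)
      linarith

/-- A set of large mass has a subset of mass at least `δ` and small weight. -/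
theorem greedy_add {δ : ℝ} (hδ : 0 < δ) (f v : ℕ → ℝ) : ∀ k : ℕ, ∀ P : Finset ℕ,
    (∀ p ∈ P, f p ≤ δ) → δ * (2 * k + 1) ≤ ∑ p ∈ P, f p →
    ∃ Q ⊆ P, δ ≤ ∑ p ∈ Q, f p ∧ ((k : ℝ) + 1) * ∑ p ∈ Q, v p ≤ ∑ p ∈ P, v p := by
  classical
  intro k
  induction k with
  | zero =>
    intro P _ h
    refine ⟨P, Finset.Subset.refl _, by simpa using h, by simp⟩
  | succ k ih =>
    intro P hP h
    have hk : (0 : ℝ) ≤ k := Nat.cast_nonneg k
    push_cast at h
    have hδP : δ ≤ ∑ p ∈ P, f p := by nlinarith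
    obtain ⟨Q1, hQ1, h1, h2⟩ := exists_mid_add f P hP hδP
    rw [max_eq_left (by linarith)] at h2
    have hsplit : (∑ p ∈ P \ Q1, f p) + ∑ p ∈ Q1, f p = ∑ p ∈ P, f p := Finset.sum_sdiff hQ1
    have hsplitv : (∑ p ∈ P \ Q1, v p) + ∑ p ∈ Q1, v p = ∑ p ∈ P, v p := Finset.sum_sdiff hQ1
    obtain ⟨Q, hQ, h5, h6⟩ := ih (P \ Q1) (fun p hp => hP p (Finset.sdiff_subset hp)) (by
      linarith)
    by_cases hc : ((k : ℝ) + 2) * ∑ p ∈ Q1, v p ≤ ∑ p ∈ P, v p
    · refine ⟨Q1, hQ1, h1, ?_⟩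
      push_cast
      linarith
    · refine ⟨Q, hQ.trans Finset.sdiff_subset, h5, ?_⟩
      push Not at hc
      push_cast
      have h7 : ((k : ℝ) + 1) * (((k : ℝ) + 1 + 1) * ∑ p ∈ Q, v p) ≤
          ((k : ℝ) + 1) * ∑ p ∈ P, v p := by
        nlinarith
      exact le_of_mul_le_mul_left h7 (by positivity)

/-- The data attached to a label of large mass. -/
theorem label_data {t : ℕ × ℕ} (k : ℕ) {δ : ℝ} (hδ : 0 < δ) (P : Finset ℕ)
    (hm : δ * (2 * k + 1) ≤ ∑ p ∈ P, u t p) :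
    ∃ M ⊆ P, δ ≤ ∑ p ∈ M, u t p ∧ ∃ r : ℝ,
      (r = 0 ∨ ∃ R ∈ P, δ ≤ u t R ∧ r = Real.log R) ∧
      (∑ p ∈ M, Real.log (p : ℝ)) - r ≤ 1 / ((k : ℝ) + 1) * ∑ p ∈ P, Real.log (p : ℝ) := by
  by_cases hmass : ∃ R ∈ P, δ ≤ u t R
  · obtain ⟨R, hR, hu⟩ := hmass
    refine ⟨{R}, Finset.singleton_subset_iff.mpr hR, by rw [Finset.sum_singleton]; exact hu,
      Real.log R, Or.inr ⟨R, hR, hu, rfl⟩, ?_⟩
    rw [Finset.sum_singleton, sub_self]
    have : 0 ≤ ∑ p ∈ P, Real.log (p : ℝ) :=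
      Finset.sum_nonneg (fun p _ => Real.log_natCast_nonneg p)
    positivity
  · push Not at hmass
    obtain ⟨Q, hQ, h1, h2⟩ := greedy_add hδ (u t) (fun p => Real.log (p : ℝ)) k P
      (fun p hp => (hmass p hp).le) hm
    refine ⟨Q, hQ, h1, 0, Or.inl rfl, ?_⟩
    rw [sub_zero, one_div, inv_mul_eq_div, le_div_iff₀ (by positivity)]
    linarith

/-- The set `S` attached to an ordered pair of labels. -/
theorem pairS {t : ℕ × ℕ} (hI : IsT t) {δ : ℝ} {l1 l3 : Fin 3} (h13 : l1 ≠ l3)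
    {M3 : Finset ℕ} (hM3 : M3 ⊆ (N t).primeFactors.filter (fun p => lab t p = l3))
    (hm : δ ≤ ∑ p ∈ M3, u t p) {r1 : ℝ}
    (hr : r1 = 0 ∨ ∃ R ∈ (N t).primeFactors.filter (fun p => lab t p = l1),
      δ ≤ u t R ∧ r1 = Real.log R) :
    ∃ S ⊆ (N t).primeFactors, ∑ p ∈ S, Real.log (p : ℝ) =
      ∑ p ∈ (N t).primeFactors, Real.log (p : ℝ) - r1 -
      ∑ p ∈ (N t).primeFactors.filter (fun p => lab t p = l3), Real.log (p : ℝ) +
      ∑ p ∈ M3, Real.log (p : ℝ) ∧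
      (∑ p ∈ (N t).primeFactors \ S, u t p ≤ 1 - δ ∨
        ∃ (R : ℕ) (l : Fin 3), RootD δ S R l t ∧ δ ≤ u t R) := by
  classical
  set PF := (N t).primeFactors with hPF
  set P3 := PF.filter (fun p => lab t p = l3) with hP3
  have hP3sub : P3 ⊆ PF := Finset.filter_subset _ _
  have hd : P3 \ M3 ⊆ PF := Finset.sdiff_subset.trans hP3sub
  have e1 := Finset.sum_sdiff hd (f := fun p : ℕ => Real.log (p : ℝ))
  have e2 := Finset.sum_sdiff hM3 (f := fun p : ℕ => Real.log (p : ℝ))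
  have e3 := Finset.sum_sdiff hM3 (f := u t)
  have hle := sum_lab_le_one hI l3
  rw [← hPF, ← hP3] at hle
  rcases hr with rfl | ⟨R, hR, huR, rfl⟩
  · refine ⟨PF \ (P3 \ M3), Finset.sdiff_subset, by linarith, Or.inl ?_⟩
    rw [Finset.sdiff_sdiff_eq_self hd]
    linarith
  · rw [Finset.mem_filter] at hR
    have hRS0 : R ∈ PF \ (P3 \ M3) := by
      rw [Finset.mem_sdiff]
      refine ⟨hR.1, fun h => ?_⟩
      have := (Finset.mem_filter.mp (Finset.mem_sdiff.mp h).1).2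
      exact h13 (hR.2.symm.trans this)
    refine ⟨(PF \ (P3 \ M3)).erase R, (Finset.erase_subset _ _).trans Finset.sdiff_subset, ?_,
      Or.inr ⟨R, l3, ?_, huR⟩⟩
    · have e4 := Finset.add_sum_erase (PF \ (P3 \ M3)) (fun p : ℕ => Real.log (p : ℝ)) hRS0
      linarith
    · refine ⟨hI, (Finset.erase_subset _ _).trans Finset.sdiff_subset, hR.1,
        Finset.notMem_erase _ _, by rw [hR.2]; exact h13, ?_, ?_⟩
      · intro p hp hpS hpR
        by_contra hl
        apply hpS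
        rw [Finset.mem_erase, Finset.mem_sdiff]
        refine ⟨hpR, hp, fun h => ?_⟩
        exact hl (Finset.mem_filter.mp (Finset.mem_sdiff.mp h).1).2
      · refine hm.trans (Finset.sum_le_sum_of_subset_of_nonneg ?_ (fun p _ _ => u_nonneg hI p))
        intro p hp
        have hp3 := Finset.mem_filter.mp (hM3 hp)
        rw [Finset.mem_filter, Finset.mem_erase, Finset.mem_sdiff]
        refine ⟨⟨?_, hp3.1, fun h => (Finset.mem_sdiff.mp h).2 hp⟩, hp3.2⟩
        rintro rfl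
        exact h13 (hR.2.symm.trans hp3.2)

/-- Every triple has a suitable set `S` with at most two thirds of the weight. -/
theorem coverS (k : ℕ) {δ : ℝ} (hδ : δ * (2 * k + 1) = 1 / 2) {t : ℕ × ℕ} (hI : IsT t)
    (hbig : 2 ≤ ht t) :
    ∃ S ⊆ (N t).primeFactors, ∑ p ∈ S, Real.log (p : ℝ) ≤
      (2 / 3 + 1 / ((k : ℝ) + 1)) * ∑ p ∈ (N t).primeFactors, Real.log (p : ℝ) ∧
      (∑ p ∈ (N t).primeFactors \ S, u t p ≤ 1 - δ ∨
        ∃ (R : ℕ) (l : Fin 3), RootD δ S R l t ∧ δ ≤ u t R) := by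
  classical
  have hk : (0 : ℝ) ≤ k := Nat.cast_nonneg k
  have hδ0 : 0 < δ := by
    by_contra hcon
    push Not at hcon
    nlinarith
  have hδ2 : δ ≤ 1 / 2 := by nlinarith
  have H := ht_pos hI
  have hl2 := log_two_bd
  set PF := (N t).primeFactors with hPF
  set L := ∑ p ∈ PF, Real.log (p : ℝ) with hL
  set LL : Fin 3 → ℝ := fun l => ∑ p ∈ PF.filter (fun p => lab t p = l), Real.log (p : ℝ) with hLL
  have hLL0 : ∀ l, 0 ≤ LL l := fun l => Finset.sum_nonneg (fun p _ => Real.log_natCast_nonneg p)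
  have hsum : LL 0 + LL 1 + LL 2 = L := by
    have := Finset.sum_fiberwise PF (lab t) (fun p : ℕ => Real.log (p : ℝ))
    rw [Fin.sum_univ_three] at this
    exact this
  set e : ℝ := 1 / ((k : ℝ) + 1) with he
  have he0 : 0 < e := by positivity
  have hm1 : δ * (2 * k + 1) ≤ ∑ p ∈ PF.filter (fun p => lab t p = 1), u t p := by
    rw [hδ, hPF, sum_lab_eq hI 1, le_div_iff₀ H]
    have h1 := log_b_ge hI
    have h2 : comp t 1 = t.2 := by simp [comp]
    rw [h2]
    linarith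
  have hm2 : δ * (2 * k + 1) ≤ ∑ p ∈ PF.filter (fun p => lab t p = 2), u t p := by
    rw [hδ, hPF, sum_lab_eq hI 2, le_div_iff₀ H]
    have h2 : comp t 2 = t.1 + t.2 := by simp [comp]
    have h3 : Real.log ((t.1 + t.2 : ℕ) : ℝ) = ht t := by
      unfold ht
      push_cast
      rfl
    rw [h2, h3]
    linarith
  obtain ⟨M1, hM1, hmM1, r1, hr1, hc1⟩ := label_data k hδ0 _ hm1
  obtain ⟨M2, hM2, hmM2, r2, hr2, hc2⟩ := label_data k hδ0 _ hm2
  obtain ⟨S12, hS12, hw12, ha12⟩ := pairS hI (show (1 : Fin 3) ≠ 2 by decide) hM2 hmM2 hr1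
  obtain ⟨S21, hS21, hw21, ha21⟩ := pairS hI (show (2 : Fin 3) ≠ 1 by decide) hM1 hmM1 hr2
  rw [← hPF, ← hL] at hw12 hw21
  change _ = L - r1 - LL 2 + _ at hw12
  change _ = L - r2 - LL 1 + _ at hw21
  rw [← he] at hc1 hc2
  change _ ≤ e * LL 1 at hc1
  change _ ≤ e * LL 2 at hc2
  have hLL0' := hLL0 0
  have hLL1' := hLL0 1
  have hLL2' := hLL0 2
  by_contra hcon
  push Not at hcon
  have n12 : (2 / 3 + e) * L < ∑ p ∈ S12, Real.log (p : ℝ) := by
    by_contra h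
    push Not at h
    obtain ⟨g1, g2⟩ := hcon S12 hS12 h
    rcases ha12 with h1 | ⟨R, l, h1, h2⟩
    · linarith
    · linarith [g2 R l h1]
  have n21 : (2 / 3 + e) * L < ∑ p ∈ S21, Real.log (p : ℝ) := by
    by_contra h
    push Not at h
    obtain ⟨g1, g2⟩ := hcon S21 hS21 h
    rcases ha21 with h1 | ⟨R, l, h1, h2⟩
    · linarith
    · linarith [g2 R l h1]
  by_cases hm0 : δ * (2 * k + 1) ≤ ∑ p ∈ PF.filter (fun p => lab t p = 0), u t p
  · obtain ⟨M0, hM0, hmM0, r0, hr0, hc0⟩ := label_data k hδ0 _ hm0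
    obtain ⟨S01, hS01, hw01, ha01⟩ := pairS hI (show (0 : Fin 3) ≠ 1 by decide) hM1 hmM1 hr0
    obtain ⟨S02, hS02, hw02, ha02⟩ := pairS hI (show (0 : Fin 3) ≠ 2 by decide) hM2 hmM2 hr0
    obtain ⟨S10, hS10, hw10, ha10⟩ := pairS hI (show (1 : Fin 3) ≠ 0 by decide) hM0 hmM0 hr1
    obtain ⟨S20, hS20, hw20, ha20⟩ := pairS hI (show (2 : Fin 3) ≠ 0 by decide) hM0 hmM0 hr2
    rw [← hPF, ← hL] at hw01 hw02 hw10 hw20
    change _ = L - r0 - LL 1 + _ at hw01
    change _ = L - r0 - LL 2 + _ at hw02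
    change _ = L - r1 - LL 0 + _ at hw10
    change _ = L - r2 - LL 0 + _ at hw20
    rw [← he] at hc0
    change _ ≤ e * LL 0 at hc0
    have n01 : (2 / 3 + e) * L < ∑ p ∈ S01, Real.log (p : ℝ) := by
      by_contra h
      push Not at h
      obtain ⟨g1, g2⟩ := hcon S01 hS01 h
      rcases ha01 with h1 | ⟨R, l, h1, h2⟩
      · linarith
      · linarith [g2 R l h1]
    have n02 : (2 / 3 + e) * L < ∑ p ∈ S02, Real.log (p : ℝ) := by
      by_contra h
      push Not at h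
      obtain ⟨g1, g2⟩ := hcon S02 hS02 h
      rcases ha02 with h1 | ⟨R, l, h1, h2⟩
      · linarith
      · linarith [g2 R l h1]
    have n10 : (2 / 3 + e) * L < ∑ p ∈ S10, Real.log (p : ℝ) := by
      by_contra h
      push Not at h
      obtain ⟨g1, g2⟩ := hcon S10 hS10 h
      rcases ha10 with h1 | ⟨R, l, h1, h2⟩
      · linarith
      · linarith [g2 R l h1]
    have n20 : (2 / 3 + e) * L < ∑ p ∈ S20, Real.log (p : ℝ) := by
      by_contra h
      push Not at h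
      obtain ⟨g1, g2⟩ := hcon S20 hS20 h
      rcases ha20 with h1 | ⟨R, l, h1, h2⟩
      · linarith
      · linarith [g2 R l h1]
    have heL : e * LL 0 + e * LL 1 + e * LL 2 = e * L := by rw [← hsum]; ring
    have heL0 : 0 ≤ e * L := by
      have : 0 ≤ L := by linarith
      positivity
    have hexp : (2 / 3 + e) * L = 2 / 3 * L + e * L := by ring
    rw [hexp] at n12 n21 n01 n02 n10 n20
    linarith
  · push Not at hm0
    have hS : ∑ p ∈ PF \ PF.filter (fun p => lab t p = 0), Real.log (p : ℝ) = L - LL 0 := by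
      have := Finset.sum_sdiff (Finset.filter_subset (fun p => lab t p = 0) PF)
        (f := fun p : ℕ => Real.log (p : ℝ))
      change _ + LL 0 = L at this
      linarith
    have n0 : (2 / 3 + e) * L < L - LL 0 := by
      by_contra h
      push Not at h
      obtain ⟨g1, _⟩ := hcon (PF \ PF.filter (fun p => lab t p = 0)) Finset.sdiff_subset
        (by rw [hS]; exact h)
      rw [Finset.sdiff_sdiff_eq_self (Finset.filter_subset _ _)] at g1
      linarith
    have heL : e * LL 0 + e * LL 1 + e * LL 2 = e * L := by rw [← hsum]; ring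
    have heL0 : 0 ≤ e * LL 0 := by positivity
    have heL1 : 0 ≤ e * L := by
      have : 0 ≤ L := by linarith
      positivity
    have hexp : (2 / 3 + e) * L = 2 / 3 * L + e * L := by ring
    rw [hexp] at n12 n21 n0
    linarith

/-- Upper bound: for all heights up to `exp (n ^ θ)` the exponent `2/3 + θ`. -/
theorem main_two_thirds (θ η : ℝ) (hθ : 0 ≤ θ) (hη : 0 < η) :
    ∀ᶠ n : ℕ in atTop, ∀ T : Finset (ℕ × ℕ),
      (∀ t ∈ T, IsT t ∧ rd t ≤ n ∧ ht t ≤ (n : ℝ) ^ θ) →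
      2 * (T.card : ℝ) ≤ (n : ℝ) ^ (2 / 3 + θ + η) := by
  classical
  -- parameters
  obtain ⟨k, hk⟩ := exists_nat_gt (8 / η)
  have hk0 : (0 : ℝ) < k := lt_trans (by positivity) hk
  have hkη : 1 / ((k : ℝ) + 1) ≤ η / 8 := by
    rw [div_lt_iff₀ hη] at hk
    rw [div_le_iff₀ (by positivity)]
    nlinarith
  set δ : ℝ := 1 / (2 * (2 * k + 1)) with hδ
  have hδ0 : 0 < δ := by positivity
  have hδk : δ * (2 * k + 1) = 1 / 2 := by
    rw [hδ]
    field_simp
  have hδ1 : δ ≤ 1 := by nlinarith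
  set e : ℝ := 1 / ((k : ℝ) + 1) with he
  have he0 : 0 < e := by positivity
  set s : ℝ := min η 1 with hs
  have hs0 : 0 < s := lt_min hη one_pos
  have hsη : s ≤ η := min_le_left _ _
  have hs1 : s ≤ 1 := min_le_right _ _
  set K' : ℝ := 2 + s / 8 with hK'
  obtain ⟨K, hK, hroot⟩ := count_rootS δ θ (2 / 3 + e) (η / 4) hδ0 hδ1 hθ (by positivity)
  have hlight := count_lightS δ θ (2 / 3 + e) (η / 4) hδ0 hδ1 hθ (by positivity)
  have hq := main_quasi K' (η / 4) (by linarith) (by positivity)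
  have hlim : Tendsto (fun n : ℕ => Real.log (n : ℝ)) atTop atTop :=
    Real.tendsto_log_atTop.comp tendsto_natCast_atTop_atTop
  have hpow : Tendsto (fun n : ℕ => Real.log (n : ℝ) ^ (s / 8)) atTop atTop :=
    (tendsto_rpow_atTop (by positivity)).comp hlim
  filter_upwards [hroot, hlight, hq, hlim.eventually (eventually_ge_atTop 1),
    hlim.eventually (eventually_ge_atTop (200 / δ ^ 2)),
    hpow.eventually (eventually_ge_atTop (9 * (K + 1) / δ ^ 2)),
    ev_log_pow_le 6 0 (η / 4) (by positivity), eventually_ge_atTop 1] with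
    n h1 h2 h3 hx1 hxbig hxpow h6 hn1 T hT
  rw [Real.rpow_zero, mul_one] at h6
  set x := Real.log (n : ℝ) with hx
  have hx0 : 0 < x := by linarith
  have hn0 : (0 : ℝ) < n := by exact_mod_cast hn1
  have hn1' : (1 : ℝ) ≤ n := by exact_mod_cast hn1
  have hxK : x ^ K' = x * x * x ^ (s / 8) := by
    rw [hK', Real.rpow_add hx0, show (2 : ℝ) = ((2 : ℕ) : ℝ) by norm_num, Real.rpow_natCast]
    ring
  have hxs1 : 1 ≤ x ^ (s / 8) := Real.one_le_rpow hx1 (by positivity)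
  set T1 := T.filter (fun t => ht t ≤ x ^ K') with hT1
  set T2 := T.filter (fun t => x ^ K' < ht t ∧
    ∃ S ⊆ (N t).primeFactors, ((∏ p ∈ S, p : ℕ) : ℝ) ≤ (n : ℝ) ^ (2 / 3 + e) ∧
      ∑ p ∈ (N t).primeFactors \ S, u t p ≤ 1 - δ) with hT2
  set T3 := T.filter (fun t => x ^ K' < ht t ∧
    ∃ (S : Finset ℕ) (R : ℕ) (l3 : Fin 3), RootD δ S R l3 t ∧
          ((∏ p ∈ S, p : ℕ) : ℝ) ≤ (n : ℝ) ^ (2 / 3 + e) ∧
          9 * (⌈K * x⌉₊ : ℝ) ≤ δ * ex t R) with hT3
  have hht2 : ∀ t, x ^ K' < ht t → 200 / δ ^ 2 ≤ ht t := by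
    intro t ht'
    rw [hxK] at ht'
    have : x ≤ x * x * x ^ (s / 8) := by
      have h7 : x ≤ x * x := by nlinarith
      have h8 : x * x ≤ x * x * x ^ (s / 8) := by
        have : 0 ≤ x * x := by positivity
        nlinarith
      linarith
    linarith
  have hcover : T ⊆ T1 ∪ (T2 ∪ T3) := by
    intro t ht'
    obtain ⟨hI, hrd, hht⟩ := hT t ht'
    simp only [Finset.mem_union, hT1, hT2, hT3, Finset.mem_filter, ht', true_and]
    by_cases c1 : ht t ≤ x ^ K'
    · left; exact c1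
    right
    push Not at c1
    have hht2' := hht2 t c1
    have hbig : 2 ≤ ht t := by
      refine le_trans ?_ hht2'
      rw [le_div_iff₀ (by positivity)]
      nlinarith
    obtain ⟨S, hS, hSw, hSa⟩ := coverS k hδk hI hbig
    have hprime : ∀ p ∈ (N t).primeFactors, p.Prime := fun p hp =>
      Nat.prime_of_mem_primeFactors hp
    have hlogprod : ∀ Q ⊆ (N t).primeFactors, Real.log ((∏ p ∈ Q, p : ℕ) : ℝ) =
        ∑ p ∈ Q, Real.log (p : ℝ) := by
      intro Q hQ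
      push_cast
      exact Real.log_prod (fun p hp => by exact_mod_cast (hprime p (hQ hp)).ne_zero)
    have hprodpos : ∀ Q ⊆ (N t).primeFactors, (0 : ℝ) < ((∏ p ∈ Q, p : ℕ) : ℝ) := by
      intro Q hQ
      exact_mod_cast Finset.prod_pos (fun p hp => (hprime p (hQ hp)).pos)
    have hLx : ∑ p ∈ (N t).primeFactors, Real.log (p : ℝ) ≤ x := by
      rw [← hlogprod _ (Finset.Subset.refl _)]
      apply Real.log_le_log (hprodpos _ (Finset.Subset.refl _))
      exact_mod_cast hrd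
    have hSn : ((∏ p ∈ S, p : ℕ) : ℝ) ≤ (n : ℝ) ^ (2 / 3 + e) := by
      rw [← Real.log_le_log_iff (hprodpos S hS) (by positivity), hlogprod S hS,
        Real.log_rpow hn0]
      refine hSw.trans ?_
      exact mul_le_mul_of_nonneg_left hLx (by positivity)
    rcases hSa with h7 | ⟨R, l, hRD, huR⟩
    · left
      exact ⟨c1, S, hS, hSn, h7⟩
    · right
      refine ⟨c1, S, R, l, hRD, hSn, ?_⟩
      have hRp := hprime R hRD.memR
      have hR0 : (0 : ℝ) < R := by exact_mod_cast hRp.pos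
      have hlogR0 : 0 ≤ Real.log (R : ℝ) := Real.log_natCast_nonneg R
      have hlogR : Real.log R ≤ x := by
        refine le_trans ?_ hLx
        exact Finset.single_le_sum (f := fun p : ℕ => Real.log (p : ℝ))
          (fun p _ => Real.log_natCast_nonneg p) hRD.memR
      have hHt := ht_pos hI
      have e1 : (ex t R : ℝ) * Real.log R = u t R * ht t := by unfold u; field_simp
      have e2 : δ * ht t ≤ ex t R * x := by
        calc δ * ht t ≤ u t R * ht t := mul_le_mul_of_nonneg_right huR hHt.le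
          _ = (ex t R : ℝ) * Real.log R := e1.symm
          _ ≤ ex t R * x := mul_le_mul_of_nonneg_left hlogR (Nat.cast_nonneg _)
      have hceil : (⌈K * x⌉₊ : ℝ) ≤ K * x + 1 := (Nat.ceil_lt_add_one (by positivity)).le
      have e3 : 9 * (K + 1) ≤ δ ^ 2 * x ^ (s / 8) := by
        rw [div_le_iff₀ (by positivity)] at hxpow
        linarith
      rw [hxK] at c1
      have e4 : δ * (x * x ^ (s / 8)) ≤ ex t R := by
        have h8 : δ * (x * x ^ (s / 8)) * x ≤ ex t R * x := by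
          calc δ * (x * x ^ (s / 8)) * x = δ * (x * x * x ^ (s / 8)) := by ring
            _ ≤ δ * ht t := mul_le_mul_of_nonneg_left c1.le hδ0.le
            _ ≤ ex t R * x := e2
        exact le_of_mul_le_mul_right h8 hx0
      calc 9 * (⌈K * x⌉₊ : ℝ) ≤ 9 * (K * x + 1) := by linarith
        _ ≤ 9 * (K + 1) * x := by nlinarith
        _ ≤ (δ ^ 2 * x ^ (s / 8)) * x := mul_le_mul_of_nonneg_right e3 hx0.le
        _ = δ * (δ * (x * x ^ (s / 8))) := by ring
        _ ≤ δ * ex t R := mul_le_mul_of_nonneg_left e4 hδ0.le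
  have hcard : (T.card : ℝ) ≤ T1.card + (T2.card + T3.card) := by
    have a1 := Finset.card_le_card hcover
    have a2 := Finset.card_union_le T1 (T2 ∪ T3)
    have a3 := Finset.card_union_le T2 T3
    exact_mod_cast (by omega : T.card ≤ T1.card + (T2.card + T3.card))
  have hmono : ∀ a : ℝ, a ≤ 2 / 3 + θ + 3 / 4 * η →
      (n : ℝ) ^ a ≤ (n : ℝ) ^ (2 / 3 + θ + 3 / 4 * η) := fun a ha =>
    Real.rpow_le_rpow_of_exponent_le hn1' ha
  have b1 : 2 * (T1.card : ℝ) ≤ (n : ℝ) ^ (2 / 3 + θ + 3 / 4 * η) := by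
    refine (h3 T1 (fun t ht' => ?_)).trans (hmono _ ?_)
    · rw [hT1, Finset.mem_filter] at ht'
      exact ⟨(hT t ht'.1).1, (hT t ht'.1).2.1, ht'.2⟩
    · have : 1 / (2 * K' - 1) ≥ 1 / 3 - s / 4 := by
        rw [hK', ge_iff_le, le_div_iff₀ (by linarith)]
        nlinarith
      linarith
  have b2 : (T2.card : ℝ) ≤ (n : ℝ) ^ (2 / 3 + θ + 3 / 4 * η) := by
    refine (h2 T2 (fun t ht' => ?_)).trans (hmono _ (by linarith))
    rw [hT2, Finset.mem_filter] at ht'
    obtain ⟨hmT, c1, hS⟩ := ht'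
    have hht2' := hht2 t c1
    refine ⟨(hT t hmT).1, (hT t hmT).2.1, (hT t hmT).2.2, le_trans ?_ hht2', hS⟩
    rw [div_le_div_iff₀ hδ0 (by positivity)]
    nlinarith
  have b3 : (T3.card : ℝ) ≤ (n : ℝ) ^ (2 / 3 + θ + 3 / 4 * η) := by
    refine (h1 T3 (fun t ht' => ?_)).trans (hmono _ (by linarith))
    rw [hT3, Finset.mem_filter] at ht'
    obtain ⟨hmT, c1, hS⟩ := ht'
    exact ⟨(hT t hmT).2.1, (hT t hmT).2.2, hht2 t c1, hS⟩
  have hsplit : (n : ℝ) ^ (2 / 3 + θ + η) =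
      (n : ℝ) ^ (2 / 3 + θ + 3 / 4 * η) * (n : ℝ) ^ (η / 4) := by
    rw [← Real.rpow_add hn0]
    congr 1
    ring
  have hE0 : 0 ≤ (n : ℝ) ^ (2 / 3 + θ + 3 / 4 * η) := by positivity
  rw [hsplit]
  calc 2 * (T.card : ℝ) ≤ (n : ℝ) ^ (2 / 3 + θ + 3 / 4 * η) * 6 := by linarith
    _ ≤ _ := mul_le_mul_of_nonneg_left h6 hE0

end Pool.Agent.Lib.Pabc1
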