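import Mathlib
import Pool.Agent.Lib.Pabc2.Count
import Pool.Agent.Lib.Pabc1.Cell
import Pool.Agent.Lib.Pabc1.Light

open Finset

namespace Pool.Agent.Lib.Pabc1

open Pool.Agent.Lib.Pabc2

/-- Two reduced triples with the same codes on `S` and the same exponents outside `S` coincide. -/
theorem resid_eq (S : Finset ℕ) (hS : ∀ p ∈ S, p.Prime) {t1 t2 : ℕ × ℕ} (h1 : IsT t1)
    (h2 : IsT t2) (hc : codeD 16 S t1 = codeD 16 S t2)
    (hh : codeH 16 (1 / 16) t1 = codeH 16 (1 / 16) t2)
    (hout : ∀ p : ℕ, p.Prime → p ∉ S → ex t1 p = ex t2 p ∧ lab t1 p = lab t2 p)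
    (hb1 : 2 ≤ ht t1) (hb2 : 2 ≤ ht t2) (hle : ht t1 ≤ ht t2) : t1 = t2 := by
  by_contra hne
  have H1 := ht_pos h1
  have H2 := ht_pos h2
  have ha : ⌊al t1 * (16 : ℕ)⌋₊ = ⌊al t2 * (16 : ℕ)⌋₊ := (Prod.ext_iff.mp hh).1
  have hb : ⌊Real.log (ht t1) / Real.log (1 + 1 / 16 / 4)⌋₊ =
    ⌊Real.log (ht t2) / Real.log (1 + 1 / 16 / 4)⌋₊ := (Prod.ext_iff.mp hh).2
  have hratio := ratio_of_floor_eq (by norm_num) (by linarith) (by linarith) hb
  have hpt : ∀ p (_ : p ∈ S), lab t1 p = lab t2 p ∧
      ⌊u t1 p * ((16 : ℕ) * S.card)⌋₊ = ⌊u t2 p * ((16 : ℕ) * S.card)⌋₊ := by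
    intro p hp
    have := congrFun (congrFun hc p) hp
    exact Prod.ext_iff.mp this
  have hsumS : ∑ p ∈ S, |u t1 p - u t2 p| ≤ 1 / 16 := by
    rcases S.eq_empty_or_nonempty with rfl | hne
    · simp
    · have hcard : (0 : ℝ) < S.card := by exact_mod_cast hne.card_pos
      calc ∑ p ∈ S, |u t1 p - u t2 p| ≤ ∑ _p ∈ S, 1 / ((16 : ℕ) * (S.card : ℝ)) := by
            apply Finset.sum_le_sum
            intro p hp
            exact abs_sub_le_of_floor_eq (u_nonneg h1 p) (u_nonneg h2 p) (by positivity)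
              (hpt p hp).2
        _ = 1 / 16 := by
            rw [Finset.sum_const, nsmul_eq_mul]
            field_simp
            norm_num
  set W := S ∪ (N t1).primeFactors with hW
  have hWeq : W = S ∪ ((N t1).primeFactors \ S) := by
    rw [hW]; exact Finset.union_sdiff_self_eq_union.symm
  have hdisj : Disjoint S ((N t1).primeFactors \ S) := Finset.disjoint_sdiff
  have hout2 : ∀ p ∈ (N t1).primeFactors \ S, |u t1 p - u t2 p| ≤ 1 / 65 * u t1 p := by
    intro p hp
    rw [Finset.mem_sdiff] at hp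
    obtain ⟨he, _⟩ := hout p (Nat.prime_of_mem_primeFactors hp.1) hp.2
    have e1 : u t2 p * ht t2 = u t1 p * ht t1 := by
      unfold u
      rw [he]
      field_simp
    have h0 := u_nonneg h2 p
    have h0' := u_nonneg h1 p
    have e2 : u t2 p ≤ u t1 p := by
      by_contra hcon
      push Not at hcon
      nlinarith
    rw [abs_of_nonneg (by linarith)]
    -- u1 - u2 ≤ u1/65 iff 64/65 u1 ≤ u2
    have h3 : 64 / 65 * u t1 p * ht t2 ≤ u t2 p * ht t2 := by
      rw [e1]
      nlinarith
    have h4 := le_of_mul_le_mul_right h3 H2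
    linarith
  have hsum2 : ∑ p ∈ (N t1).primeFactors \ S, |u t1 p - u t2 p| ≤ 3 / 65 := by
    calc ∑ p ∈ (N t1).primeFactors \ S, |u t1 p - u t2 p| ≤
        ∑ p ∈ (N t1).primeFactors \ S, 1 / 65 * u t1 p := Finset.sum_le_sum hout2
      _ = 1 / 65 * ∑ p ∈ (N t1).primeFactors \ S, u t1 p := by rw [Finset.mul_sum]
      _ ≤ 1 / 65 * 3 := by
          apply mul_le_mul_of_nonneg_left _ (by norm_num)
          exact sum_u_le h1 Finset.sdiff_subset
      _ = 3 / 65 := by norm_num
  have hclose : CloseD 1 W t1 t2 := by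
    refine ⟨h1, h2, ?_, ?_, ?_, ?_, ?_, ?_⟩
    · intro p hp
      rcases Finset.mem_union.mp hp with hp | hp
      · exact hS p hp
      · exact Nat.prime_of_mem_primeFactors hp
    · intro p hp
      by_cases hpS : p ∈ S
      · exact (hpt p hpS).1
      · rcases Finset.mem_union.mp hp with hp | hp
        · exact absurd hp hpS
        · exact (hout p (Nat.prime_of_mem_primeFactors hp) hpS).2
    · rw [hWeq, Finset.sum_union hdisj]
      linarith
    · have := abs_sub_le_of_floor_eq (al_nonneg h1) (al_nonneg h2) (by norm_num) ha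
      refine this.trans ?_
      norm_num
    · have h3 : ∑ p ∈ (N t1).primeFactors, u t1 p ≤ ∑ p ∈ W, u t1 p :=
        Finset.sum_le_sum_of_subset_of_nonneg Finset.subset_union_right
          (fun p _ _ => u_nonneg h1 p)
      rw [sum_u_eq h1] at h3
      linarith
    · linarith
  exact hclose.gap (by norm_num) le_rfl hne hle (by linarith)

/-- The smaller of the two numbers after removing the common divisor. -/
def rlo (U V : ℕ) : ℕ := min U V / Nat.gcd U V

/-- The difference of the two numbers after removing the common divisor. -/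
def rdf (U V : ℕ) : ℕ := (max U V - min U V) / Nat.gcd U V

/-- The reduced triple of two distinct positive integers. -/
def red (U V : ℕ) : ℕ × ℕ := (min (rlo U V) (rdf U V), max (rlo U V) (rdf U V))

theorem red_facts {U V : ℕ} (hU : 0 < U) (hV : 0 < V) (hne : U ≠ V) :
    IsT (red U V) ∧ (rlo U V) * Nat.gcd U V = min U V ∧
      (rdf U V) * Nat.gcd U V = max U V - min U V ∧
      (rlo U V + rdf U V) * Nat.gcd U V = max U V ∧
      N (red U V) = rlo U V * rdf U V * (rlo U V + rdf U V) := by
  set g := Nat.gcd U V with hg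
  have hg0 : 0 < g := Nat.gcd_pos_of_pos_left V hU
  have hgU : g ∣ U := Nat.gcd_dvd_left U V
  have hgV : g ∣ V := Nat.gcd_dvd_right U V
  have hgmin : g ∣ min U V := by
    rcases min_choice U V with h | h <;> rw [h] <;> assumption
  have hgmax : g ∣ max U V := by
    rcases max_choice U V with h | h <;> rw [h] <;> assumption
  have hgsub : g ∣ max U V - min U V := Nat.dvd_sub hgmax hgmin
  have e1 : rlo U V * g = min U V := Nat.div_mul_cancel hgmin
  have e2 : rdf U V * g = max U V - min U V := Nat.div_mul_cancel hgsub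
  have hmm : min U V < max U V := by
    rcases lt_or_gt_of_ne hne with h | h
    · rw [min_eq_left h.le, max_eq_right h.le]; exact h
    · rw [min_eq_right h.le, max_eq_left h.le]; exact h
  have hmin0 : 0 < min U V := lt_min hU hV
  have hlo : 0 < rlo U V := by
    rcases Nat.eq_zero_or_pos (rlo U V) with h | h
    · rw [h, zero_mul] at e1; omega
    · exact h
  have hdf : 0 < rdf U V := by
    rcases Nat.eq_zero_or_pos (rdf U V) with h | h
    · rw [h, zero_mul] at e2; omega
    · exact h
  have e3 : (rlo U V + rdf U V) * g = max U V := by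
    rw [add_mul, e1, e2]; omega
  have hcop : Nat.Coprime (rlo U V) (rdf U V) := by
    have h1 : Nat.gcd (rlo U V) (rlo U V + rdf U V) * g = g := by
      rw [← Nat.gcd_mul_right, e1, e3]
      rcases lt_or_gt_of_ne hne with h | h
      · rw [min_eq_left h.le, max_eq_right h.le]
      · rw [min_eq_right h.le, max_eq_left h.le, Nat.gcd_comm]
    have h2 : Nat.gcd (rlo U V) (rlo U V + rdf U V) = 1 := by
      have : Nat.gcd (rlo U V) (rlo U V + rdf U V) * g = 1 * g := by rw [h1, one_mul]
      exact Nat.eq_of_mul_eq_mul_right hg0 this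
    exact (Nat.coprime_self_add_right).mp h2
  refine ⟨⟨?_, ?_, ?_⟩, e1, e2, e3, ?_⟩
  · unfold red; exact lt_min hlo hdf
  · unfold red; exact min_le_max
  · unfold red
    rcases le_total (rlo U V) (rdf U V) with h | h
    · simp only [min_eq_left h, max_eq_right h]; exact hcop
    · simp only [min_eq_right h, max_eq_left h]; exact hcop.symm
  · unfold N red
    rcases le_total (rlo U V) (rdf U V) with h | h
    · simp only [min_eq_left h, max_eq_right h]
    · simp only [min_eq_right h, max_eq_left h]; ring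

/-- The exponents of the reduced triple. -/
theorem red_ex {U V : ℕ} (hU : 0 < U) (hV : 0 < V) (hne : U ≠ V) {p : ℕ} :
    ex (red U V) p + 3 * min (U.factorization p) (V.factorization p) =
      U.factorization p + V.factorization p + (max U V - min U V).factorization p := by
  obtain ⟨hT, e1, e2, e3, e4⟩ := red_facts hU hV hne
  set g := Nat.gcd U V with hg
  have hg0 : 0 < g := Nat.gcd_pos_of_pos_left V hU
  have hN : N (red U V) * g ^ 3 = U * V * (max U V - min U V) := by
    rw [e4]
    have : rlo U V * rdf U V * (rlo U V + rdf U V) * g ^ 3 =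
        (rlo U V * g) * (rdf U V * g) * ((rlo U V + rdf U V) * g) := by ring
    rw [this, e1, e2, e3]
    rcases le_total U V with h | h
    · rw [min_eq_left h, max_eq_right h]; ring
    · rw [min_eq_right h, max_eq_left h]; ring
  have hW : max U V - min U V ≠ 0 := by
    rcases lt_or_gt_of_ne hne with h | h
    · rw [min_eq_left h.le, max_eq_right h.le]; omega
    · rw [min_eq_right h.le, max_eq_left h.le]; omega
  have h1 : (N (red U V) * g ^ 3).factorization p = (U * V * (max U V - min U V)).factorization p := by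
    rw [hN]
  rw [Nat.factorization_mul hT.N_ne (pow_ne_zero _ hg0.ne'),
    Nat.factorization_mul (mul_ne_zero hU.ne' hV.ne') hW,
    Nat.factorization_mul hU.ne' hV.ne', Nat.factorization_pow] at h1
  have h2 : g.factorization p = min (U.factorization p) (V.factorization p) := by
    rw [hg, Nat.factorization_gcd hU.ne' hV.ne']
    rfl
  simp only [Finsupp.coe_add, Finsupp.coe_smul, Pi.add_apply, Pi.smul_apply, smul_eq_mul] at h1
  rw [h2] at h1
  exact h1

theorem dvd_div_iff {X g p : ℕ} (hp : p.Prime) (hX : X ≠ 0) {a : ℕ} (ha : a * g = X) :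
    p ∣ a ↔ g.factorization p < X.factorization p := by
  have ha0 : a ≠ 0 := by rintro rfl; simp at ha; exact hX ha.symm
  have hg0 : g ≠ 0 := by rintro rfl; simp at ha; exact hX ha.symm
  rw [← ha, Nat.factorization_mul ha0 hg0]
  simp only [Finsupp.coe_add, Pi.add_apply]
  rw [hp.dvd_iff_one_le_factorization ha0]
  omega

/-- The labels of reduced triples with the same patterns and the same valuations. -/
theorem red_lab {U V U' V' : ℕ} (hU : 0 < U) (hV : 0 < V) (hne : U ≠ V) (hU' : 0 < U')
    (hV' : 0 < V') (hne' : U' ≠ V') {p : ℕ} (hp : p.Prime)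
    (hv1 : U.factorization p = U'.factorization p) (hv2 : V.factorization p = V'.factorization p)
    (hv3 : (max U V - min U V).factorization p = (max U' V' - min U' V').factorization p)
    (hp1 : (U < V) ↔ (U' < V')) (hp2 : (rlo U V ≤ rdf U V) ↔ (rlo U' V' ≤ rdf U' V')) :
    lab (red U V) p = lab (red U' V') p := by
  obtain ⟨_, e1, e2, _, _⟩ := red_facts hU hV hne
  obtain ⟨_, e1', e2', _, _⟩ := red_facts hU' hV' hne'
  have hW : max U V - min U V ≠ 0 := by
    rcases lt_or_gt_of_ne hne with h | h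
    · rw [min_eq_left h.le, max_eq_right h.le]; omega
    · rw [min_eq_right h.le, max_eq_left h.le]; omega
  have hW' : max U' V' - min U' V' ≠ 0 := by
    rcases lt_or_gt_of_ne hne' with h | h
    · rw [min_eq_left h.le, max_eq_right h.le]; omega
    · rw [min_eq_right h.le, max_eq_left h.le]; omega
  have hg : (Nat.gcd U V).factorization p = (Nat.gcd U' V').factorization p := by
    rw [Nat.factorization_gcd hU.ne' hV.ne', Nat.factorization_gcd hU'.ne' hV'.ne']
    show min (U.factorization p) (V.factorization p) = min (U'.factorization p) (V'.factorization p)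
    rw [hv1, hv2]
  have hmin : (min U V).factorization p = (min U' V').factorization p := by
    by_cases h : U < V
    · rw [min_eq_left h.le, min_eq_left (hp1.mp h).le, hv1]
    · have h' : ¬ U' < V' := fun hh => h (hp1.mpr hh)
      rw [min_eq_right (not_lt.mp h), min_eq_right (not_lt.mp h'), hv2]
  have hmin0 : min U V ≠ 0 := (lt_min hU hV).ne'
  have hmin0' : min U' V' ≠ 0 := (lt_min hU' hV').ne'
  have d1 : p ∣ rlo U V ↔ p ∣ rlo U' V' := by
    rw [dvd_div_iff hp hmin0 e1, dvd_div_iff hp hmin0' e1', hg, hmin]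
  have d2 : p ∣ rdf U V ↔ p ∣ rdf U' V' := by
    rw [dvd_div_iff hp hW e2, dvd_div_iff hp hW' e2', hg, hv3]
  have q1 : p ∣ (red U V).1 ↔ p ∣ (red U' V').1 := by
    unfold red
    by_cases h : rlo U V ≤ rdf U V
    · simp only [min_eq_left h, min_eq_left (hp2.mp h)]; exact d1
    · have h' : ¬ rlo U' V' ≤ rdf U' V' := fun hh => h (hp2.mpr hh)
      simp only [min_eq_right (not_le.mp h).le, min_eq_right (not_le.mp h').le]; exact d2
  have q2 : p ∣ (red U V).2 ↔ p ∣ (red U' V').2 := by
    unfold red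
    by_cases h : rlo U V ≤ rdf U V
    · simp only [max_eq_right h, max_eq_right (hp2.mp h)]; exact d2
    · have h' : ¬ rlo U' V' ≤ rdf U' V' := fun hh => h (hp2.mpr hh)
      simp only [max_eq_left (not_le.mp h).le, max_eq_left (not_le.mp h').le]; exact d1
  unfold lab
  simp only [q1, q2]

/-- The reduced triple and the patterns determine the ratio. -/
theorem red_inj {U V U' V' : ℕ} (hU : 0 < U) (hV : 0 < V) (hne : U ≠ V) (hU' : 0 < U')
    (hV' : 0 < V') (hne' : U' ≠ V')
    (hp1 : (U < V) ↔ (U' < V')) (hp2 : (rlo U V ≤ rdf U V) ↔ (rlo U' V' ≤ rdf U' V'))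
    (hr : red U V = red U' V') : U * V' = U' * V := by
  obtain ⟨_, e1, e2, e3, _⟩ := red_facts hU hV hne
  obtain ⟨_, e1', e2', e3', _⟩ := red_facts hU' hV' hne'
  unfold red at hr
  rw [Prod.mk.injEq] at hr
  have hl : rlo U V = rlo U' V' ∧ rdf U V = rdf U' V' := by
    by_cases h : rlo U V ≤ rdf U V
    · rw [min_eq_left h, min_eq_left (hp2.mp h), max_eq_right h, max_eq_right (hp2.mp h)] at hr
      exact hr
    · have h' : ¬ rlo U' V' ≤ rdf U' V' := fun hh => h (hp2.mpr hh)
      rw [min_eq_right (not_le.mp h).le, min_eq_right (not_le.mp h').le,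
        max_eq_left (not_le.mp h).le, max_eq_left (not_le.mp h').le] at hr
      exact ⟨hr.2, hr.1⟩
  obtain ⟨hlo, hdf⟩ := hl
  by_cases h : U < V
  · have h' := hp1.mp h
    rw [min_eq_left h.le] at e1
    rw [max_eq_right h.le] at e3
    rw [min_eq_left h'.le] at e1'
    rw [max_eq_right h'.le] at e3'
    calc U * V' = (rlo U V * U.gcd V) * ((rlo U' V' + rdf U' V') * U'.gcd V') := by rw [e1, e3']
      _ = (rlo U' V' * U'.gcd V') * ((rlo U V + rdf U V) * U.gcd V) := by rw [hlo, hdf]; ring
      _ = U' * V := by rw [e1', e3]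
  · have h' : ¬ U' < V' := fun hh => h (hp1.mpr hh)
    rw [min_eq_right (not_lt.mp h)] at e1
    rw [max_eq_left (not_lt.mp h)] at e3
    rw [min_eq_right (not_lt.mp h')] at e1'
    rw [max_eq_left (not_lt.mp h')] at e3'
    calc U * V' = ((rlo U V + rdf U V) * U.gcd V) * (rlo U' V' * U'.gcd V') := by rw [e1', e3]
      _ = ((rlo U' V' + rdf U' V') * U'.gcd V') * (rlo U V * U.gcd V) := by rw [hlo, hdf]; ring
      _ = U' * V := by rw [e1, e3']

theorem red_ht_le {U V : ℕ} (hU : 0 < U) (hV : 0 < V) (hne : U ≠ V) :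
    ht (red U V) ≤ Real.log (max U V : ℕ) := by
  obtain ⟨hT, e1, e2, e3, _⟩ := red_facts hU hV hne
  have hg0 : 0 < Nat.gcd U V := Nat.gcd_pos_of_pos_left V hU
  have e : (red U V).1 + (red U V).2 = rlo U V + rdf U V := by
    unfold red
    exact min_add_max _ _
  have h1 : (red U V).1 + (red U V).2 ≤ max U V := by
    rw [e, ← e3]
    exact Nat.le_mul_of_pos_right _ hg0
  unfold ht
  have h0 : (0 : ℝ) < (red U V).1 := by exact_mod_cast hT.1
  have h0' : (0 : ℝ) < (red U V).2 := by exact_mod_cast hT.pos2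
  apply Real.log_le_log (by positivity)
  exact_mod_cast h1

theorem sum_u_le' {S : Finset ℕ} {t : ℕ × ℕ} (h : IsT t) : ∑ p ∈ S, u t p ≤ 3 := by
  classical
  have e : ∑ p ∈ S, u t p = ∑ p ∈ S ∩ (N t).primeFactors, u t p := by
    symm
    apply Finset.sum_subset Finset.inter_subset_left
    intro p hp hp2
    have hp3 : p ∉ (N t).primeFactors := fun h3 => hp2 (Finset.mem_inter.mpr ⟨hp, h3⟩)
    have : ex t p = 0 := by
      unfold ex
      rw [← Nat.support_factorization, Finsupp.notMem_support_iff] at hp3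
      exact hp3
    unfold u
    rw [this]
    simp
  rw [e]
  exact sum_u_le h Finset.inter_subset_right

/-- Few residual triples. -/
theorem resid_card {κ : Type*} [DecidableEq κ] (S : Finset ℕ) (hS : ∀ p ∈ S, p.Prime)
    (I : Finset κ) (U V : κ → ℕ) (hU : ∀ i ∈ I, 0 < U i) (hV : ∀ i ∈ I, 0 < V i)
    (hne : ∀ i ∈ I, U i ≠ V i)
    (hval : ∀ p : ℕ, p.Prime → p ∉ S → ∀ i ∈ I, ∀ j ∈ I,
      (U i).factorization p = (U j).factorization p ∧ (V i).factorization p = (V j).factorization p ∧
      (max (U i) (V i) - min (U i) (V i)).factorization p =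
        (max (U j) (V j) - min (U j) (V j)).factorization p)
    (hdist : ∀ i ∈ I, ∀ j ∈ I, U i * V j = U j * V i → i = j)
    (H : ℝ) (hH1 : 1 ≤ H) (hH : ∀ i ∈ I, Real.log ((max (U i) (V i) : ℕ) : ℝ) ≤ H) :
    (I.card : ℝ) ≤ 256 + 4 * (17 * (Real.log H / Real.log (65 / 64) + 1)) * BconD 16 ^ S.card := by
  classical
  set f : κ → ℕ × ℕ := fun i => red (U i) (V i) with hf
  set pat : κ → Bool × Bool := fun i => (decide (U i < V i), decide (rlo (U i) (V i) ≤ rdf (U i) (V i)))
    with hpat
  have hpat1 : ∀ i j, pat i = pat j → ((U i < V i) ↔ (U j < V j)) ∧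
      ((rlo (U i) (V i) ≤ rdf (U i) (V i)) ↔ (rlo (U j) (V j) ≤ rdf (U j) (V j))) := by
    intro i j h
    simp only [hpat, Prod.mk.injEq, decide_eq_decide] at h
    exact h
  have hinj : ∀ i ∈ I, ∀ j ∈ I, f i = f j → pat i = pat j → i = j := by
    intro i hi j hj h1 h2
    obtain ⟨h3, h4⟩ := hpat1 i j h2
    exact hdist i hi j hj (red_inj (hU i hi) (hV i hi) (hne i hi) (hU j hj) (hV j hj) (hne j hj)
      h3 h4 h1)
  set I0 := I.filter (fun i => ht (f i) < 2) with hI0
  set I1 := I.filter (fun i => ¬ ht (f i) < 2) with hI1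
  have hcard : (I.card : ℝ) = I0.card + I1.card := by
    have e1 := Finset.card_filter_add_card_filter_not (s := I) (fun i => ht (f i) < 2)
    rw [← e1]
    push_cast
    ring
  have hpc : (Finset.univ : Finset (Bool × Bool)).card = 4 := by decide
  -- low part
  have b0 : (I0.card : ℝ) ≤ 256 := by
    have h1 : I0.card ≤ ((I0.image f) ×ˢ (Finset.univ : Finset (Bool × Bool))).card := by
      apply Finset.card_le_card_of_injOn (fun i => (f i, pat i))
      · intro i hi
        rw [Finset.mem_coe, Finset.mem_product]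
        exact ⟨Finset.mem_image_of_mem _ hi, Finset.mem_univ _⟩
      · intro i hi j hj hij
        simp only [Prod.mk.injEq] at hij
        have hi' : i ∈ I := (Finset.mem_filter.mp hi).1
        have hj' : j ∈ I := (Finset.mem_filter.mp hj).1
        exact hinj i hi' j hj' hij.1 hij.2
    rw [Finset.card_product, hpc] at h1
    have h2 := card_lowD 2 (I0.image f) (by
      intro t ht'
      rw [Finset.mem_image] at ht'
      obtain ⟨i, hi, rfl⟩ := ht'
      rw [hI0, Finset.mem_filter] at hi
      exact ⟨(red_facts (hU i hi.1) (hV i hi.1) (hne i hi.1)).1, hi.2⟩)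
    have h3 : ⌊Real.exp 2⌋₊ ≤ 7 := by
      apply Nat.le_of_lt_succ
      rw [Nat.floor_lt (Real.exp_pos 2).le]
      have : Real.exp 2 = Real.exp 1 * Real.exp 1 := by rw [← Real.exp_add]; norm_num
      rw [this]
      have h4 := Real.exp_one_lt_d9
      have h5 := Real.exp_pos 1
      push_cast
      nlinarith
    have h4 : I0.card ≤ 256 := by
      have : (⌊Real.exp 2⌋₊ + 1) * (⌊Real.exp 2⌋₊ + 1) ≤ 8 * 8 := by gcongr <;> omega
      omega
    exact_mod_cast h4
  -- high part
  have hl : 0 < Real.log (65 / 64 : ℝ) := Real.log_pos (by norm_num)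
  set L := ⌊Real.log H / Real.log (65 / 64)⌋₊ with hL
  set C1 := I1.image (fun i => codeD 16 S (f i)) with hC1
  have hm1 : ∀ i ∈ I1, i ∈ I ∧ 2 ≤ ht (f i) := by
    intro i hi
    rw [hI1, Finset.mem_filter, not_lt] at hi
    exact hi
  have b1 : I1.card ≤ (C1 ×ˢ ((Finset.range 17 ×ˢ Finset.range (L + 1)) ×ˢ
      (Finset.univ : Finset (Bool × Bool)))).card := by
    apply Finset.card_le_card_of_injOn
      (fun i => (codeD 16 S (f i), codeH 16 (1 / 16) (f i), pat i))
    · intro i hi
      have hi' : i ∈ I1 := hi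
      obtain ⟨hiI, hi2⟩ := hm1 i hi'
      obtain ⟨hT, _⟩ := red_facts (hU i hiI) (hV i hiI) (hne i hiI)
      rw [Finset.mem_coe, Finset.mem_product, Finset.mem_product]
      refine ⟨Finset.mem_image_of_mem (fun i => codeD 16 S (f i)) hi', ?_, Finset.mem_univ _⟩
      rw [Finset.mem_product]
      constructor
      · rw [Finset.mem_range]
        simp only [codeH]
        have ha := al_le_one hT
        have : ⌊al (f i) * (16 : ℕ)⌋₊ ≤ 16 := by
          apply Nat.floor_le_of_le
          push_cast
          linarith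
        omega
      · rw [Finset.mem_range, Nat.lt_succ_iff]
        simp only [codeH]
        rw [hL]
        apply Nat.floor_le_floor
        rw [show (1 : ℝ) + 1 / 16 / 4 = 65 / 64 by norm_num]
        apply div_le_div_of_nonneg_right _ hl.le
        exact Real.log_le_log (by linarith)
          ((red_ht_le (hU i hiI) (hV i hiI) (hne i hiI)).trans (hH i hiI))
    · intro i hi j hj hij
      have hi' : i ∈ I1 := hi
      have hj' : j ∈ I1 := hj
      obtain ⟨hiI, hi2⟩ := hm1 i hi'
      obtain ⟨hjI, hj2⟩ := hm1 j hj'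
      simp only [Prod.mk.injEq] at hij
      obtain ⟨hc, hh, hpp⟩ := hij
      have hpp' : pat i = pat j := hpp
      obtain ⟨hTi, _⟩ := red_facts (hU i hiI) (hV i hiI) (hne i hiI)
      obtain ⟨hTj, _⟩ := red_facts (hU j hjI) (hV j hjI) (hne j hjI)
      apply hinj i hiI j hjI _ hpp'
      obtain ⟨hp1, hp2⟩ := hpat1 i j hpp'
      have hout : ∀ p : ℕ, p.Prime → p ∉ S → ex (f i) p = ex (f j) p ∧ lab (f i) p = lab (f j) p := by
        intro p hp hpS
        obtain ⟨v1, v2, v3⟩ := hval p hp hpS i hiI j hjI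
        constructor
        · have e1 := red_ex (hU i hiI) (hV i hiI) (hne i hiI) (p := p)
          have e2 := red_ex (hU j hjI) (hV j hjI) (hne j hjI) (p := p)
          rw [v1, v2, v3] at e1
          simp only [hf]
          omega
        · exact red_lab (hU i hiI) (hV i hiI) (hne i hiI) (hU j hjI) (hV j hjI) (hne j hjI) hp
            v1 v2 v3 hp1 hp2
      rcases le_total (ht (f i)) (ht (f j)) with hle | hle
      · exact resid_eq S hS hTi hTj hc hh hout hi2 hj2 hle
      · exact (resid_eq S hS hTj hTi hc.symm hh.symm (fun p hp hpS =>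
          ⟨(hout p hp hpS).1.symm, (hout p hp hpS).2.symm⟩) hj2 hi2 hle).symm
  rw [Finset.card_product, Finset.card_product, Finset.card_product, Finset.card_range,
    Finset.card_range, hpc] at b1
  have h4 : (C1.card : ℝ) ≤ BconD 16 ^ S.card := by
    apply card_codesD_le
    intro c hc
    rw [hC1, Finset.mem_image] at hc
    obtain ⟨i, hi, rfl⟩ := hc
    obtain ⟨hiI, _⟩ := hm1 i hi
    obtain ⟨hT, _⟩ := red_facts (hU i hiI) (hV i hiI) (hne i hiI)
    simp only [codeD]
    rw [Finset.sum_attach S (fun p => ⌊u (f i) p * ((16 : ℕ) * S.card)⌋₊)]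
    have hu := sum_u_le' (S := S) hT
    have h5 : ((∑ p ∈ S, ⌊u (f i) p * ((16 : ℕ) * S.card)⌋₊ : ℕ) : ℝ) ≤
        ((3 * 16 * S.card : ℕ) : ℝ) := by
      push_cast
      calc ∑ p ∈ S, (⌊u (f i) p * (16 * S.card)⌋₊ : ℝ) ≤ ∑ p ∈ S, u (f i) p * (16 * S.card) := by
            apply Finset.sum_le_sum
            intro p _
            apply Nat.floor_le
            have := u_nonneg hT p
            positivity
        _ = (∑ p ∈ S, u (f i) p) * (16 * S.card) := by rw [Finset.sum_mul]
        _ ≤ 3 * (16 * S.card) := by gcongr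
        _ ≤ _ := by linarith
    exact_mod_cast h5
  have hLle : (L : ℝ) ≤ Real.log H / Real.log (65 / 64) :=
    Nat.floor_le (div_nonneg (Real.log_nonneg hH1) hl.le)
  have b1' : (I1.card : ℝ) ≤ C1.card * (17 * (L + 1) * 4) := by exact_mod_cast b1
  have hBp : 0 ≤ BconD 16 ^ S.card := pow_nonneg (BconD_pos 16).le _
  have b2 : (I1.card : ℝ) ≤ 4 * (17 * (Real.log H / Real.log (65 / 64) + 1)) * BconD 16 ^ S.card := by
    calc (I1.card : ℝ) ≤ C1.card * (17 * (L + 1) * 4) := b1'
      _ ≤ BconD 16 ^ S.card * (17 * (Real.log H / Real.log (65 / 64) + 1) * 4) := by gcongr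
      _ = _ := by ring
  rw [hcard]
  linarith

end Pool.Agent.Lib.Pabc1
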