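import Mathlib
import Pool.Agent.Lib.Pabc1.RClass

open Finset

set_option linter.unusedSimpArgs false

namespace Pool.Agent.Lib.Pabc1

open Pool.Agent.Lib.Pabc2

theorem fact_sum_le (W : Finset ℕ) (hW : ∀ p ∈ W, p.Prime) (D : ℤ) (hD : D ≠ 0) :
    ∑ p ∈ W, (D.natAbs.factorization p : ℝ) * Real.log p ≤ Real.log |(D : ℝ)| := by
  apply sum_log_le W hW _ D hD
  intro p _
  have h1 := Nat.ordProj_dvd D.natAbs p
  have h2 : ((p ^ D.natAbs.factorization p : ℕ) : ℤ) ∣ (D.natAbs : ℤ) :=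
    Int.natCast_dvd_natCast.mpr h1
  rw [Int.dvd_natAbs] at h2
  push_cast at h2
  exact h2

theorem le_fact_of_dvd {D : ℤ} (hD : D ≠ 0) {p j : ℕ} (hp : p.Prime) (h : ((p : ℤ) ^ j) ∣ D) :
    j ≤ D.natAbs.factorization p := by
  rw [← hp.pow_dvd_iff_le_factorization (Int.natAbs_ne_zero.mpr hD)]
  rw [← Int.natCast_dvd_natCast, Int.dvd_natAbs]
  exact_mod_cast h

/-- the third label. -/
def l3 (l1 l2 : Fin 3) : Fin 3 := 0 - l1 - l2

/-- the sign of the congruence. -/
def sg2 (l1 l2 : Fin 3) : ℤ := if l1 = 2 ∨ l2 = 2 then 1 else -1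

theorem l3_ne {l1 l2 : Fin 3} (h : l1 ≠ l2) : l3 l1 l2 ≠ l1 ∧ l3 l1 l2 ≠ l2 := by
  revert l1 l2
  decide

theorem l3_cases {l1 l2 : Fin 3} (h : l1 ≠ l2) (l : Fin 3) : l = l1 ∨ l = l2 ∨ l = l3 l1 l2 := by
  revert l1 l2 l
  decide

theorem sg2_sq (l1 l2 : Fin 3) : sg2 l1 l2 * sg2 l1 l2 = 1 := by
  unfold sg2
  split_ifs <;> norm_num

theorem label_cases {l1 l2 : Fin 3} (h : l1 ≠ l2) :
    (l1 = 0 ∧ l2 = 1) ∨ (l1 = 0 ∧ l2 = 2) ∨ (l1 = 1 ∧ l2 = 0) ∨ (l1 = 1 ∧ l2 = 2) ∨
      (l1 = 2 ∧ l2 = 0) ∨ (l1 = 2 ∧ l2 = 1) := by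
  revert l1 l2
  decide

theorem comp0 (t : ℕ × ℕ) : comp t 0 = t.1 := by simp [comp]
theorem comp1 (t : ℕ × ℕ) : comp t 1 = t.2 := by simp [comp]
theorem comp2 (t : ℕ × ℕ) : comp t 2 = t.1 + t.2 := by simp [comp]

theorem comp_rel2 (t : ℕ × ℕ) {l1 l2 : Fin 3} (h : l1 ≠ l2) :
    (comp t (l3 l1 l2) : ℤ) ∣ (comp t l1 : ℤ) - sg2 l1 l2 * (comp t l2 : ℤ) := by
  rcases label_cases h with ⟨rfl, rfl⟩ | ⟨rfl, rfl⟩ | ⟨rfl, rfl⟩ | ⟨rfl, rfl⟩ | ⟨rfl, rfl⟩ |
    ⟨rfl, rfl⟩
  · have e : l3 0 1 = 2 := by decide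
    have e2 : sg2 0 1 = -1 := by decide
    rw [e, e2, comp0, comp1, comp2]
    push_cast
    exact ⟨1, by ring⟩
  · have e : l3 0 2 = 1 := by decide
    have e2 : sg2 0 2 = 1 := by decide
    rw [e, e2, comp0, comp1, comp2]
    push_cast
    exact ⟨-1, by ring⟩
  · have e : l3 1 0 = 2 := by decide
    have e2 : sg2 1 0 = -1 := by decide
    rw [e, e2, comp0, comp1, comp2]
    push_cast
    exact ⟨1, by ring⟩
  · have e : l3 1 2 = 0 := by decide
    have e2 : sg2 1 2 = 1 := by decide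
    rw [e, e2, comp0, comp1, comp2]
    push_cast
    exact ⟨-1, by ring⟩
  · have e : l3 2 0 = 1 := by decide
    have e2 : sg2 2 0 = 1 := by decide
    rw [e, e2, comp0, comp1, comp2]
    push_cast
    exact ⟨1, by ring⟩
  · have e : l3 2 1 = 0 := by decide
    have e2 : sg2 2 1 = 1 := by decide
    rw [e, e2, comp0, comp1, comp2]
    push_cast
    exact ⟨1, by ring⟩

/-- The four-fold determinant. -/
def Del (l1 l2 : Fin 3) (s t s' t' : ℕ × ℕ) : ℤ :=
  ((comp s l1 * comp t' l1 * (comp s' l2 * comp t l2) : ℕ) : ℤ) -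
    ((comp s' l1 * comp t l1 * (comp s l2 * comp t' l2) : ℕ) : ℤ)

theorem Del_dvd {l1 l2 : Fin 3} (h : l1 ≠ l2) (s t s' t' : ℕ × ℕ) (m : ℤ)
    (hs : m ∣ comp s (l3 l1 l2)) (ht : m ∣ comp t (l3 l1 l2)) (hs' : m ∣ comp s' (l3 l1 l2))
    (ht' : m ∣ comp t' (l3 l1 l2)) : m ∣ Del l1 l2 s t s' t' := by
  have rs := hs.trans (comp_rel2 s h)
  have rt := ht.trans (comp_rel2 t h)
  have rs' := hs'.trans (comp_rel2 s' h)
  have rt' := ht'.trans (comp_rel2 t' h)
  have hσ := sg2_sq l1 l2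
  unfold Del
  push_cast
  generalize sg2 l1 l2 = σ at *
  generalize (comp s l1 : ℤ) = xs at *
  generalize (comp t l1 : ℤ) = xt at *
  generalize (comp s' l1 : ℤ) = xs' at *
  generalize (comp t' l1 : ℤ) = xt' at *
  generalize (comp s l2 : ℤ) = ys at *
  generalize (comp t l2 : ℤ) = yt at *
  generalize (comp s' l2 : ℤ) = ys' at *
  generalize (comp t' l2 : ℤ) = yt' at *
  have e : xs * xt' * (ys' * yt) - xs' * xt * (ys * yt') =
      (xs - σ * ys) * (xt' * ys' * yt) + (xt' - σ * yt') * (σ * ys * ys' * yt) -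
      ((xs' - σ * ys') * (xt * ys * yt') + (xt - σ * yt) * (σ * ys' * ys * yt')) +
      (σ * σ - σ * σ) * (ys * yt' * ys' * yt) := by ring
  rw [e, sub_self, zero_mul, add_zero]
  exact dvd_sub (dvd_add (Dvd.dvd.mul_right rs _) (Dvd.dvd.mul_right rt' _))
    (dvd_add (Dvd.dvd.mul_right rs' _) (Dvd.dvd.mul_right rt _))

/-- Upper bounds for the four-fold determinant. -/
theorem Del_le {l1 l2 : Fin 3} (h : l1 ≠ l2) (s t s' t' : ℕ × ℕ) (A C : ℝ)
    (hA : 0 ≤ A) (hC : 0 ≤ C)
    (h1 : ∀ τ ∈ ({s, t, s', t'} : Finset (ℕ × ℕ)), (τ.1 : ℝ) ≤ A ∧ (τ.1 : ℝ) + τ.2 ≤ C) :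
    |(Del l1 l2 s t s' t' : ℝ)| ≤ if l3 l1 l2 = 0 then 3 * A * C ^ 3 else A ^ 2 * C ^ 2 := by
  obtain ⟨as, cs⟩ := h1 s (by simp)
  obtain ⟨at1, ct⟩ := h1 t (by simp)
  obtain ⟨as', cs'⟩ := h1 s' (by simp)
  obtain ⟨at', ct'⟩ := h1 t' (by simp)
  have b0 : ∀ τ : ℕ × ℕ, (0 : ℝ) ≤ τ.1 ∧ (0 : ℝ) ≤ τ.2 := fun τ => ⟨Nat.cast_nonneg _, Nat.cast_nonneg _⟩
  obtain ⟨s1, s2⟩ := b0 s
  obtain ⟨t1, t2⟩ := b0 t
  obtain ⟨s1', s2'⟩ := b0 s'
  obtain ⟨t1', t2'⟩ := b0 t'
  have bs : (s.2 : ℝ) ≤ C := by linarith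
  have bt : (t.2 : ℝ) ≤ C := by linarith
  have bs' : (s'.2 : ℝ) ≤ C := by linarith
  have bt' : (t'.2 : ℝ) ≤ C := by linarith
  -- generic product bounds
  have two : ∀ a a' c c' : ℝ, 0 ≤ a → 0 ≤ a' → 0 ≤ c → 0 ≤ c' → a ≤ A → a' ≤ A → c ≤ C → c' ≤ C →
      0 ≤ a * a' * (c * c') ∧ a * a' * (c * c') ≤ A ^ 2 * C ^ 2 := by
    intro a a' c c' ha ha' hc hc' hA1 hA2 hC1 hC2
    refine ⟨by positivity, ?_⟩
    calc a * a' * (c * c') ≤ A * A * (C * C) := by gcongr
      _ = A ^ 2 * C ^ 2 := by ring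
  have one : ∀ a c c' c'' : ℝ, 0 ≤ a → 0 ≤ c → 0 ≤ c' → 0 ≤ c'' → a ≤ A → c ≤ C → c' ≤ C →
      c'' ≤ C → 0 ≤ a * c * c' * c'' ∧ a * c * c' * c'' ≤ A * C ^ 3 := by
    intro a c c' c'' ha hc hc' hc'' hA1 hC1 hC2 hC3
    refine ⟨by positivity, ?_⟩
    calc a * c * c' * c'' ≤ A * C * C * C := by gcongr
      _ = A * C ^ 3 := by ring
  unfold Del
  rcases label_cases h with ⟨rfl, rfl⟩ | ⟨rfl, rfl⟩ | ⟨rfl, rfl⟩ | ⟨rfl, rfl⟩ | ⟨rfl, rfl⟩ |
    ⟨rfl, rfl⟩
  · have e : l3 0 1 ≠ 0 := by decide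
    rw [if_neg e]
    simp only [comp0, comp1, comp2]
    push_cast
    have u1 := two s.1 t'.1 s'.2 t.2 s1 t1' s2' t2 as at' bs' bt
    have u2 := two s'.1 t.1 s.2 t'.2 s1' t1 s2 t2' as' at1 bs bt'
    rw [abs_le]
    constructor <;> linarith [u1.1, u1.2, u2.1, u2.2]
  · have e : l3 0 2 ≠ 0 := by decide
    rw [if_neg e]
    simp only [comp0, comp1, comp2]
    push_cast
    have u1 := two s.1 t'.1 (s'.1 + s'.2) (t.1 + t.2) s1 t1' (by positivity) (by positivity) as at' cs' ct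
    have u2 := two s'.1 t.1 (s.1 + s.2) (t'.1 + t'.2) s1' t1 (by positivity) (by positivity) as' at1 cs ct'
    rw [abs_le]
    constructor <;> linarith [u1.1, u1.2, u2.1, u2.2]
  · have e : l3 1 0 ≠ 0 := by decide
    rw [if_neg e]
    simp only [comp0, comp1, comp2]
    push_cast
    have u1 := two s'.1 t.1 s.2 t'.2 s1' t1 s2 t2' as' at1 bs bt'
    have u2 := two s.1 t'.1 s'.2 t.2 s1 t1' s2' t2 as at' bs' bt
    rw [abs_le]
    constructor <;> linarith [u1.1, u1.2, u2.1, u2.2]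
  · have e : l3 1 2 = 0 := by decide
    rw [if_pos e]
    simp only [comp0, comp1, comp2]
    push_cast
    -- b b' (c' c) - b' b (c c')
    have u1 := one s'.1 s.2 t'.2 (t.1 + t.2) s1' s2 t2' (by positivity) as' bs bt' ct
    have u2 := one t.1 s.2 t'.2 s'.2 t1 s2 t2' s2' at1 bs bt' bs'
    have u3 := one s.1 s'.2 t.2 (t'.1 + t'.2) s1 s2' t2 (by positivity) as bs' bt ct'
    have u4 := one t'.1 s.2 t.2 s'.2 t1' s2 t2 s2' at' bs bt bs'
    have e : (s.2 : ℝ) * t'.2 * ((s'.1 + s'.2) * (t.1 + t.2)) -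
        s'.2 * t.2 * ((s.1 + s.2) * (t'.1 + t'.2)) =
        (s'.1 * s.2 * t'.2 * (t.1 + t.2) + t.1 * s.2 * t'.2 * s'.2) -
        (s.1 * s'.2 * t.2 * (t'.1 + t'.2) + t'.1 * s.2 * t.2 * s'.2) := by ring
    rw [e, abs_le]
    have hpos : 0 ≤ A * C ^ 3 := by positivity
    constructor <;> linarith [u1.1, u1.2, u2.1, u2.2, u3.1, u3.2, u4.1, u4.2]
  · have e : l3 2 0 ≠ 0 := by decide
    rw [if_neg e]
    simp only [comp0, comp1, comp2]
    push_cast
    have u1 := two s'.1 t.1 (s.1 + s.2) (t'.1 + t'.2) s1' t1 (by positivity) (by positivity) as' at1 cs ct'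
    have u2 := two s.1 t'.1 (s'.1 + s'.2) (t.1 + t.2) s1 t1' (by positivity) (by positivity) as at' cs' ct
    rw [abs_le]
    constructor <;> linarith [u1.1, u1.2, u2.1, u2.2]
  · have e : l3 2 1 = 0 := by decide
    rw [if_pos e]
    simp only [comp0, comp1, comp2]
    push_cast
    have u1 := one s'.1 s.2 t'.2 (t.1 + t.2) s1' s2 t2' (by positivity) as' bs bt' ct
    have u2 := one t.1 s.2 t'.2 s'.2 t1 s2 t2' s2' at1 bs bt' bs'
    have u3 := one s.1 s'.2 t.2 (t'.1 + t'.2) s1 s2' t2 (by positivity) as bs' bt ct'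
    have u4 := one t'.1 s.2 t.2 s'.2 t1' s2 t2 s2' at' bs bt bs'
    have e : ((s.1 : ℝ) + s.2) * (t'.1 + t'.2) * (s'.2 * t.2) -
        (s'.1 + s'.2) * (t.1 + t.2) * (s.2 * t'.2) =
        (s.1 * s'.2 * t.2 * (t'.1 + t'.2) + t'.1 * s.2 * t.2 * s'.2) -
        (s'.1 * s.2 * t'.2 * (t.1 + t.2) + t.1 * s.2 * t'.2 * s'.2) := by ring
    rw [e, abs_le]
    have hpos : 0 ≤ A * C ^ 3 := by positivity
    constructor <;> linarith [u1.1, u1.2, u2.1, u2.2, u3.1, u3.2, u4.1, u4.2]

/-- A triple with two free primes `Q`, `R` in the components `l1`, `l2`. -/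
structure TF (S : Finset ℕ) (l1 l2 : Fin 3) (Q R : ℕ) (t : ℕ × ℕ) : Prop where
  h : IsT t
  hQ : Q.Prime
  hR : R.Prime
  hQS : Q ∉ S
  hRS : R ∉ S
  pf : (N t).primeFactors = insert Q (insert R S)
  lQ : lab t Q = l1
  lR : lab t R = l2
  big : 100 ≤ ht t

/-- Two such triples are near. -/
structure NearTF (S : Finset ℕ) (Q R Q' R' : ℕ) (t t' : ℕ × ℕ) : Prop where
  lab_eq : ∀ p ∈ S, lab t p = lab t' p
  u_close : ∑ p ∈ S, |u t p - u t' p| ≤ 1 / 64
  uQ : |u t Q - u t' Q'| ≤ 1 / 64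
  uR : |u t R - u t' R'| ≤ 1 / 64
  al_close : |al t - al t'| ≤ 1 / 64
  le1 : ht t ≤ 65 / 64 * ht t'
  le2 : ht t' ≤ 65 / 64 * ht t

theorem exlog_ge {s τ : ℕ × ℕ} (hs : IsT s) (hτ : IsT τ) (hh : ht s ≤ 65 / 64 * ht τ) (x : ℝ)
    (p : ℕ) : 64 / 65 * ht s * (x - |x - u τ p|) ≤ ex τ p * Real.log p := by
  have h1 := ht_pos hs
  have h2 := ht_pos hτ
  have hu := u_nonneg hτ p
  have h3 : x - |x - u τ p| ≤ u τ p := by
    have := le_abs_self (x - u τ p)
    linarith
  have h4 : (ex τ p : ℝ) * Real.log p = u τ p * ht τ := by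
    unfold u
    field_simp
  rw [h4]
  calc 64 / 65 * ht s * (x - |x - u τ p|) ≤ 64 / 65 * ht s * u τ p :=
        mul_le_mul_of_nonneg_left h3 (by positivity)
    _ ≤ ht τ * u τ p := mul_le_mul_of_nonneg_right (by linarith) hu
    _ = u τ p * ht τ := mul_comm _ _

theorem delta_zero {S : Finset ℕ} {l1 l2 : Fin 3} (hl : l1 ≠ l2) {Q1 Q2 R R' : ℕ}
    {s t s' t' : ℕ × ℕ} (hs : TF S l1 l2 Q1 R s) (htt : TF S l1 l2 Q2 R t)
    (hs' : TF S l1 l2 Q1 R' s') (htt' : TF S l1 l2 Q2 R' t')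
    (nt : NearTF S Q1 R Q2 R s t) (ns' : NearTF S Q1 R Q1 R' s s')
    (nt' : NearTF S Q1 R Q2 R' s t') (hQ : Q1 ≠ Q2) (hR : R ≠ R') :
    Del l1 l2 s t s' t' = 0 := by
  by_contra hD0
  have hQ1R : Q1 ≠ R := fun h => hl (by rw [← hs.lQ, ← hs.lR, h])
  have hQ1R' : Q1 ≠ R' := fun h => hl (by rw [← hs'.lQ, ← hs'.lR, h])
  have hQ2R : Q2 ≠ R := fun h => hl (by rw [← htt.lQ, ← htt.lR, h])
  have hQ2R' : Q2 ≠ R' := fun h => hl (by rw [← htt'.lQ, ← htt'.lR, h])
  set D := Del l1 l2 s t s' t' with hD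
  set h := ht s with hh
  have hh0 : 0 < h := ht_pos hs.h
  have hbig : 100 ≤ h := hs.big
  have hSp : ∀ p ∈ S, p.Prime := by
    intro p hp
    have : p ∈ (N s).primeFactors := by
      rw [hs.pf]; exact Finset.mem_insert_of_mem (Finset.mem_insert_of_mem hp)
    exact Nat.prime_of_mem_primeFactors this
  -- upper sum bound
  have hW := fact_sum_le (insert Q1 (insert Q2 (insert R (insert R' S)))) (by
    intro p hp
    simp only [Finset.mem_insert] at hp
    rcases hp with rfl | rfl | rfl | rfl | hp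
    · exact hs.hQ
    · exact htt.hQ
    · exact hs.hR
    · exact hs'.hR
    · exact hSp p hp) D hD0
  rw [Finset.sum_insert (by
      simp only [Finset.mem_insert, not_or]
      exact ⟨hQ, hQ1R, hQ1R', hs.hQS⟩),
    Finset.sum_insert (by
      simp only [Finset.mem_insert, not_or]
      exact ⟨hQ2R, hQ2R', htt.hQS⟩),
    Finset.sum_insert (by
      simp only [Finset.mem_insert, not_or]
      exact ⟨hR, hs.hRS⟩),
    Finset.sum_insert hs'.hRS] at hW
  -- membership of powers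
  have hdvd : ∀ p : ℕ, p.Prime → ∀ j1 j2 : ℕ,
      p ^ j1 ∣ comp s l1 * comp t' l1 * (comp s' l2 * comp t l2) →
      p ^ j2 ∣ comp s' l1 * comp t l1 * (comp s l2 * comp t' l2) →
      min j1 j2 ≤ D.natAbs.factorization p := by
    intro p hp j1 j2 h1 h2
    apply le_fact_of_dvd hD0 hp
    rw [hD]
    unfold Del
    apply dvd_sub
    · have : p ^ min j1 j2 ∣ comp s l1 * comp t' l1 * (comp s' l2 * comp t l2) :=
        (pow_dvd_pow p (min_le_left _ _)).trans h1
      exact_mod_cast this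
    · have : p ^ min j1 j2 ∣ comp s' l1 * comp t l1 * (comp s l2 * comp t' l2) :=
        (pow_dvd_pow p (min_le_right _ _)).trans h2
      exact_mod_cast this
  have key : ∀ p : ℕ, p.Prime → ∀ j1 j2 : ℕ, ∀ B : ℝ, min j1 j2 ≤ D.natAbs.factorization p →
      B ≤ j1 * Real.log p → B ≤ j2 * Real.log p →
      B ≤ (D.natAbs.factorization p : ℝ) * Real.log p := by
    intro p hp j1 j2 B hm h1 h2
    have hlp : 0 ≤ Real.log (p : ℝ) := Real.log_natCast_nonneg p
    rcases le_total j1 j2 with hle | hle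
    · rw [min_eq_left hle] at hm
      refine h1.trans (mul_le_mul_of_nonneg_right ?_ hlp)
      exact_mod_cast hm
    · rw [min_eq_right hle] at hm
      refine h2.trans (mul_le_mul_of_nonneg_right ?_ hlp)
      exact_mod_cast hm
  -- the exponents of the free primes
  have gs : 64 / 65 * h * (u s Q1 - |u s Q1 - u s Q1|) ≤ ex s Q1 * Real.log Q1 :=
    exlog_ge hs.h hs.h (by linarith) _ _
  have gsR : 64 / 65 * h * (u s R - |u s R - u s R|) ≤ ex s R * Real.log R :=
    exlog_ge hs.h hs.h (by linarith) _ _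
  rw [sub_self, abs_zero] at gs gsR
  have hmono : ∀ x y : ℝ, |x - y| ≤ 1 / 64 → 64 / 65 * h * (x - 1 / 64) ≤
      64 / 65 * h * (x - |x - y|) := by
    intro x y hxy
    apply mul_le_mul_of_nonneg_left _ (by positivity)
    linarith
  have bQ1 : 64 / 65 * h * (u s Q1 - 1 / 64) ≤
      (D.natAbs.factorization Q1 : ℝ) * Real.log Q1 := by
    apply key Q1 hs.hQ (ex s Q1) (ex s' Q1) _ (hdvd Q1 hs.hQ _ _ ?_ ?_)
    · refine le_trans ?_ gs
      apply mul_le_mul_of_nonneg_left _ (by positivity)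
      linarith
    · exact (hmono _ _ ns'.uQ).trans (exlog_ge hs.h hs'.h ns'.le1 _ _)
    · have := comp_dvd hs.h hs.hQ
      rw [hs.lQ] at this
      exact Dvd.dvd.mul_right (Dvd.dvd.mul_right this _) _
    · have := comp_dvd hs'.h hs.hQ
      rw [hs'.lQ] at this
      exact Dvd.dvd.mul_right (Dvd.dvd.mul_right this _) _
  have bQ2 : 64 / 65 * h * (u s Q1 - 1 / 64) ≤
      (D.natAbs.factorization Q2 : ℝ) * Real.log Q2 := by
    apply key Q2 htt.hQ (ex t' Q2) (ex t Q2) _ (hdvd Q2 htt.hQ _ _ ?_ ?_)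
    · exact (hmono _ _ nt'.uQ).trans (exlog_ge hs.h htt'.h nt'.le1 _ _)
    · exact (hmono _ _ nt.uQ).trans (exlog_ge hs.h htt.h nt.le1 _ _)
    · have := comp_dvd htt'.h htt.hQ
      rw [htt'.lQ] at this
      exact Dvd.dvd.mul_right (Dvd.dvd.mul_left this _) _
    · have := comp_dvd htt.h htt.hQ
      rw [htt.lQ] at this
      exact Dvd.dvd.mul_right (Dvd.dvd.mul_left this _) _
  have bR : 64 / 65 * h * (u s R - 1 / 64) ≤
      (D.natAbs.factorization R : ℝ) * Real.log R := by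
    apply key R hs.hR (ex t R) (ex s R) _ (hdvd R hs.hR _ _ ?_ ?_)
    · exact (hmono _ _ nt.uR).trans (exlog_ge hs.h htt.h nt.le1 _ _)
    · refine le_trans ?_ gsR
      apply mul_le_mul_of_nonneg_left _ (by positivity)
      linarith
    · have := comp_dvd htt.h hs.hR
      rw [htt.lR] at this
      exact Dvd.dvd.mul_left (Dvd.dvd.mul_left this _) _
    · have := comp_dvd hs.h hs.hR
      rw [hs.lR] at this
      exact Dvd.dvd.mul_left (Dvd.dvd.mul_right this _) _
  have bR' : 64 / 65 * h * (u s R - 1 / 64) ≤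
      (D.natAbs.factorization R' : ℝ) * Real.log R' := by
    apply key R' hs'.hR (ex s' R') (ex t' R') _ (hdvd R' hs'.hR _ _ ?_ ?_)
    · exact (hmono _ _ ns'.uR).trans (exlog_ge hs.h hs'.h ns'.le1 _ _)
    · exact (hmono _ _ nt'.uR).trans (exlog_ge hs.h htt'.h nt'.le1 _ _)
    · have := comp_dvd hs'.h hs'.hR
      rw [hs'.lR] at this
      exact Dvd.dvd.mul_left (Dvd.dvd.mul_right this _) _
    · have := comp_dvd htt'.h hs'.hR
      rw [htt'.lR] at this
      exact Dvd.dvd.mul_left (Dvd.dvd.mul_left this _) _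
  -- the primes of S
  set ε : ℕ → ℝ := fun p => |u s p - u t p| + |u s p - u s' p| + |u s p - u t' p| with hε
  set L := l3 l1 l2 with hL
  have bS : ∀ p ∈ S, 64 / 65 * h * ((if lab s p = L then 1 else 2) * u s p - ε p) ≤
      (D.natAbs.factorization p : ℝ) * Real.log p := by
    intro p hp
    have hpp := hSp p hp
    have ct := comp_dvd htt.h hpp
    have cs := comp_dvd hs.h hpp
    have ct' := comp_dvd htt'.h hpp
    have cs' := comp_dvd hs'.h hpp
    rw [← nt.lab_eq p hp] at ct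
    rw [← ns'.lab_eq p hp] at cs'
    rw [← nt'.lab_eq p hp] at ct'
    have et := exlog_ge hs.h htt.h nt.le1 (u s p) p
    have es' := exlog_ge hs.h hs'.h ns'.le1 (u s p) p
    have et' := exlog_ge hs.h htt'.h nt'.le1 (u s p) p
    have es := exlog_ge hs.h hs.h (by linarith) (u s p) p
    rw [sub_self, abs_zero] at es
    have p1 := abs_nonneg (u s p - u t p)
    have p2 := abs_nonneg (u s p - u s' p)
    have p3 := abs_nonneg (u s p - u t' p)
    have hc0 : 0 ≤ 64 / 65 * h := by positivity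
    rcases l3_cases hl (lab s p) with h1 | h1 | h1
    · rw [if_neg (by rw [h1]; exact (l3_ne hl).1.symm)]
      rw [h1] at cs ct cs' ct'
      apply key p hpp (ex s p + ex t' p) (ex s' p + ex t p) _ (hdvd p hpp _ _ ?_ ?_)
      · push_cast
        have : 64 / 65 * h * (2 * u s p - ε p) ≤ 64 / 65 * h * (u s p - 0) +
            64 / 65 * h * (u s p - |u s p - u t' p|) := by
          rw [← mul_add]
          apply mul_le_mul_of_nonneg_left _ hc0
          simp only [hε]
          linarith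
        linarith
      · push_cast
        have : 64 / 65 * h * (2 * u s p - ε p) ≤ 64 / 65 * h * (u s p - |u s p - u s' p|) +
            64 / 65 * h * (u s p - |u s p - u t p|) := by
          rw [← mul_add]
          apply mul_le_mul_of_nonneg_left _ hc0
          simp only [hε]
          linarith
        linarith
      · rw [pow_add]
        exact Dvd.dvd.mul_right (mul_dvd_mul cs ct') _
      · rw [pow_add]
        exact Dvd.dvd.mul_right (mul_dvd_mul cs' ct) _
    · rw [if_neg (by rw [h1]; exact (l3_ne hl).2.symm)]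
      rw [h1] at cs ct cs' ct'
      apply key p hpp (ex s' p + ex t p) (ex s p + ex t' p) _ (hdvd p hpp _ _ ?_ ?_)
      · push_cast
        have : 64 / 65 * h * (2 * u s p - ε p) ≤ 64 / 65 * h * (u s p - |u s p - u s' p|) +
            64 / 65 * h * (u s p - |u s p - u t p|) := by
          rw [← mul_add]
          apply mul_le_mul_of_nonneg_left _ hc0
          simp only [hε]
          linarith
        linarith
      · push_cast
        have : 64 / 65 * h * (2 * u s p - ε p) ≤ 64 / 65 * h * (u s p - 0) +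
            64 / 65 * h * (u s p - |u s p - u t' p|) := by
          rw [← mul_add]
          apply mul_le_mul_of_nonneg_left _ hc0
          simp only [hε]
          linarith
        linarith
      · rw [pow_add]
        exact Dvd.dvd.mul_left (mul_dvd_mul cs' ct) _
      · rw [pow_add]
        exact Dvd.dvd.mul_left (mul_dvd_mul cs ct') _
    · rw [if_pos h1]
      rw [h1] at cs ct cs' ct'
      set m := min (min (ex s p) (ex t p)) (min (ex s' p) (ex t' p)) with hm
      have m1 : m ≤ ex s p := (min_le_left _ _).trans (min_le_left _ _)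
      have m2 : m ≤ ex t p := (min_le_left _ _).trans (min_le_right _ _)
      have m3 : m ≤ ex s' p := (min_le_right _ _).trans (min_le_left _ _)
      have m4 : m ≤ ex t' p := (min_le_right _ _).trans (min_le_right _ _)
      have hmD : m ≤ D.natAbs.factorization p := by
        apply le_fact_of_dvd hD0 hpp
        apply Del_dvd hl
        · exact_mod_cast (pow_dvd_pow p m1).trans cs
        · exact_mod_cast (pow_dvd_pow p m2).trans ct
        · exact_mod_cast (pow_dvd_pow p m3).trans cs'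
        · exact_mod_cast (pow_dvd_pow p m4).trans ct'
      have hlp : 0 ≤ Real.log (p : ℝ) := Real.log_natCast_nonneg p
      have hfin : (m : ℝ) * Real.log p ≤ (D.natAbs.factorization p : ℝ) * Real.log p :=
        mul_le_mul_of_nonneg_right (by exact_mod_cast hmD) hlp
      refine le_trans ?_ hfin
      have hm4 : m = ex s p ∨ m = ex t p ∨ m = ex s' p ∨ m = ex t' p := by
        rw [hm]
        rcases min_choice (min (ex s p) (ex t p)) (min (ex s' p) (ex t' p)) with h2 | h2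
        · rw [h2]
          rcases min_choice (ex s p) (ex t p) with h3 | h3
          · left; exact h3
          · right; left; exact h3
        · rw [h2]
          rcases min_choice (ex s' p) (ex t' p) with h3 | h3
          · right; right; left; exact h3
          · right; right; right; exact h3
      rcases hm4 with h2 | h2 | h2 | h2
      · rw [h2]
        refine le_trans ?_ es
        apply mul_le_mul_of_nonneg_left _ hc0
        simp only [hε]
        linarith
      · rw [h2]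
        refine le_trans ?_ et
        apply mul_le_mul_of_nonneg_left _ hc0
        simp only [hε]
        linarith
      · rw [h2]
        refine le_trans ?_ es'
        apply mul_le_mul_of_nonneg_left _ hc0
        simp only [hε]
        linarith
      · rw [h2]
        refine le_trans ?_ et'
        apply mul_le_mul_of_nonneg_left _ hc0
        simp only [hε]
        linarith
  have bSsum := Finset.sum_le_sum bS
  rw [← Finset.mul_sum, Finset.sum_sub_distrib] at bSsum
  have hεsum : ∑ p ∈ S, ε p ≤ 3 / 64 := by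
    simp only [hε]
    rw [Finset.sum_add_distrib, Finset.sum_add_distrib]
    linarith [nt.u_close, ns'.u_close, nt'.u_close]
  -- masses of s
  have hmtot : (u s Q1 + (u s R + ∑ p ∈ S, u s p)) * h =
      Real.log s.1 + Real.log s.2 + h := by
    have := sum_u_eq hs.h
    rw [hs.pf, Finset.sum_insert (by
      simp only [Finset.mem_insert, not_or]
      exact ⟨hQ1R, hs.hQS⟩), Finset.sum_insert hs.hRS] at this
    rw [this, ← hh]
    field_simp
  have hm3 : (∑ p ∈ S.filter (fun p => lab s p = L), u s p) * h = Real.log (comp s L) := by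
    rw [log_comp_eq hs.h L, hs.pf, Finset.filter_insert, if_neg (by
      rw [hs.lQ]; exact (l3_ne hl).1.symm), Finset.filter_insert, if_neg (by
      rw [hs.lR]; exact (l3_ne hl).2.symm), Finset.sum_mul]
    apply Finset.sum_congr rfl
    intro p _
    unfold u
    rw [← hh]
    field_simp
  have hksum : ∑ p ∈ S, (if lab s p = L then (1 : ℝ) else 2) * u s p =
      2 * ∑ p ∈ S, u s p - ∑ p ∈ S.filter (fun p => lab s p = L), u s p := by
    rw [Finset.sum_filter, Finset.mul_sum, ← Finset.sum_sub_distrib]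
    apply Finset.sum_congr rfl
    intro p _
    split_ifs <;> ring
  rw [hksum] at bSsum
  -- total lower bound
  have hlow : 64 / 65 * (2 * (Real.log s.1 + Real.log s.2 + h) - Real.log (comp s L) - 7 / 64 * h) ≤
      Real.log |(D : ℝ)| := by
    have e : 64 / 65 * (2 * (Real.log s.1 + Real.log s.2 + h) - Real.log (comp s L) - 7 / 64 * h) =
        64 / 65 * h * (u s Q1 - 1 / 64) + 64 / 65 * h * (u s Q1 - 1 / 64) +
        64 / 65 * h * (u s R - 1 / 64) + 64 / 65 * h * (u s R - 1 / 64) +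
        64 / 65 * h * (2 * ∑ p ∈ S, u s p - ∑ p ∈ S.filter (fun p => lab s p = L), u s p - 3 / 64) := by
      rw [← hmtot, ← hm3]
      ring
    rw [e]
    have : 64 / 65 * h * (2 * ∑ p ∈ S, u s p - ∑ p ∈ S.filter (fun p => lab s p = L), u s p - 3 / 64) ≤
        64 / 65 * h * (2 * ∑ p ∈ S, u s p - ∑ p ∈ S.filter (fun p => lab s p = L), u s p -
          ∑ p ∈ S, ε p) := by
      apply mul_le_mul_of_nonneg_left _ (by positivity)
      linarith
    linarith
  -- upper bound
  set X := Real.log s.1 with hX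
  have hXal : X = al s * h := by
    unfold al
    rw [hX, ← hh]
    field_simp
  have hX0 : 0 ≤ X := log_a_nonneg hs.h
  have hXh : X ≤ h := log_a_le hs.h
  have hb1 : h - Real.log 2 ≤ Real.log s.2 := log_b_ge hs.h
  have hb2 : Real.log s.2 ≤ h := log_b_le hs.h
  set A := Real.exp (65 / 64 * (X + 1 / 64 * h)) with hA
  set C := Real.exp (65 / 64 * h) with hC
  have hup : |(D : ℝ)| ≤ if L = 0 then 3 * A * C ^ 3 else A ^ 2 * C ^ 2 := by
    apply Del_le hl s t s' t' A C (Real.exp_pos _).le (Real.exp_pos _).le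
    have aux : ∀ τ : ℕ × ℕ, IsT τ → |al s - al τ| ≤ 1 / 64 → ht τ ≤ 65 / 64 * h →
        (τ.1 : ℝ) ≤ A ∧ (τ.1 : ℝ) + τ.2 ≤ C := by
      intro τ hτ ha hle
      have hτ0 := ht_pos hτ
      have h1 : (0 : ℝ) < τ.1 := by exact_mod_cast hτ.1
      have h2 : (0 : ℝ) < τ.2 := by exact_mod_cast hτ.pos2
      constructor
      · rw [hA, ← Real.log_le_iff_le_exp h1]
        have e1 : Real.log τ.1 = al τ * ht τ := by
          unfold al
          field_simp
        rw [e1, hXal]
        have h3 := (abs_le.mp ha).1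
        calc al τ * ht τ ≤ (al s + 1 / 64) * ht τ :=
              mul_le_mul_of_nonneg_right (by linarith) hτ0.le
          _ ≤ (al s + 1 / 64) * (65 / 64 * h) :=
              mul_le_mul_of_nonneg_left hle (by have := al_nonneg hs.h; linarith)
          _ = _ := by ring
      · rw [hC, ← Real.log_le_iff_le_exp (by positivity)]
        exact hle
    intro τ hτ
    simp only [Finset.mem_insert, Finset.mem_singleton] at hτ
    rcases hτ with rfl | rfl | rfl | rfl
    · exact aux _ hs.h (by rw [sub_self, abs_zero]; norm_num) (by linarith)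
    · exact aux _ htt.h nt.al_close nt.le2
    · exact aux _ hs'.h ns'.al_close ns'.le2
    · exact aux _ htt'.h nt'.al_close nt'.le2
  have hDpos : 0 < |(D : ℝ)| := abs_pos.mpr (by exact_mod_cast hD0)
  have hl2 := log_two_bd
  have hA0 : 0 < A := Real.exp_pos _
  have hC0 : 0 < C := Real.exp_pos _
  have hlogA : Real.log A = 65 / 64 * (X + 1 / 64 * h) := Real.log_exp _
  have hlogC : Real.log C = 65 / 64 * h := Real.log_exp _
  have hl3 : Real.log 3 ≤ 14 / 10 := by
    have : Real.log 3 ≤ Real.log 4 := Real.log_le_log (by norm_num) (by norm_num)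
    have h4 : Real.log 4 = 2 * Real.log 2 := by
      rw [show (4 : ℝ) = 2 ^ 2 by norm_num, Real.log_pow]; norm_num
    linarith
  have hL3 : L = 0 ∨ L = 1 ∨ L = 2 := by omega
  rcases hL3 with hL0 | hL0 | hL0
  · rw [if_pos hL0] at hup
    have h1 := Real.log_le_log hDpos hup
    rw [Real.log_mul (by positivity) (by positivity), Real.log_mul (by norm_num) hA0.ne',
      Real.log_pow, hlogA, hlogC] at h1
    push_cast at h1
    rw [hL0, comp0, ← hX] at hlow
    linarith
  · rw [if_neg (by rw [hL0]; decide)] at hup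
    have h1 := Real.log_le_log hDpos hup
    rw [Real.log_mul (by positivity) (by positivity), Real.log_pow, Real.log_pow, hlogA, hlogC] at h1
    push_cast at h1
    rw [hL0, comp1] at hlow
    linarith
  · rw [if_neg (by rw [hL0]; decide)] at hup
    have h1 := Real.log_le_log hDpos hup
    rw [Real.log_mul (by positivity) (by positivity), Real.log_pow, Real.log_pow, hlogA, hlogC] at h1
    push_cast at h1
    have hcc : Real.log ((s.1 + s.2 : ℕ) : ℝ) = h := by
      rw [hh]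
      unfold ht
      push_cast
      rfl
    rw [hL0, comp2, hcc] at hlow
    linarith

end Pool.Agent.Lib.Pabc1
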