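import Mathlib
import Pool.Agent.Lib.Pabc1.TFDelta
import Pool.Agent.Lib.Pabc1.Resid

open Finset

namespace Pool.Agent.Lib.Pabc1

open Pool.Agent.Lib.Pabc2

theorem tf_inj {S : Finset ℕ} {l1 l2 : Fin 3} (hl : l1 ≠ l2) {Q R : ℕ} {t t' : ℕ × ℕ}
    (h : TF S l1 l2 Q R t) (h' : TF S l1 l2 Q R t') (n : NearTF S Q R Q R t t')
    (hle : ht t ≤ ht t') : t = t' := by
  by_contra hne
  have hQR : Q ≠ R := fun he => hl (by rw [← h.lQ, ← h.lR, he])
  have hins : Q ∉ insert R S := by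
    simp only [Finset.mem_insert, not_or]
    exact ⟨hQR, h.hQS⟩
  have hclose : CloseD 1 (insert Q (insert R S)) t t' := by
    refine ⟨h.h, h'.h, ?_, ?_, ?_, ?_, ?_, ?_⟩
    · intro p hp
      rw [← h.pf] at hp
      exact Nat.prime_of_mem_primeFactors hp
    · intro p hp
      rcases Finset.mem_insert.mp hp with rfl | hp
      · rw [h.lQ, h'.lQ]
      · rcases Finset.mem_insert.mp hp with rfl | hp
        · rw [h.lR, h'.lR]
        · exact n.lab_eq p hp
    · rw [Finset.sum_insert hins, Finset.sum_insert h.hRS]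
      have := n.uQ
      have := n.uR
      have := n.u_close
      linarith
    · have := n.al_close
      linarith
    · rw [← h.pf, sum_u_eq h.h]
      linarith
    · have := h.big
      linarith
  have := n.le2
  have := ht_pos h.h
  exact hclose.gap (by norm_num) le_rfl hne hle (by linarith)

theorem tf_inj' {S : Finset ℕ} {l1 l2 : Fin 3} (hl : l1 ≠ l2) {Q R : ℕ} {t t' : ℕ × ℕ}
    (h : TF S l1 l2 Q R t) (h' : TF S l1 l2 Q R t') (n : NearTF S Q R Q R t t')
    (n' : NearTF S Q R Q R t' t) : t = t' := by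
  rcases le_total (ht t) (ht t') with hle | hle
  · exact tf_inj hl h h' n hle
  · exact (tf_inj hl h' h n' hle).symm

/-- signs in the linear relation. -/
def e1 (l2 : Fin 3) : ℤ := if l2 = 2 then -1 else 1

theorem e1_ne (l : Fin 3) : e1 l ≠ 0 := by
  unfold e1
  split_ifs <;> norm_num

theorem comp_lin (t : ℕ × ℕ) {l1 l2 : Fin 3} (h : l1 ≠ l2) :
    (comp t (l3 l1 l2) : ℤ) = e1 l2 * comp t l1 + e1 l1 * comp t l2 := by
  rcases label_cases h with ⟨rfl, rfl⟩ | ⟨rfl, rfl⟩ | ⟨rfl, rfl⟩ | ⟨rfl, rfl⟩ | ⟨rfl, rfl⟩ |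
    ⟨rfl, rfl⟩
  · rw [show l3 0 1 = 2 by decide, show e1 1 = 1 by decide, show e1 0 = 1 by decide, comp0, comp1,
      comp2]
    push_cast; ring
  · rw [show l3 0 2 = 1 by decide, show e1 2 = -1 by decide, show e1 0 = 1 by decide, comp0, comp1,
      comp2]
    push_cast; ring
  · rw [show l3 1 0 = 2 by decide, show e1 1 = 1 by decide, show e1 0 = 1 by decide, comp0, comp1,
      comp2]
    push_cast; ring
  · rw [show l3 1 2 = 0 by decide, show e1 2 = -1 by decide, show e1 1 = 1 by decide, comp0, comp1,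
      comp2]
    push_cast; ring
  · rw [show l3 2 0 = 1 by decide, show e1 2 = -1 by decide, show e1 0 = 1 by decide, comp0, comp1,
      comp2]
    push_cast; ring
  · rw [show l3 2 1 = 0 by decide, show e1 2 = -1 by decide, show e1 1 = 1 by decide, comp0, comp1,
      comp2]
    push_cast; ring

/-- The components of a triple are coprime. -/
theorem comp_coprime {t : ℕ × ℕ} (h : IsT t) {l l' : Fin 3} (hl : l ≠ l') :
    Nat.Coprime (comp t l) (comp t l') := by
  rw [Nat.coprime_iff_gcd_eq_one]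
  by_contra hne
  obtain ⟨p, hp, hd⟩ := Nat.exists_prime_and_dvd hne
  have h1 := lab_of_dvd h hp (hd.trans (Nat.gcd_dvd_left _ _))
  have h2 := lab_of_dvd h hp (hd.trans (Nat.gcd_dvd_right _ _))
  exact hl (h1.symm.trans h2)

/-- Two components determine the triple. -/
theorem eq_of_comp {t t' : ℕ × ℕ} {l1 l2 : Fin 3} (hl : l1 ≠ l2) (h1 : comp t l1 = comp t' l1)
    (h2 : comp t l2 = comp t' l2) : t = t' := by
  rcases label_cases hl with ⟨rfl, rfl⟩ | ⟨rfl, rfl⟩ | ⟨rfl, rfl⟩ | ⟨rfl, rfl⟩ | ⟨rfl, rfl⟩ |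
    ⟨rfl, rfl⟩ <;>
  simp only [comp0, comp1, comp2] at h1 h2 <;>
  exact Prod.ext (by omega) (by omega)

/-- Where the primes of the components of a `TF` triple live. -/
theorem TF.prime_cases {S : Finset ℕ} {l1 l2 : Fin 3} {Q R : ℕ} {t : ℕ × ℕ}
    (h : TF S l1 l2 Q R t) {p : ℕ} (hp : p.Prime) {l : Fin 3} (hd : p ∣ comp t l) :
    lab t p = l ∧ (p = Q ∨ p = R ∨ p ∈ S) := by
  refine ⟨lab_of_dvd h.h hp hd, ?_⟩
  have : p ∈ (N t).primeFactors := by
    rw [Nat.mem_primeFactors]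
    exact ⟨hp, hd.trans (comp_dvd_N t l), h.h.N_ne⟩
  rw [h.pf, Finset.mem_insert, Finset.mem_insert] at this
  exact this

/-- Multiplicativity relations from `delta_zero`. -/
theorem rel_of_delta {S : Finset ℕ} {l1 l2 : Fin 3} (hl : l1 ≠ l2) {Q1 Q2 R R' : ℕ}
    {s t s' t' : ℕ × ℕ} (hs : TF S l1 l2 Q1 R s) (htt : TF S l1 l2 Q2 R t)
    (hs' : TF S l1 l2 Q1 R' s') (htt' : TF S l1 l2 Q2 R' t')
    (nt : NearTF S Q1 R Q2 R s t) (ns' : NearTF S Q1 R Q1 R' s s')
    (nt' : NearTF S Q1 R Q2 R' s t') (hQ : Q1 ≠ Q2) (hR : R ≠ R') :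
    comp s l1 * comp t' l1 = comp s' l1 * comp t l1 ∧
      comp s' l2 * comp t l2 = comp s l2 * comp t' l2 := by
  have hD := delta_zero hl hs htt hs' htt' nt ns' nt' hQ hR
  unfold Del at hD
  have hD' : comp s l1 * comp t' l1 * (comp s' l2 * comp t l2) =
      comp s' l1 * comp t l1 * (comp s l2 * comp t' l2) := by
    exact_mod_cast sub_eq_zero.mp hD
  have hQ1R : Q1 ≠ R := fun h => hl (by rw [← hs.lQ, ← hs.lR, h])
  have hQ1R' : Q1 ≠ R' := fun h => hl (by rw [← hs'.lQ, ← hs'.lR, h])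
  have hQ2R : Q2 ≠ R := fun h => hl (by rw [← htt.lQ, ← htt.lR, h])
  have hQ2R' : Q2 ≠ R' := fun h => hl (by rw [← htt'.lQ, ← htt'.lR, h])
  have labst : ∀ p ∈ S, lab t p = lab s p := fun p hp => (nt.lab_eq p hp).symm
  have labss' : ∀ p ∈ S, lab s' p = lab s p := fun p hp => (ns'.lab_eq p hp).symm
  have labst' : ∀ p ∈ S, lab t' p = lab s p := fun p hp => (nt'.lab_eq p hp).symm
  -- general coprimality
  have cop : ∀ (τ τ' : ℕ × ℕ) (Qa Ra Qb Rb : ℕ), TF S l1 l2 Qa Ra τ → TF S l1 l2 Qb Rb τ' →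
      (∀ p ∈ S, lab τ p = lab s p) → (∀ p ∈ S, lab τ' p = lab s p) → Qa ≠ Rb →
      Nat.Coprime (comp τ l1) (comp τ' l2) := by
    intro τ τ' Qa Ra Qb Rb hτ hτ' hla hlb hQR
    rw [Nat.coprime_iff_gcd_eq_one]
    by_contra hne
    obtain ⟨p, hp, hd⟩ := Nat.exists_prime_and_dvd hne
    obtain ⟨h1, h1'⟩ := hτ.prime_cases hp (hd.trans (Nat.gcd_dvd_left _ _))
    obtain ⟨h2, h2'⟩ := hτ'.prime_cases hp (hd.trans (Nat.gcd_dvd_right _ _))
    have c1 : p = Qa ∨ p ∈ S := by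
      rcases h1' with h | h | h
      · left; exact h
      · exfalso; rw [h, hτ.lR] at h1; exact hl h1.symm
      · right; exact h
    have c2 : p = Rb ∨ p ∈ S := by
      rcases h2' with h | h | h
      · exfalso; rw [h, hτ'.lQ] at h2; exact hl h2
      · left; exact h
      · right; exact h
    rcases c1 with c1 | c1
    · rcases c2 with c2 | c2
      · exact hQR (c1.symm.trans c2)
      · exact hτ.hQS (c1 ▸ c2)
    · rcases c2 with c2 | c2
      · exact hτ'.hRS (c2 ▸ c1)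
      · rw [hla p c1] at h1
        rw [hlb p c1] at h2
        exact hl (h1.symm.trans h2)
  have self : ∀ p ∈ S, lab s p = lab s p := fun _ _ => rfl
  -- x(s) x(t') coprime to y(s) y(t')
  have k1 : Nat.Coprime (comp s l1 * comp t' l1) (comp s l2 * comp t' l2) :=
    Nat.Coprime.mul_left
      (Nat.Coprime.mul_right (cop s s Q1 R Q1 R hs hs self self hQ1R)
        (cop s t' Q1 R Q2 R' hs htt' self labst' hQ1R'))
      (Nat.Coprime.mul_right (cop t' s Q2 R' Q1 R htt' hs labst' self hQ2R)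
        (cop t' t' Q2 R' Q2 R' htt' htt' labst' labst' hQ2R'))
  have k2 : Nat.Coprime (comp s' l1 * comp t l1) (comp s' l2 * comp t l2) :=
    Nat.Coprime.mul_left
      (Nat.Coprime.mul_right (cop s' s' Q1 R' Q1 R' hs' hs' labss' labss' hQ1R')
        (cop s' t Q1 R' Q2 R hs' htt labss' labst hQ1R))
      (Nat.Coprime.mul_right (cop t s' Q2 R Q1 R' htt hs' labst labss' hQ2R')
        (cop t t Q2 R Q2 R htt htt labst labst hQ2R))
  have d1 : comp s l1 * comp t' l1 ∣ comp s' l1 * comp t l1 :=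
    k1.dvd_of_dvd_mul_right (Dvd.intro _ hD')
  have d2 : comp s' l1 * comp t l1 ∣ comp s l1 * comp t' l1 :=
    k2.dvd_of_dvd_mul_right (Dvd.intro _ hD'.symm)
  have heq := Nat.dvd_antisymm d1 d2
  refine ⟨heq, ?_⟩
  rw [heq] at hD'
  exact Nat.eq_of_mul_eq_mul_left (Nat.mul_pos (comp_pos hs'.h l1) (comp_pos htt.h l1)) hD'

/-- Codegree bound: two free primes `Q1 ≠ Q2` have few common neighbours. -/
theorem codegree (S : Finset ℕ) (hS : ∀ p ∈ S, p.Prime) {l1 l2 : Fin 3} (hl : l1 ≠ l2)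
    (T : Finset (ℕ × ℕ)) (Q R : ℕ × ℕ → ℕ) (hT : ∀ t ∈ T, TF S l1 l2 (Q t) (R t) t)
    (hN : ∀ t ∈ T, ∀ t' ∈ T, NearTF S (Q t) (R t) (Q t') (R t') t t')
    (H : ℝ) (hH1 : 1 ≤ H) (hH : ∀ t ∈ T, ht t ≤ H) (Q1 Q2 : ℕ) (hQ : Q1 ≠ Q2) :
    (((T ×ˢ T).filter (fun i => Q i.1 = Q1 ∧ Q i.2 = Q2 ∧ R i.1 = R i.2)).card : ℝ) ≤
      256 + 4 * (17 * (Real.log (3 * H) / Real.log (65 / 64) + 1)) * BconD 16 ^ S.card := by
  classical
  set I := (T ×ˢ T).filter (fun i => Q i.1 = Q1 ∧ Q i.2 = Q2 ∧ R i.1 = R i.2) with hI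
  rcases I.eq_empty_or_nonempty with hIe | ⟨⟨s1, t1⟩, hi0⟩
  · rw [hIe]
    simp only [Finset.card_empty, Nat.cast_zero]
    have hl : 0 < Real.log (65 / 64 : ℝ) := Real.log_pos (by norm_num)
    have h3 : 0 ≤ Real.log (3 * H) := Real.log_nonneg (by linarith)
    have := BconD_pos 16
    positivity
  have hmem : ∀ i ∈ I, i.1 ∈ T ∧ i.2 ∈ T ∧ Q i.1 = Q1 ∧ Q i.2 = Q2 ∧ R i.1 = R i.2 := by
    intro i hi
    rw [hI, Finset.mem_filter, Finset.mem_product] at hi
    exact ⟨hi.1.1, hi.1.2, hi.2⟩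
  obtain ⟨hs1T, ht1T, hs1Q, ht1Q, hst1R⟩ := hmem _ hi0
  simp only at hs1T ht1T hs1Q ht1Q hst1R
  set R1 := R s1 with hR1
  have hTs : ∀ i ∈ I, TF S l1 l2 Q1 (R i.1) i.1 := by
    intro i hi
    obtain ⟨a1, a2, a3, a4, a5⟩ := hmem i hi
    rw [← a3]; exact hT _ a1
  have hTt : ∀ i ∈ I, TF S l1 l2 Q2 (R i.1) i.2 := by
    intro i hi
    obtain ⟨a1, a2, a3, a4, a5⟩ := hmem i hi
    rw [← a4, a5]; exact hT _ a2
  have hTs1 : TF S l1 l2 Q1 R1 s1 := hTs _ hi0
  have hTt1 : TF S l1 l2 Q2 R1 t1 := hTt _ hi0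
  have injT : ∀ t ∈ T, ∀ t' ∈ T, Q t = Q t' → R t = R t' → t = t' := by
    intro t h t' h' hq hr
    have a1 := hT t h
    have a2 := hT t' h'
    have a3 := hN t h t' h'
    have a4 := hN t' h' t h
    rw [← hq, ← hr] at a2 a3 a4
    exact tf_inj' hl a1 a2 a3 a4
  -- relations
  have hrel : ∀ i ∈ I, comp s1 l1 * comp i.2 l1 = comp i.1 l1 * comp t1 l1 ∧
      comp i.1 l2 * comp t1 l2 = comp s1 l2 * comp i.2 l2 := by
    intro i hi
    obtain ⟨a1, a2, a3, a4, a5⟩ := hmem i hi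
    by_cases hRR : R1 = R i.1
    · have e1 : i.1 = s1 := injT _ a1 _ hs1T (by rw [a3, hs1Q]) hRR.symm
      have e2 : i.2 = t1 := injT _ a2 _ ht1T (by rw [a4, ht1Q]) (by rw [← a5, ← hRR, hst1R])
      rw [e1, e2]
      exact ⟨rfl, rfl⟩
    · have n1 := hN s1 hs1T t1 ht1T
      have n2 := hN s1 hs1T i.1 a1
      have n3 := hN s1 hs1T i.2 a2
      rw [hs1Q, ht1Q, ← hst1R, ← hR1] at n1
      rw [hs1Q, a3, ← hR1] at n2
      rw [hs1Q, a4, ← a5, ← hR1] at n3
      exact rel_of_delta hl hTs1 hTt1 (hTs i hi) (hTt i hi) n1 n2 n3 hQ hRR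
  set L := l3 l1 l2 with hL
  have hLne := l3_ne hl
  -- distinctness of free primes
  have hQ1R : ∀ i ∈ I, Q1 ≠ R i.1 := fun i hi h => hl (by
    rw [← (hTs i hi).lQ, ← (hTs i hi).lR, ← h])
  have hQ2R : ∀ i ∈ I, Q2 ≠ R i.1 := fun i hi h => hl (by
    rw [← (hTt i hi).lQ, ← (hTt i hi).lR, ← h])
  set x1 := comp s1 l1 with hx1
  set y1 := comp s1 l2 with hy1
  set x2 := comp t1 l1 with hx2
  set y2 := comp t1 l2 with hy2
  have px1 : 0 < x1 := comp_pos hTs1.h _
  have py1 : 0 < y1 := comp_pos hTs1.h _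
  have px2 : 0 < x2 := comp_pos hTt1.h _
  have py2 : 0 < y2 := comp_pos hTt1.h _
  -- the constant is nonzero
  have hQ1t : ∀ i ∈ I, ¬ Q1 ∣ comp i.2 l1 := by
    intro i hi hd
    obtain ⟨_, h2⟩ := (hTt i hi).prime_cases hTs1.hQ hd
    rcases h2 with h2 | h2 | h2
    · exact hQ h2
    · exact hQ1R i hi h2
    · exact hTs1.hQS h2
  have hQ2s : ∀ i ∈ I, ¬ Q2 ∣ comp i.1 l1 := by
    intro i hi hd
    obtain ⟨_, h2⟩ := (hTs i hi).prime_cases hTt1.hQ hd
    rcases h2 with h2 | h2 | h2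
    · exact hQ h2.symm
    · exact hQ2R i hi h2
    · exact hTt1.hQS h2
  have hQ1s1 : Q1 ∣ x1 := by
    have hm : Q1 ∈ (N s1).primeFactors := by rw [hTs1.pf]; exact Finset.mem_insert_self _ _
    have h1 : Q1 ∈ (comp s1 l1).primeFactors := by
      rw [comp_primeFactors hTs1.h, Finset.mem_filter]
      exact ⟨hm, hTs1.lQ⟩
    exact Nat.dvd_of_mem_primeFactors h1
  have hK : (x1 : ℤ) * y2 - x2 * y1 ≠ 0 := by
    intro h0
    have h1 : x1 * y2 = x2 * y1 := by exact_mod_cast sub_eq_zero.mp h0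
    have h2 : x1 ∣ x2 := by
      have hc : Nat.Coprime x1 y1 := comp_coprime hTs1.h hl
      exact hc.dvd_of_dvd_mul_right (Dvd.intro _ h1)
    exact hQ1t _ hi0 (hQ1s1.trans h2)
  set K : ℤ := (x1 : ℤ) * y2 - x2 * y1 with hKdef
  set U : (ℕ × ℕ) × (ℕ × ℕ) → ℕ := fun i => comp i.1 L * (x2 * y2) with hU
  set V : (ℕ × ℕ) × (ℕ × ℕ) → ℕ := fun i => comp i.2 L * (x2 * y1) with hV
  have hUpos : ∀ i ∈ I, 0 < U i := fun i hi =>
    Nat.mul_pos (comp_pos (hTs i hi).h _) (Nat.mul_pos px2 py2)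
  have hVpos : ∀ i ∈ I, 0 < V i := fun i hi =>
    Nat.mul_pos (comp_pos (hTt i hi).h _) (Nat.mul_pos px2 py1)
  have hUV : ∀ i ∈ I, (U i : ℤ) - V i = e1 l2 * K * comp i.2 l1 := by
    intro i hi
    obtain ⟨r1, r2⟩ := hrel i hi
    have r1' : (x1 : ℤ) * comp i.2 l1 = comp i.1 l1 * x2 := by exact_mod_cast r1
    have r2' : (comp i.1 l2 : ℤ) * y2 = y1 * comp i.2 l2 := by exact_mod_cast r2
    simp only [hU, hV, hKdef]
    push_cast
    rw [hL, comp_lin i.1 hl, comp_lin i.2 hl]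
    linear_combination (-(e1 l2) * y2) * r1' + (e1 l1 * x2) * r2'
  have hxpos : ∀ i ∈ I, 0 < comp i.2 l1 := fun i hi => comp_pos (hTt i hi).h _
  have hne : ∀ i ∈ I, U i ≠ V i := by
    intro i hi h
    have h1 := hUV i hi
    rw [h, sub_self] at h1
    have h2 : (comp i.2 l1 : ℤ) ≠ 0 := by exact_mod_cast (hxpos i hi).ne'
    exact mul_ne_zero (mul_ne_zero (e1_ne l2) hK) h2 h1.symm
  have hW : ∀ i ∈ I, max (U i) (V i) - min (U i) (V i) = K.natAbs * comp i.2 l1 := by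
    intro i hi
    have h1 : max (U i) (V i) - min (U i) (V i) = ((U i : ℤ) - V i).natAbs := by
      rcases le_total (U i) (V i) with h | h
      · rw [max_eq_right h, min_eq_left h]; omega
      · rw [max_eq_left h, min_eq_right h]; omega
    rw [h1, hUV i hi, Int.natAbs_mul, Int.natAbs_mul]
    have h2 : (e1 l2).natAbs = 1 := by
      unfold e1
      split_ifs <;> rfl
    rw [h2, one_mul, Int.natAbs_natCast]
  have hKa : K.natAbs ≠ 0 := Int.natAbs_ne_zero.mpr hK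
  -- factorization outside S
  have hfz : ∀ τ : ℕ × ℕ, ∀ Qa Ra : ℕ, TF S l1 l2 Qa Ra τ → ∀ p : ℕ, p.Prime → p ∉ S →
      (comp τ L).factorization p = 0 := by
    intro τ Qa Ra hτ p hp hpS
    apply Nat.factorization_eq_zero_of_not_dvd
    intro hd
    obtain ⟨h1, h2⟩ := hτ.prime_cases hp hd
    rcases h2 with h2 | h2 | h2
    · rw [h2, hτ.lQ] at h1; exact hLne.1 h1.symm
    · rw [h2, hτ.lR] at h1; exact hLne.2 h1.symm
    · exact hpS h2
  have hfx : ∀ i ∈ I, ∀ p : ℕ, p.Prime → p ∉ S →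
      (comp i.2 l1).factorization p = x2.factorization p := by
    intro i hi p hp hpS
    by_cases hpQ : p = Q2
    · obtain ⟨r1, _⟩ := hrel i hi
      have h1 : (x1 * comp i.2 l1).factorization p = (comp i.1 l1 * x2).factorization p := by rw [r1]
      rw [Nat.factorization_mul px1.ne' (hxpos i hi).ne',
        Nat.factorization_mul (comp_pos (hTs i hi).h _).ne' px2.ne'] at h1
      simp only [Finsupp.coe_add, Pi.add_apply] at h1
      rw [hpQ] at h1 ⊢
      rw [Nat.factorization_eq_zero_of_not_dvd (hQ2s _ hi0),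
        Nat.factorization_eq_zero_of_not_dvd (hQ2s i hi)] at h1
      omega
    · have hz : ∀ τ : ℕ × ℕ, ∀ Ra : ℕ, TF S l1 l2 Q2 Ra τ → (comp τ l1).factorization p = 0 := by
        intro τ Ra hτ
        apply Nat.factorization_eq_zero_of_not_dvd
        intro hd
        obtain ⟨h1, h2⟩ := hτ.prime_cases hp hd
        rcases h2 with h2 | h2 | h2
        · exact hpQ h2
        · rw [h2, hτ.lR] at h1; exact hl h1.symm
        · exact hpS h2
      rw [hz _ _ (hTt i hi), hx2, hz _ _ hTt1]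
  apply resid_card S hS I U V hUpos hVpos hne
  · intro p hp hpS i hi j hj
    refine ⟨?_, ?_, ?_⟩
    · simp only [hU]
      rw [Nat.factorization_mul (comp_pos (hTs i hi).h _).ne' (Nat.mul_pos px2 py2).ne',
        Nat.factorization_mul (comp_pos (hTs j hj).h _).ne' (Nat.mul_pos px2 py2).ne']
      simp only [Finsupp.coe_add, Pi.add_apply]
      rw [hfz _ _ _ (hTs i hi) p hp hpS, hfz _ _ _ (hTs j hj) p hp hpS]
    · simp only [hV]
      rw [Nat.factorization_mul (comp_pos (hTt i hi).h _).ne' (Nat.mul_pos px2 py1).ne',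
        Nat.factorization_mul (comp_pos (hTt j hj).h _).ne' (Nat.mul_pos px2 py1).ne']
      simp only [Finsupp.coe_add, Pi.add_apply]
      rw [hfz _ _ _ (hTt i hi) p hp hpS, hfz _ _ _ (hTt j hj) p hp hpS]
    · rw [hW i hi, hW j hj, Nat.factorization_mul hKa (hxpos i hi).ne',
        Nat.factorization_mul hKa (hxpos j hj).ne']
      simp only [Finsupp.coe_add, Pi.add_apply]
      rw [hfx i hi p hp hpS, hfx j hj p hp hpS]
  · -- distinctness
    intro i hi j hj hij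
    obtain ⟨a1, a2, a3, a4, a5⟩ := hmem i hi
    obtain ⟨b1, b2, b3, b4, b5⟩ := hmem j hj
    have hi' := hUV i hi
    have hj' := hUV j hj
    have hij' : (U i : ℤ) * V j = U j * V i := by exact_mod_cast hij
    have hKe : e1 l2 * K ≠ 0 := mul_ne_zero (e1_ne l2) hK
    have h1 : (comp i.2 l1 : ℤ) * V j = comp j.2 l1 * V i := by
      have : e1 l2 * K * (comp i.2 l1 * V j) = e1 l2 * K * (comp j.2 l1 * V i) := by
        linear_combination (-(V j : ℤ)) * hi' + (V i : ℤ) * hj' + hij'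
      exact mul_left_cancel₀ hKe this
    have h2 : comp i.2 l1 * comp j.2 L = comp j.2 l1 * comp i.2 L := by
      have h3 : comp i.2 l1 * V j = comp j.2 l1 * V i := by exact_mod_cast h1
      simp only [hV] at h3
      have h4 : comp i.2 l1 * comp j.2 L * (x2 * y1) = comp j.2 l1 * comp i.2 L * (x2 * y1) := by
        rw [mul_assoc, h3, mul_assoc]
      exact Nat.eq_of_mul_eq_mul_right (Nat.mul_pos px2 py1) h4
    have c1 : Nat.Coprime (comp i.2 l1) (comp i.2 L) := comp_coprime (hTt i hi).h hLne.1.symm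
    have c2 : Nat.Coprime (comp j.2 l1) (comp j.2 L) := comp_coprime (hTt j hj).h hLne.1.symm
    have d1 : comp i.2 l1 ∣ comp j.2 l1 := c1.dvd_of_dvd_mul_right (Dvd.intro _ h2)
    have d2 : comp j.2 l1 ∣ comp i.2 l1 := c2.dvd_of_dvd_mul_right (Dvd.intro _ h2.symm)
    have heq := Nat.dvd_antisymm d1 d2
    rw [heq] at h2
    have heqL : comp j.2 L = comp i.2 L := Nat.eq_of_mul_eq_mul_left (hxpos j hj) h2
    have ht2 : i.2 = j.2 := eq_of_comp hLne.1.symm heq heqL.symm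
    have hs2 : i.1 = j.1 := injT _ a1 _ b1 (by rw [a3, b3]) (by rw [a5, b5, ht2])
    exact Prod.ext hs2 ht2
  · linarith
  · -- heights
    intro i hi
    obtain ⟨a1, a2, a3, a4, a5⟩ := hmem i hi
    have hle : ∀ τ ∈ T, ∀ l : Fin 3, (comp τ l : ℝ) ≤ Real.exp H := by
      intro τ hτ l
      have h1 := log_comp_le (hT τ hτ).h l
      have h2 : (0 : ℝ) < comp τ l := by exact_mod_cast comp_pos (hT τ hτ).h l
      rw [← Real.log_le_iff_le_exp h2]
      exact h1.trans (hH τ hτ)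
    have hUle : (U i : ℝ) ≤ Real.exp (3 * H) := by
      simp only [hU]
      push_cast
      have e : Real.exp (3 * H) = Real.exp H * (Real.exp H * Real.exp H) := by
        rw [← Real.exp_add, ← Real.exp_add]; ring_nf
      rw [e]
      have g1 := hle _ a1 L
      have g2 := hle _ ht1T l1
      have g3 := hle _ ht1T l2
      gcongr
    have hVle : (V i : ℝ) ≤ Real.exp (3 * H) := by
      simp only [hV]
      push_cast
      have e : Real.exp (3 * H) = Real.exp H * (Real.exp H * Real.exp H) := by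
        rw [← Real.exp_add, ← Real.exp_add]; ring_nf
      rw [e]
      have g1 := hle _ a2 L
      have g2 := hle _ ht1T l1
      have g3 := hle _ hs1T l2
      gcongr
    have hmax : ((max (U i) (V i) : ℕ) : ℝ) ≤ Real.exp (3 * H) := by
      rcases max_choice (U i) (V i) with h | h <;> rw [h] <;> assumption
    have hmpos : (0 : ℝ) < ((max (U i) (V i) : ℕ) : ℝ) := by
      exact_mod_cast lt_max_of_lt_left (hUpos i hi)
    rw [Real.log_le_iff_le_exp hmpos]
    exact hmax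

end Pool.Agent.Lib.Pabc1
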