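import Mathlib
import Pool.Agent.Lib.Pabc1.TFClass
import Pool.Agent.Lib.Pabc1.RCount

open Finset Filter Topology

namespace Pool.Agent.Lib.Pabc1

open Pool.Agent.Lib.Pabc2

/-- Kővári–Sós–Turán type bound. -/
theorem kst (T : Finset (ℕ × ℕ)) (Q R : ℕ × ℕ → ℕ) (x y : ℕ) (hx : ∀ t ∈ T, Q t < x)
    (hy : ∀ t ∈ T, R t < y)
    (hinj : ∀ t ∈ T, ∀ t' ∈ T, Q t = Q t' → R t = R t' → t = t') (m0 : ℝ) (hm0 : 0 ≤ m0)
    (hm : ∀ Q1 Q2 : ℕ, Q1 ≠ Q2 →
      (((T ×ˢ T).filter (fun i => Q i.1 = Q1 ∧ Q i.2 = Q2 ∧ R i.1 = R i.2)).card : ℝ) ≤ m0) :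
    (T.card : ℝ) ^ 2 ≤ y * ((x : ℝ) ^ 2 * m0 + T.card) := by
  classical
  set P := (T ×ˢ T).filter (fun i => R i.1 = R i.2) with hP
  -- Cauchy-Schwarz
  have h1 : (T.card : ℝ) ^ 2 ≤ y * P.card := by
    have e1 : T.card = ∑ r ∈ Finset.range y, (T.filter (fun t => R t = r)).card :=
      Finset.card_eq_sum_card_fiberwise (fun t ht => Finset.mem_coe.mpr (Finset.mem_range.mpr (hy t ht)))
    have e2 : P.card = ∑ r ∈ Finset.range y, (T.filter (fun t => R t = r)).card ^ 2 := by
      rw [Finset.card_eq_sum_card_fiberwise (f := fun i => R i.1) (t := Finset.range y)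
        (fun i hi => by
          rw [Finset.mem_coe, hP, Finset.mem_filter, Finset.mem_product] at hi
          exact Finset.mem_coe.mpr (Finset.mem_range.mpr (hy _ hi.1.1)))]
      apply Finset.sum_congr rfl
      intro r _
      rw [sq, ← Finset.card_product]
      congr 1
      ext i
      simp only [hP, Finset.mem_filter, Finset.mem_product]
      constructor
      · rintro ⟨⟨⟨a, b⟩, c⟩, d⟩
        exact ⟨⟨a, d⟩, b, c ▸ d⟩
      · rintro ⟨⟨a, b⟩, c, d⟩
        exact ⟨⟨⟨a, c⟩, b.trans d.symm⟩, b⟩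
    have h2 : ((∑ r ∈ Finset.range y, ((T.filter (fun t => R t = r)).card : ℝ))) ^ 2 ≤
        ((Finset.range y).card : ℝ) * ∑ r ∈ Finset.range y, ((T.filter (fun t => R t = r)).card : ℝ) ^ 2 :=
      sq_sum_le_card_mul_sum_sq
    rw [Finset.card_range] at h2
    rw [e1, e2]
    push_cast
    exact h2
  -- splitting
  have h2 : (P.card : ℝ) ≤ (x : ℝ) ^ 2 * m0 + T.card := by
    have e1 : (P.card : ℝ) = ((P.filter (fun i => Q i.1 = Q i.2)).card : ℝ) +
        (P.filter (fun i => ¬ Q i.1 = Q i.2)).card := by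
      exact_mod_cast (Finset.card_filter_add_card_filter_not (s := P) (fun i => Q i.1 = Q i.2)).symm
    have e2 : ((P.filter (fun i => Q i.1 = Q i.2)).card : ℝ) ≤ T.card := by
      have : (P.filter (fun i => Q i.1 = Q i.2)).card ≤ T.card := by
        apply Finset.card_le_card_of_injOn (fun i => i.1)
        · intro i hi
          rw [Finset.mem_coe, Finset.mem_filter, hP, Finset.mem_filter, Finset.mem_product] at hi
          exact hi.1.1.1
        · intro i hi j hj hij
          rw [Finset.mem_coe, Finset.mem_filter, hP, Finset.mem_filter, Finset.mem_product] at hi hj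
          have hi' := hinj _ hi.1.1.1 _ hi.1.1.2 hi.2 hi.1.2
          have hj' := hinj _ hj.1.1.1 _ hj.1.1.2 hj.2 hj.1.2
          simp only at hij
          exact Prod.ext hij (by rw [← hi', ← hj', hij])
      exact_mod_cast this
    have e3 : ((P.filter (fun i => ¬ Q i.1 = Q i.2)).card : ℝ) ≤ (x : ℝ) ^ 2 * m0 := by
      set P2 := P.filter (fun i => ¬ Q i.1 = Q i.2) with hP2
      have e4 : P2.card = ∑ q ∈ Finset.range x ×ˢ Finset.range x,
          (P2.filter (fun i => (Q i.1, Q i.2) = q)).card := by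
        apply Finset.card_eq_sum_card_fiberwise
        intro i hi
        rw [Finset.mem_coe, hP2, Finset.mem_filter, hP, Finset.mem_filter, Finset.mem_product] at hi
        rw [Finset.mem_coe, Finset.mem_product, Finset.mem_range, Finset.mem_range]
        exact ⟨hx _ hi.1.1.1, hx _ hi.1.1.2⟩
      rw [e4]
      push_cast
      calc ∑ q ∈ Finset.range x ×ˢ Finset.range x, ((P2.filter (fun i => (Q i.1, Q i.2) = q)).card : ℝ)
          ≤ ∑ _q ∈ Finset.range x ×ˢ Finset.range x, m0 := by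
            apply Finset.sum_le_sum
            rintro ⟨q1, q2⟩ _
            by_cases hq : q1 = q2
            · have : P2.filter (fun i => (Q i.1, Q i.2) = (q1, q2)) = ∅ := by
                rw [Finset.filter_eq_empty_iff]
                intro i hi heq
                rw [hP2, Finset.mem_filter] at hi
                simp only [Prod.mk.injEq] at heq
                exact hi.2 (by rw [heq.1, heq.2, hq])
              rw [this]
              simpa using hm0
            · refine le_trans ?_ (hm q1 q2 hq)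
              have : P2.filter (fun i => (Q i.1, Q i.2) = (q1, q2)) ⊆
                  (T ×ˢ T).filter (fun i => Q i.1 = q1 ∧ Q i.2 = q2 ∧ R i.1 = R i.2) := by
                intro i hi
                rw [Finset.mem_filter, hP2, Finset.mem_filter, hP, Finset.mem_filter] at hi
                rw [Finset.mem_filter]
                simp only [Prod.mk.injEq] at hi
                exact ⟨hi.1.1.1, hi.2.1, hi.2.2, hi.1.1.2⟩
              exact_mod_cast Finset.card_le_card this
        _ = (x : ℝ) ^ 2 * m0 := by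
            rw [Finset.sum_const, Finset.card_product, Finset.card_range, nsmul_eq_mul]
            push_cast
            ring
    linarith
  calc (T.card : ℝ) ^ 2 ≤ y * P.card := h1
    _ ≤ y * ((x : ℝ) ^ 2 * m0 + T.card) := mul_le_mul_of_nonneg_left h2 (Nat.cast_nonneg _)

theorem le_of_kst {E y x m : ℝ} (hE : 0 ≤ E) (hy : 0 ≤ y) (hx : 0 ≤ x) (hm : 0 ≤ m)
    (h : E ^ 2 ≤ y * (x ^ 2 * m + E)) : E ≤ y + x * Real.sqrt (y * m) := by
  rcases le_total E y with h1 | h1
  · have := Real.sqrt_nonneg (y * m)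
    nlinarith [mul_nonneg hx this]
  · have h2 : (E - y) ^ 2 ≤ (x * Real.sqrt (y * m)) ^ 2 := by
      rw [mul_pow, Real.sq_sqrt (mul_nonneg hy hm)]
      nlinarith
    have h3 := abs_le_of_sq_le_sq h2 (mul_nonneg hx (Real.sqrt_nonneg _))
    have h4 := le_abs_self (E - y)
    linarith

/-- Analytic form of the class bound. -/
theorem tf_class_card (n : ℕ) (z : ℝ) (hz : 1 ≤ z) (S : Finset ℕ) (hS : ∀ p ∈ S, p.Prime)
    {l1 l2 : Fin 3} (hl : l1 ≠ l2)
    (T : Finset (ℕ × ℕ)) (Q R : ℕ × ℕ → ℕ) (hT : ∀ t ∈ T, TF S l1 l2 (Q t) (R t) t)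
    (hN : ∀ t ∈ T, ∀ t' ∈ T, NearTF S (Q t) (R t) (Q t') (R t') t t')
    (hrd : ∀ t ∈ T, rd t ≤ n) (hzQ : ∀ t ∈ T, z ≤ Q t) (hzR : ∀ t ∈ T, z ≤ R t)
    (i j : ℕ) (hi : ∀ t ∈ T, Nat.log 2 (Q t) = i) (hj : ∀ t ∈ T, Nat.log 2 (R t) = j)
    (H : ℝ) (hH1 : 1 ≤ H) (hH : ∀ t ∈ T, ht t ≤ H) (m0 : ℝ) (hm0 : 1 ≤ m0)
    (hm : 256 + 4 * (17 * (Real.log (3 * H) / Real.log (65 / 64) + 1)) * BconD 16 ^ S.card ≤ m0) :
    (T.card : ℝ) ≤ 8 * m0 * (n / Real.sqrt z) / ((∏ p ∈ S, p : ℕ) : ℝ) := by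
  classical
  have hprod0 : (0 : ℝ) < ((∏ p ∈ S, p : ℕ) : ℝ) := by
    exact_mod_cast Finset.prod_pos (fun p hp => (hS p hp).pos)
  have hz0 : 0 < z := by linarith
  have hsz : 0 < Real.sqrt z := Real.sqrt_pos.mpr hz0
  rcases T.eq_empty_or_nonempty with hTe | ⟨t0, ht0⟩
  · rw [hTe]
    simp only [Finset.card_empty, Nat.cast_zero]
    positivity
  have injT : ∀ t ∈ T, ∀ t' ∈ T, Q t = Q t' → R t = R t' → t = t' := by
    intro t h t' h' hq hr
    have a1 := hT t h
    have a2 := hT t' h'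
    have a3 := hN t h t' h'
    have a4 := hN t' h' t h
    rw [← hq, ← hr] at a2 a3 a4
    exact tf_inj' hl a1 a2 a3 a4
  have hxlt : ∀ t ∈ T, Q t < 2 ^ (i + 1) := by
    intro t h
    rw [← hi t h]
    exact Nat.lt_pow_succ_log_self (by norm_num) _
  have hylt : ∀ t ∈ T, R t < 2 ^ (j + 1) := by
    intro t h
    rw [← hj t h]
    exact Nat.lt_pow_succ_log_self (by norm_num) _
  have h1 := kst T Q R (2 ^ (i + 1)) (2 ^ (j + 1)) hxlt hylt injT m0 (by linarith)
    (fun Q1 Q2 hQ => (codegree S hS hl T Q R hT hN H hH1 hH Q1 Q2 hQ).trans hm)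
  push_cast at h1
  set x : ℝ := 2 ^ (i + 1) with hx
  set y : ℝ := 2 ^ (j + 1) with hy
  have hx0 : 0 < x := by positivity
  have hy0 : 0 < y := by positivity
  have h2 := le_of_kst (Nat.cast_nonneg _) hy0.le hx0.le (by linarith : (0 : ℝ) ≤ m0) h1
  -- sizes
  have hQ0 := (hT t0 ht0).hQ
  have hR0 := (hT t0 ht0).hR
  have hxy : x * y * ((∏ p ∈ S, p : ℕ) : ℝ) ≤ 4 * n := by
    have e1 : rd t0 = Q t0 * (R t0 * ∏ p ∈ S, p) := by
      have hQR : Q t0 ≠ R t0 := fun he => hl (by
        rw [← (hT t0 ht0).lQ, ← (hT t0 ht0).lR, he])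
      unfold rd
      rw [(hT t0 ht0).pf, Finset.prod_insert (by
        simp only [Finset.mem_insert, not_or]
        exact ⟨hQR, (hT t0 ht0).hQS⟩), Finset.prod_insert (hT t0 ht0).hRS]
    have e2 : 2 ^ i ≤ Q t0 := by
      rw [← hi t0 ht0]; exact Nat.pow_log_le_self 2 hQ0.ne_zero
    have e3 : 2 ^ j ≤ R t0 := by
      rw [← hj t0 ht0]; exact Nat.pow_log_le_self 2 hR0.ne_zero
    have e4 : 2 ^ i * (2 ^ j * ∏ p ∈ S, p) ≤ n := by
      refine le_trans ?_ (hrd t0 ht0)
      rw [e1]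
      gcongr
    have e5 : (2 : ℝ) ^ i * (2 ^ j * ((∏ p ∈ S, p : ℕ) : ℝ)) ≤ n := by exact_mod_cast e4
    calc x * y * ((∏ p ∈ S, p : ℕ) : ℝ) = 4 * ((2 : ℝ) ^ i * (2 ^ j * ((∏ p ∈ S, p : ℕ) : ℝ))) := by
          rw [hx, hy, pow_succ, pow_succ]; ring
      _ ≤ 4 * n := by linarith
  have hzx : z ≤ x := by
    refine (hzQ t0 ht0).trans ?_
    have := hxlt t0 ht0
    have h3 : (Q t0 : ℝ) < ((2 ^ (i + 1) : ℕ) : ℝ) := by exact_mod_cast this
    push_cast at h3
    exact h3.le
  have hzy : z ≤ y := by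
    refine (hzR t0 ht0).trans ?_
    have := hylt t0 ht0
    have h3 : (R t0 : ℝ) < ((2 ^ (j + 1) : ℕ) : ℝ) := by exact_mod_cast this
    push_cast at h3
    exact h3.le
  have hszx : Real.sqrt z ≤ x := by
    have h3 : Real.sqrt z ≤ z := by
      rw [Real.sqrt_le_left hz0.le]
      nlinarith
    linarith
  have hszy : Real.sqrt z ≤ Real.sqrt y := Real.sqrt_le_sqrt hzy
  have hsm : Real.sqrt m0 ≤ m0 := by
    rw [Real.sqrt_le_left (by linarith)]
    nlinarith
  set P : ℝ := ((∏ p ∈ S, p : ℕ) : ℝ) with hP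
  have k1 : y ≤ 4 * (n / Real.sqrt z) / P := by
    rw [le_div_iff₀ hprod0, ← mul_div_assoc, le_div_iff₀ hsz]
    calc y * P * Real.sqrt z ≤ y * P * x := mul_le_mul_of_nonneg_left hszx (by positivity)
      _ = x * y * P := by ring
      _ ≤ 4 * n := hxy
  have k2 : x * Real.sqrt y ≤ 4 * (n / Real.sqrt z) / P := by
    rw [le_div_iff₀ hprod0, ← mul_div_assoc, le_div_iff₀ hsz]
    calc x * Real.sqrt y * P * Real.sqrt z ≤ x * Real.sqrt y * P * Real.sqrt y :=
          mul_le_mul_of_nonneg_left hszy (by positivity)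
      _ = x * (Real.sqrt y * Real.sqrt y) * P := by ring
      _ = x * y * P := by rw [Real.mul_self_sqrt hy0.le]
      _ ≤ 4 * n := hxy
  have k3 : 0 ≤ 4 * (n / Real.sqrt z) / P := by positivity
  calc (T.card : ℝ) ≤ y + x * Real.sqrt (y * m0) := h2
    _ = y + (x * Real.sqrt y) * Real.sqrt m0 := by
        rw [Real.sqrt_mul hy0.le]; ring
    _ ≤ 4 * (n / Real.sqrt z) / P + 4 * (n / Real.sqrt z) / P * m0 := by
        gcongr
    _ ≤ 4 * (n / Real.sqrt z) / P * m0 + 4 * (n / Real.sqrt z) / P * m0 := by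
        have : 4 * (n / Real.sqrt z) / P * 1 ≤ 4 * (n / Real.sqrt z) / P * m0 :=
          mul_le_mul_of_nonneg_left hm0 k3
        linarith
    _ = 8 * m0 * (n / Real.sqrt z) / P := by ring

/-- Triples with a given set `S` of remaining primes. -/
theorem tf_fibre_card (n : ℕ) (hn : 1 ≤ n) (z : ℝ) (hz : 1 ≤ z) (S : Finset ℕ)
    (T : Finset (ℕ × ℕ)) (Q R : ℕ × ℕ → ℕ) (hI : ∀ t ∈ T, IsT t)
    (hQ : ∀ t ∈ T, Q t ∈ (N t).primeFactors) (hR : ∀ t ∈ T, R t ∈ (N t).primeFactors)
    (hlab : ∀ t ∈ T, lab t (Q t) ≠ lab t (R t))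
    (hSe : ∀ t ∈ T, ((N t).primeFactors.erase (Q t)).erase (R t) = S)
    (hbig : ∀ t ∈ T, 100 ≤ ht t)
    (hrd : ∀ t ∈ T, rd t ≤ n) (hzQ : ∀ t ∈ T, z ≤ Q t) (hzR : ∀ t ∈ T, z ≤ R t)
    (H : ℝ) (hH1 : 1 ≤ H) (hH : ∀ t ∈ T, ht t ≤ H) (m0 : ℝ) (hm0 : 1 ≤ m0)
    (hm : 256 + 4 * (17 * (Real.log (3 * H) / Real.log (65 / 64) + 1)) * BconD 16 ^ S.card ≤ m0) :
    (T.card : ℝ) ≤ (8 * m0 * (n / Real.sqrt z) / ((∏ p ∈ S, p : ℕ) : ℝ)) *
      (BconD 64 ^ S.card * (65 * (Real.log H / Real.log (65 / 64) + 1)) *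
        ((Nat.log 2 n + 1) * (Nat.log 2 n + 1)) * 9 * (65 * 65)) := by
  classical
  rcases T.eq_empty_or_nonempty with hTe | ⟨τ0, hτ0⟩
  · rw [hTe]
    simp only [Finset.card_empty, Nat.cast_zero]
    have hl : 0 < Real.log (65 / 64 : ℝ) := Real.log_pos (by norm_num)
    have h3 : 0 ≤ Real.log H := Real.log_nonneg hH1
    have := BconD_pos 64
    positivity
  have hneQR : ∀ t ∈ T, Q t ≠ R t := fun t h he => hlab t h (by rw [he])
  have hins : ∀ t ∈ T, (N t).primeFactors = insert (Q t) (insert (R t) S) := by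
    intro t h
    rw [← hSe t h, Finset.insert_erase (Finset.mem_erase.mpr ⟨(hneQR t h).symm, hR t h⟩),
      Finset.insert_erase (hQ t h)]
  have hS : ∀ p ∈ S, p.Prime := by
    intro p hp
    have : p ∈ (N τ0).primeFactors := by
      rw [hins τ0 hτ0]; exact Finset.mem_insert_of_mem (Finset.mem_insert_of_mem hp)
    exact Nat.prime_of_mem_primeFactors this
  have hprod0 : (0 : ℝ) < ((∏ p ∈ S, p : ℕ) : ℝ) := by
    exact_mod_cast Finset.prod_pos (fun p hp => (hS p hp).pos)
  have hz0 : 0 < z := by linarith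
  have hsz : 0 < Real.sqrt z := Real.sqrt_pos.mpr hz0
  set B0 : ℝ := 8 * m0 * (n / Real.sqrt z) / ((∏ p ∈ S, p : ℕ) : ℝ) with hB0
  have hB00 : 0 ≤ B0 := by
    rw [hB0]
    have : (0 : ℝ) ≤ m0 := by linarith
    positivity
  have hl65 : 0 < Real.log (65 / 64 : ℝ) := Real.log_pos (by norm_num)
  set L : ℕ := ⌊Real.log H / Real.log (65 / 64)⌋₊ with hL
  set f : ℕ × ℕ → ((p : ℕ) → p ∈ S → Fin 3 × ℕ) × (ℕ × ℕ) × (ℕ × ℕ) × (Fin 3 × Fin 3) × (ℕ × ℕ) :=
    fun t => (codeD 64 S t, codeH 64 (1 / 16) t, (Nat.log 2 (Q t), Nat.log 2 (R t)),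
      (lab t (Q t), lab t (R t)), (⌊u t (Q t) * (64 : ℕ)⌋₊, ⌊u t (R t) * (64 : ℕ)⌋₊)) with hf
  set C1 := T.image (codeD 64 S) with hC1
  have hu1 : ∀ t ∈ T, ∀ p ∈ (N t).primeFactors, u t p ≤ 1 := by
    intro t h p hp
    have hpp := Nat.prime_of_mem_primeFactors hp
    have H1 := ht_pos (hI t h)
    unfold u
    rw [div_le_one H1]
    have hdv := comp_dvd (hI t h) hpp
    have hle2 := Nat.le_of_dvd (comp_pos (hI t h) _) hdv
    have h3 : Real.log ((p : ℝ) ^ ex t p) ≤ Real.log (comp t (lab t p)) := by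
      apply Real.log_le_log
      · have : (0 : ℝ) < p := by exact_mod_cast hpp.pos
        positivity
      · exact_mod_cast hle2
    rw [Real.log_pow] at h3
    exact h3.trans (log_comp_le (hI t h) _)
  have h1 : T.card ≤ ⌊B0⌋₊ * (T.image f).card := by
    apply Finset.card_le_mul_card_image
    intro c hc
    rw [Finset.mem_image] at hc
    obtain ⟨t0, ht0, rfl⟩ := hc
    apply Nat.le_floor
    have hm' : ∀ t ∈ T.filter (fun a => f a = f t0), t ∈ T ∧ f t = f t0 := by
      intro t h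
      rwa [Finset.mem_filter] at h
    have hcl : ∀ t ∈ T.filter (fun a => f a = f t0), ∀ t' ∈ T.filter (fun a => f a = f t0),
        f t = f t' := fun t h t' h' => (hm' t h).2.trans (hm' t' h').2.symm
    apply tf_class_card n z hz S hS (l1 := lab t0 (Q t0)) (l2 := lab t0 (R t0)) (hlab t0 ht0)
      (T.filter (fun a => f a = f t0)) Q R ?_ ?_
      (fun t h => hrd t (hm' t h).1) (fun t h => hzQ t (hm' t h).1) (fun t h => hzR t (hm' t h).1)
      (Nat.log 2 (Q t0)) (Nat.log 2 (R t0)) ?_ ?_ H hH1 (fun t h => hH t (hm' t h).1) m0 hm0 hm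
    · intro t h
      obtain ⟨hT', he⟩ := hm' t h
      simp only [hf, Prod.mk.injEq] at he
      obtain ⟨_, _, _, ⟨e1, e2⟩, _⟩ := he
      have hQS : Q t ∉ S := by
        rw [← hSe t hT']
        intro hmem
        exact (Finset.mem_erase.mp (Finset.mem_erase.mp hmem).2).1 rfl
      have hRS : R t ∉ S := by
        rw [← hSe t hT']
        exact Finset.notMem_erase _ _
      exact ⟨hI t hT', Nat.prime_of_mem_primeFactors (hQ t hT'),
        Nat.prime_of_mem_primeFactors (hR t hT'), hQS, hRS, hins t hT', e1, e2, hbig t hT'⟩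
    · intro t h t' h'
      have he := hcl t h t' h'
      simp only [hf, Prod.mk.injEq] at he
      obtain ⟨c1, c2, _, _, c3, c4⟩ := he
      have T1 := (hm' t h).1
      have T2 := (hm' t' h').1
      have hpt : ∀ p (_ : p ∈ S), lab t p = lab t' p ∧
          ⌊u t p * ((64 : ℕ) * S.card)⌋₊ = ⌊u t' p * ((64 : ℕ) * S.card)⌋₊ := by
        intro p hp
        have := congrFun (congrFun c1 p) hp
        exact Prod.ext_iff.mp this
      have hb : ⌊Real.log (ht t) / Real.log (1 + 1 / 16 / 4)⌋₊ =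
        ⌊Real.log (ht t') / Real.log (1 + 1 / 16 / 4)⌋₊ := (Prod.ext_iff.mp c2).2
      have ha : ⌊al t * (64 : ℕ)⌋₊ = ⌊al t' * (64 : ℕ)⌋₊ := (Prod.ext_iff.mp c2).1
      have hb1 := hbig t T1
      have hb2 := hbig t' T2
      have hr1 := ratio_of_floor_eq (by norm_num) (by linarith) (by linarith) hb
      have hr2 := ratio_of_floor_eq (by norm_num) (by linarith) (by linarith) hb.symm
      refine ⟨fun p hp => (hpt p hp).1, ?_, ?_, ?_, ?_, ?_, ?_⟩
      · rcases S.eq_empty_or_nonempty with hSe | hne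
        · rw [hSe]; simp
        · have hcard : (0 : ℝ) < S.card := by exact_mod_cast hne.card_pos
          calc ∑ p ∈ S, |u t p - u t' p| ≤ ∑ _p ∈ S, 1 / ((64 : ℕ) * (S.card : ℝ)) := by
                apply Finset.sum_le_sum
                intro p hp
                exact abs_sub_le_of_floor_eq (u_nonneg (hI t T1) p) (u_nonneg (hI t' T2) p)
                  (by positivity) (hpt p hp).2
            _ = 1 / 64 := by
                rw [Finset.sum_const, nsmul_eq_mul]
                field_simp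
                norm_num
      · have := abs_sub_le_of_floor_eq (u_nonneg (hI t T1) _) (u_nonneg (hI t' T2) _)
          (by norm_num) c3
        simpa using this
      · have := abs_sub_le_of_floor_eq (u_nonneg (hI t T1) _) (u_nonneg (hI t' T2) _)
          (by norm_num) c4
        simpa using this
      · have := abs_sub_le_of_floor_eq (al_nonneg (hI t T1)) (al_nonneg (hI t' T2))
          (by norm_num) ha
        simpa using this
      · linarith
      · linarith
    · intro t h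
      have he := (hm' t h).2
      simp only [hf, Prod.mk.injEq] at he
      exact he.2.2.1.1
    · intro t h
      have he := (hm' t h).2
      simp only [hf, Prod.mk.injEq] at he
      exact he.2.2.1.2
  have hSsub : ∀ t ∈ T, S ⊆ (N t).primeFactors := by
    intro t ht'
    rw [← hSe t ht']
    exact (Finset.erase_subset _ _).trans (Finset.erase_subset _ _)
  have hple : ∀ t ∈ T, ∀ p ∈ (N t).primeFactors, p ≤ n := by
    intro t h p hp
    refine le_trans ?_ (hrd t h)
    exact Nat.le_of_dvd (Finset.prod_pos (fun q hq => (Nat.prime_of_mem_primeFactors hq).pos))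
      (Finset.dvd_prod_of_mem (fun p => p) hp)
  have h2 : (T.image f) ⊆ C1 ×ˢ ((Finset.range 65 ×ˢ Finset.range (L + 1)) ×ˢ
      ((Finset.range (Nat.log 2 n + 1) ×ˢ Finset.range (Nat.log 2 n + 1)) ×ˢ
      (((Finset.univ : Finset (Fin 3)) ×ˢ (Finset.univ : Finset (Fin 3))) ×ˢ
      (Finset.range 65 ×ˢ Finset.range 65)))) := by
    intro c hc
    rw [Finset.mem_image] at hc
    obtain ⟨t, ht', rfl⟩ := hc
    have hh0 := ht_pos (hI t ht')
    simp only [Finset.mem_product, hf]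
    refine ⟨Finset.mem_image_of_mem _ ht', ⟨?_, ?_⟩, ⟨?_, ?_⟩, ⟨Finset.mem_univ _, Finset.mem_univ _⟩,
      ?_, ?_⟩
    · rw [Finset.mem_range]
      simp only [codeH]
      have ha := al_le_one (hI t ht')
      have : ⌊al t * (64 : ℕ)⌋₊ ≤ 64 := by
        apply Nat.floor_le_of_le
        push_cast
        linarith
      omega
    · rw [Finset.mem_range, Nat.lt_succ_iff]
      simp only [codeH]
      rw [hL]
      apply Nat.floor_le_floor
      rw [show (1 : ℝ) + 1 / 16 / 4 = 65 / 64 by norm_num]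
      apply div_le_div_of_nonneg_right _ hl65.le
      exact Real.log_le_log hh0 (hH t ht')
    · rw [Finset.mem_range, Nat.lt_succ_iff]
      exact Nat.log_mono_right (hple t ht' _ (hQ t ht'))
    · rw [Finset.mem_range, Nat.lt_succ_iff]
      exact Nat.log_mono_right (hple t ht' _ (hR t ht'))
    · rw [Finset.mem_range]
      have ha := hu1 t ht' _ (hQ t ht')
      have : ⌊u t (Q t) * (64 : ℕ)⌋₊ ≤ 64 := by
        apply Nat.floor_le_of_le
        push_cast
        linarith
      omega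
    · rw [Finset.mem_range]
      have ha := hu1 t ht' _ (hR t ht')
      have : ⌊u t (R t) * (64 : ℕ)⌋₊ ≤ 64 := by
        apply Nat.floor_le_of_le
        push_cast
        linarith
      omega
  have h3 : ((T.image f).card : ℝ) ≤ C1.card * ((65 * (L + 1)) *
      (((Nat.log 2 n + 1) * (Nat.log 2 n + 1)) * ((3 * 3) * (65 * 65)))) := by
    have := Finset.card_le_card h2
    simp only [Finset.card_product, Finset.card_range, Finset.card_univ, Fintype.card_fin] at this
    exact_mod_cast this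
  have h4 : (C1.card : ℝ) ≤ BconD 64 ^ S.card := by
    apply card_codesD_le
    intro c hc
    rw [hC1, Finset.mem_image] at hc
    obtain ⟨t, ht', rfl⟩ := hc
    simp only [codeD]
    rw [Finset.sum_attach S (fun p => ⌊u t p * ((64 : ℕ) * S.card)⌋₊)]
    have hu := sum_u_le (hI t ht') (hSsub t ht')
    have h5 : ((∑ p ∈ S, ⌊u t p * ((64 : ℕ) * S.card)⌋₊ : ℕ) : ℝ) ≤
        ((3 * 64 * S.card : ℕ) : ℝ) := by
      push_cast
      calc ∑ p ∈ S, (⌊u t p * (64 * S.card)⌋₊ : ℝ) ≤ ∑ p ∈ S, u t p * (64 * S.card) := by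
            apply Finset.sum_le_sum
            intro p _
            apply Nat.floor_le
            have := u_nonneg (hI t ht') p
            positivity
        _ = (∑ p ∈ S, u t p) * (64 * S.card) := by rw [Finset.sum_mul]
        _ ≤ 3 * (64 * S.card) := by gcongr
        _ ≤ _ := by linarith
    exact_mod_cast h5
  have hLle : (L : ℝ) ≤ Real.log H / Real.log (65 / 64) :=
    Nat.floor_le (div_nonneg (Real.log_nonneg hH1) hl65.le)
  have hBp : 0 ≤ BconD 64 ^ S.card := pow_nonneg (BconD_pos 64).le _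
  have h6 : (⌊B0⌋₊ : ℝ) ≤ B0 := Nat.floor_le hB00
  calc (T.card : ℝ) ≤ (⌊B0⌋₊ : ℝ) * (T.image f).card := by exact_mod_cast h1
    _ ≤ B0 * (C1.card * ((65 * (L + 1)) *
      (((Nat.log 2 n + 1) * (Nat.log 2 n + 1)) * ((3 * 3) * (65 * 65))))) := by gcongr
    _ ≤ B0 * (BconD 64 ^ S.card * ((65 * (Real.log H / Real.log (65 / 64) + 1)) *
      (((Nat.log 2 n + 1) * (Nat.log 2 n + 1)) * ((3 * 3) * (65 * 65))))) := by gcongr
    _ = _ := by ring

end Pool.Agent.Lib.Pabc1
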