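import Mathlib
import Pool.Agent.Lib.Pabc1.TFCount

open Finset Filter Topology

namespace Pool.Agent.Lib.Pabc1

open Pool.Agent.Lib.Pabc2

theorem BconD_one_le (K : ℕ) : 1 ≤ BconD K := by
  unfold BconD
  have : (1 : ℝ) ≤ 2 ^ (3 * K) := one_le_pow₀ (by norm_num)
  linarith

theorem tf_real_ineq (M1 b16 b64 nz P LH l2 K1 K2 x : ℝ) (hM0 : 0 ≤ M1) (h16 : 0 ≤ b16)
    (h64 : 0 ≤ b64) (hnz : 0 ≤ nz) (hP : 0 < P) (hLH : 0 ≤ LH) (hl0 : 0 ≤ l2) (hK1 : 0 ≤ K1)
    (hK2 : 0 ≤ K2) (hx : 0 ≤ x) (hM1 : M1 ≤ K1 * x) (hLx : 65 * LH ≤ K2 * x) (hl2 : l2 ≤ 3 * x) :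
    (8 * (M1 * b16) * nz / P) * (b64 * (65 * LH) * (l2 * l2) * 9 * (65 * 65)) ≤
      ((8 * K1 * K2 * 9 * 9 * (65 * 65)) * x ^ 4 * nz) * (b16 * b64 / P) := by
  have hW0 : 0 ≤ nz * (b16 * b64 / P) := by positivity
  calc (8 * (M1 * b16) * nz / P) * (b64 * (65 * LH) * (l2 * l2) * 9 * (65 * 65))
      = (8 * M1 * (65 * LH) * (l2 * l2) * 9 * (65 * 65)) * (nz * (b16 * b64 / P)) := by ring
    _ ≤ (8 * (K1 * x) * (K2 * x) * ((3 * x) * (3 * x)) * 9 * (65 * 65)) *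
        (nz * (b16 * b64 / P)) := by gcongr
    _ = _ := by ring

theorem tf_fibre (n : ℕ) (hn : 1 ≤ n) (z : ℝ) (hz : 1 ≤ z) (S : Finset ℕ) (hSp : ∀ p ∈ S, p.Prime)
    (T : Finset (ℕ × ℕ)) (Q R : ℕ × ℕ → ℕ) (hI : ∀ t ∈ T, IsT t)
    (hQ : ∀ t ∈ T, Q t ∈ (N t).primeFactors) (hR : ∀ t ∈ T, R t ∈ (N t).primeFactors)
    (hlab : ∀ t ∈ T, lab t (Q t) ≠ lab t (R t))
    (hSe : ∀ t ∈ T, ((N t).primeFactors.erase (Q t)).erase (R t) = S)
    (hbig : ∀ t ∈ T, 100 ≤ ht t)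
    (hrd : ∀ t ∈ T, rd t ≤ n) (hzQ : ∀ t ∈ T, z ≤ Q t) (hzR : ∀ t ∈ T, z ≤ R t)
    (H : ℝ) (hH1 : 1 ≤ H) (hH : ∀ t ∈ T, ht t ≤ H) (K1 K2 x : ℝ) (hK1 : 0 ≤ K1) (hK2 : 0 ≤ K2)
    (hx : 0 ≤ x) (hM1 : 256 + 4 * (17 * (Real.log (3 * H) / Real.log (65 / 64) + 1)) ≤ K1 * x)
    (hLx : 65 * (Real.log H / Real.log (65 / 64) + 1) ≤ K2 * x)
    (hl2 : (Nat.log 2 n : ℝ) + 1 ≤ 3 * x) :
    (T.card : ℝ) ≤ ((8 * K1 * K2 * 9 * 9 * (65 * 65)) * x ^ 4 * (n / Real.sqrt z)) *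
      ∏ p ∈ S, (BconD 16 * BconD 64 * (1 / (p : ℝ))) := by
  have hl65 : 0 < Real.log (65 / 64 : ℝ) := Real.log_pos (by norm_num)
  have hprod0 : (0 : ℝ) < ((∏ p ∈ S, p : ℕ) : ℝ) := by
    exact_mod_cast Finset.prod_pos (fun p hp => (hSp p hp).pos)
  have hB16 : 1 ≤ BconD 16 ^ S.card := one_le_pow₀ (BconD_one_le 16)
  have hB64 : 1 ≤ BconD 64 ^ S.card := one_le_pow₀ (BconD_one_le 64)
  have hL3 : 0 ≤ Real.log (3 * H) / Real.log (65 / 64) :=
    div_nonneg (Real.log_nonneg (by linarith)) hl65.le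
  have hL1 : 0 ≤ Real.log H / Real.log (65 / 64) :=
    div_nonneg (Real.log_nonneg hH1) hl65.le
  obtain ⟨M1, hM1d⟩ : ∃ M1 : ℝ, M1 = 256 + 4 * (17 * (Real.log (3 * H) / Real.log (65 / 64) + 1)) :=
    ⟨_, rfl⟩
  obtain ⟨b16, hb16⟩ : ∃ b : ℝ, b = BconD 16 ^ S.card := ⟨_, rfl⟩
  obtain ⟨b64, hb64⟩ : ∃ b : ℝ, b = BconD 64 ^ S.card := ⟨_, rfl⟩
  have hM11 : 1 ≤ M1 := by rw [hM1d]; linarith
  have key := tf_fibre_card n hn z hz S T Q R hI hQ hR hlab hSe hbig hrd hzQ hzR H hH1 hH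
    (M1 * BconD 16 ^ S.card) (by
      rw [← hb16] at hB16 ⊢
      nlinarith) (by
      rw [← hb16] at hB16 ⊢
      rw [hM1d]
      nlinarith)
  have e1 : ∏ p ∈ S, (BconD 16 * BconD 64 * (1 / (p : ℝ))) =
      b16 * b64 / ((∏ p ∈ S, p : ℕ) : ℝ) := by
    rw [Finset.prod_mul_distrib, Finset.prod_const, Finset.prod_div_distrib, Finset.prod_const_one,
      mul_pow, hb16, hb64]
    push_cast
    exact (mul_one_div _ _)
  rw [e1]
  rw [← hb16, ← hb64] at key
  rw [← hb16] at hB16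
  rw [← hb64] at hB64
  refine key.trans ?_
  apply tf_real_ineq M1 b16 b64 (n / Real.sqrt z) _ (Real.log H / Real.log (65 / 64) + 1)
    ((Nat.log 2 n : ℝ) + 1) K1 K2 x
  · linarith
  · linarith
  · linarith
  · positivity
  · exact hprod0
  · linarith
  · positivity
  · exact hK1
  · exact hK2
  · exact hx
  · rw [hM1d]; exact hM1
  · exact hLx
  · exact hl2

/-- Triples with two primes at least `z` in different components. -/
theorem count_two_free (A : ℝ) (hA : 0 ≤ A) :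
    ∃ C : ℝ, ∀ᶠ n : ℕ in atTop, ∀ z : ℝ, 1 ≤ z → ∀ T : Finset (ℕ × ℕ),
      (∀ t ∈ T, IsT t ∧ rd t ≤ n ∧ ht t ≤ (n : ℝ) ^ A ∧
        ∃ Q ∈ (N t).primeFactors, ∃ R ∈ (N t).primeFactors, lab t Q ≠ lab t R ∧
          z ≤ Q ∧ z ≤ R) →
      2 * (T.card : ℝ) ≤ (n : ℝ) / Real.sqrt z * Real.log n ^ C := by
  classical
  set B := BconD 16 * BconD 64 with hB
  have hB0 : 0 < B := mul_pos (BconD_pos 16) (BconD_pos 64)
  have hl65 : 0 < Real.log (65 / 64 : ℝ) := Real.log_pos (by norm_num)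
  set C0 : ℝ := (((⌊Real.exp 100⌋₊ + 1) * (⌊Real.exp 100⌋₊ + 1) : ℕ) : ℝ) with hC0
  have hC00 : 0 ≤ C0 := Nat.cast_nonneg _
  set lam : ℝ := Real.log (65 / 64) with hlam
  set K1 : ℝ := 256 + 4 * (17 * ((2 + A) / lam + 1)) with hK1
  set K2 : ℝ := 65 * (A / lam + 1) with hK2
  have hK10 : 0 ≤ K1 := by positivity
  have hK20 : 0 ≤ K2 := by positivity
  set K3 : ℝ := 8 * K1 * K2 * 9 * 9 * (65 * 65) with hK3
  have hK30 : 0 ≤ K3 := by positivity
  refine ⟨7 + 27 * B, ?_⟩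
  have hlim : Tendsto (fun n : ℕ => Real.log (n : ℝ)) atTop atTop :=
    Real.tendsto_log_atTop.comp tendsto_natCast_atTop_atTop
  filter_upwards [hlim.eventually (eventually_ge_atTop 4),
    hlim.eventually (eventually_ge_atTop C0),
    hlim.eventually (eventually_ge_atTop K3), eventually_ge_atTop 1] with
    n h4 hnC0 hnK hn1 z hz T hT
  set x := Real.log (n : ℝ) with hx
  have hx0 : 0 < x := by linarith
  have hx1 : 1 ≤ x := by linarith
  have hn0 : (0 : ℝ) < n := by exact_mod_cast hn1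
  have hn1' : (1 : ℝ) ≤ n := by exact_mod_cast hn1
  have hz0 : 0 < z := by linarith
  have hsz : 0 < Real.sqrt z := Real.sqrt_pos.mpr hz0
  rcases T.eq_empty_or_nonempty with hTe | ⟨τ0, hτ0⟩
  · rw [hTe]
    simp only [Finset.card_empty, Nat.cast_zero, mul_zero]
    positivity
  have hple : ∀ t ∈ T, ∀ p ∈ (N t).primeFactors, p ≤ n := by
    intro t h p hp
    refine le_trans ?_ (hT t h).2.1
    exact Nat.le_of_dvd (Finset.prod_pos (fun q hq => (Nat.prime_of_mem_primeFactors hq).pos))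
      (Finset.dvd_prod_of_mem (fun p => p) hp)
  have hzn : z ≤ n := by
    obtain ⟨_, _, _, q, hq, _, _, _, hzq, _⟩ := hT τ0 hτ0
    refine hzq.trans ?_
    exact_mod_cast hple τ0 hτ0 q hq
  have hszn : Real.sqrt z ≤ n := by
    have h3 : Real.sqrt z ≤ z := by
      rw [Real.sqrt_le_left hz0.le]
      nlinarith
    linarith
  have hnz : 1 ≤ (n : ℝ) / Real.sqrt z := (one_le_div hsz).mpr hszn
  set P := Nat.primesLE n with hP
  have hPp : ∀ p ∈ P, p.Prime := fun p hp => (Nat.mem_primesLE.mp hp).2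
  have hsubP : ∀ t ∈ T, (N t).primeFactors ⊆ P := by
    intro t htT p hp
    rw [hP, Nat.mem_primesLE]
    exact ⟨hple t htT p hp, Nat.prime_of_mem_primeFactors hp⟩
  set T0 := T.filter (fun t => ht t < 100) with hT0
  set T1 := T.filter (fun t => ¬ ht t < 100) with hT1
  have hcard : (T.card : ℝ) = T0.card + T1.card := by
    have e1 := Finset.card_filter_add_card_filter_not (s := T) (fun t => ht t < 100)
    rw [← e1]
    push_cast
    ring
  have b0 : (T0.card : ℝ) ≤ C0 := by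
    rw [hC0]
    exact_mod_cast card_lowD 100 T0 (fun t h => by
      rw [hT0, Finset.mem_filter] at h
      exact ⟨(hT t h.1).1, h.2⟩)
  have hm : ∀ t ∈ T1, t ∈ T ∧ 100 ≤ ht t := by
    intro t h
    rw [hT1, Finset.mem_filter] at h
    exact ⟨h.1, not_lt.mp h.2⟩
  choose! Q hQ hrest using fun t (h : t ∈ T1) => (hT t (hm t h).1).2.2.2
  choose! R hR hlab hzQ hzR using hrest
  have hH1 : 1 ≤ (n : ℝ) ^ A := Real.one_le_rpow hn1' hA
  set H := (n : ℝ) ^ A with hH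
  have hlogH : Real.log H = A * x := Real.log_rpow hn0 A
  have hlog3H : Real.log (3 * H) ≤ (2 + A) * x := by
    rw [Real.log_mul (by norm_num) (by positivity), hlogH]
    have h3 : Real.log 3 ≤ 2 := by
      have : Real.log 3 ≤ Real.log 4 := Real.log_le_log (by norm_num) (by norm_num)
      have h4 : Real.log 4 = 2 * Real.log 2 := by
        rw [show (4 : ℝ) = 2 ^ 2 by norm_num, Real.log_pow]; norm_num
      have := Real.log_two_lt_d9
      linarith
    nlinarith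
  set M1 : ℝ := 256 + 4 * (17 * (Real.log (3 * H) / lam + 1)) with hM1
  have hlog3H0 : 0 ≤ Real.log (3 * H) := Real.log_nonneg (by linarith)
  have hM1le : M1 ≤ K1 * x := by
    rw [hM1, hK1]
    have h5 : Real.log (3 * H) / lam ≤ (2 + A) / lam * x := by
      rw [div_mul_eq_mul_div]
      exact div_le_div_of_nonneg_right hlog3H hl65.le
    have h6 : 256 + 4 * (17 * ((2 + A) / lam * x + 1)) ≤ (256 + 4 * (17 * ((2 + A) / lam + 1))) * x := by
      nlinarith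
    linarith
  have hK2le : 65 * (Real.log H / lam + 1) ≤ K2 * x := by
    rw [hlogH, hK2]
    have : A * x / lam = A / lam * x := by ring
    rw [this]
    nlinarith
  have hlog2n : (Nat.log 2 n : ℝ) + 1 ≤ 3 * x := by
    have h5 : 2 ^ Nat.log 2 n ≤ n := Nat.pow_log_le_self 2 (by omega)
    have h6 : Real.log ((2 : ℝ) ^ Nat.log 2 n) ≤ x := by
      apply Real.log_le_log (by positivity)
      exact_mod_cast h5
    rw [Real.log_pow] at h6
    have h7 : 69 / 100 ≤ Real.log 2 := by linarith [Real.log_two_gt_d9]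
    have h8 : (0 : ℝ) ≤ Nat.log 2 n := Nat.cast_nonneg _
    nlinarith
  have hfib : ∀ S ∈ P.powerset,
      ((T1.filter (fun t => ((N t).primeFactors.erase (Q t)).erase (R t) = S)).card : ℝ) ≤
      (K3 * x ^ 4 * (n / Real.sqrt z)) * ∏ p ∈ S, (B * (1 / (p : ℝ))) := by
    intro S hS
    rw [Finset.mem_powerset] at hS
    have hSp : ∀ p ∈ S, p.Prime := fun p hp => hPp p (hS hp)
    have hmem : ∀ t ∈ T1.filter (fun t => ((N t).primeFactors.erase (Q t)).erase (R t) = S),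
        t ∈ T1 ∧ ((N t).primeFactors.erase (Q t)).erase (R t) = S := by
      intro t h
      rwa [Finset.mem_filter] at h
    exact tf_fibre n hn1 z hz S hSp _ Q R (fun t h => (hT t (hm t (hmem t h).1).1).1)
      (fun t h => hQ t (hmem t h).1) (fun t h => hR t (hmem t h).1)
      (fun t h => hlab t (hmem t h).1) (fun t h => (hmem t h).2)
      (fun t h => (hm t (hmem t h).1).2) (fun t h => (hT t (hm t (hmem t h).1).1).2.1)
      (fun t h => hzQ t (hmem t h).1) (fun t h => hzR t (hmem t h).1) H hH1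
      (fun t h => (hT t (hm t (hmem t h).1).1).2.2.1) K1 K2 x hK10 hK20 hx0.le hM1le hK2le hlog2n
  have b1 : (T1.card : ℝ) ≤ (K3 * x ^ 4 * (n / Real.sqrt z)) *
      ∑ S ∈ P.powerset, ∏ p ∈ S, (B * (1 / (p : ℝ))) := by
    rw [Finset.card_eq_sum_card_fiberwise
      (f := fun t => ((N t).primeFactors.erase (Q t)).erase (R t)) (t := P.powerset)
      (fun t ht => by
        rw [Finset.mem_coe, Finset.mem_powerset]
        exact ((Finset.erase_subset _ _).trans (Finset.erase_subset _ _)).trans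
          (hsubP t (hm t ht).1)), Finset.mul_sum]
    push_cast
    exact Finset.sum_le_sum hfib
  have b2 := sum_powerset_le_exp P (fun p => B * (1 / (p : ℝ))) (fun p _ => by positivity)
  rw [← Finset.mul_sum] at b2
  have hmert : Real.exp (B * ∑ p ∈ P, 1 / (p : ℝ)) ≤ x ^ (27 * B) := by
    calc Real.exp (B * ∑ p ∈ P, 1 / (p : ℝ)) ≤ Real.exp (B * (9 * (1 + Real.log (1 + x)))) :=
          Real.exp_le_exp.mpr (mul_le_mul_of_nonneg_left (mertens n) hB0.le)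
      _ ≤ Real.exp (Real.log x * (27 * B)) := by
          apply Real.exp_le_exp.mpr
          have h1 : 1 ≤ Real.log x := by
            rw [Real.le_log_iff_exp_le hx0]
            linarith [Real.exp_one_lt_d9]
          have h2 : Real.log (1 + x) ≤ 2 * Real.log x := by
            rw [← Real.log_rpow hx0]
            apply Real.log_le_log (by linarith)
            rw [show (2 : ℝ) = ((2 : ℕ) : ℝ) by norm_num, Real.rpow_natCast]
            nlinarith
          nlinarith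
      _ = x ^ (27 * B) := by rw [Real.rpow_def_of_pos hx0]
  have b3 : (T1.card : ℝ) ≤ n / Real.sqrt z * x ^ (5 + 27 * B) := by
    calc (T1.card : ℝ) ≤ (K3 * x ^ 4 * (n / Real.sqrt z)) * x ^ (27 * B) :=
          b1.trans (mul_le_mul_of_nonneg_left (b2.trans hmert) (by positivity))
      _ ≤ (x * x ^ 4 * (n / Real.sqrt z)) * x ^ (27 * B) := by gcongr
      _ = n / Real.sqrt z * (x ^ (5 : ℝ) * x ^ (27 * B)) := by
          rw [show (5 : ℝ) = ((5 : ℕ) : ℝ) by norm_num, Real.rpow_natCast]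
          ring
      _ = n / Real.sqrt z * x ^ (5 + 27 * B) := by rw [Real.rpow_add hx0]
  have hpow1 : 1 ≤ x ^ (5 + 27 * B) := Real.one_le_rpow hx1 (by positivity)
  have e3 : x ^ (6 + 27 * B) = x * x ^ (5 + 27 * B) := by
    rw [show (6 : ℝ) + 27 * B = 1 + (5 + 27 * B) by ring, Real.rpow_add hx0, Real.rpow_one]
  have e4 : x ^ (7 + 27 * B) = x * x ^ (6 + 27 * B) := by
    rw [show (7 : ℝ) + 27 * B = 1 + (6 + 27 * B) by ring, Real.rpow_add hx0, Real.rpow_one]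
  have b4 : (T.card : ℝ) ≤ 2 * (n / Real.sqrt z * x ^ (6 + 27 * B)) := by
    rw [hcard]
    have c1 : (T0.card : ℝ) ≤ n / Real.sqrt z * x ^ (6 + 27 * B) := by
      calc (T0.card : ℝ) ≤ C0 := b0
        _ ≤ x := hnC0
        _ = 1 * (x * 1) := by ring
        _ ≤ n / Real.sqrt z * (x * x ^ (5 + 27 * B)) := by gcongr
        _ = n / Real.sqrt z * x ^ (6 + 27 * B) := by rw [e3]
    have c2 : (T1.card : ℝ) ≤ n / Real.sqrt z * x ^ (6 + 27 * B) := by
      refine b3.trans ?_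
      have : x ^ (5 + 27 * B) ≤ x ^ (6 + 27 * B) :=
        Real.rpow_le_rpow_of_exponent_le hx1 (by linarith)
      gcongr
    linarith
  rw [e4]
  have c5 : 0 ≤ n / Real.sqrt z * x ^ (6 + 27 * B) := by positivity
  calc 2 * (T.card : ℝ) ≤ 4 * (n / Real.sqrt z * x ^ (6 + 27 * B)) := by linarith
    _ ≤ x * (n / Real.sqrt z * x ^ (6 + 27 * B)) := mul_le_mul_of_nonneg_right h4 c5
    _ = n / Real.sqrt z * (x * x ^ (6 + 27 * B)) := by ring

end Pool.Agent.Lib.Pabc1
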