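import Mathlib
import Pool.Agent.Lib.Pabc2.Final2
import Pool.Agent.Lib.Pabc1.TFSum

open Finset Filter Topology

namespace Pool.Agent.Lib.Pabc1

open Pool.Agent.Lib.Pabc2

theorem exists_mid_aux (w : ℝ) (hw : 1 ≤ w) : ∀ P : Finset ℕ, (∀ p ∈ P, 1 ≤ p ∧ (p : ℝ) ≤ w) →
    w ≤ ∏ p ∈ P, (p : ℝ) → ∃ Q ⊆ P, w ≤ ∏ p ∈ Q, (p : ℝ) ∧ ∏ p ∈ Q, (p : ℝ) ≤ w ^ 2 := by
  classical
  intro P
  induction P using Finset.induction_on with
  | empty =>
    intro _ h
    refine ⟨∅, Finset.Subset.refl _, h, ?_⟩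
    simp only [Finset.prod_empty]
    nlinarith
  | insert a P ha ih =>
    intro hP h
    by_cases h2 : w ≤ ∏ p ∈ P, (p : ℝ)
    · obtain ⟨Q, hQ, h3, h4⟩ := ih (fun p hp => hP p (Finset.mem_insert_of_mem hp)) h2
      exact ⟨Q, hQ.trans (Finset.subset_insert _ _), h3, h4⟩
    · refine ⟨insert a P, Finset.Subset.refl _, h, ?_⟩
      rw [Finset.prod_insert ha]
      push Not at h2
      have h3 := (hP a (Finset.mem_insert_self _ _)).2
      have h4 : (0 : ℝ) ≤ ∏ p ∈ P, (p : ℝ) := Finset.prod_nonneg (fun _ _ => Nat.cast_nonneg _)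
      calc (a : ℝ) * ∏ p ∈ P, (p : ℝ) ≤ w * w := by
            apply mul_le_mul h3 h2.le h4 (by linarith)
        _ = w ^ 2 := by ring

theorem exists_mid (w : ℝ) (hw : 1 ≤ w) (P : Finset ℕ) (hP : ∀ p ∈ P, 1 ≤ p ∧ (p : ℝ) ≤ w ^ 2)
    (h : w ≤ ∏ p ∈ P, (p : ℝ)) :
    ∃ Q ⊆ P, w ≤ ∏ p ∈ Q, (p : ℝ) ∧ ∏ p ∈ Q, (p : ℝ) ≤ w ^ 2 := by
  classical
  by_cases hex : ∃ p ∈ P, w ≤ (p : ℝ)
  · obtain ⟨p, hp, hwp⟩ := hex
    refine ⟨{p}, Finset.singleton_subset_iff.mpr hp, ?_, ?_⟩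
    · rw [Finset.prod_singleton]; exact hwp
    · rw [Finset.prod_singleton]; exact (hP p hp).2
  · push Not at hex
    exact exists_mid_aux w hw P (fun p hp => ⟨(hP p hp).1, (hex p hp).le⟩) h

/-- A large set of small primes has a light subset of product at least `w`. -/
theorem greedy (w : ℝ) (hw : 1 ≤ w) (v : ℕ → ℝ) : ∀ k : ℕ, ∀ P : Finset ℕ,
    (∀ p ∈ P, 1 ≤ p ∧ (p : ℝ) ≤ w ^ 2) → w * (w ^ 2) ^ k ≤ ∏ p ∈ P, (p : ℝ) →
    ∃ Q ⊆ P, w ≤ ∏ p ∈ Q, (p : ℝ) ∧ ((k : ℝ) + 1) * ∑ p ∈ Q, v p ≤ ∑ p ∈ P, v p := by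
  classical
  intro k
  induction k with
  | zero =>
    intro P _ h
    refine ⟨P, Finset.Subset.refl _, by simpa using h, by simp⟩
  | succ k ih =>
    intro P hP h
    have hw2 : 1 ≤ w ^ 2 := one_le_pow₀ hw
    have hwP : w ≤ ∏ p ∈ P, (p : ℝ) := by
      refine le_trans ?_ h
      have : 1 ≤ (w ^ 2) ^ (k + 1) := one_le_pow₀ hw2
      nlinarith
    obtain ⟨Q1, hQ1, h1, h2⟩ := exists_mid w hw P hP hwP
    have hsplit : (∏ p ∈ P \ Q1, (p : ℝ)) * ∏ p ∈ Q1, (p : ℝ) = ∏ p ∈ P, (p : ℝ) :=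
      Finset.prod_sdiff hQ1
    have hsplitv : (∑ p ∈ P \ Q1, v p) + ∑ p ∈ Q1, v p = ∑ p ∈ P, v p := Finset.sum_sdiff hQ1
    have hQ1pos : 0 < ∏ p ∈ Q1, (p : ℝ) := by linarith
    have hrest : w * (w ^ 2) ^ k ≤ ∏ p ∈ P \ Q1, (p : ℝ) := by
      have h3 : 0 ≤ ∏ p ∈ P \ Q1, (p : ℝ) := Finset.prod_nonneg (fun _ _ => Nat.cast_nonneg _)
      have h4 : w * (w ^ 2) ^ k * w ^ 2 ≤ (∏ p ∈ P \ Q1, (p : ℝ)) * w ^ 2 := by
        calc w * (w ^ 2) ^ k * w ^ 2 = w * (w ^ 2) ^ (k + 1) := by ring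
          _ ≤ ∏ p ∈ P, (p : ℝ) := h
          _ = (∏ p ∈ P \ Q1, (p : ℝ)) * ∏ p ∈ Q1, (p : ℝ) := hsplit.symm
          _ ≤ (∏ p ∈ P \ Q1, (p : ℝ)) * w ^ 2 := mul_le_mul_of_nonneg_left h2 h3
      exact le_of_mul_le_mul_right h4 (by positivity)
    obtain ⟨Q, hQ, h5, h6⟩ := ih (P \ Q1) (fun p hp => hP p (Finset.sdiff_subset hp)) hrest
    by_cases hc : ((k : ℝ) + 2) * ∑ p ∈ Q1, v p ≤ ∑ p ∈ P, v p
    · refine ⟨Q1, hQ1, h1, ?_⟩
      push_cast
      linarith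
    · refine ⟨Q, hQ.trans Finset.sdiff_subset, h5, ?_⟩
      push Not at hc
      push_cast
      have hk : (0 : ℝ) ≤ k := Nat.cast_nonneg k
      -- (k+2) (k+1) ΣQ ≤ (k+2) Σ(P\Q1) = (k+2)(ΣP - ΣQ1) < (k+1) ΣP
      have h7 : ((k : ℝ) + 1) * (((k : ℝ) + 1 + 1) * ∑ p ∈ Q, v p) ≤ ((k : ℝ) + 1) * ∑ p ∈ P, v p := by
        nlinarith
      exact le_of_mul_le_mul_left h7 (by positivity)

/-- The structure of the remaining triples. -/
theorem cover (n : ℕ) (κ : ℝ) (hκ : 0 < κ) (hκ8 : 8 * κ ≤ 1) (K : ℝ) (hK : 0 < K)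
    (hn : 100 ≤ Real.log n)
    (hnK : 40 * (K + 1) < Real.log n) (t : ℕ × ℕ) (hI : IsT t) (hrd : rd t ≤ n)
    (h1 : (n : ℝ) ^ (1 - κ) < rd t) (h2 : Real.log n ^ (3 : ℝ) < ht t)
    (h3 : ¬ ∃ Q ⊆ (N t).primeFactors, (n : ℝ) ^ κ ≤ ((∏ p ∈ Q, p : ℕ) : ℝ) ∧
      ∑ p ∈ Q, u t p ≤ 1 - 1 / 4)
    (h4 : ¬ ∃ Q ∈ (N t).primeFactors, ∃ R ∈ (N t).primeFactors, lab t Q ≠ lab t R ∧
      (n : ℝ) ^ (2 * κ) ≤ Q ∧ (n : ℝ) ^ (2 * κ) ≤ R) :
    ∃ R ∈ (N t).primeFactors,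
      ((∏ p ∈ (N t).primeFactors.erase R, p : ℕ) : ℝ) ≤ (n : ℝ) ^ (5 * κ) ∧
      20 * ⌈K * Real.log n⌉₊ ≤ ex t R := by
  classical
  have hx0 : 0 < Real.log n := by linarith
  have hn0 : (0 : ℝ) < n := by
    rcases Nat.eq_zero_or_pos n with h | h
    · rw [h] at hx0; simp at hx0
    · exact_mod_cast h
  have hn1 : (1 : ℝ) ≤ n := by
    by_contra hcon
    push Not at hcon
    have := Real.log_nonpos hn0.le hcon.le
    linarith
  push Not at h3 h4
  set w : ℝ := (n : ℝ) ^ κ with hw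
  have hw1 : 1 ≤ w := Real.one_le_rpow hn1 hκ.le
  have hw0 : 0 < w := by linarith
  have hw2 : w ^ 2 = (n : ℝ) ^ (2 * κ) := by
    rw [hw, ← Real.rpow_natCast, ← Real.rpow_mul hn0.le]
    congr 1
    push_cast
    ring
  have hwk : ∀ k : ℕ, w * (w ^ 2) ^ k = (n : ℝ) ^ ((2 * k + 1) * κ) := by
    intro k
    rw [hw, ← pow_mul, ← pow_succ', ← Real.rpow_natCast, ← Real.rpow_mul hn0.le]
    congr 1
    push_cast
    ring
  have hH := ht_pos hI
  have hprime : ∀ p ∈ (N t).primeFactors, p.Prime := fun p hp => Nat.prime_of_mem_primeFactors hp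
  have hsum3 := sum_u_le_three hI
  have h3' : ∀ Q ⊆ (N t).primeFactors, w ≤ ∏ p ∈ Q, (p : ℝ) → 3 / 4 < ∑ p ∈ Q, u t p := by
    intro Q hQ hwQ
    have := h3 Q hQ (by push_cast; exact hwQ)
    linarith
  set big : Finset ℕ := (N t).primeFactors.filter (fun p : ℕ => w ^ 2 ≤ (p : ℝ)) with hbig
  have hsmall : ∀ p ∈ (N t).primeFactors, p ∉ big → 1 ≤ p ∧ (p : ℝ) ≤ w ^ 2 := by
    intro p hp hpb
    refine ⟨(hprime p hp).one_lt.le, ?_⟩
    by_contra hcon
    push Not at hcon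
    exact hpb (Finset.mem_filter.mpr ⟨hp, hcon.le⟩)
  have hubig : ∀ p ∈ big, 3 / 4 < u t p := by
    intro p hp
    have hp' := (Finset.mem_filter.mp hp)
    have := h3' {p} (Finset.singleton_subset_iff.mpr hp'.1) (by
      rw [Finset.prod_singleton]
      refine le_trans ?_ hp'.2
      nlinarith)
    rwa [Finset.sum_singleton] at this
  have hbig1 : ∀ p ∈ big, ∀ q ∈ big, p = q := by
    intro p hp q hq
    by_contra hne
    have hp' := (Finset.mem_filter.mp hp)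
    have hq' := (Finset.mem_filter.mp hq)
    have hlab : lab t p = lab t q := by
      by_contra hl
      have := h4 p hp'.1 q hq'.1 hl (by rw [← hw2]; exact hp'.2)
      rw [← hw2] at this
      linarith [hq'.2]
    have hup := hubig p hp
    have huq := hubig q hq
    have hlog := log_comp_eq hI (lab t p)
    have hle := log_comp_le hI (lab t p)
    have hsub : ({p, q} : Finset ℕ) ⊆ (N t).primeFactors.filter (fun r => lab t r = lab t p) := by
      intro r hr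
      rw [Finset.mem_insert, Finset.mem_singleton] at hr
      rcases hr with rfl | rfl
      · exact Finset.mem_filter.mpr ⟨hp'.1, rfl⟩
      · exact Finset.mem_filter.mpr ⟨hq'.1, hlab.symm⟩
    have h5 : ∑ r ∈ ({p, q} : Finset ℕ), (ex t r : ℝ) * Real.log r ≤
        ∑ r ∈ (N t).primeFactors.filter (fun r => lab t r = lab t p), (ex t r : ℝ) * Real.log r :=
      Finset.sum_le_sum_of_subset_of_nonneg hsub (fun r _ _ =>
        mul_nonneg (Nat.cast_nonneg _) (Real.log_natCast_nonneg r))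
    rw [Finset.sum_pair hne, ← hlog] at h5
    have e1 : (ex t p : ℝ) * Real.log p = u t p * ht t := by unfold u; field_simp
    have e2 : (ex t q : ℝ) * Real.log q = u t q * ht t := by unfold u; field_simp
    rw [e1, e2] at h5
    nlinarith
  have hrdR : (rd t : ℝ) = ∏ p ∈ (N t).primeFactors, (p : ℝ) := by
    unfold rd
    push_cast
    rfl
  rcases big.eq_empty_or_nonempty with hbe | ⟨R, hRb⟩
  · -- no big prime
    exfalso
    have hall : ∀ p ∈ (N t).primeFactors, 1 ≤ p ∧ (p : ℝ) ≤ w ^ 2 := by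
      intro p hp
      exact hsmall p hp (by rw [hbe]; exact Finset.notMem_empty _)
    obtain ⟨Q, hQ, h5, h6⟩ := greedy w hw1 (u t) 3 (N t).primeFactors hall (by
      rw [hwk 3, ← hrdR]
      refine le_trans ?_ h1.le
      apply Real.rpow_le_rpow_of_exponent_le hn1
      push_cast
      linarith)
    have h7 := h3' Q hQ h5
    push_cast at h6
    linarith
  · have hR := (Finset.mem_filter.mp hRb).1
    have huR := hubig R hRb
    have hRprime := hprime R hR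
    have hR0 : (0 : ℝ) < R := by exact_mod_cast hRprime.pos
    refine ⟨R, hR, ?_, ?_⟩
    · -- the other primes
      have hallsmall : ∀ p ∈ (N t).primeFactors.erase R, 1 ≤ p ∧ (p : ℝ) ≤ w ^ 2 := by
        intro p hp
        rw [Finset.mem_erase] at hp
        apply hsmall p hp.2
        intro hpb
        exact hp.1 (hbig1 p hpb R hRb)
      have hsumsmall : ∑ p ∈ (N t).primeFactors.erase R, u t p ≤ 9 / 4 := by
        have := Finset.add_sum_erase _ (u t) hR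
        linarith
      have hprodsmall : ∏ p ∈ (N t).primeFactors.erase R, (p : ℝ) < (n : ℝ) ^ (5 * κ) := by
        by_contra hcon
        push Not at hcon
        obtain ⟨Q, hQ, h5, h6⟩ := greedy w hw1 (u t) 2 ((N t).primeFactors.erase R) hallsmall (by
          rw [hwk 2]
          refine le_trans (le_of_eq ?_) hcon
          congr 1
          push_cast
          ring)
        have h7 := h3' Q (hQ.trans (Finset.erase_subset _ _)) h5
        push_cast at h6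
        linarith
      push_cast
      exact hprodsmall.le
    · -- exponent of R
      by_contra hcon
      push Not at hcon
      have hRn : (R : ℝ) ≤ n := by
        have h5 : R ∣ rd t := Finset.dvd_prod_of_mem (fun p => p) hR
        have h6 : 0 < rd t := Finset.prod_pos (fun q hq => (hprime q hq).pos)
        exact_mod_cast (Nat.le_of_dvd h6 h5).trans hrd
      have hlogR : Real.log R ≤ Real.log n := Real.log_le_log hR0 hRn
      have hlogR0 : 0 ≤ Real.log (R : ℝ) := Real.log_natCast_nonneg R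
      have e1 : (ex t R : ℝ) * Real.log R = u t R * ht t := by unfold u; field_simp
      set x := Real.log (n : ℝ) with hx
      have hceil : (⌈K * x⌉₊ : ℝ) ≤ K * x + 1 := (Nat.ceil_lt_add_one (by positivity)).le
      have hex : (ex t R : ℝ) ≤ 20 * (K * x + 1) := by
        have h5 : (ex t R : ℝ) ≤ ((20 * ⌈K * x⌉₊ : ℕ) : ℝ) := by exact_mod_cast hcon.le
        push_cast at h5
        linarith
      have h6 : (ex t R : ℝ) * Real.log R ≤ 20 * (K * x + 1) * x :=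
        mul_le_mul hex hlogR hlogR0 (by positivity)
      have h7 : x ^ (3 : ℝ) = x * x * x := by
        rw [show (3 : ℝ) = ((3 : ℕ) : ℝ) by norm_num, Real.rpow_natCast]
        ring
      rw [h7] at h2
      rw [e1] at h6
      have h8 : 3 / 4 * (x * x * x) < 20 * (K * x + 1) * x := by
        have : 3 / 4 * (x * x * x) < u t R * ht t := by
          have h9 : 0 < x * x * x := by positivity
          nlinarith
        linarith
      have h9 : 3 / 4 * (x * x) < 20 * (K * x + 1) := by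
        have : 3 / 4 * (x * x) * x < 20 * (K * x + 1) * x := by linarith
        exact lt_of_mul_lt_mul_right this hx0.le
      nlinarith

/-- Main theorem: power saving for all heights below `exp (n ^ θ)`, `θ < 1`. -/
theorem main_all (θ η : ℝ) (hθ0 : 0 ≤ θ) (hθ1 : θ < 1) (hη : 0 < η) :
    ∀ᶠ n : ℕ in atTop, ∀ T : Finset (ℕ × ℕ),
      (∀ t ∈ T, IsT t ∧ rd t ≤ n ∧ ht t ≤ (n : ℝ) ^ θ) →
      2 * (T.card : ℝ) ≤ (n : ℝ) ^ (1 - min (1 / 8) ((1 - θ) / 6) + η) := by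
  classical
  set κ : ℝ := min (1 / 8) ((1 - θ) / 6) with hκ
  have hκ0 : 0 < κ := lt_min (by norm_num) (by linarith)
  have hκ1 : κ ≤ 1 / 8 := min_le_left _ _
  have hκ6 : κ ≤ (1 - θ) / 6 := min_le_right _ _
  have hκ8 : 8 * κ ≤ 1 := by linarith
  obtain ⟨C1, hC1⟩ := count_light 1 2 (by norm_num) le_rfl (by norm_num)
  obtain ⟨C3, hC3⟩ := count_light (1 / 4) 1 (by norm_num) (by norm_num) (by norm_num)
  obtain ⟨C4, hC4⟩ := count_two_free 1 (by norm_num)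
  obtain ⟨K, hK, hC5⟩ := count_root θ (5 * κ) (η / 2) hθ0 (by positivity)
  have hq := main_quasi 3 (1 / 40) (by norm_num) (by norm_num)
  have hlim : Tendsto (fun n : ℕ => Real.log (n : ℝ)) atTop atTop :=
    Real.tendsto_log_atTop.comp tendsto_natCast_atTop_atTop
  have hfl : Tendsto (fun n : ℕ => ⌊(n : ℝ) ^ (1 - κ)⌋₊) atTop atTop :=
    tendsto_nat_floor_atTop.comp ((tendsto_rpow_atTop (by linarith)).comp
      tendsto_natCast_atTop_atTop)
  filter_upwards [hlim.eventually (eventually_ge_atTop 100),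
    hlim.eventually (eventually_gt_atTop (40 * (K + 1))),
    hfl.eventually hC1, hC3, hC4, hC5, hq,
    ev_log_pow_le 1 |C1| (η / 2) (by positivity), ev_log_pow_le 1 C3 (η / 2) (by positivity),
    ev_log_pow_le 1 C4 (η / 2) (by positivity), ev_log_pow_le 6 0 (η / 2) (by positivity),
    eventually_ge_atTop 1] with n hx100 hxK h1 h3 h4 h5 h2 e1 e3 e4 e6 hn1 T hT
  rw [one_mul] at e1 e3 e4
  rw [Real.rpow_zero, mul_one] at e6
  set x := Real.log (n : ℝ) with hx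
  have hx0 : 0 < x := by linarith
  have hn0 : (0 : ℝ) < n := by exact_mod_cast hn1
  have hn1' : (1 : ℝ) ≤ n := by exact_mod_cast hn1
  have hpos : ∀ a : ℝ, 0 < (n : ℝ) ^ a := fun a => Real.rpow_pos_of_pos hn0 a
  set E : ℝ := (n : ℝ) ^ (1 - κ) with hE
  have hE0 : 0 < E := hpos _
  set F : ℝ := (n : ℝ) ^ (η / 2) with hF
  have hF0 : 0 < F := hpos _
  -- the five classes
  set T1 := T.filter (fun t => (rd t : ℝ) ≤ E) with hT1
  set T2 := T.filter (fun t => ht t ≤ x ^ (3 : ℝ)) with hT2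
  set T3 := T.filter (fun t => ∃ Q ⊆ (N t).primeFactors, (n : ℝ) ^ κ ≤ ((∏ p ∈ Q, p : ℕ) : ℝ) ∧
      ∑ p ∈ Q, u t p ≤ 1 - 1 / 4) with hT3
  set T4 := T.filter (fun t => ∃ Q ∈ (N t).primeFactors, ∃ R ∈ (N t).primeFactors,
      lab t Q ≠ lab t R ∧ (n : ℝ) ^ (2 * κ) ≤ Q ∧ (n : ℝ) ^ (2 * κ) ≤ R) with hT4
  set T5 := T.filter (fun t => 100 ≤ ht t ∧ ∃ R ∈ (N t).primeFactors,
      ((∏ p ∈ (N t).primeFactors.erase R, p : ℕ) : ℝ) ≤ (n : ℝ) ^ (5 * κ) ∧
      20 * ⌈K * x⌉₊ ≤ ex t R) with hT5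
  have hcover : T ⊆ T1 ∪ (T2 ∪ (T3 ∪ (T4 ∪ T5))) := by
    intro t ht'
    obtain ⟨hI, hrd, hht⟩ := hT t ht'
    simp only [Finset.mem_union, hT1, hT2, hT3, hT4, hT5, Finset.mem_filter, ht', true_and]
    by_cases c1 : (rd t : ℝ) ≤ E
    · left; exact c1
    right
    by_cases c2 : ht t ≤ x ^ (3 : ℝ)
    · left; exact c2
    right
    by_cases c3 : ∃ Q ⊆ (N t).primeFactors, (n : ℝ) ^ κ ≤ ((∏ p ∈ Q, p : ℕ) : ℝ) ∧
      ∑ p ∈ Q, u t p ≤ 1 - 1 / 4
    · left; exact c3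
    right
    by_cases c4 : ∃ Q ∈ (N t).primeFactors, ∃ R ∈ (N t).primeFactors,
      lab t Q ≠ lab t R ∧ (n : ℝ) ^ (2 * κ) ≤ Q ∧ (n : ℝ) ^ (2 * κ) ≤ R
    · left; exact c4
    right
    push Not at c1 c2
    refine ⟨?_, cover n κ hκ0 hκ8 K hK hx100 hxK t hI hrd c1 c2 c3 c4⟩
    have h7 : x ^ (3 : ℝ) = x * x * x := by
      rw [show (3 : ℝ) = ((3 : ℕ) : ℝ) by norm_num, Real.rpow_natCast]
      ring
    rw [h7] at c2
    nlinarith
  have hcard : (T.card : ℝ) ≤ T1.card + (T2.card + (T3.card + (T4.card + T5.card))) := by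
    have a1 := Finset.card_le_card hcover
    have a2 := Finset.card_union_le T1 (T2 ∪ (T3 ∪ (T4 ∪ T5)))
    have a3 := Finset.card_union_le T2 (T3 ∪ (T4 ∪ T5))
    have a4 := Finset.card_union_le T3 (T4 ∪ T5)
    have a5 := Finset.card_union_le T4 T5
    exact_mod_cast (by omega : T.card ≤ T1.card + (T2.card + (T3.card + (T4.card + T5.card))))
  have hmem1 : ∀ t ∈ T1, t ∈ T ∧ (rd t : ℝ) ≤ E := fun t h => Finset.mem_filter.mp h
  have hmem2 : ∀ t ∈ T2, t ∈ T ∧ ht t ≤ x ^ (3 : ℝ) := fun t h => Finset.mem_filter.mp h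
  have hmem3 := fun t (h : t ∈ T3) => Finset.mem_filter.mp h
  have hmem4 := fun t (h : t ∈ T4) => Finset.mem_filter.mp h
  have hmem5 := fun t (h : t ∈ T5) => Finset.mem_filter.mp h
  have hθn : (n : ℝ) ^ θ ≤ (n : ℝ) ^ (1 : ℝ) :=
    Real.rpow_le_rpow_of_exponent_le hn1' hθ1.le
  -- class 1
  have b1 : 2 * (T1.card : ℝ) ≤ E * F := by
    set m := ⌊E⌋₊ with hm
    have hEbig : (n : ℝ) ^ (3 / 4 : ℝ) ≤ E := by
      rw [hE]
      apply Real.rpow_le_rpow_of_exponent_le hn1'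
      linarith
    have hn4 : (2 : ℝ) ≤ (n : ℝ) ^ (1 / 8 : ℝ) := by
      rw [← Real.log_le_log_iff (by norm_num) (hpos _), Real.log_rpow hn0]
      have := Real.log_two_lt_d9
      linarith
    have hE1 : 1 ≤ E := Real.one_le_rpow hn1' (by linarith)
    have hmE : E ≤ 2 * m := by
      have := Nat.lt_floor_add_one E
      have h7 : 1 ≤ m := by rw [hm]; exact Nat.le_floor (by push_cast; exact hE1)
      have h8 : (1 : ℝ) ≤ m := by exact_mod_cast h7
      linarith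
    have hm0 : (0 : ℝ) < m := by linarith
    have hmle : (m : ℝ) ≤ E := Nat.floor_le hE0.le
    have hnm : (n : ℝ) ^ θ ≤ (m : ℝ) ^ (2 : ℝ) := by
      rw [show (2 : ℝ) = ((2 : ℕ) : ℝ) by norm_num, Real.rpow_natCast]
      have h7 : (n : ℝ) ^ (5 / 8 : ℝ) ≤ m := by
        have h8 : (n : ℝ) ^ (3 / 4 : ℝ) = (n : ℝ) ^ (5 / 8 : ℝ) * (n : ℝ) ^ (1 / 8 : ℝ) := by
          rw [← Real.rpow_add hn0]; norm_num
        have h9 : (n : ℝ) ^ (5 / 8 : ℝ) * 2 ≤ (n : ℝ) ^ (3 / 4 : ℝ) := by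
          rw [h8]
          exact mul_le_mul_of_nonneg_left hn4 (hpos _).le
        linarith
      calc (n : ℝ) ^ θ ≤ (n : ℝ) ^ (5 / 4 : ℝ) := Real.rpow_le_rpow_of_exponent_le hn1' (by linarith)
        _ = (n : ℝ) ^ (5 / 8 : ℝ) * (n : ℝ) ^ (5 / 8 : ℝ) := by
            rw [← Real.rpow_add hn0]; norm_num
        _ ≤ (m : ℝ) * m := by
            have := (hpos (5 / 8 : ℝ)).le
            gcongr
        _ = (m : ℝ) ^ 2 := by ring
    have key := h1 1 le_rfl T1 (by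
      intro t ht'
      obtain ⟨hmT, hle⟩ := hmem1 t ht'
      obtain ⟨hI, hrd, hht⟩ := hT t hmT
      refine ⟨hI, Nat.le_floor hle, hht.trans hnm, ∅, Finset.empty_subset _, ?_, ?_⟩
      · simp
      · simp)
    rw [div_one] at key
    refine key.trans ?_
    have hlogm : Real.log (m : ℝ) ≤ x := by
      apply Real.log_le_log hm0
      refine hmle.trans ?_
      rw [hE]
      calc (n : ℝ) ^ (1 - κ) ≤ (n : ℝ) ^ (1 : ℝ) :=
            Real.rpow_le_rpow_of_exponent_le hn1' (by linarith)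
        _ = n := Real.rpow_one _
    have hlogm1 : 1 ≤ Real.log (m : ℝ) := by
      have h8 : (n : ℝ) ^ (1 / 8 : ℝ) ≤ m := by
        have h9 : (n : ℝ) ^ (1 / 8 : ℝ) * 2 ≤ (n : ℝ) ^ (3 / 4 : ℝ) := by
          calc (n : ℝ) ^ (1 / 8 : ℝ) * 2 ≤ (n : ℝ) ^ (5 / 8 : ℝ) * (n : ℝ) ^ (1 / 8 : ℝ) := by
                have := Real.rpow_le_rpow_of_exponent_le hn1' (show (1 / 8 : ℝ) ≤ 5 / 8 by norm_num)
                have := (hpos (1 / 8 : ℝ)).le
                gcongr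
            _ = (n : ℝ) ^ (3 / 4 : ℝ) := by rw [← Real.rpow_add hn0]; norm_num
        linarith
      have h9 : Real.log ((n : ℝ) ^ (1 / 8 : ℝ)) ≤ Real.log m := Real.log_le_log (hpos _) h8
      rw [Real.log_rpow hn0] at h9
      linarith
    calc (m : ℝ) * Real.log m ^ C1 ≤ E * Real.log m ^ |C1| := by
          have : Real.log (m : ℝ) ^ C1 ≤ Real.log m ^ |C1| :=
            Real.rpow_le_rpow_of_exponent_le hlogm1 (le_abs_self _)
          have h0 : 0 ≤ Real.log (m : ℝ) ^ C1 := Real.rpow_nonneg (by linarith) _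
          gcongr
      _ ≤ E * x ^ |C1| := by
          have : Real.log (m : ℝ) ^ |C1| ≤ x ^ |C1| :=
            Real.rpow_le_rpow (by linarith) hlogm (abs_nonneg _)
          gcongr
      _ ≤ E * F := by gcongr
  -- class 2
  have b2 : 2 * (T2.card : ℝ) ≤ E := by
    refine (h2 T2 (fun t ht' => ?_)).trans ?_
    · obtain ⟨hmT, hle⟩ := hmem2 t ht'
      exact ⟨(hT t hmT).1, (hT t hmT).2.1, hle⟩
    · rw [hE]
      apply Real.rpow_le_rpow_of_exponent_le hn1'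
      norm_num
      linarith
  have hEdiv : (n : ℝ) / (n : ℝ) ^ κ = E := by
    rw [hE, Real.rpow_sub hn0, Real.rpow_one]
  -- class 3
  have b3 : 2 * (T3.card : ℝ) ≤ E * F := by
    have key := h3 ((n : ℝ) ^ κ) (Real.one_le_rpow hn1' hκ0.le) T3 (by
      intro t ht'
      obtain ⟨hmT, hQ⟩ := hmem3 t ht'
      obtain ⟨hI, hrd, hht⟩ := hT t hmT
      exact ⟨hI, hrd, hht.trans hθn, hQ⟩)
    rw [hEdiv] at key
    exact key.trans (mul_le_mul_of_nonneg_left e3 hE0.le)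
  -- class 4
  have b4 : 2 * (T4.card : ℝ) ≤ E * F := by
    have key := h4 ((n : ℝ) ^ (2 * κ)) (Real.one_le_rpow hn1' (by positivity)) T4 (by
      intro t ht'
      obtain ⟨hmT, hQ⟩ := hmem4 t ht'
      obtain ⟨hI, hrd, hht⟩ := hT t hmT
      exact ⟨hI, hrd, hht.trans hθn, hQ⟩)
    have hs : Real.sqrt ((n : ℝ) ^ (2 * κ)) = (n : ℝ) ^ κ := by
      rw [Real.sqrt_eq_rpow, ← Real.rpow_mul hn0.le]
      congr 1
      ring
    rw [hs, hEdiv] at key
    exact key.trans (mul_le_mul_of_nonneg_left e4 hE0.le)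
  -- class 5
  have b5 : (T5.card : ℝ) ≤ E * F := by
    have key := h5 T5 (by
      intro t ht'
      obtain ⟨hmT, hb, hQ⟩ := hmem5 t ht'
      obtain ⟨hI, hrd, hht⟩ := hT t hmT
      exact ⟨hI, hrd, hht, hb, hQ⟩)
    refine key.trans ?_
    rw [hE, hF, ← Real.rpow_add hn0]
    apply Real.rpow_le_rpow_of_exponent_le hn1'
    linarith
  have hF1 : 1 ≤ F := Real.one_le_rpow hn1' (by positivity)
  have hEF : E ≤ E * F := by nlinarith
  have hfin : (n : ℝ) ^ (1 - κ + η) = E * F * F := by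
    rw [hE, hF, ← Real.rpow_add hn0, ← Real.rpow_add hn0]
    congr 1
    ring
  have hEF0 : 0 ≤ E * F := by positivity
  rw [hfin]
  calc 2 * (T.card : ℝ) ≤ 6 * (E * F) := by linarith
    _ ≤ F * (E * F) := mul_le_mul_of_nonneg_right e6 hEF0
    _ = E * F * F := by ring

end Pool.Agent.Lib.Pabc1
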