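import Mathlib

open Finset

namespace Pool.Agent.Lib.Pabc1

theorem sum_odd_sq_le (m : ℕ) :
    ∑ j ∈ Finset.range m, 1 / ((2 * (j : ℝ) + 3) ^ 2) ≤ 1 / 4 - 1 / (4 * ((m : ℝ) + 1)) := by
  induction m with
  | zero => norm_num
  | succ m ih =>
    rw [Finset.sum_range_succ]
    have hm : (0 : ℝ) ≤ m := Nat.cast_nonneg m
    have h1 : 1 / ((2 * (m : ℝ) + 3) ^ 2) ≤ 1 / (4 * ((m : ℝ) + 1)) - 1 / (4 * ((m : ℝ) + 1 + 1)) := by
      rw [div_sub_div _ _ (by positivity) (by positivity), div_le_div_iff₀ (by positivity)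
        (by positivity)]
      nlinarith
    push_cast
    linarith

theorem sum_prime_sq_le (m : ℕ) : ∑ p ∈ Nat.primesLE m, 1 / ((p : ℝ) ^ 2) ≤ 1 / 2 := by
  classical
  set O : Finset ℕ := (Finset.range m).image (fun j => 2 * j + 3) with hO
  have hsub : Nat.primesLE m ⊆ insert 2 O := by
    intro p hp
    rw [Nat.mem_primesLE] at hp
    obtain ⟨hpm, hp⟩ := hp
    rw [Finset.mem_insert, hO, Finset.mem_image]
    rcases hp.eq_two_or_odd' with h2 | hodd
    · left; exact h2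
    · right
      obtain ⟨k, hk⟩ := hodd
      have h2 := hp.two_le
      refine ⟨k - 1, ?_, ?_⟩
      · rw [Finset.mem_range]; omega
      · omega
  have h2O : (2 : ℕ) ∉ O := by
    intro h
    rw [hO, Finset.mem_image] at h
    obtain ⟨j, _, hj⟩ := h
    omega
  have h1 : ∑ p ∈ Nat.primesLE m, 1 / ((p : ℝ) ^ 2) ≤ ∑ p ∈ insert 2 O, 1 / ((p : ℝ) ^ 2) :=
    Finset.sum_le_sum_of_subset_of_nonneg hsub (fun p _ _ => by positivity)
  have h2 : ∑ p ∈ insert 2 O, 1 / ((p : ℝ) ^ 2) = 1 / 4 + ∑ p ∈ O, 1 / ((p : ℝ) ^ 2) := by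
    rw [Finset.sum_insert h2O]
    norm_num
  have h3 : ∑ p ∈ O, 1 / ((p : ℝ) ^ 2) = ∑ j ∈ Finset.range m, 1 / ((2 * (j : ℝ) + 3) ^ 2) := by
    rw [hO, Finset.sum_image (fun a _ b _ h => by omega)]
    apply Finset.sum_congr rfl
    intro j _
    push_cast
    rfl
  have h4 := sum_odd_sq_le m
  have h5 : (0 : ℝ) < 1 / (4 * ((m : ℝ) + 1)) := by positivity
  linarith

/-- The coprime pairs in a box. -/
def cop (m : ℕ) : Finset (ℕ × ℕ) :=
  ((Finset.Icc 1 m) ×ˢ (Finset.Icc 1 m)).filter (fun t => Nat.Coprime t.1 t.2)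

/-- At least half of the pairs are coprime. -/
theorem cop_card (m : ℕ) : (m : ℝ) ^ 2 / 2 ≤ (cop m).card := by
  classical
  set A : Finset (ℕ × ℕ) := (Finset.Icc 1 m) ×ˢ (Finset.Icc 1 m) with hA
  have hcardA : A.card = m ^ 2 := by
    rw [hA, Finset.card_product, Nat.card_Icc]
    simp [sq]
  have hsplit := Finset.card_filter_add_card_filter_not (s := A)
    (fun t : ℕ × ℕ => Nat.Coprime t.1 t.2)
  have hnon : A.filter (fun t => ¬ Nat.Coprime t.1 t.2) ⊆
      (Nat.primesLE m).biUnion (fun p =>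
        ((Finset.Icc 1 m).filter (fun a => p ∣ a)) ×ˢ ((Finset.Icc 1 m).filter (fun a => p ∣ a))) := by
    intro t ht
    rw [Finset.mem_filter, hA, Finset.mem_product] at ht
    obtain ⟨⟨h1, h2⟩, h3⟩ := ht
    obtain ⟨p, hp, hd1, hd2⟩ := Nat.Prime.not_coprime_iff_dvd.mp h3
    rw [Finset.mem_biUnion]
    refine ⟨p, ?_, ?_⟩
    · rw [Nat.mem_primesLE]
      have h4 := Finset.mem_Icc.mp h1
      exact ⟨(Nat.le_of_dvd (by omega) hd1).trans h4.2, hp⟩
    · rw [Finset.mem_product, Finset.mem_filter, Finset.mem_filter]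
      exact ⟨⟨h1, hd1⟩, ⟨h2, hd2⟩⟩
  have hcardp : ∀ p ∈ Nat.primesLE m, (((Finset.Icc 1 m).filter (fun a => p ∣ a)).card : ℝ) ≤
      (m : ℝ) / p := by
    intro p hp
    rw [Nat.mem_primesLE] at hp
    have h1 : ((Finset.Icc 1 m).filter (fun a => p ∣ a)).card = m / p := by
      have := Nat.Ioc_filter_dvd_card_eq_div m p
      rw [← this]
      congr 1
    rw [h1]
    exact Nat.cast_div_le
  have h1 : ((A.filter (fun t => ¬ Nat.Coprime t.1 t.2)).card : ℝ) ≤ (m : ℝ) ^ 2 / 2 := by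
    calc ((A.filter (fun t => ¬ Nat.Coprime t.1 t.2)).card : ℝ) ≤
        (((Nat.primesLE m).biUnion (fun p =>
        ((Finset.Icc 1 m).filter (fun a => p ∣ a)) ×ˢ
          ((Finset.Icc 1 m).filter (fun a => p ∣ a)))).card : ℝ) := by
          exact_mod_cast Finset.card_le_card hnon
      _ ≤ ∑ p ∈ Nat.primesLE m, ((((Finset.Icc 1 m).filter (fun a => p ∣ a)) ×ˢ
          ((Finset.Icc 1 m).filter (fun a => p ∣ a))).card : ℝ) := by
          exact_mod_cast Finset.card_biUnion_le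
      _ ≤ ∑ p ∈ Nat.primesLE m, (m : ℝ) ^ 2 * (1 / ((p : ℝ) ^ 2)) := by
          apply Finset.sum_le_sum
          intro p hp
          have h2 := hcardp p hp
          rw [Finset.card_product]
          push_cast
          calc (((Finset.Icc 1 m).filter (fun a => p ∣ a)).card : ℝ) *
              ((Finset.Icc 1 m).filter (fun a => p ∣ a)).card ≤ (m : ℝ) / p * ((m : ℝ) / p) := by
                gcongr
            _ = (m : ℝ) ^ 2 * (1 / ((p : ℝ) ^ 2)) := by ring
      _ = (m : ℝ) ^ 2 * ∑ p ∈ Nat.primesLE m, 1 / ((p : ℝ) ^ 2) := by rw [Finset.mul_sum]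
      _ ≤ (m : ℝ) ^ 2 * (1 / 2) := by
          apply mul_le_mul_of_nonneg_left (sum_prime_sq_le m)
          positivity
      _ = (m : ℝ) ^ 2 / 2 := by ring
  have h2 : ((cop m).card : ℝ) + ((A.filter (fun t => ¬ Nat.Coprime t.1 t.2)).card : ℝ) =
      (m : ℝ) ^ 2 := by
    unfold cop
    rw [← hA]
    rw [hcardA] at hsplit
    exact_mod_cast hsplit
  linarith

end Pool.Agent.Lib.Pabc1
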